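import Pool.Agent.T9h3.Wrg
import Pool.Agent.Y223.G.AllW
import Pool.Agent.Y223.G.AllP
import Pool.Agent.Y363.G.Ram1

/-!
# Tori over number fields: the wild inertia groups
-/

set_option autoImplicit false
set_option linter.unusedSectionVars false

namespace Pool.Agent.T9h3

open Pool.Agent.Y223.G Pool.Agent.R383.TM NumberField

section ww

variable {K Λ : Type} [Field K] [AddCommGroup Λ] {χ : Λ → K} {p : ℕ} {Δ : Set Λ}

lemma WW_s {σ : K →+* K} {s : Module.End ℤ Λ} (hs : s ^ p = 1) (hσ : ∀ x, σ (χ x) = χ (s x))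
    (hΔ : ∀ m ∈ Δ, s m ∈ Δ) (k : ℕ) {u : K} (hu : u ∈ WW χ σ p s Δ k) : σ u ∈ WW χ σ p s Δ k := by
  have h1 := WW_anti hs hσ hΔ k (WW_d hs hσ hΔ k hu)
  have h2 := Submodule.add_mem _ h1 hu
  rw [dK_apply, sub_add_cancel] at h2
  exact h2

/-- The filtrations of a power of the automorphism. -/
lemma WW_power {σ σ' : K →+* K} {s s' : Module.End ℤ Λ} (hs : s ^ p = 1)
    (hσ : ∀ x, σ (χ x) = χ (s x)) (hΔ : ∀ m ∈ Δ, s m ∈ Δ)
    (htf : ∀ x : Λ, (p : ℤ) • x = 0 → x = 0) (a : ℕ) (hsa : s' = s ^ a)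
    (hσa : ∀ x, σ' x = (sK σ ^ a) x) (k : ℕ) {u : K} (hu : u ∈ WW χ σ' p s' Δ k) :
    u ∈ WW χ σ p s Δ k := by
  rcases k with _ | k
  · exact hu
  · have h1 : ∀ u ∈ W1 χ p s' Δ, u ∈ W1 χ p s Δ := by
      intro u hu
      refine Submodule.span_mono ?_ hu
      rintro x ⟨m, hm, m', hm', hN, rfl⟩
      refine ⟨m, hm, m', hm', ?_, rfl⟩
      have h2 : ∀ x, Nm p s (Nm p s' x) = (p : ℤ) • Nm p s x := by
        intro x
        have h3 : Nm p s' x = ∑ i ∈ Finset.range p, (s' ^ i) x := by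
          unfold Nm
          rw [LinearMap.sum_apply]
        rw [h3, map_sum]
        have h4 : ∀ i ∈ Finset.range p, Nm p s ((s' ^ i) x) = Nm p s x := by
          intro i _
          rw [hsa, ← pow_mul, Nm_pow hs]
        rw [Finset.sum_congr rfl h4, Finset.sum_const, Finset.card_range, natCast_zsmul]
      have h3 : (p : ℤ) • (Nm p s m - Nm p s m') = 0 := by
        rw [smul_sub, ← h2, ← h2, hN, sub_self]
      exact sub_eq_zero.1 (htf _ h3)
    have h2 : ∀ (k : ℕ) (u : K), u ∈ WW χ σ p s Δ k → dK σ' u ∈ WW χ σ p s Δ (k + 1) := by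
      intro k u hu
      have h3 : ∀ n : ℕ, (sK σ ^ n) u - u ∈ WW χ σ p s Δ (k + 1) := by
        intro n
        induction n with
        | zero => rw [pow_zero, Module.End.one_apply, sub_self]; exact Submodule.zero_mem _
        | succ n ih =>
          have h4 : (sK σ ^ (n + 1)) u - u = σ ((sK σ ^ n) u - u) + (σ u - u) := by
            rw [pow_succ', Module.End.mul_apply, sK_apply, map_sub]
            ring
          rw [h4]
          exact Submodule.add_mem _ (WW_s hs hσ hΔ _ ih) (WW_d hs hσ hΔ k hu)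
      rw [dK_apply, hσa]
      exact h3 a
    obtain ⟨w, hw, rfl⟩ := hu
    have h3 : ∀ k : ℕ, (dK σ' ^ k) w ∈ WW χ σ p s Δ (k + 1) := by
      intro k
      induction k with
      | zero => rw [pow_zero, Module.End.one_apply]; exact WW_one.2 (h1 w hw)
      | succ k ih =>
        rw [pow_succ', Module.End.mul_apply]
        exact h2 _ _ ih
    exact h3 k

/-- The filtrations of a conjugate of the automorphism. -/
lemma WW_conj {σ σ' η : K →+* K} {s s' r : Module.End ℤ Λ}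
    (hη : ∀ x, η (χ x) = χ (r x)) (hΔ : ∀ m ∈ Δ, r m ∈ Δ) (hsr : s' * r = r * s)
    (hσr : ∀ x, σ' (η x) = η (σ x)) (k : ℕ) {u : K} (hu : u ∈ WW χ σ p s Δ k) :
    η u ∈ WW χ σ' p s' Δ k := by
  rcases k with _ | k
  · change u ∈ Submodule.span ℤ (χ '' Δ) at hu
    change η u ∈ Submodule.span ℤ (χ '' Δ)
    induction hu using Submodule.span_induction with
    | mem x hx =>
      obtain ⟨m, hm, rfl⟩ := hx
      rw [hη]
      exact Submodule.subset_span ⟨r m, hΔ m hm, rfl⟩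
    | zero => rw [map_zero]; exact Submodule.zero_mem _
    | add x y _ _ hx hy => rw [map_add]; exact Submodule.add_mem _ hx hy
    | smul c x _ hx =>
      rw [zsmul_eq_mul, map_mul, map_intCast, ← zsmul_eq_mul]
      exact Submodule.smul_mem _ _ hx
  · have hpw : ∀ i : ℕ, s' ^ i * r = r * s ^ i := by
      intro i
      induction i with
      | zero => rw [pow_zero, pow_zero, one_mul, mul_one]
      | succ i ih => rw [pow_succ, mul_assoc, hsr, ← mul_assoc, ih, mul_assoc, ← pow_succ]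
    have hN : ∀ x, Nm p s' (r x) = r (Nm p s x) := by
      intro x
      unfold Nm
      rw [LinearMap.sum_apply, LinearMap.sum_apply, map_sum]
      refine Finset.sum_congr rfl fun i _ => ?_
      have := congrArg (fun f : Module.End ℤ Λ => f x) (hpw i)
      exact this
    have h1 : ∀ u ∈ W1 χ p s Δ, η u ∈ W1 χ p s' Δ := by
      intro u hu
      unfold W1 at hu
      induction hu using Submodule.span_induction with
      | mem x hx =>
        obtain ⟨m, hm, m', hm', hNm, rfl⟩ := hx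
        rw [map_sub, hη, hη]
        exact Submodule.subset_span ⟨r m, hΔ m hm, r m', hΔ m' hm', by rw [hN, hN, hNm], rfl⟩
      | zero => rw [map_zero]; exact Submodule.zero_mem _
      | add x y _ _ hx hy => rw [map_add]; exact Submodule.add_mem _ hx hy
      | smul c x _ hx =>
        rw [zsmul_eq_mul, map_mul, map_intCast, ← zsmul_eq_mul]
        exact Submodule.smul_mem _ _ hx
    obtain ⟨w, hw, rfl⟩ := hu
    refine ⟨η w, h1 w hw, ?_⟩
    have h2 : ∀ k : ℕ, (dK σ' ^ k) (η w) = η ((dK σ ^ k) w) := by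
      intro k
      induction k with
      | zero => rfl
      | succ k ih =>
        rw [pow_succ', Module.End.mul_apply, ih, pow_succ', Module.End.mul_apply, dK_apply,
          dK_apply, hσr, map_sub]
    exact h2 k

end ww

section nf

variable {E M K Λ : Type} [Field E] [NumberField E] [Field M] [NumberField M]
  [Algebra E M] [Field K] [Algebra M K] [Algebra E K] [IsScalarTower E M K]
  [AddCommGroup Λ] [DistribMulAction (M ≃ₐ[E] M) Λ]

/-- The action on the lattice. -/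
def sA (Λ : Type) [AddCommGroup Λ] {G : Type} [Group G] [DistribMulAction G Λ] (g : G) :
    Module.End ℤ Λ := (DistribSMul.toAddMonoidHom Λ g).toIntLinearMap

lemma sA_apply {G : Type} [Group G] [DistribMulAction G Λ] (g : G) (x : Λ) :
    sA Λ g x = g • x := rfl

lemma sA_one {G : Type} [Group G] [DistribMulAction G Λ] : sA Λ (1 : G) = 1 := by
  ext x
  rw [sA_apply, one_smul]
  rfl

lemma sA_mul {G : Type} [Group G] [DistribMulAction G Λ] (g h : G) :
    sA Λ (g * h) = sA Λ g * sA Λ h := by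
  ext x
  rw [sA_apply, mul_smul]
  rfl

lemma sA_pow {G : Type} [Group G] [DistribMulAction G Λ] (g : G) (n : ℕ) :
    sA Λ (g ^ n) = sA Λ g ^ n := by
  induction n with
  | zero => rw [pow_zero, pow_zero, sA_one]
  | succ n ih => rw [pow_succ, pow_succ, sA_mul, ih]

/-- The ring homomorphisms. -/
def rh (ρ : (M ≃ₐ[E] M) →* (K ≃ₐ[E] K)) (g : M ≃ₐ[E] M) : K →+* K :=
  ((ρ g).toRingEquiv : K ≃+* K).toRingHom

lemma rh_apply (ρ : (M ≃ₐ[E] M) →* (K ≃ₐ[E] K)) (g : M ≃ₐ[E] M) (x : K) : rh ρ g x = ρ g x := rfl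

lemma rh_pow (ρ : (M ≃ₐ[E] M) →* (K ≃ₐ[E] K)) (g : M ≃ₐ[E] M) (n : ℕ) (x : K) :
    rh ρ (g ^ n) x = (sK (rh ρ g) ^ n) x := by
  induction n with
  | zero => rw [pow_zero, pow_zero, rh_apply, map_one]; rfl
  | succ n ih =>
    rw [pow_succ', pow_succ', Module.End.mul_apply, ← ih, rh_apply, map_mul]
    rfl

/-- The ring homomorphisms of the base. -/
noncomputable def th' (E : Type) {M : Type} [Field E] [NumberField E] [Field M] [NumberField M]
    [Algebra E M] (g : M ≃ₐ[E] M) : 𝓞 M →+* 𝓞 M :=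
  ((TT E M g).toRingEquiv : 𝓞 M ≃+* 𝓞 M).toRingHom

lemma th'_apply (g : M ≃ₐ[E] M) (x : 𝓞 M) : th' E g x = TT E M g x := rfl

/-- The data of the torus. -/
structure TS (ρ : (M ≃ₐ[E] M) →* (K ≃ₐ[E] K)) (χ : Λ → K) (Δ : Set Λ) : Prop where
  hρ : ∀ g c, ρ g (algebraMap M K c) = algebraMap M K (g c)
  hin : ∀ 𝔓 : Ideal (𝓞 M), 𝔓.IsMaximal → ∀ p : ℕ, p.Prime → (p : 𝓞 M) ∈ 𝔓 →
      ¬ p ^ 2 ∣ Nat.card (inert E 𝔓)
  χ0 : χ 0 = 1
  χa : ∀ x y, χ (x + y) = χ x * χ y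
  lin : LinearIndependent M χ
  act : ∀ g x, ρ g (χ x) = χ (g • x)
  fin : Δ.Finite
  st : ∀ g : M ≃ₐ[E] M, ∀ x ∈ Δ, g • x ∈ Δ
  cv : ∀ g : M ≃ₐ[E] M, CV (orderOf g) (sA Λ g) Δ
  cv0 : CV0 Δ
  ne : Δ.Nonempty

variable {ρ : (M ≃ₐ[E] M) →* (K ≃ₐ[E] K)} {χ : Λ → K} {Δ : Set Λ}

lemma TS.linO (S : TS ρ χ Δ) : LinearIndependent (𝓞 M) χ := by
  refine S.lin.restrict_scalars ?_
  intro a b h
  change a • (1 : M) = b • (1 : M) at h
  rw [Algebra.smul_def, Algebra.smul_def, mul_one, mul_one] at h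
  exact RingOfIntegers.coe_injective h

lemma isW_mem {𝔓 : Ideal (𝓞 M)} {g : M ≃ₐ[E] M} (h : IsW E 𝔓 g) :
    (∀ o, TT E M g o - o ∈ 𝔓) ∧ ∀ o ∈ 𝔓, TT E M g o - o ∈ 𝔓 ^ 2 := by
  obtain ⟨-, h1, h2⟩ := h
  constructor
  · intro o
    obtain ⟨a, ha, h3⟩ := h1 o
    have h4 : a = TT E M g o - o := by
      apply RingOfIntegers.coe_injective
      exact h3
    rwa [← h4]
  · intro o ho
    obtain ⟨a, ha, h3⟩ := h2 o ho
    have h4 : a = TT E M g o - o := by
      apply RingOfIntegers.coe_injective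
      exact h3
    rwa [← h4]

/-- The wild inertia groups are cyclic of prime order. -/
lemma TS.cyc [IsGalois E M] (S : TS ρ χ Δ) {𝔓 : Ideal (𝓞 M)} (h𝔓 : 𝔓.IsMaximal)
    {g : M ≃ₐ[E] M} (hg : IsW E 𝔓 g) : (orderOf g).Prime ∧
      ∀ g', IsW E 𝔓 g' → ∃ a : ℕ, g' = g ^ a := by
  have hne : 𝔓 ≠ ⊥ := Ring.ne_bot_of_isMaximal_of_not_isField h𝔓 (RingOfIntegers.not_isField M)
  have hG := ge_of Pool.Agent.Y223.G.all_TAMC ρ S.hρ S.hin
  obtain ⟨p, τ, hp, hτ, hinr⟩ := hG.inr 𝔓 h𝔓 hne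
  have h1 : ∀ g, IsW E 𝔓 g → g ∈ Subgroup.zpowers τ := fun g hg => hinr g (isW_mem hg).1 (isW_mem hg).2
  have hgp : g ^ p = 1 := by
    obtain ⟨n, hn⟩ := h1 g hg
    have hn' : τ ^ n = g := hn
    rw [← hn', ← zpow_natCast, ← zpow_mul, mul_comm, zpow_mul, zpow_natCast, hτ, one_zpow]
  have ho : orderOf g = p := by
    have := Fact.mk hp
    exact orderOf_eq_prime hgp hg.1
  have hle : Subgroup.zpowers g ≤ Subgroup.zpowers τ := by
    rw [Subgroup.zpowers_le]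
    exact h1 g hg
  have heq : Subgroup.zpowers g = Subgroup.zpowers τ := by
    apply Subgroup.eq_of_le_of_card_ge hle
    rw [Nat.card_zpowers, Nat.card_zpowers, ho]
    exact Nat.le_of_dvd hp.pos (orderOf_dvd_of_pow_eq_one hτ)
  refine ⟨ho ▸ hp, fun g' hg' => ?_⟩
  have h2 := h1 g' hg'
  rw [← heq, ← mem_powers_iff_mem_zpowers] at h2
  obtain ⟨a, ha⟩ := h2
  exact ⟨a, ha.symm⟩

/-- The ramification data. -/
lemma TS.td [IsGalois E M] (S : TS ρ χ Δ) {𝔓 : Ideal (𝓞 M)} (h𝔓 : 𝔓.IsMaximal)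
    {g : M ≃ₐ[E] M} (hg : IsW E 𝔓 g) :
    ∃ l, TD (𝓞 M) K Λ (orderOf g) (rh ρ g) (th' E g) (sA Λ g) χ 𝔓 l := by
  have hne : 𝔓 ≠ ⊥ := Ring.ne_bot_of_isMaximal_of_not_isField h𝔓 (RingOfIntegers.not_isField M)
  have hG := ge_of Pool.Agent.Y223.G.all_TAMC ρ S.hρ S.hin
  obtain ⟨hp, -⟩ := S.cyc h𝔓 hg
  obtain ⟨l, h1, h2, h3, h4⟩ := Pool.Agent.Y71.H.ram1E Pool.Agent.Y363.G.t_RAM1 hG hp
    (pow_orderOf_eq_one g) hg.1 h𝔓 hne (isW_mem hg).1
  refine ⟨l, ⟨hp, S.χ0, S.χa, S.linO, S.act g, fun o => S.hρ g (o : M), ?_, h𝔓, hne, ?_, h1, h2,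
    h3⟩⟩
  · rw [← sA_pow, pow_orderOf_eq_one, sA_one]
  · by_contra hl
    have hl0 : l = 0 := by omega
    subst hl0
    obtain ⟨π, hπ, h5⟩ := h2
    exact h5 ((isW_mem hg).2 π hπ)

end nf

end Pool.Agent.T9h3
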