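import Pool.Agent.T9h3.AsmA

/-!
# Tori over number fields: the weights
-/

set_option autoImplicit false
set_option linter.unusedSectionVars false

namespace Pool.Agent.T9h3

open Pool.Agent.Y223.G Pool.Agent.R383.TM NumberField

section zw

variable {O K Λ : Type} [CommRing O] [Field K]
  [Algebra O K] [AddCommGroup Λ] {χ : Λ → K}
  {p : ℕ} {σ σ' : K →+* K} {s s' : Module.End ℤ Λ} {l : ℕ} {Δ : Set Λ} {m : ℕ}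
  {z : Fin (m + 1) → K} {W κ : Fin (m + 1) → ℕ}

lemma ZW.change (Z : ZW χ σ p s l Δ z W κ)
    (h : ∀ k u, u ∈ WW χ σ p s Δ k ↔ u ∈ WW χ σ' p s' Δ k) : ZW χ σ' p s' l Δ z W κ :=
  ⟨Z.z0, Z.kp, fun i => (h _ _).1 (Z.zw i), Z.eq, fun k hk u hu => Z.sp k hk ((h _ _).2 hu)⟩

end zw

section nf

variable {E M K Λ : Type} [Field E] [NumberField E] [Field M] [NumberField M]
  [Algebra E M] [Field K] [Algebra M K] [Algebra E K] [IsScalarTower E M K]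
  [AddCommGroup Λ] [DistribMulAction (M ≃ₐ[E] M) Λ]
  {ρ : (M ≃ₐ[E] M) →* (K ≃ₐ[E] K)} {χ : Λ → K} {Δ : Set Λ}

/-- The filtration of an element. -/
noncomputable abbrev WG (ρ : (M ≃ₐ[E] M) →* (K ≃ₐ[E] K)) (χ : Λ → K) (Δ : Set Λ)
    (g : M ≃ₐ[E] M) (k : ℕ) : Submodule ℤ K := WW χ (rh ρ g) (orderOf g) (sA Λ g) Δ k

lemma TS.sp (S : TS ρ χ Δ) (g : M ≃ₐ[E] M) : sA Λ g ^ orderOf g = 1 := by
  rw [← sA_pow, pow_orderOf_eq_one, sA_one]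

lemma TS.tf (S : TS ρ χ Δ) (n : ℕ) (hn : n ≠ 0) (x : Λ) (hx : (n : ℤ) • x = 0) : x = 0 := by
  obtain ⟨m, hm⟩ := S.ne
  obtain ⟨T, hT0, hT, -⟩ := S.cv0 m hm
  obtain ⟨v, hv⟩ := Multiset.exists_mem_of_ne_zero hT0
  obtain ⟨ι, _, b, hc⟩ := hT v hv
  apply b.repr.injective
  ext i
  have h6 := congrArg (fun y => b.repr y i) hx
  simp only [map_smul, Finsupp.smul_apply, smul_eq_mul, map_zero, Finsupp.zero_apply] at h6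
  rw [map_zero, Finsupp.zero_apply]
  have hn' : (n : ℤ) ≠ 0 := by exact_mod_cast hn
  exact (mul_eq_zero.1 h6).resolve_left hn'

/-- The filtrations of the elements of the wild inertia group agree. -/
lemma TS.wg [IsGalois E M] (S : TS ρ χ Δ) {𝔓 : Ideal (𝓞 M)} (h𝔓 : 𝔓.IsMaximal)
    {g g' : M ≃ₐ[E] M} (hg : IsW E 𝔓 g) (hg' : IsW E 𝔓 g') :
    orderOf g = orderOf g' ∧ ∀ k u, u ∈ WG ρ χ Δ g k ↔ u ∈ WG ρ χ Δ g' k := by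
  obtain ⟨hp, h1⟩ := S.cyc h𝔓 hg
  obtain ⟨hp', h1'⟩ := S.cyc h𝔓 hg'
  obtain ⟨a, ha⟩ := h1 g' hg'
  obtain ⟨a', ha'⟩ := h1' g hg
  have ho : orderOf g = orderOf g' := by
    have := Fact.mk hp
    symm
    refine orderOf_eq_prime ?_ hg'.1
    rw [ha, ← pow_mul, mul_comm, pow_mul, pow_orderOf_eq_one, one_pow]
  refine ⟨ho, fun k u => ⟨fun hu => ?_, fun hu => ?_⟩⟩
  · refine WW_power (S.sp g') (S.act g') (S.st g') (fun x hx => S.tf _ hp'.ne_zero x hx) a'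
      (σ' := rh ρ g) (s' := sA Λ g) ?_ ?_ k ?_
    · conv_lhs => rw [ha']
      rw [sA_pow]
    · intro x
      conv_lhs => rw [ha']
      rw [rh_pow]
    · rw [← ho]; exact hu
  · refine WW_power (S.sp g) (S.act g) (S.st g) (fun x hx => S.tf _ hp.ne_zero x hx) a
      (σ' := rh ρ g') (s' := sA Λ g') ?_ ?_ k ?_
    · conv_lhs => rw [ha]
      rw [sA_pow]
    · intro x
      conv_lhs => rw [ha]
      rw [rh_pow]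
    · rw [ho]; exact hu

/-- The depth. -/
def DV (E : Type) {M : Type} [Field E] [NumberField E] [Field M] [NumberField M] [Algebra E M]
    (𝔓 : Ideal (𝓞 M)) (g : M ≃ₐ[E] M) (n : ℕ) : Prop := ∀ o, TT E M g o - o ∈ 𝔓 ^ n

lemma DV_pow {𝔓 : Ideal (𝓞 M)} {g : M ≃ₐ[E] M} {n : ℕ} (h : DV E 𝔓 g n) (a : ℕ) :
    DV E 𝔓 (g ^ a) n := by
  induction a with
  | zero =>
    intro o
    rw [pow_zero, map_one]
    change o - o ∈ _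
    rw [sub_self]
    exact Ideal.zero_mem _
  | succ a ih =>
    intro o
    have h1 : TT E M (g ^ (a + 1)) o - o = (TT E M g (TT E M (g ^ a) o) - TT E M (g ^ a) o) +
        (TT E M (g ^ a) o - o) := by
      rw [pow_succ', map_mul]
      change TT E M g (TT E M (g ^ a) o) - o = _
      ring
    rw [h1]
    exact Ideal.add_mem _ (h _) (ih o)

lemma DV_iff {𝔓 : Ideal (𝓞 M)} {g : M ≃ₐ[E] M} {p l : ℕ} {σ : K →+* K} {s : Module.End ℤ Λ}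
    (h : TD (𝓞 M) K Λ p σ (th' E g) s χ 𝔓 l) (n : ℕ) : DV E 𝔓 g n ↔ n ≤ l + 1 := by
  constructor
  · intro h1
    by_contra hcon
    obtain ⟨π, hπ, h2⟩ := h.un
    exact h2 (Ideal.pow_le_pow_right (by omega) (h1 π))
  · intro h1 o
    exact Ideal.pow_le_pow_right h1 (h.dv o)

/-- The depths of the elements of the wild inertia group agree. -/
lemma TS.dvg [IsGalois E M] (S : TS ρ χ Δ) {𝔓 : Ideal (𝓞 M)} (h𝔓 : 𝔓.IsMaximal)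
    {g g' : M ≃ₐ[E] M} (hg : IsW E 𝔓 g) (hg' : IsW E 𝔓 g') (n : ℕ) : DV E 𝔓 g n ↔ DV E 𝔓 g' n := by
  obtain ⟨-, h1⟩ := S.cyc h𝔓 hg
  obtain ⟨-, h1'⟩ := S.cyc h𝔓 hg'
  obtain ⟨a, ha⟩ := h1 g' hg'
  obtain ⟨a', ha'⟩ := h1' g hg
  constructor
  · intro h
    rw [ha]
    exact DV_pow h a
  · intro h
    rw [ha']
    exact DV_pow h a'

lemma TS.leq [IsGalois E M] (S : TS ρ χ Δ) {𝔓 : Ideal (𝓞 M)} (h𝔓 : 𝔓.IsMaximal)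
    {g g' : M ≃ₐ[E] M} (hg : IsW E 𝔓 g) (hg' : IsW E 𝔓 g') {l l' : ℕ}
    (h : TD (𝓞 M) K Λ (orderOf g) (rh ρ g) (th' E g) (sA Λ g) χ 𝔓 l)
    (h' : TD (𝓞 M) K Λ (orderOf g') (rh ρ g') (th' E g') (sA Λ g') χ 𝔓 l') : l = l' := by
  have h1 := (DV_iff h' (l + 1)).1 ((S.dvg h𝔓 hg hg' _).1 ((DV_iff h (l + 1)).2 le_rfl))
  have h2 := (DV_iff h (l' + 1)).1 ((S.dvg h𝔓 hg hg' _).2 ((DV_iff h' (l' + 1)).2 le_rfl))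
  omega

open Classical in
/-- The chosen element of the wild inertia group. -/
noncomputable def g0 (E : Type) {M : Type} [Field E] [Field M] [Algebra E M]
    (𝔓 : Ideal (𝓞 M)) : M ≃ₐ[E] M :=
  if h : ∃ g, IsW E 𝔓 g then h.choose else 1

lemma g0_spec {𝔓 : Ideal (𝓞 M)} {g : M ≃ₐ[E] M} (hg : IsW E 𝔓 g) : IsW E 𝔓 (g0 E 𝔓) := by
  unfold g0
  rw [dif_pos ⟨g, hg⟩]
  exact (⟨g, hg⟩ : ∃ g, IsW E 𝔓 g).choose_spec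

open Classical in
/-- The chosen depth. -/
noncomputable def l0 (ρ : (M ≃ₐ[E] M) →* (K ≃ₐ[E] K)) (χ : Λ → K) (𝔓 : Ideal (𝓞 M)) : ℕ :=
  if h : ∃ l, TD (𝓞 M) K Λ (orderOf (g0 E 𝔓)) (rh ρ (g0 E 𝔓)) (th' E (g0 E 𝔓))
    (sA Λ (g0 E 𝔓)) χ 𝔓 l then h.choose else 0

lemma TS.l0_spec [IsGalois E M] (S : TS ρ χ Δ) {𝔓 : Ideal (𝓞 M)} (h𝔓 : 𝔓.IsMaximal)
    {g : M ≃ₐ[E] M} (hg : IsW E 𝔓 g) :
    TD (𝓞 M) K Λ (orderOf (g0 E 𝔓)) (rh ρ (g0 E 𝔓)) (th' E (g0 E 𝔓)) (sA Λ (g0 E 𝔓)) χ 𝔓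
      (l0 ρ χ 𝔓) := by
  have h := S.td h𝔓 (g0_spec hg)
  unfold l0
  rw [dif_pos h]
  exact h.choose_spec

lemma TS.l0_spec' [IsGalois E M] (S : TS ρ χ Δ) {𝔓 : Ideal (𝓞 M)} (h𝔓 : 𝔓.IsMaximal)
    {g : M ≃ₐ[E] M} (hg : IsW E 𝔓 g) :
    TD (𝓞 M) K Λ (orderOf g) (rh ρ g) (th' E g) (sA Λ g) χ 𝔓 (l0 ρ χ 𝔓) := by
  obtain ⟨l, hl⟩ := S.td h𝔓 hg
  rw [S.leq h𝔓 (g0_spec hg) hg (S.l0_spec h𝔓 hg) hl]
  exact hl

open Classical in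
/-- The levels of the coordinates. -/
noncomputable def kap (ρ : (M ≃ₐ[E] M) →* (K ≃ₐ[E] K)) (χ : Λ → K) (Δ : Set Λ) {m : ℕ}
    (z : Fin (m + 1) → K) (𝔓 : Ideal (𝓞 M)) (i : Fin (m + 1)) : ℕ :=
  Nat.findGreatest (fun k => z i ∈ WG ρ χ Δ (g0 E 𝔓) k) (orderOf (g0 E 𝔓) - 1)

/-- The weights of the coordinates. -/
noncomputable def wei (ρ : (M ≃ₐ[E] M) →* (K ≃ₐ[E] K)) (χ : Λ → K) (Δ : Set Λ) {m : ℕ}
    (z : Fin (m + 1) → K) (𝔓 : Ideal (𝓞 M)) (i : Fin (m + 1)) : ℕ :=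
  kap ρ χ Δ z 𝔓 i * l0 ρ χ 𝔓

/-- The coordinates. -/
structure ZG (ρ : (M ≃ₐ[E] M) →* (K ≃ₐ[E] K)) (χ : Λ → K) (Δ : Set Λ) {m : ℕ}
    (z : Fin (m + 1) → K) : Prop where
  z0 : ∀ i, z i ≠ 0
  zs : ∀ i, z i ∈ Submodule.span ℤ (χ '' Δ)
  sp : ∀ (g : M ≃ₐ[E] M) (k : ℕ), k ≤ orderOf g → WG ρ χ Δ g k ≤
    Submodule.span ℤ {y | ∃ i, z i ∈ WG ρ χ Δ g k ∧ y = z i}

variable {m : ℕ} {z : Fin (m + 1) → K}

lemma ZG.zw (Z : ZG ρ χ Δ z) (𝔓 : Ideal (𝓞 M)) :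
    ZW χ (rh ρ (g0 E 𝔓)) (orderOf (g0 E 𝔓)) (sA Λ (g0 E 𝔓)) (l0 ρ χ 𝔓) Δ z (wei ρ χ Δ z 𝔓)
      (kap ρ χ Δ z 𝔓) := by
  classical
  refine ⟨Z.z0, fun i => Nat.findGreatest_le _, fun i => ?_, fun i => rfl, fun k hk => ?_⟩
  · unfold kap
    exact Nat.findGreatest_spec (P := fun k => z i ∈ WG ρ χ Δ (g0 E 𝔓) k)
      (Nat.zero_le (orderOf (g0 E 𝔓) - 1)) (Z.zs i)
  · refine (Z.sp (g0 E 𝔓) k (by omega)).trans (Submodule.span_mono ?_)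
    rintro y ⟨i, hi, rfl⟩
    refine ⟨i, ?_, rfl⟩
    unfold kap
    exact Nat.le_findGreatest hk hi

lemma ZG.zw' [IsGalois E M] (S : TS ρ χ Δ) (Z : ZG ρ χ Δ z) {𝔓 : Ideal (𝓞 M)}
    (h𝔓 : 𝔓.IsMaximal) {g : M ≃ₐ[E] M} (hg : IsW E 𝔓 g) :
    ZW χ (rh ρ g) (orderOf g) (sA Λ g) (l0 ρ χ 𝔓) Δ z (wei ρ χ Δ z 𝔓) (kap ρ χ Δ z 𝔓) := by
  obtain ⟨h1, h2⟩ := S.wg h𝔓 (g0_spec hg) hg
  have h3 := Z.zw 𝔓
  have h4 : ∀ p, orderOf (g0 E 𝔓) = p →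
      (∀ k u, u ∈ WG ρ χ Δ (g0 E 𝔓) k ↔ u ∈ WW χ (rh ρ g) p (sA Λ g) Δ k) →
      ZW χ (rh ρ g) p (sA Λ g) (l0 ρ χ 𝔓) Δ z (wei ρ χ Δ z 𝔓) (kap ρ χ Δ z 𝔓) := by
    rintro p rfl h
    exact h3.change h
  exact h4 _ h1 h2

/-- The ideals are conjugate. -/
lemma isCj_pow {h : M ≃ₐ[E] M} {𝔓 𝔓' : Ideal (𝓞 M)} (hh : IsCj h 𝔓 𝔓') (n : ℕ) (o : 𝓞 M) :
    o ∈ 𝔓 ^ n ↔ TT E M h o ∈ 𝔓' ^ n := by
  have h1 : ∀ o : 𝓞 M, o ∈ 𝔓 ↔ TT E M h o ∈ 𝔓' := fun o => hh o (TT E M h o) rfl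
  have h2 : 𝔓' = 𝔓.map (TT E M h : 𝓞 M ≃+* 𝓞 M) := by
    ext o
    rw [Ideal.mem_map_of_equiv]
    constructor
    · intro ho
      refine ⟨(TT E M h).symm o, (h1 _).2 ?_, ?_⟩
      · rwa [AlgEquiv.apply_symm_apply]
      · exact AlgEquiv.apply_symm_apply _ _
    · rintro ⟨x, hx, rfl⟩
      exact (h1 _).1 hx
  have h3 : 𝔓' ^ n = (𝔓 ^ n).map (TT E M h : 𝓞 M ≃+* 𝓞 M) := by rw [h2, Ideal.map_pow]
  rw [h3, Ideal.mem_map_of_equiv]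
  constructor
  · intro ho
    exact ⟨o, ho, rfl⟩
  · rintro ⟨x, hx, hxo⟩
    have : x = o := (TT E M h).injective hxo
    rwa [← this]

lemma TT_conj (h g : M ≃ₐ[E] M) (o : 𝓞 M) : TT E M (h * g * h⁻¹) o =
    TT E M h (TT E M g (TT E M h⁻¹ o)) := by
  rw [map_mul, map_mul]
  rfl

lemma TT_inv (h : M ≃ₐ[E] M) (o : 𝓞 M) : TT E M h (TT E M h⁻¹ o) = o := by
  have h1 : TT E M (h * h⁻¹) o = o := by rw [mul_inv_cancel, map_one]; rfl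
  rw [map_mul] at h1
  exact h1

lemma DV_conj {h g : M ≃ₐ[E] M} {𝔓 𝔓' : Ideal (𝓞 M)} (hh : IsCj h 𝔓 𝔓') {n : ℕ}
    (hg : DV E 𝔓 g n) : DV E 𝔓' (h * g * h⁻¹) n := by
  intro o
  have h1 := (isCj_pow hh n _).1 (hg (TT E M h⁻¹ o))
  rw [map_sub, TT_inv, ← TT_conj] at h1
  exact h1

lemma isW_iff {𝔓 : Ideal (𝓞 M)} {g : M ≃ₐ[E] M} : IsW E 𝔓 g ↔
    g ≠ 1 ∧ (∀ o, TT E M g o - o ∈ 𝔓) ∧ ∀ o ∈ 𝔓, TT E M g o - o ∈ 𝔓 ^ 2 := by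
  constructor
  · intro h
    exact ⟨h.1, isW_mem h⟩
  · rintro ⟨h1, h2, h3⟩
    exact ⟨h1, fun o => ⟨_, h2 o, rfl⟩, fun o ho => ⟨_, h3 o ho, rfl⟩⟩

lemma isW_conj {h g : M ≃ₐ[E] M} {𝔓 𝔓' : Ideal (𝓞 M)} (hh : IsCj h 𝔓 𝔓') (hg : IsW E 𝔓 g) :
    IsW E 𝔓' (h * g * h⁻¹) := by
  rw [isW_iff] at hg ⊢
  obtain ⟨h1, h2, h3⟩ := hg
  refine ⟨?_, fun o => ?_, fun o ho => ?_⟩
  · intro h4
    apply h1
    have h5 : g = h⁻¹ * (h * g * h⁻¹) * h := by group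
    rw [h5, h4]
    group
  · have h4 := DV_conj (E := E) hh (n := 1) (g := g) (fun o => by rw [pow_one]; exact h2 o) o
    rwa [pow_one] at h4
  · have h4 : TT E M h⁻¹ o ∈ 𝔓 := by
      have h5 := (isCj_pow hh 1 (TT E M h⁻¹ o))
      rw [pow_one, pow_one, TT_inv] at h5
      exact h5.2 ho
    have h5 := (isCj_pow hh 2 _).1 (h3 _ h4)
    rw [map_sub, TT_inv, ← TT_conj] at h5
    exact h5

lemma isCj_max {h : M ≃ₐ[E] M} {𝔓 𝔓' : Ideal (𝓞 M)} (hh : IsCj h 𝔓 𝔓') (h𝔓 : 𝔓.IsMaximal) :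
    𝔓'.IsMaximal := by
  have h1 : ∀ o : 𝓞 M, o ∈ 𝔓 ↔ TT E M h o ∈ 𝔓' := fun o => hh o (TT E M h o) rfl
  have h2 : 𝔓' = 𝔓.map (TT E M h : 𝓞 M ≃+* 𝓞 M) := by
    ext o
    rw [Ideal.mem_map_of_equiv]
    constructor
    · intro ho
      refine ⟨(TT E M h).symm o, (h1 _).2 ?_, ?_⟩
      · rwa [AlgEquiv.apply_symm_apply]
      · exact AlgEquiv.apply_symm_apply _ _
    · rintro ⟨x, hx, rfl⟩
      exact (h1 _).1 hx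
  rw [h2]
  exact Ideal.map_isMaximal_of_equiv (TT E M h : 𝓞 M ≃+* 𝓞 M)

lemma WG_conj (S : TS ρ χ Δ) (h g : M ≃ₐ[E] M) (k : ℕ) {u : K} (hu : u ∈ WG ρ χ Δ g k) :
    ρ h u ∈ WG ρ χ Δ (h * g * h⁻¹) k := by
  have ho : orderOf (h * g * h⁻¹) = orderOf g := by
    have := (MulAut.conj h).orderOf_eq g
    rw [MulAut.conj_apply] at this
    exact this
  have h1 := WW_conj (σ := rh ρ g) (σ' := rh ρ (h * g * h⁻¹)) (η := rh ρ h) (s := sA Λ g)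
    (s' := sA Λ (h * g * h⁻¹)) (r := sA Λ h) (S.act h) (S.st h) (by
      rw [← sA_mul, ← sA_mul, inv_mul_cancel_right]) (fun x => by
      rw [rh_apply, rh_apply, rh_apply, rh_apply, ← AlgEquiv.mul_apply, ← AlgEquiv.mul_apply,
        ← map_mul, ← map_mul, inv_mul_cancel_right]) k hu
  unfold WG
  rw [ho]
  exact h1

/-- **The hypotheses on the weights.** -/
theorem TS.data [IsGalois E M] (S : TS ρ χ Δ) (Z : ZG ρ χ Δ z) :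
    DATA ρ z (fun _ => 1) (wei ρ χ Δ z) := by
  refine ⟨fun _ => Nat.one_pos, ?_, ?_, ?_⟩
  · intro 𝔓 g h𝔓 hg j
    exact (Z.zw' S h𝔓 hg).reg (S.l0_spec' h𝔓 hg) (S.st g) S.fin (S.cv g) j
  · intro 𝔓 g h𝔓 hg h 𝔓' hh
    refine ⟨rfl, fun i j => ?_⟩
    have h𝔓' := isCj_max hh h𝔓
    have hg0 := g0_spec hg
    have hg1 := isW_conj hh hg0
    have hg2 := g0_spec hg1
    obtain ⟨ho, hw⟩ := S.wg h𝔓' hg1 hg2
    have ho' : orderOf (h * g0 E 𝔓 * h⁻¹) = orderOf (g0 E 𝔓) := by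
      have := (MulAut.conj h).orderOf_eq (g0 E 𝔓)
      rw [MulAut.conj_apply] at this
      exact this
    have hl : l0 ρ χ 𝔓' = l0 ρ χ 𝔓 := by
      have t1 := S.l0_spec' h𝔓' hg1
      have t2 := S.l0_spec h𝔓 hg
      have e1 := (DV_iff t1 (l0 ρ χ 𝔓 + 1)).1 (DV_conj hh ((DV_iff t2 _).2 le_rfl))
      have hh' : IsCj h⁻¹ 𝔓' 𝔓 := by
        intro o o' ho'
        have h5 : o' = TT E M h⁻¹ o := by
          apply RingOfIntegers.coe_injective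
          exact ho'
        have h6 := isCj_pow hh 1 o'
        rw [pow_one, pow_one, h5, TT_inv] at h6
        rw [h5]
        exact h6.symm
      have e2 := DV_conj hh' ((DV_iff t1 (l0 ρ χ 𝔓' + 1)).2 le_rfl)
      have e3 : h⁻¹ * (h * g0 E 𝔓 * h⁻¹) * h⁻¹⁻¹ = g0 E 𝔓 := by group
      rw [e3] at e2
      have e4 := (DV_iff t2 _).1 e2
      omega
    have h1 := (hw _ _).1 (WG_conj S h _ _ ((Z.zw 𝔓).zw i))
    have h2 := (Z.zw 𝔓').mem_W (𝔓 := 𝔓') (j := j) (k := kap ρ χ Δ z 𝔓 i) (by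
      rw [← ho, ho']
      exact (Z.zw 𝔓).kp i) h1
    rw [hl] at h2
    exact h2
  · intro 𝔓 g h𝔓 hg
    have t := S.l0_spec' h𝔓 hg
    refine ⟨l0 ρ χ 𝔓, l0 ρ χ 𝔓, t.l1, by rw [one_mul], fun o => ⟨_, t.dv o, rfl⟩, ?_, ?_⟩
    · intro i j
      exact (Z.zw' S h𝔓 hg).d t (S.st g) (S.cv g) i j
    · intro j
      exact (Z.zw' S h𝔓 hg).nf t (S.st g) (S.cv g) j

end nf

end Pool.Agent.T9h3
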