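import Pool.Agent.T9h3.AsmB

/-!
# Tori over number fields: the coordinates
-/

set_option autoImplicit false
set_option linter.unusedSectionVars false

namespace Pool.Agent.T9h3

open Pool.Agent.Y223.G Pool.Agent.R383.TM NumberField

section nf

variable {E M K Λ : Type} [Field E] [NumberField E] [Field M] [NumberField M]
  [Algebra E M] [Field K] [Algebra M K] [Algebra E K] [IsScalarTower E M K]
  [AddCommGroup Λ] [DistribMulAction (M ≃ₐ[E] M) Λ]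
  {ρ : (M ≃ₐ[E] M) →* (K ≃ₐ[E] K)} {χ : Λ → K} {Δ : Set Λ}

/-- **The coordinates.** -/
theorem TS.exists_z (S : TS ρ χ Δ) : ∃ (m : ℕ) (z : Fin (m + 1) → K), ZG ρ χ Δ z := by
  classical
  have _ : Fintype (M ≃ₐ[E] M) := Fintype.ofFinite _
  have hfg : ∀ (g : M ≃ₐ[E] M) (k : ℕ), (WG ρ χ Δ g k).FG := fun g k => WW_fg S.fin k
  choose G hG using hfg
  obtain ⟨ZS, hZS⟩ : ∃ ZS : Finset K, ZS = (Finset.univ.biUnion fun g : M ≃ₐ[E] M =>
    (Finset.range (orderOf g + 1)).biUnion fun k => G g k).filter (· ≠ 0) := ⟨_, rfl⟩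
  have memZ : ∀ x, x ∈ ZS ↔ (∃ g k, k ≤ orderOf g ∧ x ∈ G g k) ∧ x ≠ 0 := by
    intro x
    rw [hZS, Finset.mem_filter, Finset.mem_biUnion]
    constructor
    · rintro ⟨⟨g, -, h⟩, h0⟩
      rw [Finset.mem_biUnion] at h
      obtain ⟨k, hk, h⟩ := h
      rw [Finset.mem_range] at hk
      exact ⟨⟨g, k, by omega, h⟩, h0⟩
    · rintro ⟨⟨g, k, hk, h⟩, h0⟩
      refine ⟨⟨g, Finset.mem_univ _, ?_⟩, h0⟩
      rw [Finset.mem_biUnion]
      exact ⟨k, Finset.mem_range.2 (by omega), h⟩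
  have hmem : ∀ g k x, x ∈ G g k → x ∈ WG ρ χ Δ g k := by
    intro g k x hx
    rw [← hG g k]
    exact Submodule.subset_span hx
  have hcard : 0 < ZS.card := by
    rw [Finset.card_pos]
    obtain ⟨m, hm⟩ := S.ne
    by_contra hcon
    rw [Finset.not_nonempty_iff_eq_empty] at hcon
    have h1 : ∀ x ∈ G (1 : M ≃ₐ[E] M) 0, x = 0 := by
      intro x hx
      by_contra h0
      have h2 := (memZ x).2 ⟨⟨1, 0, Nat.zero_le _, hx⟩, h0⟩
      rw [hcon] at h2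
      exact absurd h2 (Finset.notMem_empty _)
    have h2 : χ m ∈ WG ρ χ Δ (1 : M ≃ₐ[E] M) 0 := chi_WW hm
    rw [← hG] at h2
    have h3 : Submodule.span ℤ (G (1 : M ≃ₐ[E] M) 0 : Set K) ≤ ⊥ := by
      rw [Submodule.span_le]
      intro x hx
      exact h1 x hx
    exact chi_ne S.χ0 S.χa m (h3 h2)
  obtain ⟨m, hm⟩ : ∃ m, ZS.card = m + 1 := ⟨_, (Nat.sub_add_cancel hcard).symm⟩
  let e : Fin (m + 1) ≃ ZS := (finCongr hm.symm).trans ZS.equivFin.symm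
  have hz : ∀ i, ((e i : ZS) : K) ∈ ZS := fun i => (e i).2
  refine ⟨m, fun i => (e i : K), ⟨fun i => ((memZ _).1 (hz i)).2, fun i => ?_, fun g k hk => ?_⟩⟩
  · obtain ⟨⟨g, k, hk, h⟩, -⟩ := (memZ _).1 (hz i)
    exact WW_mono (S.sp g) (S.act g) (S.st g) (Nat.zero_le k) (hmem g k _ h)
  · intro u hu
    have hu' := hu
    rw [← hG g k] at hu'
    refine Submodule.span_le.2 ?_ hu'
    intro x hx
    by_cases h0 : x = 0
    · rw [h0]
      exact Submodule.zero_mem _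
    · have h1 : x ∈ ZS := (memZ x).2 ⟨⟨g, k, hk, hx⟩, h0⟩
      refine Submodule.subset_span ⟨e.symm ⟨x, h1⟩, ?_, ?_⟩
      · rw [Equiv.apply_symm_apply]
        exact hmem g k x hx
      · rw [Equiv.apply_symm_apply]

variable {m : ℕ} {z : Fin (m + 1) → K}

lemma ZG.span (Z : ZG ρ χ Δ z) : Submodule.span ℤ (χ '' Δ) ≤ Submodule.span ℤ (Set.range z) := by
  have h1 := Z.sp 1 0 (Nat.zero_le _)
  refine le_trans h1 (Submodule.span_mono ?_)
  rintro _ ⟨i, -, rfl⟩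
  exact ⟨i, rfl⟩

/-- The coordinates generate the function field. -/
lemma ZG.gen (S : TS ρ χ Δ) (Z : ZG ρ χ Δ z)
    (hgen : IntermediateField.adjoin M (Set.range χ) = ⊤) :
    IntermediateField.adjoin M (Set.range fun j => z j / z 0) = ⊤ := by
  rw [eq_top_iff, ← hgen]
  rw [IntermediateField.adjoin_le_iff]
  obtain ⟨L, hL⟩ : ∃ L : IntermediateField M K,
    L = IntermediateField.adjoin M (Set.range fun j => z j / z 0) := ⟨_, rfl⟩
  rw [← hL]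
  have h1 : ∀ u ∈ Submodule.span ℤ (Set.range z), u / z 0 ∈ L := by
    intro u hu
    induction hu using Submodule.span_induction with
    | mem x hx =>
      obtain ⟨i, rfl⟩ := hx
      rw [hL]
      exact IntermediateField.subset_adjoin _ _ ⟨i, rfl⟩
    | zero => rw [zero_div]; exact L.zero_mem
    | add x y _ _ hx hy => rw [add_div]; exact L.add_mem hx hy
    | smul c x _ hx =>
      rw [zsmul_eq_mul, mul_div_assoc]
      exact L.mul_mem (intCast_mem L c) hx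
  have h2 : ∀ x ∈ Δ, χ x / z 0 ∈ L := fun x hx =>
    h1 _ (Z.span (Submodule.subset_span ⟨x, hx, rfl⟩))
  obtain ⟨m, hm⟩ := S.ne
  obtain ⟨T, hT0, hT, -⟩ := S.cv0 m hm
  obtain ⟨v, hv⟩ := Multiset.exists_mem_of_ne_zero hT0
  obtain ⟨ι, _, b, hc⟩ := hT v hv
  have hv0 := chi_ne S.χ0 S.χa v
  have h3 : ∀ i, χ (b i) ∈ L := by
    intro i
    have h4 : χ (b i) = (χ (v + b i) / z 0) / (χ v / z 0) := by
      have := Z.z0 0
      rw [S.χa]
      field_simp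
    rw [h4]
    exact L.div_mem (h2 _ (hc.nb i)) (h2 _ hc.vm)
  rintro _ ⟨x, rfl⟩
  rw [← b.sum_repr x, chi_sum S.χ0 S.χa]
  refine prod_mem fun i _ => ?_
  rw [chi_zsmul S.χ0 S.χa]
  exact zpow_mem (h3 i) _

lemma ZG.lin (S : TS ρ χ Δ) (Z : ZG ρ χ Δ z) (g : M ≃ₐ[E] M) (j : Fin (m + 1)) :
    ρ g (z j) ∈ Submodule.span (𝓞 M) (Set.range z) := by
  have h1 : ρ g (z j) ∈ Submodule.span ℤ (χ '' Δ) := by
    have h2 := Z.zs j
    generalize z j = u at h2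
    induction h2 using Submodule.span_induction with
    | mem x hx =>
      obtain ⟨m, hm, rfl⟩ := hx
      rw [S.act]
      exact Submodule.subset_span ⟨g • m, S.st g m hm, rfl⟩
    | zero => rw [map_zero]; exact Submodule.zero_mem _
    | add x y _ _ hx hy => rw [map_add]; exact Submodule.add_mem _ hx hy
    | smul c x _ hx =>
      rw [zsmul_eq_mul, map_mul, map_intCast, ← zsmul_eq_mul]
      exact Submodule.smul_mem _ _ hx
  exact Submodule.span_subset_span ℤ (𝓞 M) _ (Z.span h1)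

lemma ZG.hreg (S : TS ρ χ Δ) (Z : ZG ρ χ Δ z) (j : Fin (m + 1)) :
    IsRegularRing (Algebra.adjoin (𝓞 M) (Set.range fun i => z i / z j)) := by
  rw [(Z.zw (⊥ : Ideal (𝓞 M))).cg (S.sp _) (S.act _) (S.st _) j]
  exact CG0_reg S.χ0 S.χa S.linO S.fin S.cv0 (Z.z0 j) (Z.zs j)

variable {F : Type} [Field F] [Algebra E F] [Algebra F K] [IsScalarTower E F K]

/-- **The data of the theorem on weighted blowups.** -/
theorem TS.wwd [IsGalois E M] (S : TS ρ χ Δ)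
    (hgen : IntermediateField.adjoin M (Set.range χ) = ⊤)
    (hfix : ∀ x, (∀ g, ρ g x = x) ↔ ∃ y : F, algebraMap F K y = x) :
    ∃ (m : ℕ) (z : Fin (m + 1) → K), WWD E M F K ρ z := by
  obtain ⟨m, z, Z⟩ := S.exists_z
  exact ⟨m, z, wwd_of Pool.Agent.Y223.G.all_TAMC ρ S.hρ hfix S.hin z Z.z0 (Z.gen S hgen)
    (Z.lin S) (Z.hreg S) _ _ (S.data Z)⟩

/-- The data from a smooth polytope. -/
theorem exists_TS (hρ : ∀ g c, ρ g (algebraMap M K c) = algebraMap M K (g c))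
    (hin : ∀ 𝔓 : Ideal (𝓞 M), 𝔓.IsMaximal → ∀ p : ℕ, p.Prime → (p : 𝓞 M) ∈ 𝔓 →
      ¬ p ^ 2 ∣ Nat.card (inert E 𝔓)) (χ0 : χ 0 = 1) (χa : ∀ x y, χ (x + y) = χ x * χ y)
    (lin : LinearIndependent M χ) (act : ∀ g x, ρ g (χ x) = χ (g • x)) (fin : Δ.Finite)
    (st : ∀ g : M ≃ₐ[E] M, ∀ x ∈ Δ, g • x ∈ Δ) (cv0 : CV0 Δ) (ne : Δ.Nonempty) :
    ∃ Δ' : Set Λ, TS ρ χ Δ' := by
  obtain ⟨k, hk, h⟩ := exists_rich fin cv0 (fun g : M ≃ₐ[E] M => orderOf g) (fun g => sA Λ g)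
  refine ⟨MS Δ k, ⟨hρ, hin, χ0, χa, lin, act, MS_fin fin k, fun g => MS_st (s := sA Λ g) (st g) k,
    h, ?_, ?_⟩⟩
  · intro m hm
    obtain ⟨T, h1, h2, h3⟩ := h 1 m hm
    refine ⟨T, h1, fun v hv => ?_, h3⟩
    obtain ⟨ι, i, b, hc, -⟩ := h2 v hv
    exact ⟨ι, i, b, hc⟩
  · obtain ⟨v, hv⟩ := ne
    exact ⟨_, MS_nsmul hv k⟩

end nf

end Pool.Agent.T9h3
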