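import Pool.Agent.T9h3.FFd

/-!
# Characters of a torus with an automorphism of prime order: the graded algebra
-/

set_option autoImplicit false
set_option linter.unusedSectionVars false

namespace Pool.Agent.T9h3

open MvPolynomial Pool.Agent.Y223.G

section ww

variable {K Λ : Type} [Field K] [AddCommGroup Λ] {χ : Λ → K} {p : ℕ} {σ : K →+* K}
  {s : Module.End ℤ Λ} {Δ : Set Λ}

lemma W1_s (hs : s ^ p = 1) (hσ : ∀ x, σ (χ x) = χ (s x)) (hΔ : ∀ m ∈ Δ, s m ∈ Δ) {u : K}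
    (hu : u ∈ W1 χ p s Δ) : σ u ∈ W1 χ p s Δ := by
  unfold W1 at hu
  induction hu using Submodule.span_induction with
  | mem x hx =>
    obtain ⟨m, hm, m', hm', hN, rfl⟩ := hx
    rw [map_sub, hσ, hσ]
    exact Submodule.subset_span ⟨s m, hΔ m hm, s m', hΔ m' hm', by rw [Nm_s hs, Nm_s hs, hN], rfl⟩
  | zero => rw [map_zero]; exact Submodule.zero_mem _
  | add x y _ _ hx hy => rw [map_add]; exact Submodule.add_mem _ hx hy
  | smul c x _ hx =>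
    rw [zsmul_eq_mul, map_mul, map_intCast, ← zsmul_eq_mul]
    exact Submodule.smul_mem _ _ hx

lemma W1_d (hs : s ^ p = 1) (hσ : ∀ x, σ (χ x) = χ (s x)) (hΔ : ∀ m ∈ Δ, s m ∈ Δ) {u : K}
    (hu : u ∈ W1 χ p s Δ) : dK σ u ∈ W1 χ p s Δ :=
  (W1 χ p s Δ).sub_mem (W1_s hs hσ hΔ hu) hu

lemma W1_le : W1 χ p s Δ ≤ WW χ σ p s Δ 0 := by
  unfold W1 WW
  rw [Submodule.span_le]
  rintro x ⟨m, hm, m', hm', -, rfl⟩
  exact Submodule.sub_mem _ (Submodule.subset_span ⟨m, hm, rfl⟩)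
    (Submodule.subset_span ⟨m', hm', rfl⟩)

lemma WW_one {u : K} : u ∈ WW χ σ p s Δ 1 ↔ u ∈ W1 χ p s Δ := by
  change u ∈ (W1 χ p s Δ).map (dK σ ^ 0) ↔ _
  rw [pow_zero]
  constructor
  · rintro ⟨w, hw, rfl⟩
    exact hw
  · intro h
    exact ⟨u, h, rfl⟩

lemma WW_d (hs : s ^ p = 1) (hσ : ∀ x, σ (χ x) = χ (s x)) (hΔ : ∀ m ∈ Δ, s m ∈ Δ) (k : ℕ) {u : K}
    (hu : u ∈ WW χ σ p s Δ k) : dK σ u ∈ WW χ σ p s Δ (k + 1) := by
  rcases k with _ | k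
  · rw [zero_add, WW_one]
    unfold WW at hu
    induction hu using Submodule.span_induction with
    | mem x hx =>
      obtain ⟨m, hm, rfl⟩ := hx
      rw [dK_apply, hσ]
      exact Submodule.subset_span ⟨s m, hΔ m hm, m, hm, Nm_s hs m, rfl⟩
    | zero => rw [map_zero]; exact Submodule.zero_mem _
    | add x y _ _ hx hy => rw [map_add]; exact Submodule.add_mem _ hx hy
    | smul c x _ hx => rw [map_smul]; exact Submodule.smul_mem _ _ hx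
  · obtain ⟨w, hw, rfl⟩ := hu
    refine ⟨w, hw, ?_⟩
    rw [pow_succ', Module.End.mul_apply]

lemma WW_anti (hs : s ^ p = 1) (hσ : ∀ x, σ (χ x) = χ (s x)) (hΔ : ∀ m ∈ Δ, s m ∈ Δ) (k : ℕ)
    {u : K} (hu : u ∈ WW χ σ p s Δ (k + 1)) : u ∈ WW χ σ p s Δ k := by
  rcases k with _ | k
  · exact W1_le (WW_one.1 hu)
  · obtain ⟨w, hw, rfl⟩ := hu
    refine ⟨dK σ w, W1_d hs hσ hΔ hw, ?_⟩
    rw [pow_succ, Module.End.mul_apply]

lemma WW_mono (hs : s ^ p = 1) (hσ : ∀ x, σ (χ x) = χ (s x)) (hΔ : ∀ m ∈ Δ, s m ∈ Δ) {k k' : ℕ}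
    (h : k ≤ k') {u : K} (hu : u ∈ WW χ σ p s Δ k') : u ∈ WW χ σ p s Δ k := by
  induction k', h using Nat.le_induction with
  | base => exact hu
  | succ n _ ih => exact ih (WW_anti hs hσ hΔ n hu)

/-- The powers of `σ - 1` of the characters. -/
lemma WW_pow (hs : s ^ p = 1) (hσ : ∀ x, σ (χ x) = χ (s x)) (hΔ : ∀ m ∈ Δ, s m ∈ Δ) {m : Λ}
    (hm : m ∈ Δ) (k : ℕ) : (dK σ ^ k) (χ m) ∈ WW χ σ p s Δ k := by
  induction k with
  | zero =>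
    rw [pow_zero, Module.End.one_apply]
    exact Submodule.subset_span ⟨m, hm, rfl⟩
  | succ k ih =>
    rw [pow_succ', Module.End.mul_apply]
    exact WW_d hs hσ hΔ k ih

end ww

section gr

variable {O K Λ ι : Type} [CommRing O] [Field K]
  [Algebra O K] [AddCommGroup Λ] [Fintype ι] {χ : Λ → K} {b : Module.Basis ι ℤ Λ}
  {Q : Ideal (MvPolynomial ι O)} [hQ : Q.IsPrime] {p : ℕ} {σ : K →+* K} {t : O →+* O}
  {s : Module.End ℤ Λ} {𝔓 : Ideal O} {l : ℕ} {Δ : Set Λ} {v : Λ}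

/-- The graded algebra. -/
noncomputable def GR {O K Λ : Type} [CommRing O] [Field K]
    [Algebra O K] [AddCommGroup Λ] (χ : Λ → K) (σ : K →+* K) (p : ℕ) (s : Module.End ℤ Λ)
    (𝔓 : Ideal O) (l : ℕ) (Δ : Set Λ) (v : Λ) : Subalgebra O (LP K) :=
  Algebra.adjoin O ({hm (-1) 1} ∪ {f | ∃ a ∈ 𝔓, f = hm 1 (algebraMap O K a)} ∪
    {f | ∃ k, k ≤ p - 1 ∧ ∃ u ∈ WW χ σ p s Δ k, f = hm (k * l : ℕ) (u / χ v)})

lemma GR_s : (hm (-1) 1 : LP K) ∈ GR χ σ p s 𝔓 l Δ v :=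
  Algebra.subset_adjoin (Or.inl (Or.inl rfl))

lemma GR_P {a : O} (ha : a ∈ 𝔓) : hm 1 (algebraMap O K a) ∈ GR χ σ p s 𝔓 l Δ v :=
  Algebra.subset_adjoin (Or.inl (Or.inr ⟨a, ha, rfl⟩))

lemma GR_W {k : ℕ} (hk : k ≤ p - 1) {u : K} (hu : u ∈ WW χ σ p s Δ k) :
    hm (k * l : ℕ) (u / χ v) ∈ GR χ σ p s 𝔓 l Δ v :=
  Algebra.subset_adjoin (Or.inr ⟨k, hk, u, hu, rfl⟩)

lemma GR_O (a : O) : hm 0 (algebraMap O K a) ∈ GR χ σ p s 𝔓 l Δ v :=
  (GR χ σ p s 𝔓 l Δ v).algebraMap_mem a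

lemma GR_C (h0 : χ 0 = 1) (ha : ∀ x y, χ (x + y) = χ x * χ y) (hc : CD Δ v b)
    (c : MvPolynomial ι O) : hm 0 (ev O χ b c) ∈ GR χ σ p s 𝔓 l Δ v := by
  induction c using MvPolynomial.induction_on with
  | C a => rw [ev_C]; exact GR_O a
  | add f g hf hg => rw [map_add, hm_add]; exact Subalgebra.add_mem _ hf hg
  | mul_X f i hf =>
    rw [map_mul, ev_X]
    have h1 : χ (b i) = χ (v + b i) / χ v := by
      have := chi_ne h0 ha v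
      rw [ha]
      field_simp
    have h2 : hm 0 (χ (b i)) ∈ GR χ σ p s 𝔓 l Δ v := by
      rw [h1]
      have h3 := GR_W (σ := σ) (χ := χ) (v := v) (𝔓 := 𝔓) (l := l) (p := p) (s := s) (k := 0)
        (Nat.zero_le _) (Submodule.subset_span ⟨v + b i, hc.nb i, rfl⟩)
      rwa [zero_mul] at h3
    have h3 := Subalgebra.mul_mem _ hf h2
    rwa [hm_mul, zero_add] at h3

/-- The induction principle. -/
lemma GR_le (L : LF (ev O χ b) Q) (h0 : χ 0 = 1) (ha : ∀ x y, χ (x + y) = χ x * χ y)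
    (hk : ∀ c : O, algebraMap O K c ∈ L.F 0)
    (h1 : ∀ e ∈ 𝔓, algebraMap O K e ∈ L.F 1)
    (h2 : ∀ k, k ≤ p - 1 → ∀ u ∈ WW χ σ p s Δ k, u / χ v ∈ L.F (k * l : ℕ)) :
    GR χ σ p s 𝔓 l Δ v ≤ rees L hk := by
  unfold GR
  rw [Algebra.adjoin_le_iff]
  rintro f ((hf | ⟨a, ha, rfl⟩) | ⟨k, hk, u, hu, rfl⟩)
  · rw [Set.mem_singleton_iff] at hf
    rw [hf, SetLike.mem_coe, hm_mem_rees]
    exact L.mono (by norm_num) L.one
  · rw [SetLike.mem_coe, hm_mem_rees]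
    exact h1 a ha
  · rw [SetLike.mem_coe, hm_mem_rees]
    exact h2 k hk u hu

end gr

end Pool.Agent.T9h3
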