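import Pool.Agent.T9h3.BBa

/-!
# Characters of a torus with an automorphism of prime order: the graded algebra and the weighted
ideals agree
-/

set_option autoImplicit false
set_option linter.unusedSectionVars false

namespace Pool.Agent.T9h3

open MvPolynomial Pool.Agent.Y223.G

section gr

variable {O K Λ ι : Type} [CommRing O] [IsDomain O] [IsDedekindDomain O] [Field K]
  [Algebra O K] [AddCommGroup Λ] [Fintype ι] {χ : Λ → K} {b : Module.Basis ι ℤ Λ}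
  {Q : Ideal (MvPolynomial ι O)} [hQ : Q.IsPrime] {p : ℕ} {σ : K →+* K} {t : O →+* O}
  {s : Module.End ℤ Λ} {𝔓 : Ideal O} {l : ℕ} {Δ : Set Λ} {v : Λ}

/-- The positive filtration. -/
def LF.ps (L : LF (ev O χ b) Q) : LF (ev O χ b) Q where
  F n := L.F (max n 0)
  mul' := fun m n a c ha hc => L.mono (by omega) (L.mul ha hc)
  anti' := fun n a ha => L.mono (by omega) ha
  base' := fun c => L.base' c
  inv' := fun c hc => L.inv' c hc

/-- The filtration of the graded algebra. -/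
noncomputable def Bx (b : Module.Basis ι ℤ Λ) (Q : Ideal (MvPolynomial ι O)) [hQ : Q.IsPrime]
    (χ : Λ → K) (σ : K →+* K) (p : ℕ) (s : Module.End ℤ Λ)
    (𝔓 : Ideal O) (l : ℕ) (Δ : Set Λ) (v : Λ) (h0 : χ 0 = 1)
    (ha : ∀ x y, χ (x + y) = χ x * χ y) (hc : CD Δ v b) : LF (ev O χ b) Q :=
  BB (ev O χ b) Q (GR χ σ p s 𝔓 l Δ v) GR_s (GR_C h0 ha hc)

/-- Abbreviation. -/
noncomputable abbrev CY.B (Y : CY χ b Q p σ t s 𝔓 l Δ v) : LF (ev O χ b) Q :=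
  Bx b Q χ σ p s 𝔓 l Δ v Y.h.χ0 Y.h.χa Y.hc

lemma CY.hk (L : LF (ev O χ b) Q) (c : O) : algebraMap O K c ∈ L.F 0 := by
  have := L.base' (C c)
  rwa [ev_C] at this

/-- Minimality. -/
lemma CY.Ble (Y : CY χ b Q p σ t s 𝔓 l Δ v) (L : LF (ev O χ b) Q)
    (h1 : ∀ e ∈ 𝔓, algebraMap O K e ∈ L.F 1)
    (h2 : ∀ k, k ≤ p - 1 → ∀ u ∈ WW χ σ p s Δ k, u / χ v ∈ L.F (k * l : ℕ)) {n : ℤ} {f : K}
    (hf : f ∈ Y.B.F n) : f ∈ L.F n :=
  BB_le L Y.inj (CY.hk L) (GR_le L Y.h.χ0 Y.h.χa (CY.hk L) h1 h2) hf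

lemma CY.BP (Y : CY χ b Q p σ t s 𝔓 l Δ v) (e : O) (he : e ∈ 𝔓) :
    algebraMap O K e ∈ Y.B.F 1 := BB_of (GR_P he)

lemma CY.BW (Y : CY χ b Q p σ t s 𝔓 l Δ v) (k : ℕ) (hk : k ≤ p - 1) (u : K)
    (hu : u ∈ WW χ σ p s Δ k) : u / χ v ∈ Y.B.F (k * l : ℕ) := BB_of (GR_W hk hu)

lemma CY.Bneg (Y : CY χ b Q p σ t s 𝔓 l Δ v) {n : ℤ} {f : K} (hf : f ∈ Y.B.F n) :
    f ∈ Y.B.F (max n 0) := by
  have h1 : f ∈ Y.B.ps.F n := by
    refine Y.Ble _ (fun e he => ?_) (fun k hk u hu => ?_) hf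
    · exact Y.BP e he
    · change u / χ v ∈ Y.B.F (max ((k * l : ℕ) : ℤ) 0)
      rw [max_eq_left (by positivity)]
      exact Y.BW k hk u hu
  exact h1

/-- The differences of the coordinates with the same norm. -/
lemma CY.W1_MM (Y : CY χ b Q p σ t s 𝔓 l Δ v) {u : K} (hu : u ∈ W1 χ p s Δ) (n : ℤ) :
    u / χ v ∈ (MM χ b Q).F n := by
  unfold W1 at hu
  induction hu using Submodule.span_induction with
  | mem x hx =>
    obtain ⟨m, hm, m', hm', hN, rfl⟩ := hx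
    have h1 : (χ m - χ m') / χ v = ev O χ b (mon O b (m - v) - mon O b (m' - v)) := by
      rw [sub_div, Y.chi_div hm, Y.chi_div hm', map_sub]
    rw [h1]
    exact ⟨1, fun h => hQ.ne_top ((Ideal.eq_top_iff_one _).2 h), _,
      fun _ => Y.hT.d m hm m' hm' hN, by rw [map_one, one_mul]⟩
  | zero => rw [zero_div]; exact AddSubgroup.zero_mem _
  | add x y _ _ hx hy => rw [add_div]; exact AddSubgroup.add_mem _ hx hy
  | smul c x _ hx =>
    rw [zsmul_eq_mul, mul_div_assoc]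
    exact LF.mul0 _ (LF.intCast _ c) hx

lemma CY.W0_mem (Y : CY χ b Q p σ t s 𝔓 l Δ v) (L : LF (ev O χ b) Q) {u : K}
    (hu : u ∈ WW χ σ p s Δ 0) : u / χ v ∈ L.F 0 := by
  unfold WW at hu
  induction hu using Submodule.span_induction with
  | mem x hx =>
    obtain ⟨m, hm, rfl⟩ := hx
    exact Y.chi_div_mem _ hm
  | zero => rw [zero_div]; exact AddSubgroup.zero_mem _
  | add x y _ _ hx hy => rw [add_div]; exact AddSubgroup.add_mem _ hx hy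
  | smul c x _ hx =>
    rw [zsmul_eq_mul, mul_div_assoc]
    exact LF.mul0 _ (LF.intCast _ c) hx

lemma CY.Bctr (Y : CY χ b Q p σ t s 𝔓 l Δ v) : Y.B.Ctr := by
  intro f hf
  have h1 : f ∈ (MM χ b Q).F 1 := by
    refine Y.Ble _ (fun e he => ?_) (fun k hk u hu => ?_) hf
    · refine ⟨1, fun h => hQ.ne_top ((Ideal.eq_top_iff_one _).2 h), C e, fun _ => Y.hT.P e he, ?_⟩
      rw [map_one, one_mul, ev_C]
    · rcases Nat.eq_zero_or_pos k with h0 | h0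
      · subst h0
        rw [zero_mul]
        exact Y.W0_mem _ hu
      · exact Y.W1_MM (WW_one.1 (WW_mono Y.h.sp Y.h.σχ Y.hΔ h0 hu)) _
  exact MM_ctr f h1

/-- The characters of norm zero. -/
lemma CY.BL0 (Y : CY χ b Q p σ t s 𝔓 l Δ v) : L0 p s b Q ≤ US Y.B Y.h.χ0 Y.h.χa l := by
  refine Y.gens _ fun m hm m' hm' hN => ?_
  have h1 := Y.BW 1 (by have := Y.h.pp.two_le; omega) (χ m - χ m')
    (WW_one.2 (Submodule.subset_span ⟨m, hm, m', hm', hN, rfl⟩))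
  rwa [one_mul] at h1

/-- The operator `σ - 1` on the local ring. -/
lemma CY.BC (Y : CY χ b Q p σ t s 𝔓 l Δ v) (c : MvPolynomial ι O) :
    σ (ev O χ b c) - ev O χ b c ∈ Y.B.F l := by
  classical
  have _ : Fintype (IC Q) := Fintype.ofFinite _
  obtain ⟨ϖ, r, h1, h2, h3, h4, h5⟩ := exists_rep Y.h.pp Y.h.sp Y.hc Y.hΔ Y.hT
  have hp2 := Y.h.pp.two_le
  have key : ∀ (m : Λ), m ∈ Δ → ∀ a, 1 ≤ a → a ≤ p - 1 → (dK σ ^ a) (χ m) / χ v ∈ Y.B.F l := by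
    intro m hm a ha1 ha2
    refine LF.mono _ ?_ (Y.BW a ha2 _ (WW_pow Y.h.sp Y.h.σχ Y.hΔ hm a))
    have : (1 : ℤ) ≤ a := by exact_mod_cast ha1
    push_cast
    nlinarith [Int.natCast_nonneg l]
  refine delC _ Y.h Y.hc Y.hΔ Y.hT Y.BP Y.BL0 (fun i => ?_) c
  refine Y.d_of _ Y.BL0 h1 h4 h2 (fun c n hn1 hn2 => ?_) i
  rcases hn2.eq_or_lt with h6 | h6
  · subst h6
    refine LF.mono _ ?_ (Y.top_mem _ (Y.p_mem _ Y.BP) (key _ (Y.hc.nb c.1)))
    have : (1 : ℤ) ≤ n := by exact_mod_cast hn1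
    nlinarith [Int.natCast_nonneg l]
  · exact key _ (Y.hc.nb c.1) n hn1 (by omega)

/-- The capped degree. -/
def cp (l p : ℕ) (n : ℤ) : ℤ := max n (min (max n 0 + l) ((p - 1 : ℕ) * l : ℕ))

/-- The capped shift. -/
noncomputable def CY.cps (Y : CY χ b Q p σ t s 𝔓 l Δ v) : Y.B.EM where
  E n := Y.B.F (cp l p n)
  mul' := fun m n a c ha hc => by
    have h1 := Y.B.mul (Y.Bneg ha) hc
    refine Y.B.mono ?_ h1
    unfold cp
    omega
  anti' := fun n a ha => Y.B.mono (by unfold cp; omega) ha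
  le' := fun n a ha => Y.B.mono (by unfold cp; omega) ha
  le0' := fun a ha => Y.B.mono (by
    have h1 := Y.h.pp.two_le
    have h2 := Y.h.l1
    have h3 : 1 ≤ (p - 1) * l := Nat.mul_pos (by omega) h2
    unfold cp
    omega) ha

/-- The operator `σ - 1` on the graded algebra, capped. -/
lemma CY.Bst (Y : CY χ b Q p σ t s 𝔓 l Δ v) {n : ℤ} {f : K} (hf : f ∈ Y.B.F n) :
    σ f - f ∈ Y.B.F (cp l p n) := by
  have hp2 := Y.h.pp.two_le
  have h1 : f ∈ (LF.del Y.cps σ (fun c => by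
      change _ ∈ Y.B.F (cp l p 0)
      exact Y.B.mono (by unfold cp; omega) (Y.BC c)) Y.Bctr Y.inj hQ).F n := by
    refine Y.Ble _ (fun e he => ?_) (fun k hk u hu => ?_) hf
    · rw [LF.mem_del]
      refine ⟨Y.BP e he, ?_⟩
      change _ ∈ Y.B.F (cp l p 1)
      rw [Y.h.σO, ← map_sub]
      have h2 := P_pow Y.B Y.BP (l + 1) _ (Y.h.dv e)
      refine Y.B.mono ?_ h2
      unfold cp
      push_cast
      omega
    · rw [LF.mem_del]
      refine ⟨Y.BW k hk u hu, ?_⟩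
      change _ ∈ Y.B.F (cp l p (k * l : ℕ))
      have hv := (US Y.B Y.h.χ0 Y.h.χa l).neg_mem (Y.BL0 (sv_L0 Y.h.sp Y.hc Y.hΔ Y.hT))
      rw [neg_sub] at hv
      have h5 : σ (u / χ v) - u / χ v = (dK σ u / χ v) * χ (v - s v) +
          (u / χ v) * (χ (v - s v) - 1) := by
        have h6 := chi_ne Y.h.χ0 Y.h.χa v
        have h7 := chi_ne Y.h.χ0 Y.h.χa (s v)
        rw [map_div₀, Y.h.σχ, chi_sub Y.h.χ0 Y.h.χa, dK_apply]
        field_simp
        ring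
      rw [h5]
      have h8 : cp l p (k * l : ℕ) ≤ ((k + 1) * l : ℕ) := by
        have e1 : (((k + 1) * l : ℕ) : ℤ) = (k * l : ℕ) + l := by push_cast; ring
        rw [e1]
        unfold cp
        omega
      refine (Y.B.F _).add_mem (Y.B.mul0' ?_ (chi_LA _ Y.h.χ0 Y.h.χa hv.1))
        (Y.B.mono ?_ (Y.B.mul (Y.BW k hk u hu) hv.2))
      · rcases hk.eq_or_lt with h9 | h9
        · -- the top
          have h10 : dK σ u ∈ WW χ σ p s Δ (p - 1) :=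
            WW_anti Y.h.sp Y.h.σχ Y.hΔ _ (WW_d Y.h.sp Y.h.σχ Y.hΔ _ (h9 ▸ hu))
          refine Y.B.mono ?_ (Y.BW _ le_rfl _ h10)
          subst h9
          unfold cp
          omega
        · exact Y.B.mono h8 (Y.BW _ h9 _ (WW_d Y.h.sp Y.h.σχ Y.hΔ _ hu))
      · refine h8.trans ?_
        push_cast
        linarith
  exact h1.2

/-- The powers of `s - 1` on the characters of norm zero. -/
lemma CY.Bs (Y : CY χ b Q p σ t s 𝔓 l Δ v) {y : Λ} (hy : y ∈ L0 p s b Q) (k : ℕ)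
    (hk : k + 1 ≤ p - 1) : ((s - 1) ^ k) y ∈ US Y.B Y.h.χ0 Y.h.χa ((k + 1) * l : ℕ) := by
  induction k with
  | zero =>
    rw [pow_zero, Module.End.one_apply, zero_add, one_mul]
    exact Y.BL0 hy
  | succ k ih =>
    have h1 := ih (by omega)
    have h2 := s1_pow_L0 Y.h.sp Y.hc Y.hΔ Y.hT k hy
    obtain ⟨x, hx⟩ : ∃ x, x = ((s - 1) ^ k) y := ⟨_, rfl⟩
    rw [pow_succ', Module.End.mul_apply, ← hx]
    rw [← hx] at h1 h2
    refine ⟨(s1_L0 Y.h.sp Y.hc Y.hΔ Y.hT h2).1, ?_⟩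
    have h3 : χ ((s - 1) x) - 1 = χ (-x) * (σ (χ x - 1) - (χ x - 1)) := by
      rw [LinearMap.sub_apply, Module.End.one_apply, map_sub, map_one, Y.h.σχ,
        chi_sub Y.h.χ0 Y.h.χa, chi_neg Y.h.χ0 Y.h.χa]
      have h6 := chi_ne Y.h.χ0 Y.h.χa x
      field_simp
      ring
    rw [h3]
    refine Y.B.mul0 (chi_LA _ Y.h.χ0 Y.h.χa ((LA b Q).neg_mem h2.1)) (Y.B.mono ?_ (Y.Bst h1.2))
    have e1 : ((k + 1 + 1) * l : ℕ) ≤ (p - 1) * l := Nat.mul_le_mul_right _ (by omega)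
    have e2 : (k + 1 + 1) * l = (k + 1) * l + l := by ring
    unfold cp
    omega

end gr

section fx

variable {O K Λ ι : Type} [CommRing O] [IsDomain O] [IsDedekindDomain O] [Field K]
  [Algebra O K] [AddCommGroup Λ] [Fintype ι] {χ : Λ → K} {b : Module.Basis ι ℤ Λ}
  {Q : Ideal (MvPolynomial ι O)} [hQ : Q.IsPrime] {p : ℕ} {σ : K →+* K} {t : O →+* O}
  {s : Module.End ℤ Λ} {𝔓 : Ideal O} {l : ℕ} {Δ : Set Λ} {v : Λ}
  {J : Type} [Fintype J] {ϖ r : IC Q → IC Q} {k : J → ℕ} {μ : J → Λ} {π : O}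

/-- The graded algebra is in the weighted filtration. -/
theorem PD.BleF (D : PD p t s 𝔓 l b Q ϖ r k μ π) (Y : CY χ b Q p σ t s 𝔓 l Δ v) {n : ℤ} {f : K}
    (hf : f ∈ Y.B.F n) : f ∈ (Fx χ b Q p s l v ϖ r k μ π).F n := by
  refine Y.Ble _ (D.F1 Y) (fun k hk u hu => ?_) hf
  have h1 := D.FW Y k hu
  push_cast
  exact h1

/-- The weighted filtration is in the graded algebra: the generators. -/
theorem PD.xB (D : PD p t s 𝔓 l b Q ϖ r k μ π) (Y : CY χ b Q p σ t s 𝔓 l Δ v)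
    (i : PI ϖ r J p) : hm (pa ϖ r k l p i) (ev O χ b (px s v b ϖ r μ π p i)) ∈
      GR χ σ p s 𝔓 l Δ v ∨
      ev O χ b (px s v b ϖ r μ π p i) ∈ Y.B.F (pa ϖ r k l p i) := by
  rcases i with _ | (j | ⟨c, n⟩)
  · left
    rw [ev_px_none]
    exact GR_P D.πP
  · right
    have h2 : ev O χ b (px s v b ϖ r μ π p (some (Sum.inl j))) =
        ev O χ b (mon O b (-μ j)) * (χ (μ j) - 1) := by
      unfold px
      rw [map_sub, ev_mon' Y.h.χ0 Y.h.χa]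
    rw [h2]
    refine Y.B.mul0 (Y.B.base' _) ?_
    obtain ⟨h5, h6, y, hy, h7⟩ := D.k1 j
    rw [h7]
    have h8 := (Y.Bs hy (k j - 1) (by omega)).2
    have h9 : k j - 1 + 1 = k j := by omega
    rw [h9] at h8
    exact h8
  · left
    rw [D.ev_px_inr Y]
    have h2 := n.2
    exact GR_W (by omega) (WW_pow Y.h.sp Y.h.σχ Y.hΔ (Y.hc.nb c.1) ((n : ℕ) + 1))

theorem PD.FleB (D : PD p t s 𝔓 l b Q ϖ r k μ π) (Y : CY χ b Q p σ t s 𝔓 l Δ v) {n : ℤ} {f : K}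
    (hf : f ∈ (Fx χ b Q p s l v ϖ r k μ π).F n) : f ∈ Y.B.F n :=
  FF_le _ Y.inj (fun i => (D.xB Y i).elim (fun h => BB_of h) id) hf

/-- **The graded algebra is stable.** -/
theorem CY.Bstab (Y : CY χ b Q p σ t s 𝔓 l Δ v) {n : ℤ} {f : K} (hf : f ∈ Y.B.F n) :
    σ f - f ∈ Y.B.F (n + l) := by
  obtain ⟨π, hπ, hπn⟩ := Y.h.un
  obtain ⟨ϖ, r, J, hJ, k, μ, D⟩ := exists_PD Y.h.pp Y.h.sp Y.hc Y.hΔ Y.hT hπ hπn
  exact D.FleB Y (D.st Y n f (D.BleF Y hf))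

end fx

end Pool.Agent.T9h3
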