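import Pool.Agent.T9h3.Tor

/-!
# Characters of a torus with an automorphism of prime order: the points of the centre
-/

set_option autoImplicit false
set_option linter.unusedSectionVars false

namespace Pool.Agent.T9h3

open MvPolynomial

variable {O Λ ι : Type} [CommRing O] [AddCommGroup Λ] [Fintype ι]

/-- A point of the centre. -/
structure CT (p : ℕ) (s : Module.End ℤ Λ) (𝔓 : Ideal O) (Δ : Set Λ) (v : Λ)
    (b : Module.Basis ι ℤ Λ) (Q : Ideal (MvPolynomial ι O)) : Prop where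
  P : ∀ a ∈ 𝔓, (C a : MvPolynomial ι O) ∈ Q
  d : ∀ m ∈ Δ, ∀ m' ∈ Δ, Nm p s m = Nm p s m' → mon O b (m - v) - mon O b (m' - v) ∈ Q

/-- The characters without zeros and poles at `Q`. -/
def LA (b : Module.Basis ι ℤ Λ) (Q : Ideal (MvPolynomial ι O)) : Submodule ℤ Λ where
  carrier := {x | ∀ i, (X i : MvPolynomial ι O) ∈ Q → b.repr x i = 0}
  add_mem' := by
    intro x y hx hy i hi
    rw [map_add, Finsupp.add_apply, hx i hi, hy i hi, add_zero]
  zero_mem' := by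
    intro i _
    rw [map_zero, Finsupp.zero_apply]
  smul_mem' := by
    intro c x hx i hi
    rw [map_smul, Finsupp.smul_apply, hx i hi, smul_zero]

lemma mem_LA {b : Module.Basis ι ℤ Λ} {Q : Ideal (MvPolynomial ι O)} {x : Λ} :
    x ∈ LA b Q ↔ ∀ i, (X i : MvPolynomial ι O) ∈ Q → b.repr x i = 0 := Iff.rfl

lemma Nm_mul {p : ℕ} {s : Module.End ℤ Λ} (hs : s ^ p = 1) : Nm p s * s = Nm p s := by
  have h1 := geom_sum_mul s p
  rw [hs, sub_self, mul_sub, mul_one, sub_eq_zero] at h1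
  exact h1

lemma Nm_s {p : ℕ} {s : Module.End ℤ Λ} (hs : s ^ p = 1) (x : Λ) : Nm p s (s x) = Nm p s x := by
  rw [← Module.End.mul_apply, Nm_mul hs]

lemma Nm_s' {p : ℕ} {s : Module.End ℤ Λ} (hs : s ^ p = 1) (x : Λ) : s (Nm p s x) = Nm p s x := by
  have h1 := mul_geom_sum s p
  rw [hs, sub_self, sub_mul, one_mul, sub_eq_zero] at h1
  rw [← Module.End.mul_apply]
  exact congrArg (fun f : Module.End ℤ Λ => f x) h1

lemma Nm_pow {p : ℕ} {s : Module.End ℤ Λ} (hs : s ^ p = 1) (n : ℕ) (x : Λ) :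
    Nm p s ((s ^ n) x) = Nm p s x := by
  induction n with
  | zero => rw [pow_zero, Module.End.one_apply]
  | succ n ih => rw [pow_succ', Module.End.mul_apply, Nm_s hs, ih]

/-- The characters of norm zero without zeros and poles at `Q`. -/
noncomputable def L0 (p : ℕ) (s : Module.End ℤ Λ) (b : Module.Basis ι ℤ Λ)
    (Q : Ideal (MvPolynomial ι O)) : Submodule ℤ Λ := LA b Q ⊓ LinearMap.ker (Nm p s)

lemma mem_L0 {p : ℕ} {s : Module.End ℤ Λ} {b : Module.Basis ι ℤ Λ}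
    {Q : Ideal (MvPolynomial ι O)} {x : Λ} : x ∈ L0 p s b Q ↔ x ∈ LA b Q ∧ Nm p s x = 0 := Iff.rfl

section

variable {p : ℕ} {s : Module.End ℤ Λ} {𝔓 : Ideal O} {Δ : Set Λ} {v : Λ}
  {b : Module.Basis ι ℤ Λ} {Q : Ideal (MvPolynomial ι O)} [hQ : Q.IsPrime]

lemma mon_LA (hc : CD Δ v b) {m : Λ} (hm : m ∈ Δ) : mon O b (m - v) ∉ Q ↔ m - v ∈ LA b Q := by
  rw [mon_notMem, mem_LA]
  constructor
  · intro h i hi
    have h1 := h i hi
    have h2 := hc.nn m hm i
    omega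
  · intro h i hi
    rw [h i hi]
    rfl

lemma LA_of_norm (hc : CD Δ v b) (hT : CT p s 𝔓 Δ v b Q) {m m' : Λ} (hm : m ∈ Δ) (hm' : m' ∈ Δ)
    (hN : Nm p s m = Nm p s m') (h : m - v ∈ LA b Q) : m' - v ∈ LA b Q := by
  rw [← mon_LA hc hm] at h
  rw [← mon_LA hc hm']
  intro h1
  apply h
  have h2 := Q.add_mem (hT.d m hm m' hm' hN) h1
  rwa [sub_add_cancel] at h2

lemma sv_LA (hs : s ^ p = 1) (hc : CD Δ v b) (hΔ : ∀ m ∈ Δ, s m ∈ Δ) (hT : CT p s 𝔓 Δ v b Q) :
    s v - v ∈ LA b Q := by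
  refine LA_of_norm hc hT hc.vm (hΔ v hc.vm) (Nm_s hs v).symm ?_
  rw [sub_self]
  exact (LA b Q).zero_mem

lemma basis_LA {i : ι} (hi : (X i : MvPolynomial ι O) ∉ Q) : b i ∈ LA b Q := by
  intro c hc
  rw [Module.Basis.repr_self, Finsupp.single_eq_of_ne]
  rintro rfl
  exact hi hc

lemma s_basis_LA (hs : s ^ p = 1) (hc : CD Δ v b) (hΔ : ∀ m ∈ Δ, s m ∈ Δ)
    (hT : CT p s 𝔓 Δ v b Q) {i : ι} (hi : (X i : MvPolynomial ι O) ∉ Q) : s (b i) ∈ LA b Q := by
  have h1 : s (v + b i) - v ∈ LA b Q := by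
    refine LA_of_norm hc hT (hc.nb i) (hΔ _ (hc.nb i)) (Nm_s hs _).symm ?_
    rw [add_sub_cancel_left]
    exact basis_LA hi
  have h2 : s (b i) = (s (v + b i) - v) - (s v - v) := by
    rw [map_add]; abel
  rw [h2]
  exact (LA b Q).sub_mem h1 (sv_LA hs hc hΔ hT)

lemma s_LA (hs : s ^ p = 1) (hc : CD Δ v b) (hΔ : ∀ m ∈ Δ, s m ∈ Δ)
    (hT : CT p s 𝔓 Δ v b Q) {x : Λ} (hx : x ∈ LA b Q) : s x ∈ LA b Q := by
  rw [← b.sum_repr x, map_sum]
  refine (LA b Q).sum_mem fun i _ => ?_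
  rw [map_smul]
  by_cases hi : (X i : MvPolynomial ι O) ∈ Q
  · rw [hx i hi, zero_smul]
    exact (LA b Q).zero_mem
  · exact (LA b Q).smul_mem _ (s_basis_LA hs hc hΔ hT hi)

lemma s_pow_LA (hs : s ^ p = 1) (hc : CD Δ v b) (hΔ : ∀ m ∈ Δ, s m ∈ Δ)
    (hT : CT p s 𝔓 Δ v b Q) (n : ℕ) {x : Λ} (hx : x ∈ LA b Q) : (s ^ n) x ∈ LA b Q := by
  induction n with
  | zero => rwa [pow_zero, Module.End.one_apply]
  | succ n ih => rw [pow_succ', Module.End.mul_apply]; exact s_LA hs hc hΔ hT ih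

lemma s_L0 (hs : s ^ p = 1) (hc : CD Δ v b) (hΔ : ∀ m ∈ Δ, s m ∈ Δ)
    (hT : CT p s 𝔓 Δ v b Q) {x : Λ} (hx : x ∈ L0 p s b Q) : s x ∈ L0 p s b Q := by
  rw [mem_L0] at hx ⊢
  exact ⟨s_LA hs hc hΔ hT hx.1, by rw [Nm_s hs, hx.2]⟩

lemma sub_L0 (hs : s ^ p = 1) (hc : CD Δ v b) (hΔ : ∀ m ∈ Δ, s m ∈ Δ)
    (hT : CT p s 𝔓 Δ v b Q) {x : Λ} (hx : x ∈ LA b Q) : s x - x ∈ L0 p s b Q := by
  rw [mem_L0]
  exact ⟨(LA b Q).sub_mem (s_LA hs hc hΔ hT hx) hx, by rw [map_sub, Nm_s hs, sub_self]⟩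

lemma sv_L0 (hs : s ^ p = 1) (hc : CD Δ v b) (hΔ : ∀ m ∈ Δ, s m ∈ Δ)
    (hT : CT p s 𝔓 Δ v b Q) : s v - v ∈ L0 p s b Q := by
  rw [mem_L0]
  exact ⟨sv_LA hs hc hΔ hT, by rw [map_sub, Nm_s hs, sub_self]⟩

/-- The coordinates which vanish at `Q`. -/
abbrev IC (Q : Ideal (MvPolynomial ι O)) : Type := {i : ι // (X i : MvPolynomial ι O) ∈ Q}

variable (b Q) in
/-- The total degree in the coordinates which vanish at `Q`. -/
noncomputable def dC [Fintype (IC Q)] (x : Λ) : ℤ := ∑ i : IC Q, b.repr x i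

section perm

variable [Fintype (IC Q)]

lemma dC_of_LA {x : Λ} (hx : x ∈ LA b Q) : dC b Q x = 0 :=
  Finset.sum_eq_zero fun i _ => hx i i.2

lemma dC_add (x y : Λ) : dC b Q (x + y) = dC b Q x + dC b Q y := by
  unfold dC
  rw [← Finset.sum_add_distrib]
  exact Finset.sum_congr rfl fun i _ => by rw [map_add, Finsupp.add_apply]

lemma dC_smul (n : ℤ) (x : Λ) : dC b Q (n • x) = n * dC b Q x := by
  unfold dC
  rw [Finset.mul_sum]
  exact Finset.sum_congr rfl fun i _ => by rw [map_smul, Finsupp.smul_apply, smul_eq_mul]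

lemma dC_sum {J : Type} (S : Finset J) (f : J → Λ) :
    dC b Q (∑ j ∈ S, f j) = ∑ j ∈ S, dC b Q (f j) := by
  classical
  induction S using Finset.induction_on with
  | empty => simp [dC]
  | insert i S hi ih => rw [Finset.sum_insert hi, Finset.sum_insert hi, dC_add, ih]

lemma dC_basis [DecidableEq ι] (i : IC Q) : dC b Q (b i) = 1 := by
  unfold dC
  rw [Finset.sum_eq_single i]
  · rw [Module.Basis.repr_self, Finsupp.single_eq_same]
  · intro c _ hc
    rw [Module.Basis.repr_self, Finsupp.single_eq_of_ne]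
    exact fun h => hc (Subtype.ext h)
  · intro h; exact absurd (Finset.mem_univ _) h

lemma basis_notLA (i : IC Q) : b i ∉ LA b Q := by
  intro h
  have h1 := h i i.2
  rw [Module.Basis.repr_self, Finsupp.single_eq_same] at h1
  exact one_ne_zero h1

lemma repr_s_basis (hs : s ^ p = 1) (hc : CD Δ v b) (hΔ : ∀ m ∈ Δ, s m ∈ Δ)
    (hT : CT p s 𝔓 Δ v b Q) (i : ι) (c : IC Q) : 0 ≤ b.repr (s (b i)) c := by
  have h2 : s (b i) = (s (v + b i) - v) - (s v - v) := by
    rw [map_add]; abel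
  rw [h2, map_sub, Finsupp.sub_apply, (sv_LA hs hc hΔ hT) c c.2, sub_zero]
  exact hc.nn _ (hΔ _ (hc.nb i)) c

lemma dC_s_basis_pos (hp : 0 < p) (hs : s ^ p = 1) (hc : CD Δ v b) (hΔ : ∀ m ∈ Δ, s m ∈ Δ)
    (hT : CT p s 𝔓 Δ v b Q) (i : IC Q) : 1 ≤ dC b Q (s (b i)) := by
  by_contra hcon
  have h1 : ∀ c : IC Q, b.repr (s (b i)) c = 0 := by
    have h2 : dC b Q (s (b i)) = 0 := by
      have h3 : 0 ≤ dC b Q (s (b i)) :=
        Finset.sum_nonneg fun c _ => repr_s_basis hs hc hΔ hT i c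
      omega
    intro c
    exact (Finset.sum_eq_zero_iff_of_nonneg
      (fun c _ => repr_s_basis hs hc hΔ hT i c)).1 h2 c (Finset.mem_univ c)
  have h2 : s (b i) ∈ LA b Q := fun c hcQ => h1 ⟨c, hcQ⟩
  have h3 := s_pow_LA hs hc hΔ hT (p - 1) h2
  rw [← Module.End.mul_apply, ← pow_succ, Nat.sub_add_cancel hp, hs, Module.End.one_apply] at h3
  exact basis_notLA i h3

/-- The nonnegative elements modulo `LA`. -/
lemma s_nonneg (hp : 0 < p) (hs : s ^ p = 1) (hc : CD Δ v b) (hΔ : ∀ m ∈ Δ, s m ∈ Δ)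
    (hT : CT p s 𝔓 Δ v b Q) {x : Λ} (hx : ∀ c : IC Q, 0 ≤ b.repr x c) :
    (∀ c : IC Q, 0 ≤ b.repr (s x) c) ∧ dC b Q x ≤ dC b Q (s x) := by
  classical
  have h1 : s x = ∑ i, b.repr x i • s (b i) := by
    conv_lhs => rw [← b.sum_repr x]
    rw [map_sum]
    exact Finset.sum_congr rfl fun i _ => map_smul _ _ _
  constructor
  · intro c
    rw [h1, map_sum, Finsupp.finset_sum_apply]
    refine Finset.sum_nonneg fun i _ => ?_
    rw [map_smul, Finsupp.smul_apply, smul_eq_mul]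
    by_cases hi : (X i : MvPolynomial ι O) ∈ Q
    · exact mul_nonneg (hx ⟨i, hi⟩) (repr_s_basis hs hc hΔ hT i c)
    · rw [s_basis_LA hs hc hΔ hT hi c c.2, mul_zero]
  · have h2 : dC b Q (s x) = ∑ i : IC Q, b.repr x i * dC b Q (s (b i)) := by
      rw [h1, dC_sum]
      have h3 : ∀ j, dC b Q ((b.repr x) j • s (b j)) = b.repr x j * dC b Q (s (b j)) :=
        fun j => dC_smul _ _
      simp only [h3]
      rw [← Finset.sum_subtype (Finset.univ.filter fun i : ι => (X i : MvPolynomial ι O) ∈ Q)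
        (fun i => by simp) (fun i => b.repr x i * dC b Q (s (b i)))]
      symm
      refine Finset.sum_subset (Finset.subset_univ _) fun i _ hi => ?_
      have hi' : (X i : MvPolynomial ι O) ∉ Q := by simpa using hi
      rw [dC_of_LA (s_basis_LA hs hc hΔ hT hi'), mul_zero]
    rw [h2]
    unfold dC
    refine Finset.sum_le_sum fun i _ => ?_
    exact le_mul_of_one_le_right (hx i) (dC_s_basis_pos hp hs hc hΔ hT i)

lemma s_pow_nonneg (hp : 0 < p) (hs : s ^ p = 1) (hc : CD Δ v b) (hΔ : ∀ m ∈ Δ, s m ∈ Δ)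
    (hT : CT p s 𝔓 Δ v b Q) (n : ℕ) {x : Λ} (hx : ∀ c : IC Q, 0 ≤ b.repr x c) :
    (∀ c : IC Q, 0 ≤ b.repr ((s ^ n) x) c) ∧ dC b Q x ≤ dC b Q ((s ^ n) x) := by
  induction n with
  | zero => simpa using hx
  | succ n ih =>
    rw [pow_succ', Module.End.mul_apply]
    have h1 := s_nonneg hp hs hc hΔ hT ih.1
    exact ⟨h1.1, ih.2.trans h1.2⟩

/-- `s` permutes the coordinates which vanish at `Q`, modulo `LA`. -/
lemma exists_perm (hp : 0 < p) (hs : s ^ p = 1) (hc : CD Δ v b) (hΔ : ∀ m ∈ Δ, s m ∈ Δ)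
    (hT : CT p s 𝔓 Δ v b Q) (i : IC Q) : ∃ c : IC Q, s (b i) - b c ∈ LA b Q := by
  classical
  have h0 : ∀ c : IC Q, 0 ≤ b.repr (b i) c := by
    intro c
    rw [Module.Basis.repr_self, Finsupp.single_apply]
    split_ifs <;> simp
  have h1 : dC b Q (s (b i)) = 1 := by
    refine le_antisymm ?_ (dC_s_basis_pos hp hs hc hΔ hT i)
    have h2 := (s_pow_nonneg hp hs hc hΔ hT (p - 1) (s_nonneg hp hs hc hΔ hT h0).1).2
    rw [← Module.End.mul_apply, ← pow_succ, Nat.sub_add_cancel hp, hs, Module.End.one_apply,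
      dC_basis i] at h2
    exact h2
  have hnn := fun c : IC Q => repr_s_basis hs hc hΔ hT i c
  obtain ⟨c, hc1⟩ : ∃ c : IC Q, 1 ≤ b.repr (s (b i)) c := by
    by_contra hcon
    push Not at hcon
    have h3 : dC b Q (s (b i)) = 0 := Finset.sum_eq_zero fun c _ => by
      have := hcon c
      have := hnn c
      omega
    omega
  refine ⟨c, fun e he => ?_⟩
  rw [map_sub, Finsupp.sub_apply, Module.Basis.repr_self]
  unfold dC at h1
  rw [← Finset.add_sum_erase _ _ (Finset.mem_univ c)] at h1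
  have h4 : 0 ≤ ∑ x ∈ Finset.univ.erase c, b.repr (s (b i)) x :=
    Finset.sum_nonneg fun x _ => hnn x
  by_cases hec : e = c
  · rw [hec, Finsupp.single_eq_same]
    omega
  · rw [Finsupp.single_eq_of_ne hec, sub_zero]
    have h5 : ∑ x ∈ Finset.univ.erase c, b.repr (s (b i)) x = 0 := by omega
    exact (Finset.sum_eq_zero_iff_of_nonneg (fun x _ => hnn x)).1 h5 ⟨e, he⟩
      (Finset.mem_erase.2 ⟨fun h => hec (congrArg Subtype.val h), Finset.mem_univ _⟩)

lemma basis_sub_LA {i c : IC Q} (h : b i - b c ∈ LA b Q) : i = c := by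
  classical
  by_contra hne
  have h1 := h i i.2
  rw [map_sub, Finsupp.sub_apply, Module.Basis.repr_self, Module.Basis.repr_self,
    Finsupp.single_eq_same, Finsupp.single_eq_of_ne, sub_zero] at h1
  · exact one_ne_zero h1
  · exact fun h => hne (Subtype.ext h)

/-- The permutation of the coordinates which vanish at `Q`, with representatives of the orbits. -/
theorem exists_rep (hp : p.Prime) (hs : s ^ p = 1) (hc : CD Δ v b) (hΔ : ∀ m ∈ Δ, s m ∈ Δ)
    (hT : CT p s 𝔓 Δ v b Q) : ∃ (ϖ r : IC Q → IC Q),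
      (∀ (n : ℕ) (i : IC Q), (s ^ n) (b i) - b (ϖ^[n] i) ∈ LA b Q) ∧
      (∀ i, r (r i) = r i) ∧ (∀ i, r (ϖ i) = r i) ∧ (∀ i, ∃ a, a < p ∧ ϖ^[a] (r i) = i) ∧
      (∀ a a' c, a < p → a' < p → ϖ c ≠ c → ϖ^[a] c = ϖ^[a'] c → a = a') := by
  classical
  choose ϖ hϖ using exists_perm hp.pos hs hc hΔ hT
  have h1 : ∀ (n : ℕ) (i : IC Q), (s ^ n) (b i) - b (ϖ^[n] i) ∈ LA b Q := by
    intro n
    induction n with
    | zero =>
      intro i
      rw [pow_zero, Module.End.one_apply, Function.iterate_zero, id, sub_self]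
      exact (LA b Q).zero_mem
    | succ n ih =>
      intro i
      rw [Function.iterate_succ_apply', pow_succ', Module.End.mul_apply]
      have h2 := (LA b Q).add_mem (s_LA hs hc hΔ hT (ih i)) (hϖ (ϖ^[n] i))
      rw [map_sub] at h2
      have h3 : s ((s ^ n) (b i)) - b (ϖ (ϖ^[n] i)) =
          s ((s ^ n) (b i)) - s (b (ϖ^[n] i)) + (s (b (ϖ^[n] i)) - b (ϖ (ϖ^[n] i))) := by abel
      rw [h3]
      exact h2
  have hper : ∀ i, ϖ^[p] i = i := by
    intro i
    have h2 := h1 p i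
    rw [hs, Module.End.one_apply] at h2
    exact (basis_sub_LA h2).symm
  have hmod : ∀ n i, ϖ^[n % p] i = ϖ^[n] i := fun n i =>
    (Function.IsPeriodicPt.iterate_mod_apply (hper i) n)
  let S : Setoid (IC Q) :=
    { r := fun i c => ∃ n, ϖ^[n] i = c
      iseqv :=
        { refl := fun i => ⟨0, rfl⟩
          symm := by
            rintro i c ⟨n, rfl⟩
            refine ⟨(p - 1) * n, ?_⟩
            rw [← Function.iterate_add_apply]
            have : (p - 1) * n + n = p * n := by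
              rw [← Nat.succ_mul, Nat.succ_eq_add_one, Nat.sub_add_cancel hp.one_le]
            rw [this, ← hmod, Nat.mul_mod_right]
            rfl
          trans := by
            rintro i c e ⟨n, rfl⟩ ⟨m, rfl⟩
            exact ⟨m + n, by rw [Function.iterate_add_apply]⟩ } }
  have hr : ∀ i, S.r (Quotient.out (Quotient.mk S i)) i := fun i => Quotient.exact (Quotient.out_eq _)
  refine ⟨ϖ, fun i => Quotient.out (Quotient.mk S i), h1, ?_, ?_, ?_, ?_⟩
  · intro i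
    change Quotient.out (Quotient.mk S (Quotient.out (Quotient.mk S i))) = _
    rw [Quotient.out_eq]
  · intro i
    change Quotient.out (Quotient.mk S (ϖ i)) = Quotient.out (Quotient.mk S i)
    congr 1
    exact Quotient.sound (S.symm (⟨1, rfl⟩ : S.r i (ϖ i)))
  · intro i
    obtain ⟨n, hn⟩ := hr i
    exact ⟨n % p, Nat.mod_lt _ hp.pos, by rw [hmod]; exact hn⟩
  · intro a a' c ha ha' hne h
    have h2 : Function.minimalPeriod ϖ c = p := by
      rcases (Nat.dvd_prime hp).1 (Function.IsPeriodicPt.minimalPeriod_dvd (hper c)) with h3 | h3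
      · exact absurd (Function.minimalPeriod_eq_one_iff_isFixedPt.1 h3) hne
      · exact h3
    exact (Function.iterate_eq_iterate_iff_of_lt_minimalPeriod (by rwa [h2]) (by rwa [h2])).1 h

end perm

end

end Pool.Agent.T9h3
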