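import Pool.Agent.T9h3.Rich

/-!
# Toric schemes: the charts are regular
-/

set_option autoImplicit false
set_option linter.unusedSectionVars false

namespace Pool.Agent.T9h3

open MvPolynomial IsLocalRing Algebra Pool.Agent.Y223.G
open Pool.Agent.Y86.G5 (im mem_im im_sub im_mul im_prime im_one im_pow up mem_up up_prime)

section

variable {O K Λ : Type} [CommRing O] [Field K] [Algebra O K] [AddCommGroup Λ] {χ : Λ → K}
  {Δ : Set Λ} {v : Λ} {w : K}

/-- The ring of the chart. -/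
noncomputable def CG0 (O : Type) {K Λ : Type} [CommRing O] [Field K] [Algebra O K]
    [AddCommGroup Λ] (χ : Λ → K) (Δ : Set Λ) (w : K) : Subalgebra O K :=
  Algebra.adjoin O {y | ∃ m ∈ Δ, y = χ m / w}

lemma CG0_mem {u : K} (hu : u ∈ Submodule.span ℤ (χ '' Δ)) : u / w ∈ CG0 O χ Δ w := by
  induction hu using Submodule.span_induction with
  | mem x hx =>
    obtain ⟨m, hmΔ, rfl⟩ := hx
    exact Algebra.subset_adjoin ⟨m, hmΔ, rfl⟩
  | zero => rw [zero_div]; exact Subalgebra.zero_mem _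
  | add x y _ _ hx hy => rw [add_div]; exact Subalgebra.add_mem _ hx hy
  | smul c x _ hx =>
    rw [zsmul_eq_mul, mul_div_assoc]
    exact Subalgebra.mul_mem _ (Subalgebra.intCast_mem _ c) hx

/-- The embedding in degree zero. -/
noncomputable def i0 (O K : Type) [CommRing O] [Field K] [Algebra O K] : K →ₐ[O] LP K where
  toFun := fun x => hm 0 x
  map_one' := hm_one
  map_mul' := fun a c => by rw [hm_mul, add_zero]
  map_zero' := hm_zero 0
  map_add' := fun a c => hm_add 0 a c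
  commutes' := fun _ => rfl

lemma i0_inj : Function.Injective (i0 O K) := fun _ _ h => hm_inj h

lemma cover_gen (h0 : χ 0 = 1) (ha : ∀ x y, χ (x + y) = χ x * χ y) (hV : CV0 Δ) (hw : w ≠ 0)
    (hwW : w ∈ Submodule.span ℤ (χ '' Δ)) (R : Subalgebra O (LP K))
    (hR : ∀ u ∈ Submodule.span ℤ (χ '' Δ), hm 0 (u / w) ∈ R) (𝔔 : Ideal R) (h𝔔 : 𝔔.IsPrime) :
    ∃ v, SV0 Δ v ∧ hm 0 (χ v / w) ∉ im R 𝔔 := by
  classical
  have hvm : ∀ v, SV0 Δ v → v ∈ Δ := by
    rintro v ⟨ι, _, b, hc⟩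
    exact hc.vm
  have hRc : ∀ m ∈ Δ, hm 0 (χ m / w) ∈ R := fun m hmΔ =>
    hR _ (Submodule.subset_span ⟨m, hmΔ, rfl⟩)
  obtain ⟨m, hmΔ, h1⟩ : ∃ m ∈ Δ, hm 0 (χ m / w) ∉ im R 𝔔 := by
    by_contra hcon
    push Not at hcon
    have key : ∀ u ∈ Submodule.span ℤ (χ '' Δ), hm 0 (u / w) ∈ im R 𝔔 := by
      intro u hu
      induction hu using Submodule.span_induction with
      | mem x hx =>
        obtain ⟨m, hmΔ, rfl⟩ := hx
        exact hcon m hmΔ
      | zero => rw [zero_div, hm_zero]; exact (im _ 𝔔).zero_mem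
      | add x y _ _ hx hy => rw [add_div, hm_add]; exact (im _ 𝔔).add_mem hx hy
      | smul c x _ hx =>
        have h1 : (hm 0 (c • x / w) : LP K) = hm 0 (c : K) * hm 0 (x / w) := by
          rw [zsmul_eq_mul, mul_div_assoc, hm_mul, zero_add]
        rw [h1]
        refine im_mul ?_ hx
        have h2 := R.algebraMap_mem (c : O)
        rwa [algebraMap_LP, map_intCast] at h2
    have h1 := key w hwW
    rw [div_self hw, hm_one] at h1
    exact im_one h𝔔 h1
  obtain ⟨T, hT0, hT, h2⟩ := hV m hmΔ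
  obtain ⟨v, hv⟩ := Multiset.exists_mem_of_ne_zero hT0
  obtain ⟨T', rfl⟩ := Multiset.exists_cons_of_mem hv
  refine ⟨v, hT v hv, fun h3 => ?_⟩
  refine im_pow h𝔔 (hRc m hmΔ) h1 (Multiset.card (v ::ₘ T')) ?_
  have hsum : ∀ T : Multiset Λ, (hm 0 (χ T.sum / w ^ T.card) : LP K) =
      (T.map fun v => (hm 0 (χ v / w) : LP K)).prod := by
    intro T
    induction T using Multiset.induction_on with
    | empty => simp [h0, hm_one]
    | cons v T ih =>
      rw [Multiset.sum_cons, Multiset.map_cons, Multiset.prod_cons, ← ih, hm_mul, ha,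
        Multiset.card_cons, zero_add]
      congr 1
      rw [pow_succ]
      field_simp
  have h4 : (hm 0 (χ m / w) ^ (Multiset.card (v ::ₘ T')) : LP K) =
      (T'.map fun v => (hm 0 (χ v / w) : LP K)).prod * hm 0 (χ v / w) := by
    rw [mul_comm, ← Multiset.prod_cons, ← Multiset.map_cons (fun v => (hm 0 (χ v / w) : LP K)),
      ← hsum, hm_pow, mul_zero, div_pow, ← chi_nsmul h0 ha, h2]
  rw [h4]
  refine im_mul (Subalgebra.multiset_prod_mem _ fun x hx => ?_) h3
  rw [Multiset.mem_map] at hx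
  obtain ⟨v', hv', rfl⟩ := hx
  exact hRc _ (hvm _ (hT _ (Multiset.mem_cons_of_mem hv')))

/-- The chart at a vertex. -/
lemma CG0_vertex {ι : Type} [Fintype ι] {b : Module.Basis ι ℤ Λ} (h0 : χ 0 = 1)
    (ha : ∀ x y, χ (x + y) = χ x * χ y) (hc : CD Δ v b) :
    CG0 O χ Δ (χ v) = (aeval (fun i => χ (b i)) : MvPolynomial ι O →ₐ[O] K).range := by
  have hv0 := chi_ne h0 ha v
  apply le_antisymm
  · unfold CG0
    rw [Algebra.adjoin_le_iff]
    rintro _ ⟨m, hmΔ, rfl⟩
    refine ⟨mon O b (m - v), ?_⟩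
    change ev O χ b (mon O b (m - v)) = _
    rw [ev_mon h0 ha b (hc.nn m hmΔ), chi_sub h0 ha]
  · rw [← Algebra.adjoin_range_eq_range_aeval, Algebra.adjoin_le_iff]
    rintro _ ⟨i, rfl⟩
    have h1 : χ (b i) = χ (v + b i) / χ v := by rw [ha]; field_simp
    change χ (b i) ∈ CG0 O χ Δ (χ v)
    rw [h1]
    exact Algebra.subset_adjoin ⟨_, hc.nb i, rfl⟩

end

section reg

variable {O K Λ : Type} [CommRing O] [IsDomain O] [IsDedekindDomain O] [Field K] [Algebra O K]
  [AddCommGroup Λ] {χ : Λ → K} {Δ : Set Λ} {v : Λ} {w : K}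

lemma CG0_reg_vertex {ι : Type} [Fintype ι] {b : Module.Basis ι ℤ Λ} (h0 : χ 0 = 1)
    (ha : ∀ x y, χ (x + y) = χ x * χ y) (hl : LinearIndependent O χ) (hc : CD Δ v b) :
    IsRegularRing (CG0 O χ Δ (χ v)) := by
  rw [CG0_vertex h0 ha hc]
  have h1 : Function.Injective (aeval (fun i => χ (b i)) : MvPolynomial ι O →ₐ[O] K) :=
    ev_inj h0 ha hl b
  exact IsRegularRing.of_ringEquiv (AlgEquiv.ofInjective _ h1).toRingEquiv

/-- **The charts are regular.** -/
theorem CG0_reg (h0 : χ 0 = 1) (ha : ∀ x y, χ (x + y) = χ x * χ y)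
    (hl : LinearIndependent O χ) (hfin : Δ.Finite) (hV : CV0 Δ) (hw : w ≠ 0)
    (hwW : w ∈ Submodule.span ℤ (χ '' Δ)) : IsRegularRing (CG0 O χ Δ w) := by
  have hft : Algebra.FiniteType O (CG0 O χ Δ w) := by
    rw [← Subalgebra.fg_iff_finiteType]
    have h1 : {y | ∃ m ∈ Δ, y = χ m / w}.Finite := by
      refine (hfin.image fun m => χ m / w).subset ?_
      rintro _ ⟨m, hmΔ, rfl⟩
      exact ⟨m, hmΔ, rfl⟩
    exact ⟨h1.toFinset, by rw [Set.Finite.coe_toFinset]; rfl⟩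
  obtain ⟨R, hR⟩ : ∃ R : K → Subalgebra O (LP K), R = fun w => (CG0 O χ Δ w).map (i0 O K) :=
    ⟨_, rfl⟩
  have memR : ∀ w x, hm 0 x ∈ R w ↔ x ∈ CG0 O χ Δ w := by
    intro w x
    rw [hR]
    constructor
    · rintro ⟨y, hy, hyx⟩
      have : y = x := i0_inj (O := O) hyx
      rw [← this]
      exact hy
    · intro hx
      exact ⟨x, hx, rfl⟩
  have eR : ∀ w, Nonempty (CG0 O χ Δ w ≃+* R w) := by
    intro w
    rw [hR]
    exact ⟨(Subalgebra.equivMapOfInjective _ _ i0_inj).toRingEquiv⟩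
  have hle : ∀ w w' : K, w ≠ 0 → w' ≠ 0 → ∀ ht : hm 0 (w / w') ∈ R w',
      R w ≤ loc (R w') (hm 0 (w / w')) ht := by
    intro w w' hw hw' ht
    have h1 : CG0 O χ Δ w ≤ (loc (R w') (hm 0 (w / w')) ht).comap (i0 O K) := by
      unfold CG0
      rw [Algebra.adjoin_le_iff]
      rintro _ ⟨m, hmΔ, rfl⟩
      change hm 0 (χ m / w) ∈ loc (R w') (hm 0 (w / w')) ht
      refine ⟨1, ?_⟩
      rw [pow_one, hm_mul, zero_add]
      have e1 : w / w' * (χ m / w) = χ m / w' := by field_simp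
      rw [e1, memR]
      exact Algebra.subset_adjoin ⟨m, hmΔ, rfl⟩
    intro f hf
    have hf' : f ∈ (CG0 O χ Δ w).map (i0 O K) := by
      have h2 := congrFun hR w
      rw [h2] at hf
      exact hf
    obtain ⟨y, hy, rfl⟩ := hf'
    exact h1 hy
  have hRw : IsRegularRing (R w) := by
    obtain ⟨e⟩ := eR w
    have hN : IsNoetherianRing (R w) := by
      have h1 : IsNoetherianRing (CG0 O χ Δ w) := Algebra.FiniteType.isNoetherianRing O _
      exact isNoetherianRing_of_ringEquiv _ e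
    rw [isRegularRing_iff]
    intro Q hQ
    obtain ⟨v, hv, h1⟩ := cover_gen h0 ha hV hw hwW (R w)
      (fun u hu => (memR _ _).2 (CG0_mem hu)) Q hQ
    obtain ⟨ι, _, b, hc⟩ := hv
    have hv0 := chi_ne h0 ha v
    have ht : hm 0 (χ v / w) ∈ R w := (memR _ _).2 (Algebra.subset_adjoin ⟨v, hc.vm, rfl⟩)
    have hreg : IsRegularRing (R (χ v)) := by
      obtain ⟨e'⟩ := eR (χ v)
      have h2 := CG0_reg_vertex (O := O) h0 ha hl hc
      exact IsRegularRing.of_ringEquiv e'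
    have hv' : hm 0 (w / χ v) ∈ R (χ v) := (memR _ _).2 (CG0_mem hwW)
    have hv'' : hm 0 (1 * (w / χ v)) ∈ R (χ v) := by rwa [one_mul]
    have h1' : hm 0 ((1 : K)⁻¹) ∈ R w := by
      rw [inv_one, hm_one]; exact Subalgebra.one_mem _
    refine Pool.Agent.Y290.G.regular_atPrime ht (isUnit_hm (div_ne_zero hv0 hw)) ?_ Q
      (fun h => h1 ⟨_, h⟩)
    rw [Pool.Agent.R383.TM.loc_eq' ht hv' hv'' h1' one_ne_zero (by field_simp)
      (hle _ _ hv0 hw ht) (by
        have h2 := hle _ _ hw hv0 hv'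
        intro x hx
        obtain ⟨n, hn⟩ := h2 hx
        exact ⟨n, by rw [one_mul]; exact hn⟩)]
    exact regular_loc hreg hv'' (isUnit_hm (by rw [one_mul]; exact div_ne_zero hw hv0))
  obtain ⟨e⟩ := eR w
  exact IsRegularRing.of_ringEquiv e.symm

end reg

end Pool.Agent.T9h3
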