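import Pool.Agent.T9h3.Par

/-!
# Characters of a torus with an automorphism of prime order: the weighted ideals
-/

set_option autoImplicit false
set_option linter.unusedSectionVars false

namespace Pool.Agent.T9h3

open MvPolynomial

section defs

variable {O K Λ ι : Type} [CommRing O] [Field K] [Algebra O K] [AddCommGroup Λ] [Fintype ι]

/-- The positive part. -/
noncomputable def pp (b : Module.Basis ι ℤ Λ) (x : Λ) : Λ := ∑ i, ((b.repr x i).toNat : ℤ) • b i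

lemma repr_sum_basis (b : Module.Basis ι ℤ Λ) (c : ι → ℤ) (i : ι) :
    b.repr (∑ j, c j • b j) i = c i := by
  classical
  rw [map_sum, Finsupp.finset_sum_apply, Finset.sum_eq_single i]
  · rw [map_smul, Finsupp.smul_apply, Module.Basis.repr_self, Finsupp.single_eq_same,
      smul_eq_mul, mul_one]
  · intro j _ hj
    rw [map_smul, Finsupp.smul_apply, Module.Basis.repr_self, Finsupp.single_eq_of_ne (Ne.symm hj),
      smul_zero]
  · intro h; exact absurd (Finset.mem_univ _) h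

lemma repr_pp (b : Module.Basis ι ℤ Λ) (x : Λ) (i : ι) : b.repr (pp b x) i = (b.repr x i).toNat :=
  repr_sum_basis b _ i

lemma mon_pp (b : Module.Basis ι ℤ Λ) (x : Λ) : mon O b (pp b x) = mon O b x := by
  unfold mon
  refine Finset.prod_congr rfl fun i _ => ?_
  rw [repr_pp, Int.toNat_natCast]

lemma sub_pp (b : Module.Basis ι ℤ Λ) (x : Λ) : pp b x - pp b (-x) = x := by
  apply b.repr.injective
  ext i
  rw [map_sub, Finsupp.sub_apply, repr_pp, repr_pp, map_neg, Finsupp.neg_apply]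
  omega

lemma pp_LA {b : Module.Basis ι ℤ Λ} {Q : Ideal (MvPolynomial ι O)} {x : Λ} (hx : x ∈ LA b Q) :
    pp b x ∈ LA b Q := by
  intro i hi
  rw [repr_pp, hx i hi]
  rfl

lemma mon_LA' {b : Module.Basis ι ℤ Λ} {Q : Ideal (MvPolynomial ι O)} [Q.IsPrime] {x : Λ}
    (hx : x ∈ LA b Q) : mon O b x ∉ Q := by
  rw [mon_notMem]
  intro i hi
  rw [hx i hi]
  rfl

/-- Monomials of elements with arbitrary coordinates. -/
lemma ev_mon' {χ : Λ → K} (h0 : χ 0 = 1) (ha : ∀ x y, χ (x + y) = χ x * χ y)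
    (b : Module.Basis ι ℤ Λ) (x : Λ) :
    ev O χ b (mon O b x) - ev O χ b (mon O b (-x)) = ev O χ b (mon O b (-x)) * (χ x - 1) := by
  have h1 : χ (pp b x) = χ (pp b (-x)) * χ x := by
    rw [← ha]
    congr 1
    rw [add_comm, ← sub_eq_iff_eq_add, sub_pp]
  have h2 : ∀ x, ev O χ b (mon O b x) = χ (pp b x) := by
    intro x
    rw [← mon_pp, ev_mon h0 ha]
    intro i
    rw [repr_pp]
    exact Int.natCast_nonneg _
  rw [h2, h2, h1]
  ring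

/-- The points of the polytope which are needed to separate the characters of norm zero. -/
def RD (p : ℕ) (s : Module.End ℤ Λ) (Δ : Set Λ) (v : Λ) (b : Module.Basis ι ℤ Λ) : Prop :=
  ∀ S : Set ι, ∀ x : Λ, (∀ i ∈ S, b.repr x i = 0) → Nm p s x = 0 →
    x ∈ Submodule.span ℤ {y : Λ | (∀ i ∈ S, b.repr y i = 0) ∧ Nm p s y = 0 ∧
      v + pp b y ∈ Δ ∧ v + pp b (-y) ∈ Δ}

/-- The chosen data at a point of the centre. -/
structure PD (p : ℕ) (t : O →+* O) (s : Module.End ℤ Λ) (𝔓 : Ideal O) (l : ℕ)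
    (b : Module.Basis ι ℤ Λ) (Q : Ideal (MvPolynomial ι O)) (ϖ r : IC Q → IC Q) {J : Type}
    [Fintype J] (k : J → ℕ) (μ : J → Λ) (π : O) : Prop where
  orb : ∀ (n : ℕ) (i : IC Q), (s ^ n) (b i) - b (ϖ^[n] i) ∈ LA b Q
  rr : ∀ i, r (r i) = r i
  rw' : ∀ i, r (ϖ i) = r i
  ex : ∀ i, ∃ a, a < p ∧ ϖ^[a] (r i) = i
  un : ∀ a a' c, a < p → a' < p → ϖ c ≠ c → ϖ^[a] c = ϖ^[a'] c → a = a'
  k1 : ∀ j, 1 ≤ k j ∧ k j ≤ p - 1 ∧ ∃ y ∈ L0 p s b Q, μ j = ((s - 1) ^ (k j - 1)) y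
  gen : ∀ m, 1 ≤ m → m ≤ p - 1 → ∀ y ∈ L0 p s b Q, ∃ n : J → ℤ, (∀ j, n j ≠ 0 → m ≤ k j) ∧
    ∃ t ∈ L0 p s b Q, ((s - 1) ^ (m - 1)) y = ∑ j, n j • μ j + (p : ℤ) • t
  ind : ∀ j, ∃ φ : ι → ℤ, ((∑ i, φ i * b.repr (μ j) i : ℤ) : ZMod p) = 1 ∧
    ∀ j', j' ≠ j → ((∑ i, φ i * b.repr (μ j') i : ℤ) : ZMod p) = 0
  πP : π ∈ 𝔓
  πn : t π - π ∉ 𝔓 ^ (l + 2)

/-- The representatives of the orbits of length `p`. -/
abbrev RT {Q : Ideal (MvPolynomial ι O)} (ϖ r : IC Q → IC Q) : Type :=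
  {c : IC Q // r c = c ∧ ϖ c ≠ c}

/-- The index set of the parameters. -/
abbrev PI {Q : Ideal (MvPolynomial ι O)} (ϖ r : IC Q → IC Q) (J : Type) (p : ℕ) : Type :=
  Option (J ⊕ (RT ϖ r × Fin (p - 1)))

/-- The parameters. -/
noncomputable def px {Q : Ideal (MvPolynomial ι O)} (s : Module.End ℤ Λ) (v : Λ)
    (b : Module.Basis ι ℤ Λ) (ϖ r : IC Q → IC Q) {J : Type} (μ : J → Λ) (π : O) (p : ℕ) :
    PI ϖ r J p → MvPolynomial ι O
  | none => C π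
  | some (Sum.inl j) => mon O b (μ j) - mon O b (-μ j)
  | some (Sum.inr (c, n)) => ∑ a ∈ Finset.range (n + 2),
      (((-1) ^ ((n : ℕ) + 1 - a) * (((n : ℕ) + 1).choose a : ℤ) : ℤ) : MvPolynomial ι O) *
        mon O b ((s ^ a) (v + b c) - v)

/-- The weights of the parameters. -/
def pa {Q : Ideal (MvPolynomial ι O)} (ϖ r : IC Q → IC Q) {J : Type} (k : J → ℕ) (l p : ℕ) :
    PI ϖ r J p → ℕ
  | none => 1
  | some (Sum.inl j) => k j * l
  | some (Sum.inr (_, n)) => ((n : ℕ) + 1) * l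

/-- The differences of coordinates with the same norm. -/
def W1 (χ : Λ → K) (p : ℕ) (s : Module.End ℤ Λ) (Δ : Set Λ) : Submodule ℤ K :=
  Submodule.span ℤ {x | ∃ m ∈ Δ, ∃ m' ∈ Δ, Nm p s m = Nm p s m' ∧ x = χ m - χ m'}

/-- The filtration of the space of the linear forms. -/
def WW (χ : Λ → K) (σ : K →+* K) (p : ℕ) (s : Module.End ℤ Λ) (Δ : Set Λ) : ℕ → Submodule ℤ K
  | 0 => Submodule.span ℤ (χ '' Δ)
  | k + 1 => (W1 χ p s Δ).map ((dK σ) ^ k)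

end defs

section lat

variable {O Λ ι : Type} [CommRing O] [AddCommGroup Λ] [Fintype ι] {p : ℕ} {s : Module.End ℤ Λ}
  {𝔓 : Ideal O} {Δ : Set Λ} {v : Λ} {b : Module.Basis ι ℤ Λ} {Q : Ideal (MvPolynomial ι O)}
  [hQ : Q.IsPrime]

lemma s1_L0 (hs : s ^ p = 1) (hc : CD Δ v b) (hΔ : ∀ m ∈ Δ, s m ∈ Δ) (hT : CT p s 𝔓 Δ v b Q)
    {x : Λ} (hx : x ∈ L0 p s b Q) : (s - 1) x ∈ L0 p s b Q := by
  rw [LinearMap.sub_apply, Module.End.one_apply]
  exact (L0 p s b Q).sub_mem (s_L0 hs hc hΔ hT hx) hx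

lemma s1_pow_L0 (hs : s ^ p = 1) (hc : CD Δ v b) (hΔ : ∀ m ∈ Δ, s m ∈ Δ)
    (hT : CT p s 𝔓 Δ v b Q) (n : ℕ) {x : Λ} (hx : x ∈ L0 p s b Q) :
    ((s - 1) ^ n) x ∈ L0 p s b Q := by
  induction n with
  | zero => rwa [pow_zero, Module.End.one_apply]
  | succ n ih => rw [pow_succ', Module.End.mul_apply]; exact s1_L0 hs hc hΔ hT ih

/-- The top power of `s - 1`. -/
lemma s1_top (hp : p.Prime) (hs : s ^ p = 1) (hc : CD Δ v b) (hΔ : ∀ m ∈ Δ, s m ∈ Δ)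
    (hT : CT p s 𝔓 Δ v b Q) : ∃ G : Module.End ℤ Λ, (∀ x ∈ L0 p s b Q, G x ∈ L0 p s b Q) ∧
      ∀ x ∈ L0 p s b Q, ((s - 1) ^ (p - 1)) x = -((p : ℤ) • (x + (s - 1) (G x))) := by
  obtain ⟨G, h1, h2⟩ := exists_Dp hp s
  exact ⟨G, fun x hx => h1 _ (fun y hy => s_L0 hs hc hΔ hT hy) x hx, fun x hx => h2 x hx.2⟩

/-- Existence of the data. -/
theorem exists_PD (hp : p.Prime) {t : O →+* O} {l : ℕ} (hs : s ^ p = 1) (hc : CD Δ v b)
    (hΔ : ∀ m ∈ Δ, s m ∈ Δ) (hT : CT p s 𝔓 Δ v b Q) {π : O} (hπ : π ∈ 𝔓)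
    (hπn : t π - π ∉ 𝔓 ^ (l + 2)) : ∃ (ϖ r : IC Q → IC Q) (J : Type) (_ : Fintype J) (k : J → ℕ)
      (μ : J → Λ), PD p t s 𝔓 l b Q ϖ r k μ π := by
  classical
  have _ : Fintype (IC Q) := Fintype.ofFinite _
  obtain ⟨ϖ, r, h1, h2, h3, h4, h5⟩ := exists_rep hp hs hc hΔ hT
  obtain ⟨G, hG, hG'⟩ := s1_top hp hs hc hΔ hT
  have hp0 : (p : ℤ) ≠ 0 := by exact_mod_cast hp.ne_zero
  have htf : ∀ x : Λ, (p : ℤ) • x = 0 → x = 0 := by
    intro x hx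
    apply b.repr.injective
    ext i
    have h6 := congrArg (fun y => b.repr y i) hx
    simp only [map_smul, Finsupp.smul_apply, smul_eq_mul, map_zero, Finsupp.zero_apply] at h6
    rw [map_zero, Finsupp.zero_apply]
    exact (mul_eq_zero.1 h6).resolve_left hp0
  obtain ⟨J, hJ, k, μ, h6, h7, h8⟩ := exists_adapted b hp (L0 p s b Q) (by
    intro x hx
    refine ⟨fun i hi => ?_, ?_⟩
    · have h9 := hx.1 i hi
      rw [map_smul, Finsupp.smul_apply, smul_eq_mul] at h9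
      exact (mul_eq_zero.1 h9).resolve_left hp0
    · have h9 : Nm p s ((p : ℤ) • x) = 0 := hx.2
      rw [map_smul] at h9
      exact htf _ h9) (s - 1) (fun x hx => s1_L0 hs hc hΔ hT hx) (fun x hx => by
      refine ⟨-(x + (s - 1) (G x)), (L0 p s b Q).neg_mem ((L0 p s b Q).add_mem hx
        (s1_L0 hs hc hΔ hT (hG x hx))), ?_⟩
      rw [hG' x hx, smul_neg])
  exact ⟨ϖ, r, J, hJ, k, μ, h1, h2, h3, h4, h5, h6, h7, h8, hπ, hπn⟩

end lat

end Pool.Agent.T9h3
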