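import Pool.Agent.T9h3.FFa

/-!
# Characters of a torus with an automorphism of prime order: the weighted ideals are stable
-/

set_option autoImplicit false
set_option linter.unusedSectionVars false

namespace Pool.Agent.T9h3

open MvPolynomial

noncomputable instance instRT {O ι : Type} [CommRing O] [Fintype ι]
    {Q : Ideal (MvPolynomial ι O)} (ϖ r : IC Q → IC Q) : Fintype (RT ϖ r) := Fintype.ofFinite _

/-- The context at a point of the centre, without the choice of parameters. -/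
structure CY {O K Λ ι : Type} [CommRing O] [Field K] [Algebra O K]
    [AddCommGroup Λ] [Fintype ι] (χ : Λ → K) (b : Module.Basis ι ℤ Λ)
    (Q : Ideal (MvPolynomial ι O)) (p : ℕ) (σ : K →+* K) (t : O →+* O) (s : Module.End ℤ Λ)
    (𝔓 : Ideal O) (l : ℕ) (Δ : Set Λ) (v : Λ) : Prop where
  h : TD O K Λ p σ t s χ 𝔓 l
  hc : CD Δ v b
  hΔ : ∀ m ∈ Δ, s m ∈ Δ
  hT : CT p s 𝔓 Δ v b Q
  hR : RD p s Δ v b

section cy

variable {O K Λ ι : Type} [CommRing O] [Field K]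
  [Algebra O K] [AddCommGroup Λ] [Fintype ι] {χ : Λ → K} {b : Module.Basis ι ℤ Λ}
  {Q : Ideal (MvPolynomial ι O)} [hQ : Q.IsPrime] {p : ℕ} {σ : K →+* K} {t : O →+* O}
  {s : Module.End ℤ Λ} {𝔓 : Ideal O} {l : ℕ} {Δ : Set Λ} {v : Λ}

lemma CY.inj (Y : CY χ b Q p σ t s 𝔓 l Δ v) : Function.Injective (ev O χ b) :=
  ev_inj Y.h.χ0 Y.h.χa Y.h.lin b

lemma CY.notP (Y : CY χ b Q p σ t s 𝔓 l Δ v) {a : O} (ha : a ∉ 𝔓) :
    (C a : MvPolynomial ι O) ∉ Q := by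
  intro h1
  obtain ⟨c, hc⟩ := Y.h.mx.exists_inv ha
  obtain ⟨i, hi, h2⟩ := hc
  apply hQ.ne_top
  rw [Ideal.eq_top_iff_one, ← map_one C, ← h2, map_add, map_mul]
  exact Q.add_mem (Q.mul_mem_left _ h1) (Y.hT.P _ hi)

/-- `m` in the polytope. -/
lemma CY.chi_div (Y : CY χ b Q p σ t s 𝔓 l Δ v) {m : Λ} (hm : m ∈ Δ) :
    χ m / χ v = ev O χ b (mon O b (m - v)) := by
  rw [ev_mon Y.h.χ0 Y.h.χa b (Y.hc.nn m hm), chi_sub Y.h.χ0 Y.h.χa]

lemma CY.chi_div_mem (Y : CY χ b Q p σ t s 𝔓 l Δ v) (L : LF (ev O χ b) Q) {m : Λ} (hm : m ∈ Δ) :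
    χ m / χ v ∈ L.F 0 := by
  rw [Y.chi_div hm]
  exact L.base' _

lemma CY.spow (Y : CY χ b Q p σ t s 𝔓 l Δ v) (n : ℕ) {m : Λ} (hm : m ∈ Δ) : (s ^ n) m ∈ Δ := by
  induction n with
  | zero => rwa [pow_zero, Module.End.one_apply]
  | succ n ih => rw [pow_succ', Module.End.mul_apply]; exact Y.hΔ _ ih

lemma CY.sK_chi (Y : CY χ b Q p σ t s 𝔓 l Δ v) (n : ℕ) (x : Λ) :
    (sK σ ^ n) (χ x) = χ ((s ^ n) x) := by
  induction n with
  | zero => rw [pow_zero, pow_zero, Module.End.one_apply, Module.End.one_apply]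
  | succ n ih =>
    rw [pow_succ', pow_succ', Module.End.mul_apply, Module.End.mul_apply, ih, sK_apply, Y.h.σχ]

/-- Characters of norm zero and filtrations. -/
lemma CY.gens (Y : CY χ b Q p σ t s 𝔓 l Δ v) (L : LF (ev O χ b) Q) {n : ℤ}
    (hL : ∀ m ∈ Δ, ∀ m' ∈ Δ, Nm p s m = Nm p s m' → (χ m - χ m') / χ v ∈ L.F n) :
    L0 p s b Q ≤ US L Y.h.χ0 Y.h.χa n := by
  intro x hx
  have h1 := Y.hR {i | (X i : MvPolynomial ι O) ∈ Q} x hx.1 hx.2
  have h2 : Submodule.span ℤ {y : Λ | (∀ i ∈ {i | (X i : MvPolynomial ι O) ∈ Q},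
      b.repr y i = 0) ∧ Nm p s y = 0 ∧ v + pp b y ∈ Δ ∧ v + pp b (-y) ∈ Δ} ≤
      US L Y.h.χ0 Y.h.χa n := by
    rw [Submodule.span_le]
    rintro y ⟨hy1, hy2, hy3, hy4⟩
    have hyA : y ∈ LA b Q := hy1
    refine ⟨hyA, ?_⟩
    have h3 := hL _ hy3 _ hy4 (by
      rw [map_add, map_add]
      congr 1
      have h4 := sub_pp b y
      rw [← sub_eq_zero, ← map_sub, h4, hy2])
    have h5 : (χ (v + pp b y) - χ (v + pp b (-y))) / χ v = χ (pp b (-y)) * (χ y - 1) := by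
      have h6 : χ (pp b y) = χ (pp b (-y)) * χ y := by
        rw [← Y.h.χa]
        congr 1
        rw [add_comm, ← sub_eq_iff_eq_add, sub_pp]
      have hv0 := chi_ne Y.h.χ0 Y.h.χa v
      rw [Y.h.χa, Y.h.χa, h6]
      field_simp
    rw [h5] at h3
    have hA : pp b (-y) ∈ LA b Q := pp_LA ((LA b Q).neg_mem hyA)
    have h7 := L.mul0 (chi_LA L Y.h.χ0 Y.h.χa ((LA b Q).neg_mem hA)) h3
    rwa [← mul_assoc, ← Y.h.χa, neg_add_cancel, Y.h.χ0, one_mul] at h7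
  exact h2 h1

lemma CY.L0_MM (Y : CY χ b Q p σ t s 𝔓 l Δ v) :
    L0 p s b Q ≤ US (MM χ b Q) Y.h.χ0 Y.h.χa 1 := by
  refine Y.gens _ fun m hm m' hm' hN => ?_
  have h1 : (χ m - χ m') / χ v = ev O χ b (mon O b (m - v) - mon O b (m' - v)) := by
    rw [sub_div, Y.chi_div hm, Y.chi_div hm', map_sub]
  rw [h1]
  exact ⟨1, fun h => hQ.ne_top ((Ideal.eq_top_iff_one _).2 h), _,
    fun _ => Y.hT.d m hm m' hm' hN, by rw [map_one, one_mul]⟩

/-- The operator `σ - 1` on the quotients by `χ v`. -/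
lemma CY.div_del (Y : CY χ b Q p σ t s 𝔓 l Δ v) (L : LF (ev O χ b) Q)
    (h2 : L0 p s b Q ≤ US L Y.h.χ0 Y.h.χa l)
    (hst : ∀ (n : ℤ) f, f ∈ L.F n → σ f - f ∈ L.F (n + l)) {n : ℤ} {u : K}
    (hu : u / χ v ∈ L.F n) : (dK σ u) / χ v ∈ L.F (n + l) := by
  have hv0 := chi_ne Y.h.χ0 Y.h.χa v
  have hsv0 := chi_ne Y.h.χ0 Y.h.χa (s v)
  have e1 : (dK σ u) / χ v = (σ (u / χ v) - u / χ v) * χ (s v - v) +
      (u / χ v) * (χ (s v - v) - 1) := by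
    rw [dK_apply, map_div₀, Y.h.σχ, chi_sub Y.h.χ0 Y.h.χa]
    field_simp
    ring
  have h3 := h2 (sv_L0 Y.h.sp Y.hc Y.hΔ Y.hT)
  rw [e1]
  exact (L.F _).add_mem (L.mul0' (hst n _ hu) (chi_LA L Y.h.χ0 Y.h.χa h3.1)) (L.mul hu h3.2)

lemma CY.top (Y : CY χ b Q p σ t s 𝔓 l Δ v) (x : Λ) :
    (dK σ ^ p) (χ x) = -∑ a ∈ Finset.Icc 1 (p - 1), (p.choose a : K) * (dK σ ^ a) (χ x) := by
  have hp := Y.h.pp
  have h1 := sK_pow σ p (χ x)
  rw [Y.sK_chi, Y.h.sp, Module.End.one_apply] at h1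
  have h2 : Finset.range (p + 1) = insert 0 (insert p (Finset.Icc 1 (p - 1))) := by
    ext m
    simp only [Finset.mem_range, Finset.mem_insert, Finset.mem_Icc]
    have := hp.pos
    omega
  rw [h2, Finset.sum_insert, Finset.sum_insert] at h1
  · rw [Nat.choose_zero_right, Nat.cast_one, one_mul, pow_zero, Module.End.one_apply,
      Nat.choose_self, Nat.cast_one, one_mul] at h1
    have h3 := (add_eq_left (a := χ x)).1 h1.symm
    exact eq_neg_of_add_eq_zero_left h3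
  · rw [Finset.mem_Icc]
    have := hp.pos
    omega
  · rw [Finset.mem_insert, Finset.mem_Icc]
    have := hp.pos
    omega

/-- The operator `(σ - 1) ^ p`. -/
lemma CY.top_mem (Y : CY χ b Q p σ t s 𝔓 l Δ v) (L : LF (ev O χ b) Q)
    (hp : (p : K) ∈ L.F ((p - 1 : ℕ) * l)) {x : Λ}
    (hx : ∀ a, 1 ≤ a → a ≤ p - 1 → (dK σ ^ a) (χ x) / χ v ∈ L.F l) :
    (dK σ ^ p) (χ x) / χ v ∈ L.F (p * l) := by
  rw [Y.top, neg_div, Finset.sum_div]
  refine (L.F _).neg_mem (AddSubgroup.sum_mem _ fun a ha => ?_)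
  rw [Finset.mem_Icc] at ha
  obtain ⟨c, hc⟩ := Y.h.pp.dvd_choose_self (k := a) (by omega) (by omega)
  rw [hc, Nat.cast_mul]
  have h1 := L.mul0' (L.mul hp (hx a ha.1 ha.2)) (L.natCast c)
  have h2 : (p : K) * c * (dK σ ^ a) (χ x) / χ v =
      (p : K) * ((dK σ ^ a) (χ x) / χ v) * c := by ring
  rw [h2]
  refine L.mono ?_ h1
  have := Y.h.pp.one_le
  push_cast [Nat.cast_sub this]
  linarith [sub_mul (p : ℤ) 1 l]

/-- The multiples of `p`. -/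
lemma CY.p_mem (Y : CY χ b Q p σ t s 𝔓 l Δ v) (L : LF (ev O χ b) Q)
    (h1 : ∀ e ∈ 𝔓, algebraMap O K e ∈ L.F 1) : (p : K) ∈ L.F ((p - 1 : ℕ) * l) := by
  have := P_pow L h1 _ _ Y.h.pl
  rw [map_natCast] at this
  exact_mod_cast this

end cy

end Pool.Agent.T9h3
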