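import Pool.Agent.T9h3.FFb

/-!
# Characters of a torus with an automorphism of prime order: the weighted ideals are stable
-/

set_option autoImplicit false
set_option linter.unusedSectionVars false

namespace Pool.Agent.T9h3

open MvPolynomial

section gen

variable {O K Λ ι : Type} [CommRing O] [Field K]
  [Algebra O K] [AddCommGroup Λ] [Fintype ι] {χ : Λ → K} {b : Module.Basis ι ℤ Λ}
  {Q : Ideal (MvPolynomial ι O)} [hQ : Q.IsPrime] {p : ℕ} {σ : K →+* K} {t : O →+* O}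
  {s : Module.End ℤ Λ} {𝔓 : Ideal O} {l : ℕ} {Δ : Set Λ} {v : Λ}

/-- `p` is in `Q`. -/
lemma CY.pQ (Y : CY χ b Q p σ t s 𝔓 l Δ v) : (p : MvPolynomial ι O) ∈ Q := by
  have h1 : (p : O) ∈ 𝔓 := by
    refine Ideal.pow_le_self ?_ Y.h.pl
    have h2 := Y.h.pp.two_le
    have h3 := Y.h.l1
    exact Nat.mul_ne_zero (by omega) (by omega)
  have := Y.hT.P _ h1
  rwa [map_natCast] at this

/-- Integers prime to `p` are not in `Q`. -/
lemma CY.notQ (Y : CY χ b Q p σ t s 𝔓 l Δ v) {r : ℤ} (hr : ∃ c : ℤ, r - 1 = p * c) :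
    (r.natAbs : MvPolynomial ι O) ∉ Q := by
  intro h
  obtain ⟨c, hc⟩ := hr
  apply hQ.ne_top
  rw [Ideal.eq_top_iff_one]
  have h1 : (r : MvPolynomial ι O) ∈ Q := by
    rcases Int.natAbs_eq r with h2 | h2
    · rw [h2, Int.cast_natCast]; exact h
    · rw [h2, Int.cast_neg, Int.cast_natCast]; exact Q.neg_mem h
  have h2 : (1 : MvPolynomial ι O) = r - p * c := by
    have h3 : ((r - 1 : ℤ) : MvPolynomial ι O) = ((p * c : ℤ) : MvPolynomial ι O) := by rw [hc]
    push_cast at h3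
    rw [← h3]; ring
  rw [h2]
  exact Q.sub_mem h1 (Q.mul_mem_right _ Y.pQ)

/-- Nakayama: characters of norm zero. -/
lemma CY.nak (Y : CY χ b Q p σ t s 𝔓 l Δ v) (L : LF (ev O χ b) Q) {n : ℤ}
    (h : ∀ y ∈ L0 p s b Q, ∃ z ∈ US L Y.h.χ0 Y.h.χa n, ∃ t ∈ L0 p s b Q, y = z + (p : ℤ) • t) :
    L0 p s b Q ≤ US L Y.h.χ0 Y.h.χa n := by
  have hfin : Module.Finite ℤ Λ := Module.Finite.of_basis b
  have hN : IsNoetherian ℤ Λ := inferInstance
  have hfg : (L0 p s b Q).FG := hN.noetherian _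
  obtain ⟨r, hr, hle⟩ := Submodule.exists_sub_one_mem_and_smul_le_of_fg_of_le_sup
    (I := Ideal.span {(p : ℤ)}) (N := US L Y.h.χ0 Y.h.χa n)
    (N' := L0 p s b Q) (P := L0 p s b Q) hfg le_rfl (by
      intro y hy
      obtain ⟨z, hz, t, ht, rfl⟩ := h y hy
      exact Submodule.add_mem_sup hz
        (Submodule.smul_mem_smul (Ideal.mem_span_singleton_self _) ht))
  rw [Ideal.mem_span_singleton] at hr
  obtain ⟨c, hc⟩ := hr
  intro x hx
  refine US_root L Y.h.χ0 Y.h.χa Y.inj (Y.notQ ⟨c, hc⟩) (Y.L0_MM hx) ?_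
  have h1 : r • x ∈ US L Y.h.χ0 Y.h.χa n := hle (Submodule.smul_mem_pointwise_smul _ _ _ hx)
  rw [← natCast_zsmul]
  rcases Int.natAbs_eq r with h2 | h2
  · rw [← h2]; exact h1
  · have h3 : ((r.natAbs : ℤ)) = -r := by omega
    rw [h3, neg_smul]
    exact Submodule.neg_mem _ h1

/-- The operators `σ ^ a - 1`. -/
lemma CY.spow_sub (L : LF (ev O χ b) Q)
    (hst : ∀ f, f ∈ L.F 0 → σ f - f ∈ L.F l) (a : ℕ) {f : K} (hf : f ∈ L.F 0) :
    (sK σ ^ a) f ∈ L.F 0 ∧ (sK σ ^ a) f - f ∈ L.F l := by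
  induction a with
  | zero =>
    rw [pow_zero, Module.End.one_apply, sub_self]
    exact ⟨hf, (L.F _).zero_mem⟩
  | succ a ih =>
    rw [pow_succ', Module.End.mul_apply, sK_apply]
    have h1 := hst _ ih.1
    have h2 : σ ((sK σ ^ a) f) - f = (σ ((sK σ ^ a) f) - (sK σ ^ a) f) +
        ((sK σ ^ a) f - f) := by ring
    refine ⟨?_, ?_⟩
    · have h3 := (L.F 0).add_mem (L.mono (by positivity) h1) ih.1
      rwa [sub_add_cancel] at h3
    · rw [h2]
      exact (L.F _).add_mem h1 ih.2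

/-- The characters without poles. -/
lemma chi_nonneg (L : LF (ev O χ b) Q) (h0 : χ 0 = 1) (ha : ∀ x y, χ (x + y) = χ x * χ y)
    {x : Λ} (hx : ∀ c : IC Q, 0 ≤ b.repr x c) : χ x ∈ L.F 0 := by
  rw [← b.sum_repr x, chi_sum h0 ha]
  refine L.prod0 _ _ fun i _ => ?_
  rw [chi_zsmul h0 ha]
  by_cases hi : (X i : MvPolynomial ι O) ∈ Q
  · have h1 := hx ⟨i, hi⟩
    obtain ⟨n, hn⟩ := Int.eq_ofNat_of_zero_le h1
    have h2 : b.repr x i = n := hn
    rw [h2, zpow_natCast]
    have h3 := L.base' (X i)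
    rw [ev_X] at h3
    have h4 := L.pow h3 n
    rwa [mul_zero] at h4
  · have h1 := L.base' (X i)
    have h2 := L.inv' (X i) hi
    rw [ev_X] at h1 h2
    exact L.zpow0 h1 h2 _

/-- Characters with the same norm are congruent. -/
lemma CY.congr [Fintype (IC Q)] (Y : CY χ b Q p σ t s 𝔓 l Δ v) (L : LF (ev O χ b) Q)
    (h2 : L0 p s b Q ≤ US L Y.h.χ0 Y.h.χa l) (hst : ∀ f, f ∈ L.F 0 → σ f - f ∈ L.F l) (n : ℕ) :
    ∀ x x' : Λ, (∀ c : IC Q, 0 ≤ b.repr x c) → (∀ c : IC Q, 0 ≤ b.repr x' c) → dC b Q x = n →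
      Nm p s x = Nm p s x' → χ x - χ x' ∈ L.F l := by
  classical
  have hp := Y.h.pp.pos
  have hNle : ∀ x : Λ, (∀ c : IC Q, 0 ≤ b.repr x c) → ∀ c : IC Q,
      b.repr x c ≤ b.repr (Nm p s x) c := by
    intro x hx c
    unfold Nm
    rw [LinearMap.sum_apply, map_sum, Finsupp.finset_sum_apply]
    have h3 : b.repr x c = b.repr ((s ^ 0) x) c := by rw [pow_zero, Module.End.one_apply]
    rw [h3]
    exact Finset.single_le_sum (f := fun i => b.repr ((s ^ i) x) c)
      (fun i _ => (s_pow_nonneg hp Y.h.sp Y.hc Y.hΔ Y.hT i hx).1 c) (Finset.mem_range.2 hp)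
  obtain ⟨ϖ, r, horb, -, -, -, -⟩ := exists_rep Y.h.pp Y.h.sp Y.hc Y.hΔ Y.hT
  induction n with
  | zero =>
    intro x x' hx hx' hd hN
    have h3 : x ∈ LA b Q := by
      intro i hi
      have h4 := (Finset.sum_eq_zero_iff_of_nonneg (fun c _ => hx c)).1
        (show ∑ c : IC Q, b.repr x c = 0 from by simpa [dC] using hd)
      exact h4 ⟨i, hi⟩ (Finset.mem_univ _)
    have hNx : Nm p s x ∈ LA b Q := by
      unfold Nm
      rw [LinearMap.sum_apply]
      exact Submodule.sum_mem _ fun i _ => s_pow_LA Y.h.sp Y.hc Y.hΔ Y.hT i h3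
    have h4 : x' ∈ LA b Q := by
      intro i hi
      have h5 := hNle x' hx' ⟨i, hi⟩
      rw [← hN, hNx i hi] at h5
      exact le_antisymm h5 (hx' ⟨i, hi⟩)
    have h5 : x - x' ∈ L0 p s b Q := by
      rw [mem_L0]
      exact ⟨(LA b Q).sub_mem h3 h4, by rw [map_sub, hN, sub_self]⟩
    have h6 : χ x - χ x' = χ x' * (χ (x - x') - 1) := by
      have h7 := chi_ne Y.h.χ0 Y.h.χa x'
      rw [chi_sub Y.h.χ0 Y.h.χa]
      field_simp
    rw [h6]
    exact L.mul0 (chi_LA L Y.h.χ0 Y.h.χa h4) (h2 h5).2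
  | succ n ih =>
    intro x x' hx hx' hd hN
    obtain ⟨i, hi⟩ : ∃ i : IC Q, 1 ≤ b.repr x i := by
      by_contra hcon
      push Not at hcon
      have h3 : dC b Q x = 0 := Finset.sum_eq_zero fun c _ => by
        have h4 := hcon c
        have h5 := hx c
        omega
      rw [h3] at hd
      push_cast at hd
      omega
    obtain ⟨a, ha, hai⟩ : ∃ a ∈ Finset.range p, 0 < b.repr ((s ^ a) x') i := by
      have h3 := (hi.trans (hNle x hx i))
      rw [hN] at h3
      unfold Nm at h3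
      rw [LinearMap.sum_apply, map_sum, Finsupp.finset_sum_apply] at h3
      exact Finset.exists_lt_of_sum_lt (s := Finset.range p) (f := fun _ => (0 : ℤ))
        (g := fun a => b.repr ((s ^ a) x') i) (by rw [Finset.sum_const_zero]; omega)
    obtain ⟨j, hj, hji⟩ : ∃ j : IC Q, 1 ≤ b.repr x' j ∧ ϖ^[a] j = i := by
      have h3 : (s ^ a) x' = ∑ j, b.repr x' j • (s ^ a) (b j) := by
        conv_lhs => rw [← b.sum_repr x']
        rw [map_sum]
        exact Finset.sum_congr rfl fun i _ => map_smul _ _ _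
      rw [h3, map_sum, Finsupp.finset_sum_apply] at hai
      obtain ⟨j, -, hj⟩ := Finset.exists_lt_of_sum_lt (s := Finset.univ) (f := fun _ => (0 : ℤ))
        (g := fun j => b.repr (b.repr x' j • (s ^ a) (b j)) i)
        (by rw [Finset.sum_const_zero]; exact hai)
      rw [map_smul, Finsupp.smul_apply, smul_eq_mul] at hj
      by_cases hjQ : (X j : MvPolynomial ι O) ∈ Q
      · have h4 := horb a ⟨j, hjQ⟩ i i.2
        rw [map_sub, Finsupp.sub_apply, sub_eq_zero] at h4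
        have h4' : b.repr ((s ^ a) (b j)) i = b.repr (b (ϖ^[a] ⟨j, hjQ⟩)) i := h4
        have h5 : ϖ^[a] ⟨j, hjQ⟩ = i := by
          by_contra hne
          rw [h4', Module.Basis.repr_self, Finsupp.single_eq_of_ne, mul_zero] at hj
          · exact lt_irrefl _ hj
          · exact fun h => hne (Subtype.ext h).symm
        refine ⟨⟨j, hjQ⟩, ?_, h5⟩
        rw [h4', h5, Module.Basis.repr_self, Finsupp.single_eq_same, mul_one] at hj
        change 1 ≤ b.repr x' j
        omega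
      · have h4 := s_pow_LA Y.h.sp Y.hc Y.hΔ Y.hT a (basis_LA (b := b) hjQ) i i.2
        rw [h4, mul_zero] at hj
        exact absurd hj (lt_irrefl _)
    have hlam : b i - (s ^ a) (b j) ∈ LA b Q := by
      have h3 := horb a j
      rw [hji] at h3
      have h4 := (LA b Q).neg_mem h3
      rwa [neg_sub] at h4
    -- the reduction
    have hbi : χ (b i) - χ (b j + (b i - (s ^ a) (b j))) ∈ L.F l := by
      have h3 : χ (b i) = χ ((s ^ a) (b j)) * χ (b i - (s ^ a) (b j)) := by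
        rw [← Y.h.χa, add_sub_cancel]
      have h4 := L.base' (X (j : ι))
      rw [ev_X] at h4
      have h5 := (CY.spow_sub L hst a h4).2
      rw [Y.sK_chi] at h5
      rw [Y.h.χa, h3, ← sub_mul]
      exact L.mul0' h5 (chi_LA L Y.h.χ0 Y.h.χa hlam)
    have h1 : ∀ (y : Λ) (i : IC Q), (∀ c : IC Q, 0 ≤ b.repr y c) → 1 ≤ b.repr y i →
        ∀ c : IC Q, 0 ≤ b.repr (y - b i) c := by
      intro y i hy hyi c
      rw [map_sub, Finsupp.sub_apply, Module.Basis.repr_self, Finsupp.single_apply]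
      split_ifs with h
      · have h3 : c = i := Subtype.ext h.symm
        rw [h3]
        omega
      · rw [sub_zero]
        exact hy c
    have hy : ∀ c : IC Q, 0 ≤ b.repr (x - b i + (b i - (s ^ a) (b j))) c := by
      intro c
      rw [map_add, Finsupp.add_apply, hlam c c.2, add_zero]
      exact h1 x i hx hi c
    have hy' := h1 x' j hx' hj
    have hdC : dC b Q (x - b i + (b i - (s ^ a) (b j))) = n := by
      rw [dC_add, dC_of_LA hlam, add_zero]
      have h3 : dC b Q x = dC b Q (x - b i) + dC b Q (b i) := by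
        rw [← dC_add, sub_add_cancel]
      rw [hd, dC_basis i] at h3
      push_cast at h3
      omega
    have hNy : Nm p s (x - b i + (b i - (s ^ a) (b j))) = Nm p s (x' - b j) := by
      rw [map_add, map_sub, map_sub, map_sub, hN, Nm_pow Y.h.sp]
      abel
    have h3 := ih _ _ hy hy' hdC hNy
    have h4 : χ (b j) ∈ L.F 0 := by
      have h5 := L.base' (X (j : ι))
      rwa [ev_X] at h5
    have h5 : χ x - χ x' = (χ (b i) - χ (b j + (b i - (s ^ a) (b j)))) * χ (x - b i) +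
        χ (b j) * (χ (x - b i + (b i - (s ^ a) (b j))) - χ (x' - b j)) := by
      rw [sub_mul, mul_sub, ← Y.h.χa, ← Y.h.χa, ← Y.h.χa, ← Y.h.χa, add_sub_cancel, add_sub_cancel]
      have h6 : b j + (b i - (s ^ a) (b j)) + (x - b i) =
          b j + (x - b i + (b i - (s ^ a) (b j))) := by abel
      rw [h6]
      ring
    rw [h5]
    exact (L.F _).add_mem (L.mul0' hbi (chi_nonneg L Y.h.χ0 Y.h.χa (h1 x i hx hi)))
      (L.mul0 h4 h3)

/-- The differences of coordinates with the same norm. -/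
lemma CY.same (Y : CY χ b Q p σ t s 𝔓 l Δ v) (L : LF (ev O χ b) Q)
    (h2 : L0 p s b Q ≤ US L Y.h.χ0 Y.h.χa l) (hst : ∀ f, f ∈ L.F 0 → σ f - f ∈ L.F l) {m m' : Λ}
    (hm : m ∈ Δ) (hm' : m' ∈ Δ) (hN : Nm p s m = Nm p s m') : (χ m - χ m') / χ v ∈ L.F l := by
  classical
  have _ : Fintype (IC Q) := Fintype.ofFinite _
  rw [sub_div, ← chi_sub Y.h.χ0 Y.h.χa, ← chi_sub Y.h.χ0 Y.h.χa]
  obtain ⟨n, hn⟩ := Int.eq_ofNat_of_zero_le (show 0 ≤ dC b Q (m - v) from
    Finset.sum_nonneg fun c _ => Y.hc.nn m hm c)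
  exact Y.congr L h2 hst n _ _ (fun c => Y.hc.nn m hm c) (fun c => Y.hc.nn m' hm' c) hn
    (by rw [map_sub, map_sub, hN])

end gen

end Pool.Agent.T9h3
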