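import Pool.Agent.T9h3.FFc

/-!
# Characters of a torus with an automorphism of prime order: the weighted ideals are stable
-/

set_option autoImplicit false
set_option linter.unusedSectionVars false

namespace Pool.Agent.T9h3

open MvPolynomial

open Pool.Agent.Y614.WC (exists_unif not_mem_sq)

section fx

variable {O K Λ ι : Type} [CommRing O] [IsDomain O] [IsDedekindDomain O] [Field K]
  [Algebra O K] [AddCommGroup Λ] [Fintype ι] {χ : Λ → K} {b : Module.Basis ι ℤ Λ}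
  {Q : Ideal (MvPolynomial ι O)} [hQ : Q.IsPrime] {p : ℕ} {σ : K →+* K} {t : O →+* O}
  {s : Module.End ℤ Λ} {𝔓 : Ideal O} {l : ℕ} {Δ : Set Λ} {v : Λ}
  {J : Type} [Fintype J] {ϖ r : IC Q → IC Q} {k : J → ℕ} {μ : J → Λ} {π : O}

/-- The weighted filtration. -/
noncomputable abbrev Fx (χ : Λ → K) (b : Module.Basis ι ℤ Λ) (Q : Ideal (MvPolynomial ι O))
    [hQ : Q.IsPrime] (p : ℕ) (s : Module.End ℤ Λ) (l : ℕ) (v : Λ) (ϖ r : IC Q → IC Q)
    (k : J → ℕ) (μ : J → Λ) (π : O) : LF (ev O χ b) Q :=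
  FF (ev O χ b) Q (px s v b ϖ r μ π p) (pa ϖ r k l p)

lemma ev_px_none : ev O χ b (px s v b ϖ r μ π p none) = algebraMap O K π := ev_C _ _

lemma PD.ev_px_inr (D : PD p t s 𝔓 l b Q ϖ r k μ π) (Y : CY χ b Q p σ t s 𝔓 l Δ v) (c : RT ϖ r)
    (n : Fin (p - 1)) : ev O χ b (px s v b ϖ r μ π p (some (Sum.inr (c, n)))) =
      (dK σ ^ ((n : ℕ) + 1)) (χ (v + b c.1)) / χ v := by
  unfold px
  rw [dK_pow, Finset.sum_div, map_sum]
  refine Finset.sum_congr rfl fun a _ => ?_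
  rw [map_mul, map_intCast, ← Y.chi_div (Y.spow a (Y.hc.nb c.1)), Y.sK_chi, mul_div_assoc]

/-- The prime `𝔓`. -/
lemma PD.F1 (D : PD p t s 𝔓 l b Q ϖ r k μ π) (Y : CY χ b Q p σ t s 𝔓 l Δ v) :
    ∀ e ∈ 𝔓, algebraMap O K e ∈ (Fx χ b Q p s l v ϖ r k μ π).F 1 := by
  intro e he
  obtain ⟨a, ha, hab⟩ := exists_unif D.πP (not_mem_sq t Y.h.dv D.πn)
  obtain ⟨c, hc⟩ := hab e he
  have h1 := (Fx χ b Q p s l v ϖ r k μ π).inv' _ (Y.notP ha)
  have h2 : ev O χ b (px s v b ϖ r μ π p none) ∈ (Fx χ b Q p s l v ϖ r k μ π).F 1 :=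
    FF_gen (Q := Q) (x := px s v b ϖ r μ π p) (a := pa ϖ r k l p) none
  rw [ev_px_none] at h2
  have h3 := (Fx χ b Q p s l v ϖ r k μ π).base' (C c)
  rw [ev_C] at h3 h1
  have h4 : (algebraMap O K a) * algebraMap O K e = algebraMap O K π * algebraMap O K c := by
    rw [← map_mul, hc, map_mul]
  have ha0 : algebraMap O K a ≠ 0 := by
    intro h0
    have h5 : (C a : MvPolynomial ι O) = 0 := Y.inj (b := b) (by rw [ev_C, h0, map_zero])
    exact Y.notP ha (h5 ▸ Q.zero_mem)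
  have h5 : algebraMap O K e = (algebraMap O K a)⁻¹ * (algebraMap O K π * algebraMap O K c) := by
    rw [← h4, inv_mul_cancel_left₀ ha0]
  rw [h5]
  exact LF.mul0 _ h1 (LF.mul0' _ h2 h3)

lemma PD.Fp (D : PD p t s 𝔓 l b Q ϖ r k μ π) (Y : CY χ b Q p σ t s 𝔓 l Δ v) :
    (p : K) ∈ (Fx χ b Q p s l v ϖ r k μ π).F ((p - 1 : ℕ) * l) := Y.p_mem _ (D.F1 Y)

lemma PD.μL0 (D : PD p t s 𝔓 l b Q ϖ r k μ π) (Y : CY χ b Q p σ t s 𝔓 l Δ v) (j : J) :
    μ j ∈ L0 p s b Q := by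
  obtain ⟨-, -, y, hy, h⟩ := D.k1 j
  rw [h]
  exact s1_pow_L0 Y.h.sp Y.hc Y.hΔ Y.hT _ hy

lemma PD.Fμ (D : PD p t s 𝔓 l b Q ϖ r k μ π) (Y : CY χ b Q p σ t s 𝔓 l Δ v) (j : J) :
    μ j ∈ US (Fx χ b Q p s l v ϖ r k μ π) Y.h.χ0 Y.h.χa ((k j * l : ℕ) : ℤ) := by
  have hA := (D.μL0 Y j).1
  refine ⟨hA, ?_⟩
  have h1 : ev O χ b (px s v b ϖ r μ π p (some (Sum.inl j))) ∈
      (Fx χ b Q p s l v ϖ r k μ π).F ((k j * l : ℕ) : ℤ) :=
    FF_gen (Q := Q) (x := px s v b ϖ r μ π p) (a := pa ϖ r k l p) (some (Sum.inl j))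
  have h2 : ev O χ b (px s v b ϖ r μ π p (some (Sum.inl j))) =
      ev O χ b (mon O b (-μ j)) * (χ (μ j) - 1) := by
    unfold px
    rw [map_sub, ev_mon' Y.h.χ0 Y.h.χa]
  rw [h2] at h1
  have h3 : mon O b (-μ j) ∉ Q := mon_LA' ((LA b Q).neg_mem hA)
  have h4 : ev O χ b (mon O b (-μ j)) ≠ 0 := by
    intro h0
    have h5 : mon O b (-μ j) = 0 := Y.inj (b := b) (by rw [h0, map_zero])
    exact h3 (h5 ▸ Q.zero_mem)
  have h5 := LF.mul0 _ ((Fx χ b Q p s l v ϖ r k μ π).inv' _ h3) h1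
  rwa [inv_mul_cancel_left₀ h4] at h5

/-- The characters of norm zero. -/
lemma PD.FL0 (D : PD p t s 𝔓 l b Q ϖ r k μ π) (Y : CY χ b Q p σ t s 𝔓 l Δ v) :
    L0 p s b Q ≤ US (Fx χ b Q p s l v ϖ r k μ π) Y.h.χ0 Y.h.χa l := by
  refine Y.nak _ fun y hy => ?_
  have hp2 := Y.h.pp.two_le
  obtain ⟨n, hn, t, ht, h⟩ := D.gen 1 le_rfl (by omega) y hy
  refine ⟨∑ j, n j • μ j, ?_, t, ht, ?_⟩
  · refine Submodule.sum_mem _ fun j _ => Submodule.smul_mem _ _ ?_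
    refine US_anti _ Y.h.χ0 Y.h.χa ?_ (D.Fμ Y j)
    have := (D.k1 j).1
    push_cast
    nlinarith [Int.natCast_nonneg l]
  · rwa [Nat.sub_self, pow_zero, Module.End.one_apply] at h

lemma PD.FpL0 (D : PD p t s 𝔓 l b Q ϖ r k μ π) (Y : CY χ b Q p σ t s 𝔓 l Δ v) {x : Λ}
    (hx : x ∈ L0 p s b Q) :
    (p : ℤ) • x ∈ US (Fx χ b Q p s l v ϖ r k μ π) Y.h.χ0 Y.h.χa (p * l) :=
  US_prime _ Y.h.χ0 Y.h.χa Y.h.pp (by positivity) (D.Fp Y) (D.FL0 Y hx)

/-- The powers of `s - 1` on the characters of norm zero. -/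
lemma PD.Fs (D : PD p t s 𝔓 l b Q ϖ r k μ π) (Y : CY χ b Q p σ t s 𝔓 l Δ v) {m : ℕ}
    (h1 : 1 ≤ m) (h2 : m ≤ p) {y : Λ} (hy : y ∈ L0 p s b Q) :
    ((s - 1) ^ (m - 1)) y ∈ US (Fx χ b Q p s l v ϖ r k μ π) Y.h.χ0 Y.h.χa (m * l) := by
  have hl : (0 : ℤ) ≤ l := by positivity
  rcases h2.eq_or_lt with h3 | h3
  · rw [h3]
    obtain ⟨G, hG, hG'⟩ := s1_top Y.h.pp Y.h.sp Y.hc Y.hΔ Y.hT
    rw [hG' y hy]
    exact Submodule.neg_mem _ (D.FpL0 Y ((L0 p s b Q).add_mem hy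
      (s1_L0 Y.h.sp Y.hc Y.hΔ Y.hT (hG y hy))))
  · obtain ⟨n, hn, t, ht, h⟩ := D.gen m h1 (by omega) y hy
    rw [h]
    refine Submodule.add_mem _ (Submodule.sum_mem _ fun j _ => ?_) ?_
    · by_cases hj : n j = 0
      · rw [hj, zero_smul]; exact Submodule.zero_mem _
      · refine Submodule.smul_mem _ _ (US_anti _ Y.h.χ0 Y.h.χa ?_ (D.Fμ Y j))
        have h4 : (m : ℤ) ≤ k j := by exact_mod_cast hn j hj
        push_cast
        nlinarith
    · refine US_anti _ Y.h.χ0 Y.h.χa ?_ (D.FpL0 Y ht)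
      have h4 : (m : ℤ) ≤ p := by exact_mod_cast h2
      nlinarith

/-- The parameters are in `Q`. -/
lemma PD.pxQ (D : PD p t s 𝔓 l b Q ϖ r k μ π) (Y : CY χ b Q p σ t s 𝔓 l Δ v)
    (i : PI ϖ r J p) : px s v b ϖ r μ π p i ∈ Q := by
  rcases i with _ | (j | ⟨c, n⟩)
  · exact Y.hT.P _ D.πP
  · apply MM_one (χ := χ) Y.inj
    unfold px
    rw [map_sub, ev_mon' Y.h.χ0 Y.h.χa]
    exact LF.mul0 _ (LF.base' _ _) (Y.L0_MM (D.μL0 Y j)).2
  · unfold px
    refine Q.sum_mem fun a _ => Q.mul_mem_left _ ?_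
    have h1 := Y.hT.d _ (Y.spow a (Y.hc.nb c.1)) _ (Y.hc.nb c.1) (Nm_pow Y.h.sp a _)
    have h2 : mon O b (v + b (c.1 : ι) - v) ∈ Q := by
      rw [add_sub_cancel_left]
      by_contra h3
      rw [mon_notMem] at h3
      have h4 := h3 c.1 c.1.2
      rw [Module.Basis.repr_self, Finsupp.single_eq_same] at h4
      exact absurd h4 (by decide)
    have h3 := Q.add_mem h1 h2
    rwa [sub_add_cancel] at h3

lemma PD.ctr (D : PD p t s 𝔓 l b Q ϖ r k μ π) (Y : CY χ b Q p σ t s 𝔓 l Δ v) :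
    (Fx χ b Q p s l v ϖ r k μ π).Ctr := FF_ctr (D.pxQ Y)

/-- The powers of `σ - 1` on the representatives. -/
lemma PD.Fy (D : PD p t s 𝔓 l b Q ϖ r k μ π) (Y : CY χ b Q p σ t s 𝔓 l Δ v) (c : RT ϖ r)
    {n : ℕ} (hn : n ≤ p) :
    (dK σ ^ n) (χ (v + b c.1)) / χ v ∈ (Fx χ b Q p s l v ϖ r k μ π).F (n * l) := by
  have hp2 := Y.h.pp.two_le
  have key : ∀ n : ℕ, 1 ≤ n → n ≤ p - 1 →
      (dK σ ^ n) (χ (v + b c.1)) / χ v ∈ (Fx χ b Q p s l v ϖ r k μ π).F (n * l) := by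
    intro n h1 h2
    have h3 := FF_gen (j := ev O χ b) (Q := Q) (x := px s v b ϖ r μ π p) (a := pa ϖ r k l p)
      (some (Sum.inr (c, ⟨n - 1, by omega⟩)))
    rw [D.ev_px_inr Y] at h3
    have h4 : n - 1 + 1 = n := by omega
    simp only [pa, h4] at h3
    exact_mod_cast h3
  rcases Nat.eq_zero_or_pos n with h0 | h0
  · subst h0
    rw [pow_zero, Module.End.one_apply, Nat.cast_zero, zero_mul]
    exact Y.chi_div_mem _ (Y.hc.nb c.1)
  · rcases hn.eq_or_lt with h1 | h1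
    · subst h1
      refine Y.top_mem _ (D.Fp Y) fun a ha1 ha2 => ?_
      refine LF.mono _ ?_ (key a ha1 ha2)
      have : (1 : ℤ) ≤ a := by exact_mod_cast ha1
      nlinarith [Int.natCast_nonneg l]
    · exact key n h0 (by omega)

/-- The operator `σ - 1` on the coordinates. -/
lemma CY.d_of (Y : CY χ b Q p σ t s 𝔓 l Δ v) (L : LF (ev O χ b) Q)
    (h2 : L0 p s b Q ≤ US L Y.h.χ0 Y.h.χa l)
    (hrep : ∀ (n : ℕ) (i : IC Q), (s ^ n) (b i) - b (ϖ^[n] i) ∈ LA b Q)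
    (hex : ∀ i, ∃ a, a < p ∧ ϖ^[a] (r i) = i) (hrr : ∀ i, r (r i) = r i)
    (hy : ∀ (c : RT ϖ r) (n : ℕ), 1 ≤ n → n ≤ p → (dK σ ^ n) (χ (v + b c.1)) / χ v ∈ L.F l)
    (i : ι) : (σ (χ (v + b i)) - χ (v + b i)) / χ v ∈ L.F l := by
  have hv0 := chi_ne Y.h.χ0 Y.h.χa v
  -- the case of a norm zero difference
  have key : s (b i) - b i ∈ LA b Q → (σ (χ (v + b i)) - χ (v + b i)) / χ v ∈ L.F l := by
    intro hLA
    have h3 : (s v - v) + (s (b i) - b i) ∈ L0 p s b Q := by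
      refine (L0 p s b Q).add_mem (sv_L0 Y.h.sp Y.hc Y.hΔ Y.hT) ?_
      rw [mem_L0]
      exact ⟨hLA, by rw [map_sub, Nm_s Y.h.sp, sub_self]⟩
    have h4 : (σ (χ (v + b i)) - χ (v + b i)) / χ v =
        χ (b i) * (χ ((s v - v) + (s (b i) - b i)) - 1) := by
      have h5 : χ (s (v + b i)) = χ (v + b i) * χ ((s v - v) + (s (b i) - b i)) := by
        rw [← Y.h.χa]
        congr 1
        rw [map_add]
        abel
      rw [Y.h.σχ, h5, Y.h.χa v (b i)]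
      field_simp
    rw [h4]
    have h5 := L.base' (X i)
    rw [ev_X] at h5
    exact L.mul0 h5 (h2 h3).2
  by_cases hi : (X i : MvPolynomial ι O) ∈ Q
  · obtain ⟨a, ha, hai⟩ := hex ⟨i, hi⟩
    by_cases hfix : ϖ (r ⟨i, hi⟩) = r ⟨i, hi⟩
    · -- fixed
      have h3 : r ⟨i, hi⟩ = ⟨i, hi⟩ := (Function.iterate_fixed hfix a).symm.trans hai
      rw [h3] at hfix
      apply key
      have h4 := hrep 1 ⟨i, hi⟩
      rwa [pow_one, Function.iterate_one, hfix] at h4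
    · let c : RT ϖ r := ⟨r ⟨i, hi⟩, hrr _, hfix⟩
      have hθ : b i - (s ^ a) (b c.1) ∈ LA b Q := by
        have h3 := (LA b Q).neg_mem (hrep a c.1)
        rw [neg_sub] at h3
        have h4 : ϖ^[a] c.1 = ⟨i, hi⟩ := hai
        rwa [h4] at h3
      have hκ : (v - (s ^ a) v) + (b i - (s ^ a) (b c.1)) ∈ LA b Q := by
        refine (LA b Q).add_mem ?_ hθ
        have h3 := LA_of_norm Y.hc Y.hT Y.hc.vm (Y.spow a Y.hc.vm) (Nm_pow Y.h.sp a v).symm
          (by rw [sub_self]; exact (LA b Q).zero_mem)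
        have h4 := (LA b Q).neg_mem h3
        rwa [neg_sub] at h4
      obtain ⟨κ, hκe⟩ : ∃ κ, κ = (v - (s ^ a) v) + (b i - (s ^ a) (b c.1)) := ⟨_, rfl⟩
      rw [← hκe] at hκ
      have h3 : χ (v + b i) = (sK σ ^ a) (χ (v + b c.1)) * χ κ := by
        rw [Y.sK_chi, ← Y.h.χa, hκe]
        congr 1
        rw [map_add]
        abel
      have h4 : (σ (χ (v + b i)) - χ (v + b i)) / χ v =
          (dK σ ((sK σ ^ a) (χ (v + b c.1))) / χ v) * χ (s κ) +
          ((sK σ ^ a) (χ (v + b c.1)) / χ v) * (χ κ * (χ (s κ - κ) - 1)) := by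
        rw [h3, map_mul, Y.h.σχ, dK_apply, chi_sub Y.h.χ0 Y.h.χa]
        have h5 := chi_ne Y.h.χ0 Y.h.χa κ
        field_simp
        ring
      rw [h4]
      have h5 := sub_L0 Y.h.sp Y.hc Y.hΔ Y.hT hκ
      refine (L.F _).add_mem (L.mul0' ?_ (chi_LA L Y.h.χ0 Y.h.χa
        (s_LA Y.h.sp Y.hc Y.hΔ Y.hT hκ))) (L.mul0 ?_ (L.mul0 (chi_LA L Y.h.χ0 Y.h.χa hκ)
          (h2 h5).2))
      · rw [sK_pow, map_sum, Finset.sum_div]
        refine AddSubgroup.sum_mem _ fun m hm => ?_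
        rw [Finset.mem_range] at hm
        have h6 : dK σ ((a.choose m : K) * (dK σ ^ m) (χ (v + b c.1))) =
            (a.choose m : K) * (dK σ ^ (m + 1)) (χ (v + b c.1)) := by
          rw [pow_succ', Module.End.mul_apply, dK_apply, dK_apply, map_mul, map_natCast]
          ring
        rw [h6, mul_div_assoc]
        exact L.mul0 (L.natCast _) (hy c (m + 1) (by omega) (by omega))
      · rw [Y.sK_chi]
        exact Y.chi_div_mem L (Y.spow a (Y.hc.nb c.1))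
  · apply key
    exact (LA b Q).sub_mem (s_basis_LA Y.h.sp Y.hc Y.hΔ Y.hT hi) (basis_LA hi)

/-- The operator `σ - 1` on the local ring. -/
lemma PD.FC (D : PD p t s 𝔓 l b Q ϖ r k μ π) (Y : CY χ b Q p σ t s 𝔓 l Δ v)
    (c : MvPolynomial ι O) :
    σ (ev O χ b c) - ev O χ b c ∈ (Fx χ b Q p s l v ϖ r k μ π).F l := by
  refine delC _ Y.h Y.hc Y.hΔ Y.hT (D.F1 Y) (D.FL0 Y) (fun i => ?_) c
  refine Y.d_of _ (D.FL0 Y) D.orb D.ex D.rr (fun c n h1 h2 => ?_) i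
  refine LF.mono _ ?_ (D.Fy Y c h2)
  have : (1 : ℤ) ≤ n := by exact_mod_cast h1
  nlinarith [Int.natCast_nonneg l]

/-- The shifted filtration. -/
def shift {j : MvPolynomial ι O →+* K} (L : LF j Q) (l : ℕ) (hl : 1 ≤ l) : L.EM where
  E n := L.F (n + l)
  mul' := fun m n a c ha hc => L.mulr ha hc _ (by ring)
  anti' := fun n a ha => L.anti' _ _ (by
    have : n + (l : ℤ) + 1 = n + 1 + l := by ring
    rwa [this])
  le' := fun n a ha => L.mono (by omega) ha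
  le0' := fun a ha => L.mono (by omega) ha

/-- **The weighted filtration is stable.** -/
theorem PD.st (D : PD p t s 𝔓 l b Q ϖ r k μ π) (Y : CY χ b Q p σ t s 𝔓 l Δ v) (n : ℤ) (f : K)
    (hf : f ∈ (Fx χ b Q p s l v ϖ r k μ π).F n) :
    σ f - f ∈ (Fx χ b Q p s l v ϖ r k μ π).F (n + l) := by
  have h1 : f ∈ (LF.del (shift (Fx χ b Q p s l v ϖ r k μ π) l Y.h.l1) σ (fun c => by
      change _ ∈ (Fx χ b Q p s l v ϖ r k μ π).F (0 + l)
      rw [zero_add]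
      exact D.FC Y c) (D.ctr Y) Y.inj hQ).F n := by
    refine FF_le _ Y.inj (fun i => ?_) hf
    rw [LF.mem_del]
    refine ⟨FF_gen i, ?_⟩
    change _ ∈ (Fx χ b Q p s l v ϖ r k μ π).F ((pa ϖ r k l p i : ℤ) + l)
    rcases i with _ | (j | ⟨c, n⟩)
    · rw [ev_px_none, Y.h.σO, ← map_sub]
      have h2 := P_pow _ (D.F1 Y) (l + 1) _ (Y.h.dv π)
      have h3 : ((pa ϖ r k l p none : ℕ) : ℤ) + l = ((l + 1 : ℕ) : ℤ) := by
        simp only [pa]
        push_cast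
        ring
      rw [h3]
      exact h2
    · have h2 : ev O χ b (px s v b ϖ r μ π p (some (Sum.inl j))) =
          ev O χ b (mon O b (-μ j)) * (χ (μ j) - 1) := by
        unfold px
        rw [map_sub, ev_mon' Y.h.χ0 Y.h.χa]
      rw [h2]
      have h3 := (D.Fμ Y j).2
      have h4 : χ (s (μ j) - μ j) - 1 ∈ (Fx χ b Q p s l v ϖ r k μ π).F ((k j + 1) * l) := by
        obtain ⟨h5, h6, y, hy, h7⟩ := D.k1 j
        have h8 := D.Fs Y (m := k j + 1) (by omega) (by have := Y.h.pp.two_le; omega) hy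
        have h9 : s (μ j) - μ j = ((s - 1) ^ (k j + 1 - 1)) y := by
          rw [h7, Nat.add_sub_cancel]
          have h10 : k j = (k j - 1) + 1 := by omega
          conv_rhs => rw [h10, pow_succ', Module.End.mul_apply]
          rw [LinearMap.sub_apply, Module.End.one_apply]
        rw [h9]
        have h10 := h8.2
        push_cast at h10
        exact h10
      have h5 : σ (χ (μ j) - 1) - (χ (μ j) - 1) = χ (μ j) * (χ (s (μ j) - μ j) - 1) := by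
        rw [map_sub, map_one, Y.h.σχ, chi_sub Y.h.χ0 Y.h.χa]
        have h6 := chi_ne Y.h.χ0 Y.h.χa (μ j)
        field_simp
        ring
      have h6 : σ (χ (μ j) - 1) - (χ (μ j) - 1) ∈
          (Fx χ b Q p s l v ϖ r k μ π).F ((k j + 1) * l) := by
        rw [h5]
        exact LF.mul0 _ (chi_LA _ Y.h.χ0 Y.h.χa (D.μL0 Y j).1) h4
      have h7 : σ (χ (μ j) - 1) ∈ (Fx χ b Q p s l v ϖ r k μ π).F ((k j * l : ℕ) : ℤ) := by
        have h8 := ((Fx χ b Q p s l v ϖ r k μ π).F ((k j * l : ℕ) : ℤ)).add_mem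
          (LF.mono _ (by push_cast; nlinarith [Int.natCast_nonneg l]) h6) h3
        rwa [sub_add_cancel] at h8
      have h8 : σ (ev O χ b (mon O b (-μ j)) * (χ (μ j) - 1)) -
          ev O χ b (mon O b (-μ j)) * (χ (μ j) - 1) =
          (σ (ev O χ b (mon O b (-μ j))) - ev O χ b (mon O b (-μ j))) * σ (χ (μ j) - 1) +
          ev O χ b (mon O b (-μ j)) * (σ (χ (μ j) - 1) - (χ (μ j) - 1)) := by
        rw [map_mul]
        ring
      rw [h8]
      refine ((Fx χ b Q p s l v ϖ r k μ π).F _).add_mem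
        (LF.mulr _ (D.FC Y _) h7 _ ?_) (LF.mono _ ?_ (LF.mul0 _ (LF.base' _ _) h6))
      · simp only [pa]
        ring
      · simp only [pa]
        push_cast
        linarith
    · rw [D.ev_px_inr Y]
      have hn := n.2
      have hp2 := Y.h.pp.two_le
      have h3 := D.Fy Y c (n := (n : ℕ) + 1) (by omega)
      have h4 := D.Fy Y c (n := (n : ℕ) + 1 + 1) (by omega)
      obtain ⟨u, hu⟩ : ∃ u, u = (dK σ ^ ((n : ℕ) + 1)) (χ (v + b (c.1 : ι))) := ⟨_, rfl⟩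
      rw [pow_succ', Module.End.mul_apply, ← hu] at h4
      rw [← hu] at h3 ⊢
      have hv := (US (Fx χ b Q p s l v ϖ r k μ π) Y.h.χ0 Y.h.χa l).neg_mem
        (D.FL0 Y (sv_L0 Y.h.sp Y.hc Y.hΔ Y.hT))
      rw [neg_sub] at hv
      have h5 : σ (u / χ v) - u / χ v = (dK σ u / χ v) * χ (v - s v) +
          (u / χ v) * (χ (v - s v) - 1) := by
        have h6 := chi_ne Y.h.χ0 Y.h.χa v
        have h7 := chi_ne Y.h.χ0 Y.h.χa (s v)
        rw [map_div₀, Y.h.σχ, chi_sub Y.h.χ0 Y.h.χa, dK_apply]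
        field_simp
        ring
      rw [h5]
      refine ((Fx χ b Q p s l v ϖ r k μ π).F _).add_mem (LF.mono _ ?_ (LF.mul0' _ h4
        (chi_LA _ Y.h.χ0 Y.h.χa hv.1))) (LF.mulr _ h3 hv.2 _ ?_)
      · simp only [pa]
        push_cast
        linarith
      · simp only [pa]
        push_cast
        ring
  exact h1.2

/-- **The filtration of the space of linear forms.** -/
theorem PD.FW (D : PD p t s 𝔓 l b Q ϖ r k μ π) (Y : CY χ b Q p σ t s 𝔓 l Δ v) (n : ℕ) {u : K}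
    (hu : u ∈ WW χ σ p s Δ n) : u / χ v ∈ (Fx χ b Q p s l v ϖ r k μ π).F (n * l) := by
  rcases n with _ | n
  · rw [Nat.cast_zero, zero_mul]
    unfold WW at hu
    induction hu using Submodule.span_induction with
    | mem x hx =>
      obtain ⟨m, hm, rfl⟩ := hx
      exact Y.chi_div_mem _ hm
    | zero => rw [zero_div]; exact AddSubgroup.zero_mem _
    | add x y _ _ hx hy => rw [add_div]; exact AddSubgroup.add_mem _ hx hy
    | smul c x _ hx =>
      rw [zsmul_eq_mul, mul_div_assoc]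
      exact LF.mul0 _ (LF.intCast _ c) hx
  · have hst0 : ∀ f, f ∈ (Fx χ b Q p s l v ϖ r k μ π).F 0 →
        σ f - f ∈ (Fx χ b Q p s l v ϖ r k μ π).F l := by
      intro f hf
      have := D.st Y 0 f hf
      rwa [zero_add] at this
    have h1 : ∀ u ∈ W1 χ p s Δ, u / χ v ∈ (Fx χ b Q p s l v ϖ r k μ π).F l := by
      intro u hu
      unfold W1 at hu
      induction hu using Submodule.span_induction with
      | mem x hx =>
        obtain ⟨m, hm, m', hm', hN, rfl⟩ := hx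
        exact Y.same _ (D.FL0 Y) hst0 hm hm' hN
      | zero => rw [zero_div]; exact AddSubgroup.zero_mem _
      | add x y _ _ hx hy => rw [add_div]; exact AddSubgroup.add_mem _ hx hy
      | smul c x _ hx =>
        rw [zsmul_eq_mul, mul_div_assoc]
        exact LF.mul0 _ (LF.intCast _ c) hx
    obtain ⟨w, hw, rfl⟩ := hu
    have h2 : ∀ n : ℕ, (dK σ ^ n) w / χ v ∈
        (Fx χ b Q p s l v ϖ r k μ π).F (((n : ℤ) + 1) * l) := by
      intro n
      induction n with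
      | zero =>
        rw [pow_zero, Module.End.one_apply, Nat.cast_zero, zero_add, one_mul]
        exact h1 w hw
      | succ n ih =>
        rw [pow_succ', Module.End.mul_apply]
        have h3 := Y.div_del _ (D.FL0 Y) (D.st Y) ih
        have h4 : ((n : ℤ) + 1) * l + l = (((n + 1 : ℕ) : ℤ) + 1) * l := by push_cast; ring
        rwa [h4] at h3
    have h3 := h2 n
    have h4 : ((n + 1 : ℕ) : ℤ) = (n : ℤ) + 1 := by push_cast; ring
    rw [h4]
    exact h3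

end fx

end Pool.Agent.T9h3
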