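import Pool.Agent.T9h3.Cen

/-!
# Characters of a torus with an automorphism of prime order: local filtrations
-/

set_option autoImplicit false
set_option linter.unusedSectionVars false

namespace Pool.Agent.T9h3

open MvPolynomial

namespace LF

variable {C K : Type} [CommRing C] [Field K] {j : C →+* K} {Q : Ideal C} (L : LF j Q)

lemma zpow0 {a : K} (ha : a ∈ L.F 0) (ha' : a⁻¹ ∈ L.F 0) (n : ℤ) : a ^ n ∈ L.F 0 := by
  have hp : ∀ (n : ℕ) {a : K}, a ∈ L.F 0 → a ^ n ∈ L.F 0 := by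
    intro n a ha
    have := L.pow ha n
    rwa [mul_zero] at this
  obtain ⟨m, rfl | rfl⟩ := n.eq_nat_or_neg
  · rw [zpow_natCast]; exact hp m ha
  · rw [zpow_neg, zpow_natCast, ← inv_pow]; exact hp m ha'

lemma prod0 {J : Type} (S : Finset J) (f : J → K) (hf : ∀ i ∈ S, f i ∈ L.F 0) :
    ∏ i ∈ S, f i ∈ L.F 0 := by
  classical
  induction S using Finset.induction_on with
  | empty => simpa using L.one
  | insert i S hi ih =>
    rw [Finset.prod_insert hi]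
    exact L.mul0 (hf i (Finset.mem_insert_self _ _))
      (ih fun i hi => hf i (Finset.mem_insert_of_mem hi))

/-- The `p`-th power of an element which is one modulo the filtration. -/
lemma pow_prime {p : ℕ} (hp : p.Prime) {D : ℤ} (hD : 0 ≤ D) (hpF : (p : K) ∈ L.F ((p - 1 : ℕ) * D))
    {V : K} (hV : V ∈ L.F D) : (1 + V) ^ p - 1 ∈ L.F (p * D) := by
  have h1 : (1 + V) ^ p - 1 = ∑ m ∈ Finset.Icc 1 p, V ^ m * (p.choose m : K) := by
    rw [add_comm, add_pow]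
    have h2 : Finset.range (p + 1) = insert 0 (Finset.Icc 1 p) := by
      ext m
      simp only [Finset.mem_range, Finset.mem_insert, Finset.mem_Icc]
      omega
    rw [h2, Finset.sum_insert (by simp)]
    simp
  rw [h1]
  refine AddSubgroup.sum_mem _ fun m hm => ?_
  rw [Finset.mem_Icc] at hm
  rcases hm.2.eq_or_lt with h2 | h2
  · rw [h2, Nat.choose_self, Nat.cast_one, mul_one]
    exact L.pow hV p
  · obtain ⟨c, hc⟩ := hp.dvd_choose_self (by omega) h2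
    rw [hc, Nat.cast_mul]
    have h3 : V ^ m ∈ L.F D := by
      refine L.mono ?_ (L.pow hV m)
      have : (1 : ℤ) ≤ m := by exact_mod_cast hm.1
      nlinarith
    have h4 := L.mul0' (L.mul hpF h3) (L.natCast c)
    have h5 : V ^ m * ((p : K) * c) = (p : K) * V ^ m * c := by ring
    rw [h5]
    refine L.mono ?_ h4
    have := hp.one_le
    push_cast [Nat.cast_sub this]
    linarith [sub_mul (p : ℤ) 1 D]

end LF

section

variable {O K Λ ι : Type} [CommRing O] [Field K] [Algebra O K] [AddCommGroup Λ] [Fintype ι]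
  {χ : Λ → K} {b : Module.Basis ι ℤ Λ} {Q : Ideal (MvPolynomial ι O)}

/-- The filtration by the maximal ideal. -/
def MM (χ : Λ → K) (b : Module.Basis ι ℤ Λ) (Q : Ideal (MvPolynomial ι O)) [hQ : Q.IsPrime] :
    LF (ev O χ b) Q where
  F n :=
    { carrier := {f | ∃ s, s ∉ Q ∧ ∃ a, (1 ≤ n → a ∈ Q) ∧ ev O χ b s * f = ev O χ b a}
      add_mem' := by
        rintro f f' ⟨s, hs, a, ha, h⟩ ⟨s', hs', a', ha', h'⟩
        refine ⟨s * s', fun hst => (hQ.mem_or_mem hst).elim hs hs', s' * a + s * a',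
          fun h1 => Q.add_mem (Q.mul_mem_left _ (ha h1)) (Q.mul_mem_left _ (ha' h1)), ?_⟩
        rw [map_add, map_mul, map_mul, map_mul, ← h, ← h']
        ring
      zero_mem' := ⟨1, fun h => hQ.ne_top ((Ideal.eq_top_iff_one _).2 h), 0,
        fun _ => Q.zero_mem, by rw [mul_zero, map_zero]⟩
      neg_mem' := by
        rintro f ⟨s, hs, a, ha, h⟩
        exact ⟨s, hs, -a, fun h1 => Q.neg_mem (ha h1), by rw [mul_neg, h, map_neg]⟩ }
  mul' := by
    rintro m n f f' ⟨s, hs, a, ha, h⟩ ⟨s', hs', a', ha', h'⟩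
    refine ⟨s * s', fun hst => (hQ.mem_or_mem hst).elim hs hs', a * a', fun h1 => ?_, ?_⟩
    · rcases (by omega : 1 ≤ m ∨ 1 ≤ n) with h2 | h2
      · exact Q.mul_mem_right _ (ha h2)
      · exact Q.mul_mem_left _ (ha' h2)
    · rw [map_mul, map_mul, ← h, ← h']
      ring
  anti' := by
    rintro n f ⟨s, hs, a, ha, h⟩
    exact ⟨s, hs, a, fun h1 => ha (by omega), h⟩
  base' := fun c => ⟨1, fun h => hQ.ne_top ((Ideal.eq_top_iff_one _).2 h), c,
    fun h => absurd h (by norm_num), by rw [map_one, one_mul]⟩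
  inv' := by
    intro c hc
    by_cases h : ev O χ b c = 0
    · refine ⟨1, fun h => hQ.ne_top ((Ideal.eq_top_iff_one _).2 h), 0, fun _ => Q.zero_mem, ?_⟩
      rw [h, inv_zero, mul_zero, map_zero]
    · refine ⟨c, hc, 1, fun h => absurd h (by norm_num), ?_⟩
      rw [mul_inv_cancel₀ h, map_one]

variable [hQ : Q.IsPrime]

lemma mem_MM {n : ℤ} {f : K} : f ∈ (MM χ b Q).F n ↔
    ∃ s, s ∉ Q ∧ ∃ a, (1 ≤ n → a ∈ Q) ∧ ev O χ b s * f = ev O χ b a := Iff.rfl

lemma MM_ctr : (MM χ b Q).Ctr := by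
  rintro f ⟨s, hs, a, ha, h⟩
  exact ⟨a, ha le_rfl, s, hs, h⟩

lemma MM_zero (hj : Function.Injective (ev O χ b)) (L : LF (ev O χ b) Q) {f : K}
    (hf : f ∈ (MM χ b Q).F 0) : f ∈ L.F 0 := by
  obtain ⟨s, hs, a, -, h⟩ := hf
  have hs0 : ev O χ b s ≠ 0 := by
    intro h0
    have : s = 0 := hj (by rw [h0, map_zero])
    exact hs (this ▸ Q.zero_mem)
  have h1 : f = ev O χ b a / ev O χ b s := by
    rw [eq_div_iff hs0, mul_comm]; exact h
  rw [h1]
  exact L.frac _ _ hs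

/-- A multiple of a nonunit which is in `C`. -/
lemma MM_one {c : MvPolynomial ι O} (hj : Function.Injective (ev O χ b))
    (hc : ev O χ b c ∈ (MM χ b Q).F 1) : c ∈ Q := by
  obtain ⟨s, hs, a, ha, h⟩ := hc
  rw [← map_mul] at h
  have h1 := hj h
  have h2 : s * c ∈ Q := h1 ▸ ha le_rfl
  exact (hQ.mem_or_mem h2).resolve_left hs

variable (L : LF (ev O χ b) Q)

lemma chi_zsmul (h0 : χ 0 = 1) (ha : ∀ x y, χ (x + y) = χ x * χ y) (n : ℤ) (x : Λ) :
    χ (n • x) = χ x ^ n := by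
  obtain ⟨m, rfl | rfl⟩ := n.eq_nat_or_neg
  · rw [natCast_zsmul, chi_nsmul h0 ha, zpow_natCast]
  · rw [neg_smul, chi_neg h0 ha, natCast_zsmul, chi_nsmul h0 ha, zpow_neg, zpow_natCast]

/-- The characters in `LA` are units. -/
lemma chi_LA (h0 : χ 0 = 1) (ha : ∀ x y, χ (x + y) = χ x * χ y) {x : Λ} (hx : x ∈ LA b Q) :
    χ x ∈ L.F 0 := by
  rw [← b.sum_repr x, chi_sum h0 ha]
  refine L.prod0 _ _ fun i _ => ?_
  rw [chi_zsmul h0 ha]
  by_cases hi : (X i : MvPolynomial ι O) ∈ Q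
  · rw [hx i hi, zpow_zero]
    exact L.one
  · have h1 := L.base' (X i)
    have h2 := L.inv' (X i) hi
    rw [ev_X] at h1 h2
    exact L.zpow0 h1 h2 _

/-- The characters in `LA` which are one modulo the filtration. -/
def US (h0 : χ 0 = 1) (ha : ∀ x y, χ (x + y) = χ x * χ y) (n : ℤ) : Submodule ℤ Λ :=
  AddSubgroup.toIntSubmodule
  { carrier := {x | x ∈ LA b Q ∧ χ x - 1 ∈ L.F n}
    add_mem' := by
      rintro x y ⟨hx, hx'⟩ ⟨hy, hy'⟩
      refine ⟨(LA b Q).add_mem hx hy, ?_⟩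
      have h1 : χ (x + y) - 1 = (χ x - 1) * χ y + (χ y - 1) := by rw [ha]; ring
      rw [h1]
      exact (L.F n).add_mem (L.mul0' hx' (chi_LA L h0 ha hy)) hy'
    zero_mem' := ⟨(LA b Q).zero_mem, by rw [h0, sub_self]; exact (L.F n).zero_mem⟩
    neg_mem' := by
      rintro x ⟨hx, hx'⟩
      refine ⟨(LA b Q).neg_mem hx, ?_⟩
      have h1 : χ (-x) - 1 = -(χ (-x) * (χ x - 1)) := by
        have h2 : χ (-x) * χ x = 1 := by rw [← ha, neg_add_cancel, h0]
        rw [mul_sub, h2]; ring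
      rw [h1]
      exact (L.F n).neg_mem (L.mul0 (chi_LA L h0 ha ((LA b Q).neg_mem hx)) hx') }

lemma mem_US {h0 : χ 0 = 1} {ha : ∀ x y, χ (x + y) = χ x * χ y} {n : ℤ} {x : Λ} :
    x ∈ US L h0 ha n ↔ x ∈ LA b Q ∧ χ x - 1 ∈ L.F n := Iff.rfl

lemma US_anti (h0 : χ 0 = 1) (ha : ∀ x y, χ (x + y) = χ x * χ y) {m n : ℤ} (h : m ≤ n) {x : Λ}
    (hx : x ∈ US L h0 ha n) : x ∈ US L h0 ha m := ⟨hx.1, L.mono h hx.2⟩

/-- Roots prime to `p`. -/
lemma US_root (h0 : χ 0 = 1) (ha : ∀ x y, χ (x + y) = χ x * χ y)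
    (hj : Function.Injective (ev O χ b)) {n : ℕ} (hn : (n : MvPolynomial ι O) ∉ Q) {x : Λ}
    (hx : x ∈ US (MM χ b Q) h0 ha 1) {m : ℤ} (hm : n • x ∈ US L h0 ha m) : x ∈ US L h0 ha m := by
  refine ⟨hx.1, ?_⟩
  have h1 : χ x ^ n - 1 ∈ L.F m := by
    rw [← chi_nsmul h0 ha]; exact hm.2
  have h2 : (∑ i ∈ Finset.range n, χ x ^ i) * (χ x - 1) = χ x ^ n - 1 := geom_sum_mul _ _
  have h3 : ∑ i ∈ Finset.range n, χ x ^ i - n ∈ (MM χ b Q).F 1 := by
    have h4 : ∑ i ∈ Finset.range n, χ x ^ i - n = ∑ i ∈ Finset.range n, (χ x ^ i - 1) := by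
      rw [Finset.sum_sub_distrib]
      simp
    rw [h4]
    refine AddSubgroup.sum_mem _ fun i _ => ?_
    have h5 := (US (MM χ b Q) h0 ha 1).smul_mem (i : ℤ) hx
    have h6 := h5.2
    rw [chi_zsmul h0 ha, zpow_natCast] at h6
    exact h6
  obtain ⟨h4, h5⟩ := (MM χ b Q).unit_add hj MM_ctr hn h3
  rw [map_natCast, add_sub_cancel] at h4 h5
  have h6 : χ x - 1 = (∑ i ∈ Finset.range n, χ x ^ i)⁻¹ * (χ x ^ n - 1) := by
    rw [← h2, inv_mul_cancel_left₀ h5]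
  rw [h6]
  exact L.mul0 (MM_zero hj L h4) h1

/-- `p`-th powers. -/
lemma US_prime (h0 : χ 0 = 1) (ha : ∀ x y, χ (x + y) = χ x * χ y) {p : ℕ} (hp : p.Prime) {D : ℤ}
    (hD : 0 ≤ D) (hpF : (p : K) ∈ L.F ((p - 1 : ℕ) * D)) {x : Λ} (hx : x ∈ US L h0 ha D) :
    (p : ℤ) • x ∈ US L h0 ha (p * D) := by
  refine ⟨(LA b Q).smul_mem _ hx.1, ?_⟩
  rw [chi_zsmul h0 ha, zpow_natCast]
  have := L.pow_prime hp hD hpF hx.2
  rwa [add_sub_cancel] at this

/-- The powers of `𝔓`. -/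
lemma P_pow {𝔓 : Ideal O} (h : ∀ e ∈ 𝔓, algebraMap O K e ∈ L.F 1) (n : ℕ) :
    ∀ e ∈ 𝔓 ^ n, algebraMap O K e ∈ L.F n := by
  induction n with
  | zero =>
    intro e _
    have := L.base' (MvPolynomial.C e)
    rw [ev_C] at this
    simpa using this
  | succ n ih =>
    intro e he
    rw [pow_succ] at he
    refine Submodule.mul_induction_on he (fun x hx y hy => ?_) (fun x y hx hy => ?_)
    · rw [map_mul]
      exact L.mulr (ih x hx) (h y hy) _ (by push_cast; ring)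
    · rw [map_add]; exact (L.F _).add_mem hx hy

end

section

variable {O K Λ ι : Type} [CommRing O] [Field K] [Algebra O K] [AddCommGroup Λ] [Fintype ι]
  {χ : Λ → K} {b : Module.Basis ι ℤ Λ} {Q : Ideal (MvPolynomial ι O)} [hQ : Q.IsPrime]
  {p : ℕ} {σ : K →+* K} {t : O →+* O} {s : Module.End ℤ Λ} {𝔓 : Ideal O} {l : ℕ} {Δ : Set Λ}
  {v : Λ} (L : LF (ev O χ b) Q)

/-- The operator `σ - 1` on the local ring. -/
lemma delC (h : TD O K Λ p σ t s χ 𝔓 l) (hc : CD Δ v b) (hΔ : ∀ m ∈ Δ, s m ∈ Δ)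
    (hT : CT p s 𝔓 Δ v b Q) (h1 : ∀ e ∈ 𝔓, algebraMap O K e ∈ L.F 1)
    (h2 : L0 p s b Q ≤ US L h.χ0 h.χa l)
    (h3 : ∀ i, (σ (χ (v + b i)) - χ (v + b i)) / χ v ∈ L.F l) (c : MvPolynomial ι O) :
    σ (ev O χ b c) - ev O χ b c ∈ L.F l := by
  have hl : (0 : ℤ) ≤ l := by positivity
  have hv : v - s v ∈ US L h.χ0 h.χa l := by
    have := (US L h.χ0 h.χa l).neg_mem (h2 (sv_L0 h.sp hc hΔ hT))
    rwa [neg_sub] at this
  have hv0 := chi_ne h.χ0 h.χa v
  have hsv0 := chi_ne h.χ0 h.χa (s v)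
  have hX : ∀ i, σ (χ (b i)) - χ (b i) ∈ L.F l := by
    intro i
    have e1 : χ (b i) = χ (v + b i) / χ v := by
      rw [h.χa]; field_simp
    have e2 : σ (χ (b i)) - χ (b i) = (σ (χ (v + b i)) - χ (v + b i)) / χ v * χ (v - s v) +
        χ (b i) * (χ (v - s v) - 1) := by
      rw [chi_sub h.χ0 h.χa]
      have e3 : σ (χ (b i)) = σ (χ (v + b i)) / χ (s v) := by
        rw [← h.σχ v, ← map_div₀, ← e1]
      rw [e3]
      generalize σ (χ (v + b i)) = A
      rw [h.χa v (b i)]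
      field_simp
      ring
    rw [e2]
    have h4 := L.base' (X i)
    rw [ev_X] at h4
    exact (L.F l).add_mem (L.mul0' (h3 i) (chi_LA L h.χ0 h.χa hv.1)) (L.mul0 h4 hv.2)
  induction c using MvPolynomial.induction_on with
  | C a =>
    rw [ev_C, h.σO, ← map_sub]
    refine L.mono ?_ (P_pow L h1 (l + 1) _ (h.dv a))
    push_cast
    omega
  | add f g hf hg =>
    rw [map_add, map_add, add_sub_add_comm]
    exact (L.F l).add_mem hf hg
  | mul_X f i hf =>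
    rw [map_mul, map_mul, ev_X]
    have e4 : σ (ev O χ b f) * σ (χ (b i)) - ev O χ b f * χ (b i) =
        (σ (ev O χ b f) - ev O χ b f) * (χ (b i) + (σ (χ (b i)) - χ (b i))) +
          ev O χ b f * (σ (χ (b i)) - χ (b i)) := by ring
    rw [e4]
    have h4 := L.base' (X i)
    rw [ev_X] at h4
    exact (L.F l).add_mem (L.mul0' hf ((L.F 0).add_mem h4 (L.mono hl (hX i))))
      (L.mul0 (L.base' f) (hX i))

end

end Pool.Agent.T9h3
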