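import Pool.Agent.T9h3.OrdE

/-!
# Stable smooth lattice polytopes
-/

set_option autoImplicit false
set_option linter.unusedSectionVars false

namespace Pool.Agent.T9h3

lemma IsTO.sum_zero {Λ : Type} [AddCommGroup Λ] {S : AddSubmonoid Λ} (hS : IsTO S) {ι : Type}
    {T : Finset ι} {f : ι → Λ} (hf : ∀ i ∈ T, f i ∈ S) (h0 : ∑ i ∈ T, f i = 0) :
    ∀ i ∈ T, f i = 0 := by
  classical
  intro i hi
  refine hS.anti _ (hf i hi) ?_
  rw [← Finset.add_sum_erase _ _ hi] at h0
  have h1 : -f i = ∑ j ∈ T.erase i, f j := by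
    rw [neg_eq_iff_add_eq_zero]; exact h0
  rw [h1]
  exact S.sum_mem fun j hj => hf j (Finset.mem_of_mem_erase hj)

/-- Projections. -/
lemma proj {Λ : Type} [AddCommGroup Λ] {G : Type} [Group G] [DistribMulAction G Λ]
    {ι : Type} [Fintype ι] {Y : Type} {e : Y → Λ}
    (htf : ∀ (n : ℕ) (x : Λ), n • x = 0 → n = 0 ∨ x = 0)
    {Λ' : Type} [AddCommGroup Λ'] (htf' : ∀ (n : ℤ) (x : Λ'), n • x = 0 → n = 0 ∨ x = 0)
    (π : Λ →ₗ[ℤ] Λ') (hπ : Function.Surjective π) {Δ : Set Λ} (hΔ : Good G e ι Δ)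
    (Φ : Set Λ) (hΦ : Submodule.span ℤ Φ = LinearMap.ker π)
    (hB : ∀ A, ∀ φ ∈ Φ, Bad e ι Δ A φ = ∅) (S' : AddSubmonoid Λ') (hS' : IsTO S') :
    ∃ (ι' : Type) (_ : Fintype ι') (v' : Λ') (b' : Module.Basis ι' ℤ Λ'),
      CD (π '' Δ) v' b' ∧ ∀ i, b' i ∈ S' := by
  classical
  let P : AddSubmonoid Λ :=
    { carrier := {x | x = 0 ∨ (π x ∈ S' ∧ π x ≠ 0)}
      add_mem' := by
        rintro x y (rfl | ⟨hx, hx'⟩) (rfl | ⟨hy, hy'⟩)
        · left; rw [add_zero]
        · right; rw [zero_add]; exact ⟨hy, hy'⟩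
        · right; rw [add_zero]; exact ⟨hx, hx'⟩
        · right
          rw [map_add]
          refine ⟨S'.add_mem hx hy, fun h => hx' (hS'.anti _ hx ?_)⟩
          rw [neg_eq_iff_add_eq_zero.2 h]
          exact hy
      zero_mem' := Or.inl rfl }
  obtain ⟨S, hPS, hS⟩ := exists_TO htf P (by
    rintro x (hx | ⟨hx, hx'⟩) hx2
    · exact hx
    · rcases hx2 with hx2 | ⟨hx2, -⟩
      · rwa [neg_eq_zero] at hx2
      · rw [map_neg] at hx2
        exact absurd (hS'.anti _ hx hx2) hx')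
  have hSS : ∀ x ∈ S, π x ∈ S' := by
    intro x hx
    rcases hS'.tot (π x) with h | h
    · exact h
    · by_cases h0 : π x = 0
      · rw [h0]; exact S'.zero_mem
      · have h1 : -x ∈ S := hPS (Or.inr ⟨by rw [map_neg]; exact h, by
          rw [map_neg]; exact fun h2 => h0 (neg_eq_zero.1 h2)⟩)
        rw [hS.anti _ hx h1, map_zero]
        exact S'.zero_mem
  obtain ⟨v, b, h, hb⟩ := hΔ.ni S hS
  have hk0 : ∀ φ ∈ Φ, ∀ i, π (b i) ≠ 0 → b.coord i φ = 0 := by
    intro φ hφ i hi
    have h1 : π φ = 0 := by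
      have : φ ∈ LinearMap.ker π := by rw [← hΦ]; exact Submodule.subset_span hφ
      exact this
    have h2 : (∀ i, 0 ≤ b.coord i φ) ∨ ∀ i, b.coord i φ ≤ 0 := by
      by_contra hcon
      rw [not_or] at hcon
      obtain ⟨h3, h4⟩ := hcon
      push Not at h3 h4
      obtain ⟨l', hl'⟩ := h3
      obtain ⟨l, hl⟩ := h4
      have : (b.coord l, b.coord l') ∈ Bad e ι Δ (AS e S) φ :=
        ⟨S, hS, rfl, v, b, h, hb, l, l', rfl, hl, hl'⟩
      rw [hB _ φ hφ] at this
      exact this
    have h3 : ∑ i, b.coord i φ • π (b i) = 0 := by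
      have h4 := congrArg π (b.sum_repr φ)
      rw [map_sum, h1] at h4
      rw [← h4]
      exact Finset.sum_congr rfl fun i _ => (map_smul π _ _).symm
    have hz : ∀ (c : ι → ℤ), (∀ i, 0 ≤ c i) → ∑ i, c i • π (b i) = 0 → c i = 0 := by
      intro c hc hc0
      have h4 := hS'.sum_zero (T := Finset.univ) (f := fun i => c i • π (b i)) (fun i _ => by
        obtain ⟨n, hn⟩ := Int.eq_ofNat_of_zero_le (hc i)
        change c i • π (b i) ∈ S'
        rw [hn, natCast_zsmul]
        exact S'.nsmul_mem (hSS _ (hb i)) n) hc0 i (Finset.mem_univ i)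
      rcases htf' _ _ h4 with h5 | h5
      · exact h5
      · exact absurd h5 hi
    rcases h2 with h2 | h2
    · exact hz _ h2 h3
    · have h4 := hz (fun i => -b.coord i φ) (fun i => by
        have := h2 i
        change 0 ≤ -b.coord i φ
        linarith) (by
        have : ∑ i, (-b.coord i φ) • π (b i) = -∑ i, b.coord i φ • π (b i) := by
          rw [← Finset.sum_neg_distrib]
          exact Finset.sum_congr rfl fun i _ => neg_smul _ _
        rw [this, h3, neg_zero])
      change -b.coord i φ = 0 at h4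
      linarith
  have hk : ∀ φ ∈ LinearMap.ker π, ∀ i, π (b i) ≠ 0 → b.coord i φ = 0 := by
    intro φ hφ i hi
    rw [← hΦ] at hφ
    have h1 : Submodule.span ℤ Φ ≤ LinearMap.ker (b.coord i) :=
      Submodule.span_le.2 fun φ hφ => hk0 φ hφ i hi
    exact h1 hφ
  have hli : LinearIndependent ℤ fun i : {i // π (b i) ≠ 0} => π (b i.1) := by
    rw [Fintype.linearIndependent_iff]
    intro a ha i
    have h1 : ∑ i : {i // π (b i) ≠ 0}, a i • b i.1 ∈ LinearMap.ker π := by
      rw [LinearMap.mem_ker, map_sum]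
      exact (Finset.sum_congr rfl fun i _ => map_smul π _ _).trans ha
    have h2 := hk _ h1 i.1 i.2
    rw [map_sum, Finset.sum_eq_single i] at h2
    · rwa [map_smul, coord_self, smul_eq_mul, mul_one] at h2
    · intro j _ hj
      rw [map_smul, coord_ne b (fun h => hj (Subtype.ext h.symm)), smul_zero]
    · intro h; exact absurd (Finset.mem_univ _) h
  have hsp : ⊤ ≤ Submodule.span ℤ (Set.range fun i : {i // π (b i) ≠ 0} => π (b i.1)) := by
    intro y _
    obtain ⟨x, rfl⟩ := hπ y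
    rw [← b.sum_repr x, map_sum]
    refine Submodule.sum_mem _ fun i _ => ?_
    rw [map_smul]
    refine Submodule.smul_mem _ _ ?_
    by_cases h0 : π (b i) = 0
    · rw [h0]; exact Submodule.zero_mem _
    · exact Submodule.subset_span ⟨⟨i, h0⟩, rfl⟩
  let b' : Module.Basis {i // π (b i) ≠ 0} ℤ Λ' := Module.Basis.mk hli hsp
  have hb' : ∀ i, b' i = π (b i.1) := fun i => by
    change Module.Basis.mk _ _ i = _
    rw [Module.Basis.mk_apply]
  have hco : ∀ (i : {i // π (b i) ≠ 0}) (x : Λ), b'.coord i (π x) = b.coord i.1 x := by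
    intro i x
    have h1 : b'.coord i ∘ₗ π = b.coord i.1 := by
      refine b.ext fun j => ?_
      rw [LinearMap.comp_apply]
      by_cases h0 : π (b j) = 0
      · rw [h0, map_zero, coord_ne b]
        intro h2
        exact i.2 (by rw [h2]; exact h0)
      · rw [show π (b j) = b' ⟨j, h0⟩ from (hb' ⟨j, h0⟩).symm]
        by_cases h2 : i = ⟨j, h0⟩
        · rw [h2, coord_self, coord_self]
        · rw [coord_ne b' h2, coord_ne b]
          exact fun h3 => h2 (Subtype.ext h3)
    exact congrArg (fun f : Λ →ₗ[ℤ] ℤ => f x) h1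
  refine ⟨_, inferInstance, π v, b', ⟨⟨v, h.vm, rfl⟩, fun i => ?_, ?_⟩, fun i => ?_⟩
  · rw [hb', ← map_add]
    exact ⟨_, h.nb i.1, rfl⟩
  · rintro _ ⟨m, hm, rfl⟩ i
    rw [← map_sub]
    change 0 ≤ b'.coord i (π (m - v))
    rw [hco]
    exact h.nn m hm i.1
  · rw [hb']
    exact hSS _ (hb i.1)

/-- The index set. -/
def XX (G J : Type) : Type := G × J

instance (G J : Type) [Fintype G] [Fintype J] : Fintype (XX G J) :=
  inferInstanceAs (Fintype (G × J))

instance (G J : Type) [Group G] : MulAction G (XX G J) where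
  smul g x := (g * x.1, x.2)
  one_smul x := Prod.ext (one_mul _) rfl
  mul_smul g h x := Prod.ext (mul_assoc _ _ _) rfl

/-- The permutation lattice. -/
def PX (X : Type) : Type := X →₀ ℤ

noncomputable instance (X : Type) : AddCommGroup (PX X) := inferInstanceAs (AddCommGroup (X →₀ ℤ))

noncomputable instance (G X : Type) [Group G] [MulAction G X] : DistribMulAction G (PX X) :=
  Finsupp.comapDistribMulAction (G := G) (α := X) (M := ℤ)

noncomputable def bPX (X : Type) : Module.Basis X ℤ (PX X) :=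
  (Finsupp.basisSingleOne : Module.Basis X ℤ (X →₀ ℤ))

lemma bPX_smul {G X : Type} [Group G] [MulAction G X] (g : G) (x : X) :
    bPX X (g • x) = g • bPX X x := by
  have h1 : ∀ y, bPX X y = (Finsupp.single y 1 : X →₀ ℤ) := fun y => by
    change (Finsupp.basisSingleOne : Module.Basis X ℤ (X →₀ ℤ)) y = _
    rw [Finsupp.coe_basisSingleOne]
  rw [h1, h1]
  exact (Finsupp.comapSMul_single g x (1 : ℤ)).symm

/-- **Stable smooth lattice polytopes exist.** -/
theorem exists_smooth (G L : Type) [Group G] [Finite G] [AddCommGroup L] [DistribMulAction G L]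
    [Module.Free ℤ L] [Module.Finite ℤ L] :
    ∃ Δ : Set L, Δ.Finite ∧ Δ.Nonempty ∧ (∀ g : G, ∀ x ∈ Δ, g • x ∈ Δ) ∧ CV0 Δ := by
  classical
  haveI := Fintype.ofFinite G
  let β := Module.Free.chooseBasis ℤ L
  let J := Module.Free.ChooseBasisIndex ℤ L
  let X := XX G J
  let e : Option X → PX X := fun y => y.elim 0 fun x => bPX X x
  have hn : e none = 0 := rfl
  have hs : ∀ x, e (some x) = bPX X x := fun _ => rfl
  have hG : Good G e (Fin (Fintype.card X)) (PH e) := PH_good (bPX_smul (G := G)) hn hs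
  have he : ∀ (g : G) y, e (g • y) = g • e y := by
    intro g y
    cases y with
    | none => rw [Option.smul_none, hn, smul_zero]
    | some x => rw [Option.smul_some, hs, hs, bPX_smul]
  have hspan : Submodule.span ℤ (Set.range e) = ⊤ := by
    rw [← top_le_iff, ← (bPX X).span_eq, Submodule.span_le]
    rintro _ ⟨x, rfl⟩
    exact Submodule.subset_span ⟨some x, rfl⟩
  let π : PX X →ₗ[ℤ] L := (bPX X).constr ℤ fun x => x.1 • β x.2
  have hπb : ∀ x : X, π (bPX X x) = x.1 • β x.2 := fun x => (bPX X).constr_basis ℤ _ x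
  have hπ : Function.Surjective π := by
    rw [← LinearMap.range_eq_top, ← top_le_iff, ← β.span_eq, Submodule.span_le]
    rintro _ ⟨j, rfl⟩
    refine ⟨bPX X ((1 : G), j), ?_⟩
    rw [hπb]
    exact one_smul G _
  have hπG : ∀ (g : G) x, π (g • x) = g • π x := by
    intro g x
    have h1 : π ∘ₗ (DistribMulAction.toAddMonoidHom (PX X) g).toIntLinearMap =
        (DistribMulAction.toAddMonoidHom L g).toIntLinearMap ∘ₗ π := by
      refine (bPX X).ext fun x => ?_
      change π (g • bPX X x) = g • π (bPX X x)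
      rw [← bPX_smul, hπb, hπb, smul_smul]
      rfl
    exact congrArg (fun f : PX X →ₗ[ℤ] L => f x) h1
  haveI : Module.Finite ℤ (PX X) := Module.Finite.of_basis (bPX X)
  haveI : Module.Free ℤ (PX X) := Module.Free.of_basis (bPX X)
  have hN : IsNoetherian ℤ (PX X) := inferInstance
  obtain ⟨Φ, hΦ⟩ := hN.noetherian (LinearMap.ker π)
  obtain ⟨Δ, hΔ, hB⟩ := fix_all he hspan hG Φ
  have htf : ∀ (L' : Type) [AddCommGroup L'] [Module.Free ℤ L'] (n : ℤ) (x : L'),
      n • x = 0 → n = 0 ∨ x = 0 := by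
    intro L' _ _ n x h
    exact smul_eq_zero.1 h
  have htfn : ∀ (L' : Type) [AddCommGroup L'] [Module.Free ℤ L'] (n : ℕ) (x : L'),
      n • x = 0 → n = 0 ∨ x = 0 := by
    intro L' _ _ n x h
    rw [← natCast_zsmul] at h
    rcases htf L' _ x h with h | h
    · exact Or.inl (by exact_mod_cast h)
    · exact Or.inr h
  refine ⟨π '' Δ, hΔ.fin.image _, ?_, ?_, ?_⟩
  · obtain ⟨S, -, hS⟩ := exists_TO (htfn (PX X)) ⊥ (fun x hx _ => hx)
    obtain ⟨v, b, h, -⟩ := hΔ.ni S hS
    exact ⟨_, v, h.vm, rfl⟩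
  · rintro g _ ⟨x, hx, rfl⟩
    exact ⟨g • x, hΔ.st g x hx, hπG g x⟩
  · refine cv0_of (htfn L) fun S' hS' => ?_
    exact proj (htfn (PX X)) (htf L) π hπ hΔ Φ hΦ (fun A φ hφ => hB A φ hφ) S' hS'

end Pool.Agent.T9h3
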