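import Pool.Agent.T9h3.Crg

/-!
# Toric schemes: the graded algebras of the weighted blowup
-/

set_option autoImplicit false
set_option linter.unusedSectionVars false

namespace Pool.Agent.T9h3

open MvPolynomial IsLocalRing Algebra Pool.Agent.Y223.G Pool.Agent.R383.TM
open Pool.Agent.Y86.G5 (im mem_im im_sub im_mul im_prime im_one im_pow up mem_up up_prime)

variable {O K Λ : Type} [CommRing O] [IsDomain O] [IsDedekindDomain O] [Field K]
  [Algebra O K] [AddCommGroup Λ] {χ : Λ → K}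
  {p : ℕ} {σ : K →+* K} {t : O →+* O}
  {s : Module.End ℤ Λ} {𝔓 : Ideal O} {l : ℕ} {Δ : Set Λ} {m : ℕ} {z : Fin (m + 1) → K}
  {W κ : Fin (m + 1) → ℕ}

/-- The coordinates and the weights. -/
structure ZW (χ : Λ → K) (σ : K →+* K) (p : ℕ) (s : Module.End ℤ Λ) (l : ℕ) (Δ : Set Λ)
    (z : Fin (m + 1) → K) (W κ : Fin (m + 1) → ℕ) : Prop where
  z0 : ∀ i, z i ≠ 0
  kp : ∀ i, κ i ≤ p - 1
  zw : ∀ i, z i ∈ WW χ σ p s Δ (κ i)
  eq : ∀ i, W i = κ i * l
  sp : ∀ k, k ≤ p - 1 → WW χ σ p s Δ k ≤ Submodule.span ℤ {y | ∃ i, k ≤ κ i ∧ y = z i}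

lemma ZW.wr (Z : ZW χ σ p s l Δ z W κ) (j : Fin (m + 1)) :
    WR O 𝔓 1 W z j = GG χ σ p s 𝔓 l Δ (z j) := by
  apply le_antisymm
  · unfold WR
    rw [Algebra.adjoin_le_iff]
    rintro f (((hf | ⟨a, ha, rfl⟩) | ⟨o, rfl⟩) | ⟨i, rfl⟩)
    · rw [Set.mem_singleton_iff] at hf
      rw [hf]
      exact GG_s
    · rw [SetLike.mem_coe, Nat.cast_one]
      exact GG_P ha
    · exact GG_O o
    · rw [SetLike.mem_coe, Z.eq]
      exact GG_W (Z.kp i) (Z.zw i)
  · unfold GG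
    rw [Algebra.adjoin_le_iff]
    rintro f ((hf | ⟨a, ha, rfl⟩) | ⟨k, hk, u, hu, rfl⟩)
    · rw [Set.mem_singleton_iff] at hf
      rw [hf]
      exact WR_s
    · have h1 := WR_e (k := O) (e := 1) (W := W) (z := z) (j := j) ha
      rwa [Nat.cast_one] at h1
    · have h1 := Z.sp k hk hu
      clear hu
      induction h1 using Submodule.span_induction with
      | mem x hx =>
        obtain ⟨i, hi, rfl⟩ := hx
        refine low_mem WR_s (WR_z i) ?_
        rw [Z.eq]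
        have : k * l ≤ κ i * l := Nat.mul_le_mul_right _ hi
        exact_mod_cast this
      | zero => rw [zero_div, hm_zero]; exact Subalgebra.zero_mem _
      | add x y _ _ hx hy => rw [add_div, hm_add]; exact Subalgebra.add_mem _ hx hy
      | smul c x _ hx =>
        have h1 : hm (k * l : ℕ) (c • x / z j) = hm 0 (c : K) * hm (k * l : ℕ) (x / z j) := by
          rw [zsmul_eq_mul, mul_div_assoc, hm_mul, zero_add]
        rw [h1]
        have h2 := Subalgebra.algebraMap_mem (WR O 𝔓 1 W z j) (c : O)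
        rw [algebraMap_LP, map_intCast] at h2
        exact Subalgebra.mul_mem _ h2 hx

/-- The chart rings. -/
lemma ZW.cg (Z : ZW χ σ p s l Δ z W κ) (hs : s ^ p = 1) (hσ : ∀ x, σ (χ x) = χ (s x))
    (hΔ : ∀ m ∈ Δ, s m ∈ Δ) (j : Fin (m + 1)) :
    Algebra.adjoin O (Set.range fun i => z i / z j) = CG0 O χ Δ (z j) := by
  apply le_antisymm
  · rw [Algebra.adjoin_le_iff]
    rintro _ ⟨i, rfl⟩
    exact CG0_mem (WW_mono hs hσ hΔ (Nat.zero_le _) (Z.zw i))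
  · unfold CG0
    rw [Algebra.adjoin_le_iff]
    rintro _ ⟨x, hx, rfl⟩
    have h1 := Z.sp 0 (Nat.zero_le _) (chi_WW hx)
    obtain ⟨y, hy⟩ : ∃ y, y = χ x := ⟨_, rfl⟩
    rw [← hy] at h1 ⊢
    clear hy
    induction h1 using Submodule.span_induction with
    | mem x hx =>
      obtain ⟨i, hi, rfl⟩ := hx
      exact Algebra.subset_adjoin ⟨i, rfl⟩
    | zero => rw [zero_div]; exact Subalgebra.zero_mem _
    | add x y _ _ hx hy => rw [add_div]; exact Subalgebra.add_mem _ hx hy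
    | smul c x _ hx =>
      rw [zsmul_eq_mul, mul_div_assoc]
      exact Subalgebra.mul_mem _ (Subalgebra.intCast_mem _ c) hx

lemma ZW.w0 (Z : ZW χ σ p s l Δ z W κ) (hs : s ^ p = 1) (hσ : ∀ x, σ (χ x) = χ (s x))
    (hΔ : ∀ m ∈ Δ, s m ∈ Δ) (j : Fin (m + 1)) : z j ∈ WW χ σ p s Δ 0 :=
  WW_mono hs hσ hΔ (Nat.zero_le _) (Z.zw j)

/-- **Regularity.** -/
theorem ZW.reg (Z : ZW χ σ p s l Δ z W κ) (h : TD O K Λ p σ t s χ 𝔓 l) (hΔ : ∀ m ∈ Δ, s m ∈ Δ)
    (hfin : Δ.Finite) (hV : CV p s Δ) (j : Fin (m + 1)) : IsRegularRing (BR 𝔓 1 W z j) := by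
  rw [BR_eq (k := O), Z.wr]
  exact GG_reg h hΔ hfin hV (Z.z0 j) (Z.w0 h.sp h.σχ hΔ j)

lemma ZW.mem_BR (Z : ZW χ σ p s l Δ z W κ) {j : Fin (m + 1)} {n : ℤ} {x : K} :
    mo x n ∈ BR 𝔓 1 W z j ↔ hm n x ∈ GG χ σ p s 𝔓 l Δ (z j) := by
  rw [BR_eq (k := O), Z.wr, mo_eq]
  exact Iff.rfl

lemma ZW.mem_W (Z : ZW χ σ p s l Δ z W κ) {j : Fin (m + 1)} {k : ℕ} (hk : k ≤ p - 1) {u : K}
    (hu : u ∈ WW χ σ p s Δ k) : mo (u / z j) (k * l : ℕ) ∈ BR 𝔓 1 W z j := by
  rw [Z.mem_BR]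
  exact GG_W hk hu

/-- **The operator `σ - 1`.** -/
theorem ZW.d (Z : ZW χ σ p s l Δ z W κ) (h : TD O K Λ p σ t s χ 𝔓 l) (hΔ : ∀ m ∈ Δ, s m ∈ Δ)
    (hV : CV p s Δ) (i j : Fin (m + 1)) :
    mo ((σ (z i) - z i) / z j) ((W i : ℤ) + l) ∈ BR 𝔓 1 W z j := by
  rw [Z.mem_BR]
  have h1 := GG_d h hΔ hV (Z.z0 j) (Z.w0 h.sp h.σχ hΔ j) (Z.kp i) (Z.zw i)
  have h2 : (((κ i + 1) * l : ℕ) : ℤ) = (W i : ℤ) + l := by rw [Z.eq]; push_cast; ring
  rwa [h2] at h1

/-- **No zeros.** -/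
theorem ZW.nf (Z : ZW χ σ p s l Δ z W κ) (h : TD O K Λ p σ t s χ 𝔓 l) (hΔ : ∀ m ∈ Δ, s m ∈ Δ)
    (hV : CV p s Δ) (j : Fin (m + 1)) : NF (BR 𝔓 1 W z j) 𝔓 1 l W z σ j := by
  rw [BR_eq (k := O), Z.wr]
  intro x hx
  rw [Ideal.radical_eq_sInf, Submodule.mem_sInf]
  rintro 𝔔 ⟨hle, h𝔔⟩
  obtain ⟨n, hn, a, hxa⟩ := hx
  obtain ⟨J, hJ⟩ : ∃ J : Ideal (GG χ σ p s 𝔓 l Δ (z j)), J = 𝔔 := ⟨𝔔, rfl⟩
  have hJp : J.IsPrime := by rw [hJ]; exact h𝔔
  have gen : ∀ (n : ℤ) (y : K), hm n y ∈ GG χ σ p s 𝔓 l Δ (z j) →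
      (∀ (hy : hm n y ∈ (GG χ σ p s 𝔓 l Δ (z j)).toSubring),
        (⟨hm n y, hy⟩ : (GG χ σ p s 𝔓 l Δ (z j)).toSubring) ∈
          FB (GG χ σ p s 𝔓 l Δ (z j)).toSubring 𝔓 1 l W z σ j) →
      hm n y ∈ im (GG χ σ p s 𝔓 l Δ (z j)) J := by
    intro n y hy h1
    refine ⟨hy, ?_⟩
    rw [hJ]
    exact hle (h1 hy)
  have hw0 := Z.w0 h.sp h.σχ hΔ j
  have low : ∀ {d e : ℤ} {y : K}, hm d y ∈ im (GG χ σ p s 𝔓 l Δ (z j)) J → e ≤ d →
      hm e y ∈ im (GG χ σ p s 𝔓 l Δ (z j)) J := by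
    intro d e y hy he
    have h1 := im_mul (Subalgebra.pow_mem _ (GG_s (χ := χ) (σ := σ) (p := p) (s := s) (𝔓 := 𝔓)
      (l := l) (Δ := Δ) (w := z j)) (d - e).toNat) hy
    rw [hm_pow, one_pow, hm_mul, one_mul] at h1
    have h2 : ((d - e).toNat : ℤ) * -1 + d = e := by
      rw [Int.toNat_of_nonneg (by omega)]
      ring
    rwa [h2] at h1
  have hPn : ∀ n : ℕ, ∀ e ∈ 𝔓 ^ n, hm n (algebraMap O K e) ∈ GG χ σ p s 𝔓 l Δ (z j) := by
    intro n
    induction n with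
    | zero => intro e _; exact GG_O e
    | succ n ih =>
      intro e he
      rw [pow_succ] at he
      refine Submodule.mul_induction_on he (fun x hx y hy => ?_) (fun x y hx hy => ?_)
      · have h3 := Subalgebra.mul_mem _ (ih x hx) (GG_P (χ := χ) (σ := σ) (p := p) (s := s)
          (l := l) (Δ := Δ) (w := z j) hy)
        rw [hm_mul, ← map_mul] at h3
        exact_mod_cast h3
      · rw [map_add, hm_add]
        exact Subalgebra.add_mem _ hx hy
  have hgm : hm n a ∈ GG χ σ p s 𝔓 l Δ (z j) := by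
    rw [← mo_eq, ← hxa]
    exact x.2
  have key := GG_nd h hΔ hV (Z.z0 j) hw0 J hJp (fun a ha => ?_) (fun a ha => ?_)
    (fun k hk u hu u' hu' => ?_) (show (0 : ℤ) < n by exact_mod_cast hn) hgm
  · obtain ⟨h1, h2⟩ := key
    rw [hJ] at h2
    have h3 : x = ⟨hm n a, h1⟩ := by
      apply Subtype.ext
      rw [hxa, mo_eq]
    rw [h3]
    exact h2
  · refine gen 0 _ (GG_O a) fun hy => Ideal.subset_span (Or.inl ⟨a, ha, ?_⟩)
    rw [mo_eq]
  · refine gen _ _ ?_ fun hy => Ideal.subset_span (Or.inr (Or.inl ⟨a, ha, ?_⟩))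
    · rw [add_comm 1 l]
      exact hPn (l + 1) _ (h.dv a)
    · rw [mo_eq, h.σO, ← map_sub]
      push_cast
      rfl
  · -- the minors
    have hu1 := Z.sp k hk hu
    have hu2 := Z.sp 0 (Nat.zero_le _) hu'
    clear hu hu'
    have hzz : ∀ i i' : Fin (m + 1), hm ((W i : ℤ) + W i' + l)
        ((z i * σ (z i') - z i' * σ (z i)) / z j ^ 2) ∈ im (GG χ σ p s 𝔓 l Δ (z j)) J := by
      intro i i'
      refine gen _ _ ?_ fun hy => Ideal.subset_span (Or.inr (Or.inr ⟨i, i', ?_⟩))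
      · have g1 := GG_W (χ := χ) (σ := σ) (p := p) (s := s) (𝔓 := 𝔓) (l := l) (Δ := Δ)
          (w := z j) (Z.kp i) (Z.zw i)
        have g2 := GG_W (χ := χ) (σ := σ) (p := p) (s := s) (𝔓 := 𝔓) (l := l) (Δ := Δ)
          (w := z j) (Z.kp i') (Z.zw i')
        have g3 := GG_d h hΔ hV (Z.z0 j) hw0 (Z.kp i) (Z.zw i)
        have g4 := GG_d h hΔ hV (Z.z0 j) hw0 (Z.kp i') (Z.zw i')
        have g5 := Subalgebra.sub_mem _ (Subalgebra.mul_mem _ g1 g4) (Subalgebra.mul_mem _ g2 g3)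
        rw [hm_mul, hm_mul] at g5
        have e1 : (((κ i * l : ℕ) : ℤ) + (((κ i' + 1) * l : ℕ) : ℤ)) = (W i : ℤ) + W i' + l := by
          rw [Z.eq, Z.eq]; push_cast; ring
        have e2 : (((κ i' * l : ℕ) : ℤ) + (((κ i + 1) * l : ℕ) : ℤ)) = (W i : ℤ) + W i' + l := by
          rw [Z.eq, Z.eq]; push_cast; ring
        rw [e1, e2, ← hm_sub] at g5
        have e3 : z i / z j * ((σ (z i') - z i') / z j) - z i' / z j * ((σ (z i) - z i) / z j) =
            (z i * σ (z i') - z i' * σ (z i)) / z j ^ 2 := by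
          have := Z.z0 j
          field_simp
          ring
        rwa [e3] at g5
      · rw [mo_eq]
    have hint : ∀ (c : ℤ) {n : ℤ} {y : K}, hm n y ∈ im (GG χ σ p s 𝔓 l Δ (z j)) J →
        hm n ((c : K) * y) ∈ im (GG χ σ p s 𝔓 l Δ (z j)) J := by
      intro c n y hy
      have h2 := GG_O (χ := χ) (σ := σ) (p := p) (s := s) (𝔓 := 𝔓) (l := l) (Δ := Δ)
        (w := z j) (c : O)
      rw [map_intCast] at h2
      have h3 := im_mul h2 hy
      rwa [hm_mul, zero_add] at h3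
    -- first variable
    have step : ∀ i : Fin (m + 1), k ≤ κ i → ∀ u' ∈ Submodule.span ℤ {y | ∃ i, 0 ≤ κ i ∧ y = z i},
        hm ((k + 1) * l : ℕ) ((z i * σ u' - u' * σ (z i)) / z j ^ 2) ∈
          im (GG χ σ p s 𝔓 l Δ (z j)) J := by
      intro i hi u' hu'
      induction hu' using Submodule.span_induction with
      | mem x hx =>
        obtain ⟨i', -, rfl⟩ := hx
        refine low (hzz i i') ?_
        rw [Z.eq]
        have h1 : k * l ≤ κ i * l := Nat.mul_le_mul_right _ hi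
        have h2 : ((k * l : ℕ) : ℤ) ≤ ((κ i * l : ℕ) : ℤ) := by exact_mod_cast h1
        have h3 : (0 : ℤ) ≤ (W i' : ℤ) := by positivity
        have h4 : (((k + 1) * l : ℕ) : ℤ) = ((k * l : ℕ) : ℤ) + l := by push_cast; ring
        rw [h4]
        linarith
      | zero =>
        rw [map_zero, mul_zero, zero_mul, sub_zero, zero_div, hm_zero]
        exact (im _ J).zero_mem
      | add x y _ _ hx hy =>
        have e1 : (z i * σ (x + y) - (x + y) * σ (z i)) / z j ^ 2 =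
            (z i * σ x - x * σ (z i)) / z j ^ 2 + (z i * σ y - y * σ (z i)) / z j ^ 2 := by
          rw [map_add]; ring
        rw [e1, hm_add]
        exact (im _ J).add_mem hx hy
      | smul c x _ hx =>
        have e1 : (z i * σ (c • x) - (c • x) * σ (z i)) / z j ^ 2 =
            (c : K) * ((z i * σ x - x * σ (z i)) / z j ^ 2) := by
          rw [zsmul_eq_mul, map_mul, map_intCast]; ring
        rw [e1]
        exact hint c hx
    induction hu1 using Submodule.span_induction with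
    | mem x hx =>
      obtain ⟨i, hi, rfl⟩ := hx
      exact step i hi u' hu2
    | zero =>
      rw [map_zero, mul_zero, zero_mul, sub_zero, zero_div, hm_zero]
      exact (im _ J).zero_mem
    | add x y _ _ hx hy =>
      have e1 : ((x + y) * σ u' - u' * σ (x + y)) / z j ^ 2 =
          (x * σ u' - u' * σ x) / z j ^ 2 + (y * σ u' - u' * σ y) / z j ^ 2 := by
        rw [map_add]; ring
      rw [e1, hm_add]
      exact (im _ J).add_mem hx hy
    | smul c x _ hx =>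
      have e1 : ((c • x) * σ u' - u' * σ (c • x)) / z j ^ 2 =
          (c : K) * ((x * σ u' - u' * σ x) / z j ^ 2) := by
        rw [zsmul_eq_mul, map_mul, map_intCast]; ring
      rw [e1]
      exact hint c hx

end Pool.Agent.T9h3
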