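import Pool.Agent.T9h3.Jac

/-!
# Characters of a torus with an automorphism of prime order: the parameters are independent
-/

set_option autoImplicit false
set_option linter.unusedSectionVars false

namespace Pool.Agent.T9h3

open MvPolynomial IsLocalRing Pool.Agent.W418.LU2 Algebra
open Pool.Agent.Y614.WC (exists_unif not_mem_sq)

variable {O K Λ ι : Type} [CommRing O] [IsDomain O] [IsDedekindDomain O] [Field K]
  [Algebra O K] [AddCommGroup Λ] [Fintype ι] {χ : Λ → K} {b : Module.Basis ι ℤ Λ}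
  {Q : Ideal (MvPolynomial ι O)} [hQ : Q.IsPrime] {p : ℕ} {σ : K →+* K} {t : O →+* O}
  {s : Module.End ℤ Λ} {𝔓 : Ideal O} {l : ℕ} {Δ : Set Λ} {v : Λ}
  {J : Type} [Fintype J] {ϖ r : IC Q → IC Q} {k : J → ℕ} {μ : J → Λ} {π : O}

lemma PD.sub_LA (D : PD p t s 𝔓 l b Q ϖ r k μ π) (Y : CY χ b Q p σ t s 𝔓 l Δ v) (a : ℕ)
    (c : IC Q) : (s ^ a) (v + b c) - v - b (ϖ^[a] c) ∈ LA b Q := by
  have h1 := LA_of_norm Y.hc Y.hT Y.hc.vm (Y.spow a Y.hc.vm) (Nm_pow Y.h.sp a v).symm
    (by rw [sub_self]; exact (LA b Q).zero_mem)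
  have h2 := (LA b Q).add_mem h1 (D.orb a c)
  have h3 : (s ^ a) (v + b c) - v - b (ϖ^[a] c) = (s ^ a) v - v + ((s ^ a) (b c) - b (ϖ^[a] c)) := by
    rw [map_add]; abel
  rw [h3]
  exact h2

lemma PD.rp [DecidableEq ι] (D : PD p t s 𝔓 l b Q ϖ r k μ π) (Y : CY χ b Q p σ t s 𝔓 l Δ v)
    (a : ℕ) (c i : IC Q) :
    b.repr ((s ^ a) (v + b c) - v) i = if i = ϖ^[a] c then 1 else 0 := by
  have h1 := D.sub_LA Y a c i i.2
  rw [map_sub, Finsupp.sub_apply, sub_eq_zero] at h1
  rw [h1, Module.Basis.repr_self, Finsupp.single_apply]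
  by_cases h : i = ϖ^[a] c
  · rw [if_pos h, if_pos (by rw [h])]
  · rw [if_neg h, if_neg fun h2 => h (Subtype.ext h2.symm)]

/-- The value of the unit. -/
noncomputable def gv (Q : Ideal (MvPolynomial ι O)) [hQ : Q.IsPrime] (s : Module.End ℤ Λ) (v : Λ)
    (b : Module.Basis ι ℤ Λ) (ϖ : IC Q → IC Q) (a : ℕ) (c : IC Q) :
    ResidueField (Localization.AtPrime Q) :=
  th Q (mon O b ((s ^ a) (v + b c) - v - b (ϖ^[a] c)))

lemma PD.gv_ne (D : PD p t s 𝔓 l b Q ϖ r k μ π) (Y : CY χ b Q p σ t s 𝔓 l Δ v) (a : ℕ)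
    (c : IC Q) : gv Q s v b ϖ a c ≠ 0 := by
  unfold gv
  rw [Ne, th_eq_zero]
  exact mon_LA' (D.sub_LA Y a c)

lemma PD.iter_r (D : PD p t s 𝔓 l b Q ϖ r k μ π) (a : ℕ) (c : IC Q) : r (ϖ^[a] c) = r c := by
  induction a with
  | zero => rfl
  | succ a ih => rw [Function.iterate_succ_apply', D.rw', ih]

/-- The derivatives of the cycle parameters. -/
lemma PD.pd_inr [DecidableEq ι] (D : PD p t s 𝔓 l b Q ϖ r k μ π)
    (Y : CY χ b Q p σ t s 𝔓 l Δ v) (c c' : RT ϖ r) (n : Fin (p - 1)) (m : ℕ) (hm : m < p) :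
    th Q (pderiv ((ϖ^[m] c.1 : IC Q) : ι) (px s v b ϖ r μ π p (some (Sum.inr (c', n))))) =
      if c' = c ∧ m ≤ (n : ℕ) + 1 then
        (((-1) ^ ((n : ℕ) + 1 - m) * (((n : ℕ) + 1).choose m : ℤ) : ℤ) :
          ResidueField (Localization.AtPrime Q)) * gv Q s v b ϖ m c.1 else 0 := by
  have hn := n.2
  unfold px
  rw [map_sum, map_sum]
  have h1 : ∀ a ∈ Finset.range ((n : ℕ) + 2),
      th Q (pderiv ((ϖ^[m] c.1 : IC Q) : ι) ((((-1) ^ ((n : ℕ) + 1 - a) *
        (((n : ℕ) + 1).choose a : ℤ) : ℤ) : MvPolynomial ι O) *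
        mon O b ((s ^ a) (v + b c'.1) - v))) =
      if c' = c ∧ m = a then (((-1) ^ ((n : ℕ) + 1 - m) * (((n : ℕ) + 1).choose m : ℤ) : ℤ) :
          ResidueField (Localization.AtPrime Q)) * gv Q s v b ϖ m c.1 else 0 := by
    intro a ha
    rw [Finset.mem_range] at ha
    have e1 : pderiv ((ϖ^[m] c.1 : IC Q) : ι) ((((-1) ^ ((n : ℕ) + 1 - a) *
        (((n : ℕ) + 1).choose a : ℤ) : ℤ) : MvPolynomial ι O) *
        mon O b ((s ^ a) (v + b c'.1) - v)) = (((-1) ^ ((n : ℕ) + 1 - a) *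
        (((n : ℕ) + 1).choose a : ℤ) : ℤ) : MvPolynomial ι O) *
        pderiv ((ϖ^[m] c.1 : IC Q) : ι) (mon O b ((s ^ a) (v + b c'.1) - v)) := by
      rw [Derivation.leibniz, Derivation.map_intCast, smul_zero, add_zero, smul_eq_mul]
    rw [e1, map_mul, map_intCast]
    have h2 := D.rp Y a c'.1 (ϖ^[m] c.1)
    by_cases h : ϖ^[m] c.1 = ϖ^[a] c'.1
    · have hcc : c' = c := by
        apply Subtype.ext
        have h3 := congrArg r h
        rw [D.iter_r, D.iter_r, c.2.1, c'.2.1] at h3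
        exact h3.symm
      subst hcc
      have hma : m = a := D.un _ _ _ hm (by omega) c'.2.2 h
      subst hma
      rw [if_pos ⟨rfl, rfl⟩]
      rw [if_pos rfl] at h2
      rw [pderiv_mon_one b _ _ h2]
      rfl
    · rw [if_neg h] at h2
      rw [pderiv_mon_zero b _ _ h2, map_zero, mul_zero, if_neg]
      rintro ⟨rfl, rfl⟩
      exact h rfl
  rw [Finset.sum_congr rfl h1]
  by_cases hcc : c' = c
  · subst hcc
    simp only [true_and]
    by_cases hmn : m ≤ (n : ℕ) + 1
    · rw [if_pos hmn, Finset.sum_ite_eq, if_pos (Finset.mem_range.2 (by omega))]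
    · rw [if_neg hmn, Finset.sum_ite_eq, if_neg (fun h => hmn (by
        rw [Finset.mem_range] at h; omega))]
  · simp [hcc]

lemma PD.int_one (Y : CY χ b Q p σ t s 𝔓 l Δ v) {n : ℤ} (hn : (n : ZMod p) = 1) :
    (n : ResidueField (Localization.AtPrime Q)) = 1 := by
  have h1 : ((n - 1 : ℤ) : ZMod p) = 0 := by push_cast; rw [hn, sub_self]
  obtain ⟨c, hc⟩ := (ZMod.intCast_zmod_eq_zero_iff_dvd _ _).1 h1
  have h2 : (p : ResidueField (Localization.AtPrime Q)) = 0 := by
    have := th_eq_zero.2 Y.pQ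
    rwa [map_natCast] at this
  have h3 : n = 1 + p * c := by omega
  rw [h3]
  push_cast
  rw [h2, zero_mul, add_zero]

lemma PD.int_zero (Y : CY χ b Q p σ t s 𝔓 l Δ v) {n : ℤ} (hn : (n : ZMod p) = 0) :
    (n : ResidueField (Localization.AtPrime Q)) = 0 := by
  obtain ⟨c, hc⟩ := (ZMod.intCast_zmod_eq_zero_iff_dvd _ _).1 hn
  have h2 : (p : ResidueField (Localization.AtPrime Q)) = 0 := by
    have := th_eq_zero.2 Y.pQ
    rwa [map_natCast] at this
  rw [hc]
  push_cast
  rw [h2, zero_mul]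

/-- The derivatives of the torus parameters. -/
lemma PD.pd_inl (D : PD p t s 𝔓 l b Q ϖ r k μ π)
    (Y : CY χ b Q p σ t s 𝔓 l Δ v) (j : J) (i : ι) :
    th Q (X i) * th Q (pderiv i (px s v b ϖ r μ π p (some (Sum.inl j)))) =
      (b.repr (μ j) i : ResidueField (Localization.AtPrime Q)) * th Q (mon O b (μ j)) := by
  have h0 : th Q (mon O b (-μ j)) = th Q (mon O b (μ j)) := by
    rw [← sub_eq_zero, ← neg_sub, neg_eq_zero, ← map_sub, th_eq_zero]
    exact D.pxQ Y (some (Sum.inl j))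
  unfold px
  rw [← map_mul, map_sub, mul_sub, pderiv_mon, pderiv_mon, map_sub, map_mul, map_mul, h0,
    map_natCast, map_natCast, ← sub_mul]
  congr 1
  rw [map_neg, Finsupp.neg_apply]
  have h1 : ((b.repr (μ j) i).toNat : ℤ) - ((-(b.repr (μ j) i)).toNat : ℤ) = b.repr (μ j) i := by
    omega
  have h2 := congrArg (fun z : ℤ => (z : ResidueField (Localization.AtPrime Q))) h1
  simp only [Int.cast_sub, Int.cast_natCast] at h2
  exact h2

/-- **The parameters are independent.** -/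
theorem PD.isInd (D : PD p t s 𝔓 l b Q ϖ r k μ π) (Y : CY χ b Q p σ t s 𝔓 l Δ v) :
    Ind (fun i => algebraMap _ (Localization.AtPrime Q) (px s v b ϖ r μ π p i)) := by
  classical
  refine ind_of_jac Q Y.h.mx Y.hT.P D.πP (not_mem_sq t Y.h.dv D.πn) _ rfl (D.pxQ Y) ?_
  intro c hc
  have hp2 := Y.h.pp.two_le
  have hy : ∀ (d : ℕ) (e : RT ϖ r) (n : Fin (p - 1)), p - 2 - n = d →
      c (Sum.inr (e, n)) = 0 := by
    intro d
    induction d using Nat.strong_induction_on with
    | _ d ih =>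
      intro e n hnd
      have hn := n.2
      have h1 := hc ((ϖ^[(n : ℕ) + 1] e.1 : IC Q) : ι)
      rw [Fintype.sum_sum_type] at h1
      have h2 : ∀ j : J, c (Sum.inl j) * th Q (pderiv ((ϖ^[(n : ℕ) + 1] e.1 : IC Q) : ι)
          (px s v b ϖ r μ π p (some (Sum.inl j)))) = 0 := by
        intro j
        have hA := (D.μL0 Y j).1 _ (ϖ^[(n : ℕ) + 1] e.1).2
        unfold px
        rw [map_sub, pderiv_mon_zero b _ _ hA, pderiv_mon_zero b _ _ (by
          rw [map_neg, Finsupp.neg_apply, hA, neg_zero]), sub_zero, map_zero, mul_zero]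
      rw [Finset.sum_eq_zero fun j _ => h2 j, zero_add, Fintype.sum_prod_type,
        Finset.sum_eq_single e, Finset.sum_eq_single n] at h1
      · rw [D.pd_inr Y e e n _ (by omega), if_pos ⟨rfl, le_rfl⟩, Nat.sub_self, pow_zero,
          Nat.choose_self, Nat.cast_one, mul_one, Int.cast_one, one_mul] at h1
        exact (mul_eq_zero.1 h1).resolve_right (D.gv_ne Y _ _)
      · intro n' _ hne
        rw [D.pd_inr Y e e n' _ (by omega)]
        by_cases h3 : (n : ℕ) + 1 ≤ (n' : ℕ) + 1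
        · have hn' := n'.2
          have h4 : (n : ℕ) ≠ n' := fun h => hne (Fin.ext h.symm)
          rw [ih (p - 2 - n') (by omega) e n' rfl, zero_mul]
        · rw [if_neg (fun h => h3 h.2), mul_zero]
      · intro h; exact absurd (Finset.mem_univ _) h
      · intro e' _ hne
        refine Finset.sum_eq_zero fun n' _ => ?_
        rw [D.pd_inr Y e e' n' _ (by omega), if_neg (fun h => hne h.1), mul_zero]
      · intro h; exact absurd (Finset.mem_univ _) h
  rintro (j | ⟨e, n⟩)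
  · obtain ⟨φ, hφ1, hφ2⟩ := D.ind j
    have h1 : ∑ i, (φ i : ResidueField (Localization.AtPrime Q)) * (th Q (X i) *
        ∑ k, c k * th Q (pderiv i (px s v b ϖ r μ π p (some k)))) = 0 := by
      refine Finset.sum_eq_zero fun i _ => ?_
      rw [hc i, mul_zero, mul_zero]
    have h2 : ∀ i, (φ i : ResidueField (Localization.AtPrime Q)) * (th Q (X i) *
        ∑ k, c k * th Q (pderiv i (px s v b ϖ r μ π p (some k)))) =
        ∑ j', c (Sum.inl j') * th Q (mon O b (μ j')) *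
          ((φ i * b.repr (μ j') i : ℤ) : ResidueField (Localization.AtPrime Q)) := by
      intro i
      rw [Fintype.sum_sum_type]
      have h3 : ∑ x : RT ϖ r × Fin (p - 1), c (Sum.inr x) *
          th Q (pderiv i (px s v b ϖ r μ π p (some (Sum.inr x)))) = 0 := by
        refine Finset.sum_eq_zero fun x _ => ?_
        rw [hy _ x.1 x.2 rfl, zero_mul]
      rw [h3, add_zero, Finset.mul_sum, Finset.mul_sum]
      refine Finset.sum_congr rfl fun j' _ => ?_
      have h4 := D.pd_inl Y j' i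
      have h5 : (φ i : ResidueField (Localization.AtPrime Q)) * (th Q (X i) * (c (Sum.inl j') *
          th Q (pderiv i (px s v b ϖ r μ π p (some (Sum.inl j')))))) =
          φ i * c (Sum.inl j') * (th Q (X i) *
            th Q (pderiv i (px s v b ϖ r μ π p (some (Sum.inl j'))))) := by ring
      rw [h5, h4]
      push_cast
      ring
    rw [Finset.sum_congr rfl fun i _ => h2 i, Finset.sum_comm, Finset.sum_eq_single j] at h1
    · rw [← Finset.mul_sum, ← Int.cast_sum, PD.int_one Y hφ1, mul_one] at h1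
      refine (mul_eq_zero.1 h1).resolve_right ?_
      rw [th_eq_zero]
      exact mon_LA' (D.μL0 Y j).1
    · intro j' _ hne
      rw [← Finset.mul_sum, ← Int.cast_sum, PD.int_zero Y (hφ2 j' hne), mul_zero]
    · intro h; exact absurd (Finset.mem_univ _) h
  · exact hy _ e n rfl

end Pool.Agent.T9h3
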