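import Pool.Agent.T9h3.BBb
import Pool.Agent.Y215.G.Indd

/-!
# Regular parameters of a localization of a polynomial ring: the Jacobian criterion
-/

set_option autoImplicit false
set_option linter.unusedSectionVars false

namespace Pool.Agent.T9h3

open MvPolynomial IsLocalRing Pool.Agent.W418.LU2 Algebra

section jac

variable {O ι : Type} [CommRing O] [IsDomain O] [IsDedekindDomain O] [Fintype ι]

/-- The partial derivatives on the local ring. -/
lemma exists_pd (Q : Ideal (MvPolynomial ι O)) [Q.IsPrime] (i : ι) :
    ∃ D : Derivation O (Localization.AtPrime Q) (Localization.AtPrime Q),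
      ∀ f : MvPolynomial ι O, D (algebraMap _ _ f) = algebraMap _ _ (pderiv i f) := by
  classical
  have hfe : FormallyEtale (MvPolynomial ι O) (Localization.AtPrime Q) :=
    FormallyEtale.of_isLocalization Q.primeCompl
  obtain ⟨D, hD⟩ := Pool.Agent.Y215.G.exists_der (O := O) (B := Localization.AtPrime Q) i
  refine ⟨D, fun f => ?_⟩
  induction f using MvPolynomial.induction_on with
  | C a =>
    rw [pderiv_C, map_zero]
    have h1 : algebraMap (MvPolynomial ι O) (Localization.AtPrime Q) (C a) =
        algebraMap O (Localization.AtPrime Q) a := by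
      rw [IsScalarTower.algebraMap_apply O (MvPolynomial ι O) (Localization.AtPrime Q)]
      rfl
    rw [h1, D.map_algebraMap]
  | add f g hf hg => rw [map_add, map_add, map_add, map_add, hf, hg]
  | mul_X f j hf =>
    rw [map_mul, D.leibniz, hf, hD, Derivation.leibniz, pderiv_X]
    simp only [smul_eq_mul, map_add, map_mul]
    by_cases h : j = i
    · subst h
      rw [if_pos rfl, Pi.single_eq_same, map_one]
    · rw [if_neg h, Pi.single_eq_of_ne h, map_zero]

/-- The map to the residue field. -/
noncomputable def th (Q : Ideal (MvPolynomial ι O)) [Q.IsPrime] :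
    MvPolynomial ι O →+* ResidueField (Localization.AtPrime Q) :=
  (residue (Localization.AtPrime Q)).comp (algebraMap _ _)

lemma th_eq_zero {Q : Ideal (MvPolynomial ι O)} [Q.IsPrime] {f : MvPolynomial ι O} :
    th Q f = 0 ↔ f ∈ Q := by
  unfold th
  rw [RingHom.comp_apply, residue_eq_zero_iff]
  exact IsLocalization.AtPrime.to_map_mem_maximal_iff _ Q f

/-- **The Jacobian criterion.** -/
theorem ind_of_jac {κ : Type} [Fintype κ] (Q : Ideal (MvPolynomial ι O)) [Q.IsPrime]
    {𝔓 : Ideal O} (h𝔓 : 𝔓.IsMaximal) (hP : ∀ a ∈ 𝔓, (C a : MvPolynomial ι O) ∈ Q) {π : O}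
    (hπ : π ∈ 𝔓) (hπ2 : π ∉ 𝔓 ^ 2) (x : Option κ → MvPolynomial ι O) (hx0 : x none = C π)
    (hx : ∀ k, x k ∈ Q)
    (hJ : ∀ c : κ → ResidueField (Localization.AtPrime Q),
      (∀ i, ∑ k, c k * th Q (pderiv i (x (some k))) = 0) → ∀ k, c k = 0) :
    Ind (fun k => algebraMap _ (Localization.AtPrime Q) (x k)) := by
  classical
  set B := Localization.AtPrime Q with hB
  have hcm : Q.comap (algebraMap O (MvPolynomial ι O)) = 𝔓 := by
    symm
    apply h𝔓.eq_of_le
    · exact (Ideal.comap_isPrime (algebraMap O (MvPolynomial ι O)) Q).ne_top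
    · intro a ha
      exact hP a ha
  have hsm : Algebra.Smooth O (MvPolynomial ι O) :=
    { formallySmooth := inferInstance, finitePresentation := inferInstance }
  have hpi := Pool.Agent.Y215.G.pi_notMem Q 𝔓 h𝔓 π hπ hπ2 hcm
  choose D hD using exists_pd Q
  have hmem : ∀ t, t ∈ Q → algebraMap _ B t ∈ maximalIdeal B := by
    intro t ht
    exact (IsLocalization.AtPrime.to_map_mem_maximal_iff B Q t).2 ht
  refine ⟨fun k => hmem _ (hx k), fun c hc => ?_⟩
  rw [Fintype.sum_option] at hc
  beta_reduce at hc
  rw [hx0] at hc
  have hk : ∀ k, c (some k) ∈ maximalIdeal B := by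
    have h0 := hJ (fun k => residue B (c (some k))) (by
      intro i
      have h1 := Pool.Agent.Y215.G.der_sq (D i) _ hc
      rw [map_add, Derivation.leibniz, hD, pderiv_C, map_zero, smul_zero, zero_add,
        map_sum] at h1
      have h5 : algebraMap (MvPolynomial ι O) B (C π) • D i (c none) ∈ maximalIdeal B := by
        rw [← hx0]
        exact (maximalIdeal B).mul_mem_right _ (hmem _ (hx none))
      have h2 := (Submodule.add_mem_iff_right _ h5).1 h1
      have h3 : ∑ k, c (some k) * algebraMap _ B (pderiv i (x (some k))) ∈ maximalIdeal B := by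
        have h4 : ∑ k, D i (c (some k) * algebraMap _ B (x (some k))) =
            ∑ k, c (some k) * algebraMap _ B (pderiv i (x (some k))) +
              ∑ k, algebraMap _ B (x (some k)) * D i (c (some k)) := by
          rw [← Finset.sum_add_distrib]
          refine Finset.sum_congr rfl fun k _ => ?_
          rw [Derivation.leibniz, hD, smul_eq_mul, smul_eq_mul]
        rw [h4] at h2
        refine (Submodule.add_mem_iff_left _ ?_).1 h2
        exact Ideal.sum_mem _ fun k _ => (maximalIdeal B).mul_mem_right _ (hmem _ (hx (some k)))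
      rw [← residue_eq_zero_iff, map_sum] at h3
      rw [← h3]
      refine Finset.sum_congr rfl fun k _ => ?_
      rw [map_mul]
      rfl)
    intro k
    exact (residue_eq_zero_iff _).1 (h0 k)
  rintro (_ | k)
  · by_contra hcon
    have hu : IsUnit (c none) := by
      by_contra h
      exact hcon ((mem_maximalIdeal _).2 h)
    have h1 : ∑ k, c (some k) * algebraMap _ B (x (some k)) ∈ maximalIdeal B ^ 2 := by
      rw [sq]
      exact Ideal.sum_mem _ fun k _ => Ideal.mul_mem_mul (hk k) (hmem _ (hx (some k)))
    have h2 := (Submodule.add_mem_iff_left _ h1).1 hc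
    exact hpi ((Ideal.unit_mul_mem_iff_mem _ hu).1 h2)
  · exact hk k

end jac

section mon

variable {O Λ ι : Type} [CommRing O] [AddCommGroup Λ] [Fintype ι]

lemma pderiv_mon (b : Module.Basis ι ℤ Λ) (x : Λ) (i : ι) :
    X i * pderiv i (mon O b x) = ((b.repr x i).toNat : MvPolynomial ι O) * mon O b x := by
  classical
  unfold mon
  rw [← Finset.mul_prod_erase _ _ (Finset.mem_univ i), Derivation.leibniz]
  have h1 : pderiv i (∏ j ∈ Finset.univ.erase i, (X j : MvPolynomial ι O) ^ (b.repr x j).toNat) = 0 := by
    have key : ∀ S : Finset ι, i ∉ S →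
        pderiv i (∏ j ∈ S, (X j : MvPolynomial ι O) ^ (b.repr x j).toNat) = 0 := by
      intro S
      induction S using Finset.induction_on with
      | empty => intro _; rw [Finset.prod_empty]; exact Derivation.map_one_eq_zero _
      | insert j S hj ih =>
        intro hi
        rw [Finset.mem_insert, not_or] at hi
        rw [Finset.prod_insert hj, Derivation.leibniz, ih hi.2, Derivation.leibniz_pow,
          pderiv_X_of_ne (Ne.symm hi.1)]
        simp
    exact key _ (Finset.notMem_erase _ _)
  rw [h1, Derivation.leibniz_pow, pderiv_X_self]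
  rcases Nat.eq_zero_or_pos (b.repr x i).toNat with h0 | h0
  · rw [h0]
    simp
  · obtain ⟨n, hn⟩ : ∃ n, (b.repr x i).toNat = n + 1 := ⟨_, (Nat.sub_add_cancel h0).symm⟩
    rw [hn]
    simp only [smul_eq_mul, Nat.add_sub_cancel, nsmul_eq_mul, mul_one, mul_zero, zero_add]
    ring

/-- The derivative of a monomial with the exponent one. -/
lemma pderiv_mon_one (b : Module.Basis ι ℤ Λ) (x : Λ) (i : ι) (hx : b.repr x i = 1) :
    pderiv i (mon O b x) = mon O b (x - b i) := by
  classical
  have h0 : mon O b x = X i * mon O b (x - b i) := by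
    unfold mon
    rw [← Finset.mul_prod_erase _ _ (Finset.mem_univ i),
      ← Finset.mul_prod_erase (a := i) _ (fun j => X j ^ (b.repr (x - b i) j).toNat)
        (Finset.mem_univ i), hx, map_sub, Finsupp.sub_apply, Module.Basis.repr_self,
      Finsupp.single_eq_same, hx]
    have h1 : ∀ j ∈ Finset.univ.erase i, (X j : MvPolynomial ι O) ^ ((b.repr x - Finsupp.single i 1 : ι →₀ ℤ) j).toNat =
        X j ^ (b.repr x j).toNat := by
      intro j hj
      rw [Finsupp.sub_apply, Finsupp.single_eq_of_ne (Finset.ne_of_mem_erase hj), sub_zero]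
    rw [Finset.prod_congr rfl h1]
    simp
  have h1 : pderiv i (mon O b (x - b i)) = 0 := by
    unfold mon
    rw [← Finset.mul_prod_erase _ _ (Finset.mem_univ i), map_sub, Finsupp.sub_apply,
      Module.Basis.repr_self, Finsupp.single_eq_same, hx, sub_self, Int.toNat_zero, pow_zero,
      one_mul]
    have key : ∀ (S : Finset ι) (e : ι → ℕ), i ∉ S →
        pderiv i (∏ j ∈ S, (X j : MvPolynomial ι O) ^ e j) = 0 := by
      intro S e
      induction S using Finset.induction_on with
      | empty => intro _; rw [Finset.prod_empty]; exact Derivation.map_one_eq_zero _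
      | insert j S hj ih =>
        intro hi
        rw [Finset.mem_insert, not_or] at hi
        rw [Finset.prod_insert hj, Derivation.leibniz, ih hi.2, Derivation.leibniz_pow,
          pderiv_X_of_ne (Ne.symm hi.1)]
        simp
    exact key _ _ (Finset.notMem_erase _ _)
  rw [h0, Derivation.leibniz, h1, pderiv_X_self]
  simp

/-- The derivative of a monomial with the exponent zero. -/
lemma pderiv_mon_zero (b : Module.Basis ι ℤ Λ) (x : Λ) (i : ι) (hx : b.repr x i = 0) :
    pderiv i (mon O b x) = 0 := by
  classical
  unfold mon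
  rw [← Finset.mul_prod_erase _ _ (Finset.mem_univ i), hx, Int.toNat_zero, pow_zero,
    one_mul]
  have key : ∀ (S : Finset ι) (e : ι → ℕ), i ∉ S →
      pderiv i (∏ j ∈ S, (X j : MvPolynomial ι O) ^ e j) = 0 := by
    intro S e
    induction S using Finset.induction_on with
    | empty => intro _; rw [Finset.prod_empty]; exact Derivation.map_one_eq_zero _
    | insert j S hj ih =>
      intro hi
      rw [Finset.mem_insert, not_or] at hi
      rw [Finset.prod_insert hj, Derivation.leibniz, ih hi.2, Derivation.leibniz_pow,
        pderiv_X_of_ne (Ne.symm hi.1)]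
      simp
  exact key _ _ (Finset.notMem_erase _ _)

end mon

end Pool.Agent.T9h3
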