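import Pool.Agent.Y223.G.WDefs
import Pool.Agent.Y614.WC.A

/-!
# Filtrations of a local ring (tori over number fields)

`C` is a ring with a prime `Q`, `j : C → K` an injection into a field. A local filtration is a
decreasing multiplicative filtration of a subring of `K` which contains the local ring of `Q`.
-/

set_option autoImplicit false
set_option linter.unusedSectionVars false

namespace Pool.Agent.T9h3

open Pool.Agent.Y223.G

variable {C K : Type} [CommRing C] [Field K]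

/-- A local filtration. -/
structure LF (j : C →+* K) (Q : Ideal C) where
  F : ℤ → AddSubgroup K
  mul' : ∀ (m n : ℤ) (a b : K), a ∈ F m → b ∈ F n → a * b ∈ F (m + n)
  anti' : ∀ (n : ℤ) (a : K), a ∈ F (n + 1) → a ∈ F n
  base' : ∀ c, j c ∈ F 0
  inv' : ∀ c, c ∉ Q → (j c)⁻¹ ∈ F 0

namespace LF

variable {j : C →+* K} {Q : Ideal C} (L : LF j Q)

lemma mono {m n : ℤ} (h : m ≤ n) {a : K} (ha : a ∈ L.F n) : a ∈ L.F m := by
  obtain ⟨d, hd⟩ := Int.le.dest h
  subst hd
  clear h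
  induction d with
  | zero => simpa using ha
  | succ d ih =>
    apply ih
    apply L.anti'
    have : m + (d : ℤ) + 1 = m + ((d + 1 : ℕ) : ℤ) := by push_cast; ring
    rwa [this]

lemma mul {m n : ℤ} {a b : K} (ha : a ∈ L.F m) (hb : b ∈ L.F n) : a * b ∈ L.F (m + n) :=
  L.mul' m n a b ha hb

lemma mulr {m n : ℤ} {a b : K} (ha : a ∈ L.F m) (hb : b ∈ L.F n) (c : ℤ) (hc : c = m + n) :
    a * b ∈ L.F c := by
  rw [hc]; exact L.mul ha hb

lemma mul0 {n : ℤ} {a b : K} (ha : a ∈ L.F 0) (hb : b ∈ L.F n) : a * b ∈ L.F n := by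
  have := L.mul ha hb
  rwa [zero_add] at this

lemma mul0' {n : ℤ} {a b : K} (ha : a ∈ L.F n) (hb : b ∈ L.F 0) : a * b ∈ L.F n := by
  rw [mul_comm]; exact L.mul0 hb ha

lemma one : (1 : K) ∈ L.F 0 := by
  have := L.base' 1
  rwa [map_one] at this

lemma pow {n : ℤ} {a : K} (ha : a ∈ L.F n) (k : ℕ) : a ^ k ∈ L.F (k * n) := by
  induction k with
  | zero => simpa using L.one
  | succ k ih =>
    rw [pow_succ]
    exact L.mulr ih ha _ (by push_cast; ring)

lemma natCast (n : ℕ) : (n : K) ∈ L.F 0 := by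
  have := L.base' n
  rwa [map_natCast] at this

lemma intCast (n : ℤ) : (n : K) ∈ L.F 0 := by
  have := L.base' n
  rwa [map_intCast] at this

lemma frac (a s : C) (hs : s ∉ Q) : j a / j s ∈ L.F 0 := by
  rw [div_eq_mul_inv]
  exact L.mul0 (L.base' a) (L.inv' s hs)

/-- The positive part is in the maximal ideal. -/
def Ctr : Prop := ∀ f ∈ L.F 1, ∃ a ∈ Q, ∃ s, s ∉ Q ∧ j s * f = j a

lemma unit_add (hj : Function.Injective j) [hQ : Q.IsPrime] (hc : L.Ctr) {s : C} (hs : s ∉ Q)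
    {f : K} (hf : f ∈ L.F 1) : (j s + f)⁻¹ ∈ L.F 0 ∧ j s + f ≠ 0 := by
  obtain ⟨a, ha, s', hs', h⟩ := hc f hf
  have hne : ∀ c, c ∉ Q → j c ≠ 0 := by
    intro c hc h0
    have : c = 0 := hj (by rw [h0, map_zero])
    exact hc (this ▸ Q.zero_mem)
  have h1 : s' * s + a ∉ Q := by
    intro h1
    have h2 : s' * s ∈ Q := by
      have := Q.sub_mem h1 ha
      rwa [add_sub_cancel_right] at this
    rcases hQ.mem_or_mem h2 with h3 | h3
    · exact hs' h3
    · exact hs h3
  have h2 : j s + f = j (s' * s + a) / j s' := by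
    rw [eq_div_iff (hne _ hs'), map_add, map_mul, ← h]
    ring
  constructor
  · rw [h2, inv_div]
    exact L.frac _ _ h1
  · rw [h2]
    exact div_ne_zero (hne _ h1) (hne _ hs')

lemma unit_add_one (hj : Function.Injective j) [hQ : Q.IsPrime] (hc : L.Ctr)
    {f : K} (hf : f ∈ L.F 1) : (1 + f)⁻¹ ∈ L.F 0 ∧ 1 + f ≠ 0 := by
  have := L.unit_add hj hc (s := 1) (fun h => hQ.ne_top ((Ideal.eq_top_iff_one _).2 h)) hf
  rwa [map_one] at this

/-- A submodule of a local filtration. -/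
structure EM where
  E : ℤ → AddSubgroup K
  mul' : ∀ (m n : ℤ) (a b : K), a ∈ L.F m → b ∈ E n → a * b ∈ E (m + n)
  anti' : ∀ (n : ℤ) (a : K), a ∈ E (n + 1) → a ∈ E n
  le' : ∀ (n : ℤ) (a : K), a ∈ E n → a ∈ L.F n
  le0' : ∀ (a : K), a ∈ E 0 → a ∈ L.F 1

variable {L}

/-- The elements for which `σ - 1` is in the given submodule. -/
def del (M : L.EM) (σ : K →+* K) (hC : ∀ c, σ (j c) - j c ∈ M.E 0) (hc : L.Ctr)
    (hj : Function.Injective j) (hQ : Q.IsPrime) : LF j Q where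
  F n :=
    { carrier := {f | f ∈ L.F n ∧ σ f - f ∈ M.E n}
      add_mem' := by
        rintro a b ⟨ha, ha'⟩ ⟨hb, hb'⟩
        refine ⟨(L.F n).add_mem ha hb, ?_⟩
        rw [map_add, add_sub_add_comm]
        exact (M.E n).add_mem ha' hb'
      zero_mem' := by
        refine ⟨(L.F n).zero_mem, ?_⟩
        rw [map_zero, sub_zero]
        exact (M.E n).zero_mem
      neg_mem' := by
        rintro a ⟨ha, ha'⟩
        refine ⟨(L.F n).neg_mem ha, ?_⟩
        have h : σ (-a) - -a = -(σ a - a) := by rw [map_neg]; ring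
        rw [h]
        exact (M.E n).neg_mem ha' }
  mul' := by
    rintro m n a b ⟨ha, ha'⟩ ⟨hb, hb'⟩
    refine ⟨L.mul ha hb, ?_⟩
    have h : σ (a * b) - a * b = b * (σ a - a) + (a + (σ a - a)) * (σ b - b) := by
      rw [map_mul]; ring
    rw [h]
    refine (M.E _).add_mem ?_ ?_
    · rw [add_comm m n]
      exact M.mul' _ _ _ _ hb ha'
    · exact M.mul' _ _ _ _ ((L.F m).add_mem ha (M.le' _ _ ha')) hb'
  anti' := by
    rintro n a ⟨ha, ha'⟩
    exact ⟨L.anti' _ _ ha, M.anti' _ _ ha'⟩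
  base' := fun c => ⟨L.base' c, hC c⟩
  inv' := by
    intro c hcQ
    refine ⟨L.inv' c hcQ, ?_⟩
    have hc0 : j c ≠ 0 := by
      intro h0
      have : c = 0 := hj (by rw [h0, map_zero])
      exact hcQ (this ▸ Q.zero_mem)
    obtain ⟨h1, h2⟩ := L.unit_add hj hc hcQ (M.le0' _ (hC c))
    rw [add_sub_cancel] at h1 h2
    have h3 : σ (j c)⁻¹ - (j c)⁻¹ = (-((j c)⁻¹ * (σ (j c))⁻¹)) * (σ (j c) - j c) := by
      rw [map_inv₀]
      field_simp
      ring
    rw [h3]
    have h4 := M.mul' 0 0 _ _ ((L.F 0).neg_mem (L.mul0 (L.inv' c hcQ) h1)) (hC c)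
    rwa [add_zero] at h4

lemma mem_del {M : L.EM} {σ : K →+* K} {hC : ∀ c, σ (j c) - j c ∈ M.E 0} {hc : L.Ctr}
    {hj : Function.Injective j} {hQ : Q.IsPrime} {n : ℤ} {f : K} :
    f ∈ (del M σ hC hc hj hQ).F n ↔ f ∈ L.F n ∧ σ f - f ∈ M.E n := Iff.rfl

end LF

section BB

variable {k : Type} [CommRing k] [Algebra k K]

/-- The graded pieces of the localization of a graded algebra. -/
def BB (j : C →+* K) (Q : Ideal C) [hQ : Q.IsPrime] (R : Subalgebra k (LP K))
    (hs : hm (-1) 1 ∈ R) (h0 : ∀ c, hm 0 (j c) ∈ R) : LF j Q where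
  F n :=
    { carrier := {f | ∃ s, s ∉ Q ∧ hm n (j s * f) ∈ R}
      add_mem' := by
        rintro a b ⟨s, hs, h⟩ ⟨t, ht, h'⟩
        refine ⟨s * t, fun hst => (hQ.mem_or_mem hst).elim hs ht, ?_⟩
        have e : hm n (j (s * t) * (a + b)) =
            hm 0 (j t) * hm n (j s * a) + hm 0 (j s) * hm n (j t * b) := by
          rw [hm_mul, hm_mul, zero_add, ← hm_add, map_mul]
          congr 1
          ring
        rw [e]
        exact R.add_mem (R.mul_mem (h0 _) h) (R.mul_mem (h0 _) h')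
      zero_mem' := ⟨1, fun h => hQ.ne_top ((Ideal.eq_top_iff_one _).2 h), by
        rw [mul_zero, hm_zero]; exact R.zero_mem⟩
      neg_mem' := by
        rintro a ⟨s, hs, h⟩
        refine ⟨s, hs, ?_⟩
        rw [mul_neg, hm_neg]
        exact R.neg_mem h }
  mul' := by
    rintro m n a b ⟨s, hs, h⟩ ⟨t, ht, h'⟩
    refine ⟨s * t, fun hst => (hQ.mem_or_mem hst).elim hs ht, ?_⟩
    have e : hm (m + n) (j (s * t) * (a * b)) = hm m (j s * a) * hm n (j t * b) := by
      rw [hm_mul, map_mul]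
      congr 1
      ring
    rw [e]
    exact R.mul_mem h h'
  anti' := by
    rintro n a ⟨s, hs', h⟩
    refine ⟨s, hs', ?_⟩
    have e : hm n (j s * a) = hm (-1) 1 * hm (n + 1) (j s * a) := by
      rw [hm_mul, one_mul]
      congr 1
      ring
    rw [e]
    exact R.mul_mem hs h
  base' := fun c => ⟨1, fun h => hQ.ne_top ((Ideal.eq_top_iff_one _).2 h), by
    rw [map_one, one_mul]; exact h0 c⟩
  inv' := by
    intro c hc
    refine ⟨c, hc, ?_⟩
    by_cases h : j c = 0
    · rw [h, zero_mul, hm_zero]; exact R.zero_mem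
    · rw [mul_inv_cancel₀ h]
      have := h0 1
      rwa [map_one] at this

variable {j : C →+* K} {Q : Ideal C} [hQ : Q.IsPrime] {R : Subalgebra k (LP K)}
    {hs : hm (-1) 1 ∈ R} {h0 : ∀ c, hm 0 (j c) ∈ R}

lemma mem_BB {n : ℤ} {f : K} : f ∈ (BB j Q R hs h0).F n ↔ ∃ s, s ∉ Q ∧ hm n (j s * f) ∈ R :=
  Iff.rfl

lemma BB_of {n : ℤ} {f : K} (h : hm n f ∈ R) : f ∈ (BB j Q R hs h0).F n :=
  ⟨1, fun h => hQ.ne_top ((Ideal.eq_top_iff_one _).2 h), by rwa [map_one, one_mul]⟩

/-- A filtration defines a graded subalgebra. -/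
def rees (L : LF j Q) (hk : ∀ c : k, algebraMap k K c ∈ L.F 0) : Subalgebra k (LP K) where
  carrier := {f | ∀ n, f.coeff n ∈ L.F n}
  add_mem' := by
    intro a b ha hb n
    rw [AddMonoidAlgebra.coeff_add, Finsupp.add_apply]
    exact (L.F n).add_mem (ha n) (hb n)
  mul_mem' := by
    intro a b ha hb n
    rw [eq_sum_hm a, Finset.sum_mul, AddMonoidAlgebra.coeff_sum, Finsupp.finsetSum_apply]
    refine AddSubgroup.sum_mem _ fun d _ => ?_
    rw [coeff_hm_mul]
    exact L.mulr (ha d) (hb (n - d)) _ (by ring)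
  algebraMap_mem' := by
    intro r n
    rw [algebraMap_LP, coeff_hm]
    split_ifs with h
    · rw [← h]; exact hk r
    · exact (L.F n).zero_mem

lemma mem_rees {L : LF j Q} {hk : ∀ c : k, algebraMap k K c ∈ L.F 0} {f : LP K} :
    f ∈ rees L hk ↔ ∀ n, f.coeff n ∈ L.F n := Iff.rfl

lemma hm_mem_rees {L : LF j Q} {hk : ∀ c : k, algebraMap k K c ∈ L.F 0} {n : ℤ} {a : K} :
    hm n a ∈ rees L hk ↔ a ∈ L.F n := by
  rw [mem_rees]
  constructor
  · intro h
    have := h n
    rwa [coeff_hm_same] at this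
  · intro h m
    rw [coeff_hm]
    split_ifs with h1
    · rw [← h1]; exact h
    · exact (L.F m).zero_mem

/-- Minimality of `BB`. -/
lemma BB_le (L : LF j Q) (hj : Function.Injective j) (hk : ∀ c : k, algebraMap k K c ∈ L.F 0)
    (hR : R ≤ rees L hk) {n : ℤ} {f : K} (hf : f ∈ (BB j Q R hs h0).F n) : f ∈ L.F n := by
  obtain ⟨s, hsQ, h⟩ := hf
  have h1 := hm_mem_rees.1 (hR h)
  have hs0 : j s ≠ 0 := by
    intro h0
    have : s = 0 := hj (by rw [h0, map_zero])
    exact hsQ (this ▸ Q.zero_mem)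
  have h2 : f = (j s)⁻¹ * (j s * f) := by field_simp
  rw [h2]
  exact L.mul0 (L.inv' s hsQ) h1

end BB

section FF

open Pool.Agent.Y614.WC (FI_zero FI_anti FI_mul FI_gen)

variable {ι : Type} [Fintype ι]

/-- The filtration by the weighted ideals. -/
def FF (j : C →+* K) (Q : Ideal C) [hQ : Q.IsPrime] (x : ι → C) (a : ι → ℕ) : LF j Q where
  F n :=
    { carrier := {f | ∃ s, s ∉ Q ∧ ∃ g ∈ FI x a n.toNat, j s * f = j g}
      add_mem' := by
        rintro f f' ⟨s, hs, g, hg, h⟩ ⟨s', hs', g', hg', h'⟩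
        refine ⟨s * s', fun hst => (hQ.mem_or_mem hst).elim hs hs', s' * g + s * g',
          Ideal.add_mem _ (Ideal.mul_mem_left _ _ hg) (Ideal.mul_mem_left _ _ hg'), ?_⟩
        rw [map_add, map_mul, map_mul, map_mul, ← h, ← h']
        ring
      zero_mem' := ⟨1, fun h => hQ.ne_top ((Ideal.eq_top_iff_one _).2 h), 0, Ideal.zero_mem _, by
        rw [mul_zero, map_zero]⟩
      neg_mem' := by
        rintro f ⟨s, hs, g, hg, h⟩
        exact ⟨s, hs, -g, (FI x a n.toNat).neg_mem hg, by rw [mul_neg, h, map_neg]⟩ }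
  mul' := by
    rintro m n f f' ⟨s, hs, g, hg, h⟩ ⟨s', hs', g', hg', h'⟩
    refine ⟨s * s', fun hst => (hQ.mem_or_mem hst).elim hs hs', g * g',
      FI_anti x a (by omega) (FI_mul x a hg hg'), ?_⟩
    rw [map_mul, map_mul, ← h, ← h']
    ring
  anti' := by
    rintro n f ⟨s, hs, g, hg, h⟩
    exact ⟨s, hs, g, FI_anti x a (by omega) hg, h⟩
  base' := fun c => ⟨1, fun h => hQ.ne_top ((Ideal.eq_top_iff_one _).2 h), c, by
    rw [Int.toNat_zero, FI_zero]; trivial, by rw [map_one, one_mul]⟩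
  inv' := by
    intro c hc
    by_cases h : j c = 0
    · refine ⟨1, fun h => hQ.ne_top ((Ideal.eq_top_iff_one _).2 h), 0, Ideal.zero_mem _, ?_⟩
      rw [h, inv_zero, mul_zero, map_zero]
    · refine ⟨c, hc, 1, ?_, ?_⟩
      · rw [Int.toNat_zero, FI_zero]; trivial
      · rw [mul_inv_cancel₀ h, map_one]

variable {j : C →+* K} {Q : Ideal C} [hQ : Q.IsPrime] {x : ι → C} {a : ι → ℕ}

lemma mem_FF {n : ℤ} {f : K} :
    f ∈ (FF j Q x a).F n ↔ ∃ s, s ∉ Q ∧ ∃ g ∈ FI x a n.toNat, j s * f = j g := Iff.rfl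

lemma FF_gen (i : ι) : j (x i) ∈ (FF j Q x a).F (a i) :=
  ⟨1, fun h => hQ.ne_top ((Ideal.eq_top_iff_one _).2 h), x i, by
    rw [Int.toNat_natCast]; exact FI_gen x a i, by rw [map_one, one_mul]⟩

/-- Minimality of `FF`. -/
lemma FF_le (L : LF j Q) (hj : Function.Injective j) (hx : ∀ i, j (x i) ∈ L.F (a i)) {n : ℤ}
    {f : K} (hf : f ∈ (FF j Q x a).F n) : f ∈ L.F n := by
  classical
  obtain ⟨s, hsQ, g, hg, h⟩ := hf
  have hs0 : j s ≠ 0 := by
    intro h0
    have : s = 0 := hj (by rw [h0, map_zero])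
    exact hsQ (this ▸ Q.zero_mem)
  have h1 : ∀ g ∈ FI x a n.toNat, j g ∈ L.F n := by
    intro g hg
    unfold FI at hg
    induction hg using Submodule.span_induction with
    | mem y hy =>
      obtain ⟨m, hm, rfl⟩ := hy
      have h2 : j (∏ i, x i ^ m i) ∈ L.F ((∑ i, a i * m i : ℕ) : ℤ) := by
        rw [map_prod]
        push_cast
        generalize (Finset.univ : Finset ι) = S
        induction S using Finset.induction_on with
        | empty => simpa using L.one
        | insert i S hi ih =>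
          rw [Finset.prod_insert hi, Finset.sum_insert hi]
          refine L.mul ?_ ih
          rw [map_pow]
          have := L.pow (hx i) (m i)
          rwa [mul_comm] at this
      exact L.mono (by omega) h2
    | zero => rw [map_zero]; exact (L.F n).zero_mem
    | add y z _ _ hy hz => rw [map_add]; exact (L.F n).add_mem hy hz
    | smul c y _ hy =>
      rw [smul_eq_mul, map_mul]
      exact L.mul0 (L.base' c) hy
  have h2 : f = (j s)⁻¹ * (j s * f) := by field_simp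
  rw [h2, h]
  exact L.mul0 (L.inv' s hsQ) (h1 g hg)

/-- The positive part of `FF`. -/
lemma FF_ctr (hx : ∀ i, x i ∈ Q) : (FF j Q x a).Ctr := by
  classical
  rintro f ⟨s, hs, g, hg, h⟩
  refine ⟨g, ?_, s, hs, h⟩
  have h1 : FI x a (1 : ℤ).toNat ≤ Q := by
    unfold FI
    rw [Ideal.span_le]
    rintro y ⟨m, hm, rfl⟩
    have h2 : (1 : ℤ).toNat = 1 := rfl
    rw [h2] at hm
    obtain ⟨i, -, hi⟩ : ∃ i ∈ Finset.univ, a i * m i ≠ 0 := by
      by_contra hc
      push Not at hc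
      rw [Finset.sum_eq_zero hc] at hm
      omega
    rw [← Finset.mul_prod_erase _ _ (Finset.mem_univ i)]
    exact Q.mul_mem_right _ (Ideal.pow_mem_of_mem Q (hx i) _
      (Nat.pos_of_ne_zero (right_ne_zero_of_mul hi)))
  exact h1 hg

end FF

end Pool.Agent.T9h3
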