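import Mathlib

/-!
# Lattices with an automorphism of prime order
-/

set_option autoImplicit false
set_option linter.unusedSectionVars false

namespace Pool.Agent.T9h3

open Polynomial

section poly

/-- `((1 + X) ^ p - 1) / X = X ^ (p - 1) + p (1 + X g)`. -/
lemma exists_poly (p : ℕ) (hp : p.Prime) : ∃ g : ℤ[X],
    ∑ i ∈ Finset.range p, (1 + X : ℤ[X]) ^ i = X ^ (p - 1) + C (p : ℤ) * (1 + X * g) := by
  have := Fact.mk hp
  have hp2 := hp.two_le
  have h1 : (∑ i ∈ Finset.range p, (1 + X : ℤ[X]) ^ i).map (Int.castRingHom (ZMod p)) =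
      X ^ (p - 1) := by
    have h2 : (∑ i ∈ Finset.range p, (1 + X : (ZMod p)[X]) ^ i) * X = X ^ (p - 1) * X := by
      have h3 := geom_sum_mul (1 + X : (ZMod p)[X]) p
      rw [add_sub_cancel_left] at h3
      rw [h3, add_pow_char, one_pow, add_sub_cancel_left, ← pow_succ,
        Nat.sub_add_cancel hp.one_le]
    have h4 := mul_right_cancel₀ X_ne_zero h2
    rw [← h4]
    simp [Polynomial.map_sum, Polynomial.map_pow]
  have h2 : C (p : ℤ) ∣ (∑ i ∈ Finset.range p, (1 + X : ℤ[X]) ^ i) - X ^ (p - 1) := by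
    rw [C_dvd_iff_dvd_coeff]
    intro i
    have h3 : ((∑ i ∈ Finset.range p, (1 + X : ℤ[X]) ^ i) - X ^ (p - 1)).map
        (Int.castRingHom (ZMod p)) = 0 := by
      rw [Polynomial.map_sub, h1]
      simp
    have h4 := congrArg (fun q => q.coeff i) h3
    simp only [coeff_map, coeff_zero] at h4
    exact (ZMod.intCast_zmod_eq_zero_iff_dvd _ _).1 h4
  obtain ⟨h, hh⟩ := h2
  have h3 : h.coeff 0 = 1 := by
    have h4 := congrArg (fun q => q.coeff 0) hh
    simp only [coeff_sub, finsetSum_coeff, coeff_C_mul] at h4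
    have h5 : ∀ i, ((1 + X : ℤ[X]) ^ i).coeff 0 = 1 := by
      intro i
      rw [coeff_zero_eq_eval_zero]
      simp
    have h6 : (X ^ (p - 1) : ℤ[X]).coeff 0 = 0 := by
      rw [coeff_X_pow, if_neg (by omega)]
    simp only [h5, h6, Finset.sum_const, Finset.card_range, nsmul_eq_mul, mul_one, sub_zero] at h4
    have h7 : (p : ℤ) ≠ 0 := by exact_mod_cast hp.ne_zero
    have h8 : (p : ℤ) * h.coeff 0 = p * 1 := by rw [mul_one, ← h4]
    exact mul_left_cancel₀ h7 h8
  have h4 : X ∣ h - 1 := by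
    rw [X_dvd_iff]
    simp [h3]
  obtain ⟨g, hg⟩ := h4
  refine ⟨g, ?_⟩
  rw [← hg, add_sub_cancel, ← hh, add_sub_cancel]

end poly

section norm

/-- The power of `s - 1` on the elements of norm zero. -/
lemma exists_Dp {Λ : Type} [AddCommGroup Λ] {p : ℕ} (hp : p.Prime) (s : Module.End ℤ Λ) :
    ∃ G : Module.End ℤ Λ, (∀ M : Submodule ℤ Λ, (∀ x ∈ M, s x ∈ M) → ∀ x ∈ M, G x ∈ M) ∧
      ∀ x, (∑ i ∈ Finset.range p, s ^ i) x = 0 →
        ((s - 1) ^ (p - 1)) x = -((p : ℤ) • (x + (s - 1) (G x))) := by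
  obtain ⟨g, hg⟩ := exists_poly p hp
  refine ⟨aeval (s - 1) g, fun M hM => ?_, fun x hx => ?_⟩
  · have h1 : ∀ x ∈ M, (s - 1) x ∈ M := by
      intro x hx
      rw [LinearMap.sub_apply, Module.End.one_apply]
      exact M.sub_mem (hM x hx) hx
    have h2 : ∀ (n : ℕ), ∀ x ∈ M, ((s - 1) ^ n) x ∈ M := by
      intro n
      induction n with
      | zero => intro x hx; simpa using hx
      | succ n ih => intro x hx; rw [pow_succ', Module.End.mul_apply]; exact h1 _ (ih x hx)
    intro x hx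
    rw [aeval_eq_sum_range, LinearMap.sum_apply]
    refine M.sum_mem fun i _ => ?_
    rw [LinearMap.smul_apply]
    exact M.smul_mem _ (h2 i x hx)
  · have h1 := congrArg (fun f => (aeval (s - 1) f) x) hg
    simp only [map_sum, map_pow, map_add, map_mul, aeval_X, map_one, aeval_C,
      add_sub_cancel, LinearMap.add_apply] at h1
    rw [hx] at h1
    have h2 : ((algebraMap ℤ (Module.End ℤ Λ)) (p : ℤ) * (1 + (s - 1) * aeval (s - 1) g)) x =
        (p : ℤ) • (x + (s - 1) ((aeval (s - 1) g) x)) := by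
      rw [Module.End.mul_apply, Module.algebraMap_end_apply, LinearMap.add_apply,
        Module.End.one_apply, Module.End.mul_apply]
    rw [h2] at h1
    exact eq_neg_of_add_eq_zero_left h1.symm

end norm

section chain

/-- A basis adapted to a chain of subspaces. -/
lemma exists_chain {F W : Type} [Field F] [AddCommGroup W] [Module F W] (V : ℕ → Submodule F W)
    (hV : ∀ m, V (m + 1) ≤ V m) (p : ℕ) (hp : V p = ⊥) (d : ℕ) : ∀ n : ℕ, n + d = p →
    ∃ s : Set W, LinearIndepOn F id s ∧ s ⊆ V n ∧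
      ∀ m, n ≤ m → m ≤ p → V m ≤ Submodule.span F (s ∩ V m) := by
  induction d with
  | zero =>
    intro n hn
    refine ⟨∅, linearIndepOn_empty _ _, Set.empty_subset _, fun m h1 h2 => ?_⟩
    have : m = p := by omega
    rw [this, hp]
    exact bot_le
  | succ d ih =>
    intro n hn
    obtain ⟨s, hs, hsV, h⟩ := ih (n + 1) (by omega)
    obtain ⟨b, hbV, hsb, hVb, hb⟩ := exists_linearIndepOn_id_extension hs
      (hsV.trans (hV n) : s ⊆ (V n : Set W))
    refine ⟨b, hb, hbV, fun m h1 h2 => ?_⟩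
    rcases h1.eq_or_lt with h1 | h1
    · rw [← h1]
      intro x hx
      have h3 : b ∩ (V n : Set W) = b := Set.inter_eq_left.2 hbV
      rw [h3]
      exact hVb hx
    · exact (h m h1 h2).trans (Submodule.span_mono (Set.inter_subset_inter_left _ hsb))

/-- Dual functionals. -/
lemma exists_coord {F W : Type} [Field F] [AddCommGroup W] [Module F W] {s : Set W}
    (hs : LinearIndepOn F id s) (w : s) :
    ∃ f : W →ₗ[F] F, f w = 1 ∧ ∀ w' : s, w' ≠ w → f w' = 0 := by
  classical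
  let b := Module.Basis.extend hs
  have hw : ∀ w' : s, (w' : W) ∈ hs.extend (Set.subset_univ _) :=
    fun w' => hs.subset_extend _ w'.2
  have h1 : ∀ w' : s, b ⟨w', hw w'⟩ = (w' : W) := by
    intro w'
    exact Module.Basis.extend_apply_self hs _
  refine ⟨b.coord ⟨w, hw w⟩, ?_, fun w' hne => ?_⟩
  · have h2 : b.coord ⟨w, hw w⟩ (b ⟨w, hw w⟩) = 1 := by
      rw [Module.Basis.coord_apply, Module.Basis.repr_self, Finsupp.single_eq_same]
    rwa [h1] at h2
  · have h2 : b.coord ⟨w, hw w⟩ (b ⟨w', hw w'⟩) = 0 := by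
      rw [Module.Basis.coord_apply, Module.Basis.repr_self, Finsupp.single_eq_of_ne]
      intro h
      exact hne (Subtype.ext (congrArg Subtype.val h).symm)
    rwa [h1] at h2

end chain

section adapted

variable {Λ ι : Type} [AddCommGroup Λ] [Fintype ι]

/-- The reduction modulo `p` of the coordinates. -/
noncomputable def red (b : Module.Basis ι ℤ Λ) (p : ℕ) (x : Λ) : ι → ZMod p :=
  fun i => (b.repr x i : ZMod p)

lemma red_add (b : Module.Basis ι ℤ Λ) (p : ℕ) (x y : Λ) : red b p (x + y) = red b p x + red b p y := by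
  funext i; simp [red]

lemma red_zero (b : Module.Basis ι ℤ Λ) (p : ℕ) : red b p 0 = 0 := by
  funext i; simp [red]

lemma red_sub (b : Module.Basis ι ℤ Λ) (p : ℕ) (x y : Λ) : red b p (x - y) = red b p x - red b p y := by
  funext i; simp [red]

lemma red_smul (b : Module.Basis ι ℤ Λ) (p : ℕ) (n : ℤ) (x : Λ) :
    red b p (n • x) = (n : ZMod p) • red b p x := by
  funext i; simp [red]

lemma red_sum (b : Module.Basis ι ℤ Λ) (p : ℕ) {J : Type} (s : Finset J) (f : J → Λ) :
    red b p (∑ j ∈ s, f j) = ∑ j ∈ s, red b p (f j) := by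
  classical
  induction s using Finset.induction_on with
  | empty => simp [red_zero]
  | insert i s hi ih => rw [Finset.sum_insert hi, Finset.sum_insert hi, red_add, ih]

lemma red_eq_zero (b : Module.Basis ι ℤ Λ) (p : ℕ) {x : Λ} (hx : red b p x = 0) :
    ∃ y, x = (p : ℤ) • y := by
  have h1 : ∀ i, ∃ c : ℤ, b.repr x i = p * c := by
    intro i
    have h2 := congrFun hx i
    exact (ZMod.intCast_zmod_eq_zero_iff_dvd _ _).1 h2
  choose c hc using h1
  refine ⟨∑ i, c i • b i, ?_⟩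
  rw [Finset.smul_sum, ← b.sum_repr x]
  refine Finset.sum_congr rfl fun i _ => ?_
  rw [hc i, mul_smul]

/-- The subspace of the reductions. -/
noncomputable def redS (b : Module.Basis ι ℤ Λ) (p : ℕ) [NeZero p] (L : Submodule ℤ Λ) :
    Submodule (ZMod p) (ι → ZMod p) where
  carrier := {w | ∃ x ∈ L, red b p x = w}
  add_mem' := by
    rintro _ _ ⟨x, hx, rfl⟩ ⟨y, hy, rfl⟩
    exact ⟨x + y, L.add_mem hx hy, red_add _ _ _ _⟩
  zero_mem' := ⟨0, L.zero_mem, red_zero _ _⟩
  smul_mem' := by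
    rintro c _ ⟨x, hx, rfl⟩
    refine ⟨(c.val : ℤ) • x, L.smul_mem _ hx, ?_⟩
    rw [red_smul]
    congr 1
    simp

/-- **Adapted families.** -/
theorem exists_adapted (b : Module.Basis ι ℤ Λ) {p : ℕ} (hp : p.Prime) (L : Submodule ℤ Λ)
    (hsat : ∀ x, (p : ℤ) • x ∈ L → x ∈ L) (D : Module.End ℤ Λ) (hD : ∀ x ∈ L, D x ∈ L)
    (hDp : ∀ x ∈ L, ∃ y ∈ L, (D ^ (p - 1)) x = (p : ℤ) • y) :
    ∃ (J : Type) (_ : Fintype J) (k : J → ℕ) (μ : J → Λ),
      (∀ j, 1 ≤ k j ∧ k j ≤ p - 1 ∧ ∃ y ∈ L, μ j = (D ^ (k j - 1)) y) ∧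
      (∀ m, 1 ≤ m → m ≤ p - 1 → ∀ y ∈ L, ∃ n : J → ℤ, (∀ j, n j ≠ 0 → m ≤ k j) ∧
        ∃ t ∈ L, (D ^ (m - 1)) y = ∑ j, n j • μ j + (p : ℤ) • t) ∧
      ∀ j, ∃ φ : ι → ℤ, ((∑ i, φ i * b.repr (μ j) i : ℤ) : ZMod p) = 1 ∧
        ∀ j', j' ≠ j → ((∑ i, φ i * b.repr (μ j') i : ℤ) : ZMod p) = 0 := by
  classical
  have := Fact.mk hp
  have hp2 := hp.two_le
  have hp0 : NeZero p := ⟨hp.ne_zero⟩
  have hDk : ∀ (k : ℕ), ∀ x ∈ L, (D ^ k) x ∈ L := by
    intro k
    induction k with
    | zero => intro x hx; simpa using hx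
    | succ k ih =>
      intro x hx
      rw [pow_succ', Module.End.mul_apply]
      exact hD _ (ih x hx)
  let V : ℕ → Submodule (ZMod p) (ι → ZMod p) := fun m => redS b p (L.map (D ^ (m - 1)))
  have hVmem : ∀ m w, w ∈ V m ↔ ∃ y ∈ L, red b p ((D ^ (m - 1)) y) = w := by
    intro m w
    constructor
    · rintro ⟨x, ⟨y, hy, rfl⟩, rfl⟩
      exact ⟨y, hy, rfl⟩
    · rintro ⟨y, hy, rfl⟩
      exact ⟨_, ⟨y, hy, rfl⟩, rfl⟩
  have hV : ∀ m, V (m + 1) ≤ V m := by
    intro m w hw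
    rw [hVmem] at hw ⊢
    obtain ⟨y, hy, rfl⟩ := hw
    rcases Nat.eq_zero_or_pos m with h0 | h0
    · subst h0
      exact ⟨y, hy, rfl⟩
    · refine ⟨D y, hD y hy, ?_⟩
      have h1 : m + 1 - 1 = (m - 1) + 1 := by omega
      rw [h1, pow_succ, Module.End.mul_apply]
  have hVp : V p = ⊥ := by
    rw [eq_bot_iff]
    intro w hw
    rw [hVmem] at hw
    obtain ⟨y, hy, rfl⟩ := hw
    obtain ⟨z, -, hz⟩ := hDp y hy
    rw [hz, red_smul]
    simp
  obtain ⟨s, hs, hsV, hspan⟩ := exists_chain V hV p hVp (p - 1) 1 (by omega)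
  have hfin : Finite s := by
    have h1 : LinearIndependent (ZMod p) (fun w : s => (w : ι → ZMod p)) := hs
    exact h1.finite
  have _ : Fintype s := Fintype.ofFinite s
  let k : s → ℕ := fun w => Nat.findGreatest (fun m => (w : ι → ZMod p) ∈ V m) (p - 1)
  have hk1 : ∀ w : s, 1 ≤ k w ∧ (w : ι → ZMod p) ∈ V (k w) := by
    intro w
    have h1 : (w : ι → ZMod p) ∈ V 1 := hsV w.2
    exact ⟨Nat.le_findGreatest (by omega) h1,
      Nat.findGreatest_spec (P := fun m => (w : ι → ZMod p) ∈ V m) (by omega : 1 ≤ p - 1) h1⟩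
  have hk2 : ∀ w : s, k w ≤ p - 1 := fun w => Nat.findGreatest_le _
  have hμ : ∀ w : s, ∃ y ∈ L, red b p ((D ^ (k w - 1)) y) = w := fun w => (hVmem _ _).1 (hk1 w).2
  choose y hyL hy using hμ
  refine ⟨s, inferInstance, k, fun w => (D ^ (k w - 1)) (y w),
    fun w => ⟨(hk1 w).1, hk2 w, y w, hyL w, rfl⟩, ?_, ?_⟩
  · intro m hm1 hm2 x hx
    have h1 : red b p ((D ^ (m - 1)) x) ∈ V m := (hVmem _ _).2 ⟨x, hx, rfl⟩
    have h2 := hspan m hm1 (by omega) h1
    rw [Submodule.mem_span_set'] at h2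
    obtain ⟨N, c, g, hcg⟩ := h2
    -- the coefficients
    let n : s → ℤ := fun w => ((∑ a, if (g a : ι → ZMod p) = w then c a else 0 : ZMod p).val : ℤ)
    have hn : ∀ w : s, (n w : ZMod p) = ∑ a, if (g a : ι → ZMod p) = w then c a else 0 := by
      intro w
      simp [n]
    have hsum : ∑ w : s, (n w : ZMod p) • (w : ι → ZMod p) = red b p ((D ^ (m - 1)) x) := by
      rw [← hcg]
      simp only [hn, Finset.sum_smul]
      rw [Finset.sum_comm]
      refine Finset.sum_congr rfl fun a _ => ?_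
      rw [Finset.sum_eq_single (⟨g a, (g a).2.1⟩ : s)]
      · simp
      · intro w _ hw
        rw [if_neg, zero_smul]
        intro h
        exact hw (Subtype.ext h.symm)
      · intro h
        exact absurd (Finset.mem_univ _) h
    refine ⟨n, fun w hw => ?_, ?_⟩
    · by_contra hcon
      apply hw
      have h3 : ∀ a, (g a : ι → ZMod p) ≠ w := by
        intro a ha
        apply hcon
        refine Nat.le_findGreatest hm2 ?_
        rw [← ha]
        exact (g a).2.2
      simp [n, h3]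
    · have h3 : red b p ((D ^ (m - 1)) x - ∑ w : s, n w • (D ^ (k w - 1)) (y w)) = 0 := by
        rw [red_sub, red_sum, ← hsum, sub_eq_zero]
        refine Finset.sum_congr rfl fun w _ => ?_
        rw [red_smul, hy w]
      obtain ⟨t, ht⟩ := red_eq_zero b p h3
      refine ⟨t, hsat t ?_, ?_⟩
      · rw [← ht]
        refine L.sub_mem (hDk _ _ hx) (L.sum_mem fun w _ => L.smul_mem _ (hDk _ _ (hyL w)))
      · rw [← ht]
        abel
  · intro w
    obtain ⟨f, hf, hf'⟩ := exists_coord hs w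
    have h2 : ∀ v : ι → ZMod p, f v = ∑ i, f (Pi.single i 1) * v i := by
      intro v
      conv_lhs => rw [← Finset.univ_sum_single v]
      rw [map_sum]
      refine Finset.sum_congr rfl fun i _ => ?_
      have h3 : (Pi.single i (v i) : ι → ZMod p) = v i • Pi.single i 1 := by
        rw [← Pi.single_smul, smul_eq_mul, mul_one]
      rw [h3, map_smul, smul_eq_mul, mul_comm]
    have h1 : ∀ w' : s, ((∑ i, ((f (Pi.single i 1)).val : ℤ) *
        b.repr ((D ^ (k w' - 1)) (y w')) i : ℤ) : ZMod p) = f w' := by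
      intro w'
      rw [← hy w', h2]
      push_cast
      refine Finset.sum_congr rfl fun i _ => ?_
      simp [red]
    refine ⟨fun i => ((f (Pi.single i 1)).val : ℤ), ?_, fun w' hw' => ?_⟩
    · rw [h1, hf]
    · rw [h1, hf' w' hw']

end adapted

end Pool.Agent.T9h3
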