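import Pool.Agent.T9h3.Regb

/-!
# Characters of a torus with an automorphism of prime order: the operator `σ - 1`
-/

set_option autoImplicit false
set_option linter.unusedSectionVars false

namespace Pool.Agent.T9h3

open MvPolynomial IsLocalRing Algebra Pool.Agent.Y223.G

variable {O K Λ ι : Type} [CommRing O] [IsDomain O] [IsDedekindDomain O] [Field K]
  [Algebra O K] [AddCommGroup Λ] [Fintype ι] {χ : Λ → K} {b : Module.Basis ι ℤ Λ}
  {p : ℕ} {σ : K →+* K} {t : O →+* O}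
  {s : Module.End ℤ Λ} {𝔓 : Ideal O} {l : ℕ} {Δ : Set Λ} {v : Λ}

lemma ev_sub_div (h : TD O K Λ p σ t s χ 𝔓 l) (hc : CD Δ v b) {m m' : Λ} (hm : m ∈ Δ)
    (hm' : m' ∈ Δ) : ev O χ b (mon O b (m - v) - mon O b (m' - v)) = (χ m - χ m') / χ v := by
  rw [map_sub, ev_mon h.χ0 h.χa b (hc.nn m hm), ev_mon h.χ0 h.χa b (hc.nn m' hm'),
    chi_sub h.χ0 h.χa, chi_sub h.χ0 h.χa, sub_div]

/-- The points where all the positive elements vanish. -/
lemma CT_of_pos (h : TD O K Λ p σ t s χ 𝔓 l) (hc : CD Δ v b) (Q : Ideal (MvPolynomial ι O))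
    (hQpos : ∀ (n : ℕ) (y : MvPolynomial ι O), 0 < n → hm n (ev O χ b y) ∈ GR χ σ p s 𝔓 l Δ v →
      y ∈ Q) : CT p s 𝔓 Δ v b Q := by
  refine ⟨fun a ha => hQpos 1 _ Nat.one_pos ?_, fun m hm m' hm' hN => hQpos (1 * l) _ ?_ ?_⟩
  · rw [ev_C]
    exact GR_P ha
  · have := h.l1
    omega
  · rw [ev_sub_div h hc hm hm']
    have hp2 := h.pp.two_le
    exact GR_W (k := 1) (by omega) (WW_one.2 (Submodule.subset_span ⟨m, hm, m', hm', hN, rfl⟩))

/-- Membership is local, at the points of the centre. -/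
lemma GR_glob (h : TD O K Λ p σ t s χ 𝔓 l) (hc : CD Δ v b) {f : K} {m : ℤ}
    (hf : hm 0 f ∈ GR χ σ p s 𝔓 l Δ v)
    (hcen : ∀ (Q : Ideal (MvPolynomial ι O)) [Q.IsPrime], CT p s 𝔓 Δ v b Q →
      ∃ e, e ∉ Q ∧ hm m (ev O χ b e * f) ∈ GR χ σ p s 𝔓 l Δ v) :
    hm m f ∈ GR χ σ p s 𝔓 l Δ v := by
  let I : Ideal (MvPolynomial ι O) :=
    { carrier := {c | hm m (ev O χ b c * f) ∈ GR χ σ p s 𝔓 l Δ v}
      add_mem' := by
        intro x y hx hy
        change hm m (ev O χ b (x + y) * f) ∈ GR χ σ p s 𝔓 l Δ v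
        rw [map_add, add_mul, hm_add]
        exact Subalgebra.add_mem _ hx hy
      zero_mem' := by
        change hm m (ev O χ b 0 * f) ∈ GR χ σ p s 𝔓 l Δ v
        rw [map_zero, zero_mul, hm_zero]
        exact Subalgebra.zero_mem _
      smul_mem' := by
        intro c x hx
        change hm m (ev O χ b (c * x) * f) ∈ GR χ σ p s 𝔓 l Δ v
        have h1 := Subalgebra.mul_mem _ (GR_C (σ := σ) (p := p) (s := s) (𝔓 := 𝔓) (l := l)
          h.χ0 h.χa hc c) hx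
        rw [hm_mul, zero_add, ← mul_assoc, ← map_mul] at h1
        exact h1 }
  by_contra hcon
  have hI : I ≠ ⊤ := by
    intro hI
    apply hcon
    have h1 : (1 : MvPolynomial ι O) ∈ I := by rw [hI]; trivial
    have h2 : hm m (ev O χ b 1 * f) ∈ GR χ σ p s 𝔓 l Δ v := h1
    rwa [map_one, one_mul] at h2
  obtain ⟨Q, hQ, hIQ⟩ := Ideal.exists_le_maximal I hI
  have hQp := hQ.isPrime
  by_cases hpos : ∀ (n : ℕ) (y : MvPolynomial ι O), 0 < n →
      hm n (ev O χ b y) ∈ GR χ σ p s 𝔓 l Δ v → y ∈ Q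
  · obtain ⟨e, he, h1⟩ := hcen Q (CT_of_pos h hc Q hpos)
    exact he (hIQ h1)
  · push Not at hpos
    obtain ⟨n, y, hn, hy, hyQ⟩ := hpos
    have h1 := Subalgebra.mul_mem _ (Subalgebra.pow_mem _ hy m.toNat) hf
    rw [hm_pow, hm_mul, add_zero, ← map_pow] at h1
    have h2 : y ^ m.toNat ∈ I := GR_low h1 (by
      have h3 : (1 : ℤ) ≤ n := by exact_mod_cast hn
      have h4 : m ≤ (m.toNat : ℤ) := Int.self_le_toNat m
      nlinarith [Int.natCast_nonneg m.toNat])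
    exact hyQ (hQp.mem_of_pow_mem _ (hIQ h2))

/-- The elements of the space of linear forms. -/
lemma GR_W0 {u : K} (hu : u ∈ WW χ σ p s Δ 0) : hm 0 (u / χ v) ∈ GR χ σ p s 𝔓 l Δ v := by
  have h1 := GR_W (σ := σ) (χ := χ) (v := v) (𝔓 := 𝔓) (l := l) (p := p) (s := s) (k := 0)
    (Nat.zero_le _) hu
  rwa [zero_mul] at h1

/-- **The operator `σ - 1` raises the weights.** -/
theorem GR_d (h : TD O K Λ p σ t s χ 𝔓 l) (hc : CD Δ v b) (hΔ : ∀ m ∈ Δ, s m ∈ Δ)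
    (hR : RD p s Δ v b) {k : ℕ} (hk : k ≤ p - 1) {u : K} (hu : u ∈ WW χ σ p s Δ k) :
    hm ((k + 1) * l : ℕ) (dK σ u / χ v) ∈ GR χ σ p s 𝔓 l Δ v := by
  rcases hk.lt_or_eq with h1 | h1
  · exact GR_W h1 (WW_d h.sp h.σχ hΔ _ hu)
  · refine GR_glob h hc (GR_W0 (WW_mono h.sp h.σχ hΔ (Nat.zero_le _)
      (WW_d h.sp h.σχ hΔ _ hu))) fun Q hQ hT => ?_
    have Y : CY χ b Q p σ t s 𝔓 l Δ v := ⟨h, hc, hΔ, hT, hR⟩
    have h2 := Y.div_del _ Y.BL0 (fun n f hf => Y.Bstab hf) (Y.BW k hk u hu)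
    have h3 : ((k * l : ℕ) : ℤ) + l = ((k + 1) * l : ℕ) := by push_cast; ring
    rw [h3] at h2
    exact h2

end Pool.Agent.T9h3
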