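import Pool.Agent.T9h3.Memb

/-!
# Characters of a torus with an automorphism of prime order: the zeros of the leading form
-/

set_option autoImplicit false
set_option linter.unusedSectionVars false

namespace Pool.Agent.T9h3

open MvPolynomial IsLocalRing Algebra Pool.Agent.Y223.G
open Pool.Agent.Y86.G5 (im mem_im im_sub im_mul im_prime im_one im_pow)

variable {O K Λ ι : Type} [CommRing O] [IsDomain O] [IsDedekindDomain O] [Field K]
  [Algebra O K] [AddCommGroup Λ] [Fintype ι] {χ : Λ → K} {b : Module.Basis ι ℤ Λ}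
  {p : ℕ} {σ : K →+* K} {t : O →+* O}
  {s : Module.End ℤ Λ} {𝔓 : Ideal O} {l : ℕ} {Δ : Set Λ} {v : Λ}

/-- The map from the ring of the chart to the graded algebra. -/
noncomputable def toGR (𝔓 : Ideal O) (l : ℕ) (h : TD O K Λ p σ t s χ 𝔓 l) (hc : CD Δ v b) :
    MvPolynomial ι O →+* GR χ σ p s 𝔓 l Δ v where
  toFun := fun x => ⟨hm 0 (ev O χ b x), GR_C h.χ0 h.χa hc x⟩
  map_one' := by
    apply Subtype.ext
    change hm 0 (ev O χ b 1) = 1
    rw [map_one, hm_one]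
  map_mul' := fun a c => by
    apply Subtype.ext
    change hm 0 (ev O χ b (a * c)) = hm 0 (ev O χ b a) * hm 0 (ev O χ b c)
    rw [hm_mul, add_zero, map_mul]
  map_zero' := by
    apply Subtype.ext
    change hm 0 (ev O χ b 0) = 0
    rw [map_zero, hm_zero]
  map_add' := fun a c => by
    apply Subtype.ext
    change hm 0 (ev O χ b (a + c)) = hm 0 (ev O χ b a) + hm 0 (ev O χ b c)
    rw [map_add, hm_add]

/-- The ideal in degree zero. -/
noncomputable def qd (h : TD O K Λ p σ t s χ 𝔓 l) (hc : CD Δ v b)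
    (𝔔 : Ideal (GR χ σ p s 𝔓 l Δ v)) : Ideal (MvPolynomial ι O) := 𝔔.comap (toGR 𝔓 l h hc)

/-- The hypotheses on the prime ideal of the graded algebra. -/
structure NQ (h : TD O K Λ p σ t s χ 𝔓 l) (𝔔 : Ideal (GR χ σ p s 𝔓 l Δ v)) : Prop where
  pr : 𝔔.IsPrime
  n1 : ∀ a ∈ 𝔓, hm 0 (algebraMap O K a) ∈ im (GR χ σ p s 𝔓 l Δ v) 𝔔
  n2 : ∀ a ∈ 𝔓, hm (1 + l : ℕ) (algebraMap O K (t a - a)) ∈ im (GR χ σ p s 𝔓 l Δ v) 𝔔
  n3 : ∀ k, k ≤ p - 1 → ∀ u ∈ WW χ σ p s Δ k,
    hm ((k + 1) * l : ℕ) ((u * σ (χ v) - χ v * σ u) / χ v ^ 2) ∈ im (GR χ σ p s 𝔓 l Δ v) 𝔔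

section

variable {h : TD O K Λ p σ t s χ 𝔓 l} {𝔔 : Ideal (GR χ σ p s 𝔓 l Δ v)}

lemma mem_qd {hc : CD Δ v b} {c : MvPolynomial ι O} :
    c ∈ qd h hc 𝔔 ↔ hm 0 (ev O χ b c) ∈ im (GR χ σ p s 𝔓 l Δ v) 𝔔 := by
  rw [mem_im]
  constructor
  · intro hx
    exact ⟨GR_C h.χ0 h.χa hc c, hx⟩
  · rintro ⟨_, hx⟩
    exact hx

lemma NQ.qp (N : NQ h 𝔔) (hc : CD Δ v b) : (qd h hc 𝔔).IsPrime := by
  have := N.pr
  exact Ideal.comap_isPrime (toGR 𝔓 l h hc) 𝔔

lemma im_low {d e : ℤ} {x : K} (hx : hm d x ∈ im (GR χ σ p s 𝔓 l Δ v) 𝔔) (he : e ≤ d) :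
    hm e x ∈ im (GR χ σ p s 𝔓 l Δ v) 𝔔 := by
  have h1 := im_mul (Subalgebra.pow_mem _ (GR_s (χ := χ) (σ := σ) (p := p) (s := s) (𝔓 := 𝔓)
    (l := l) (Δ := Δ) (v := v)) (d - e).toNat) hx
  rw [hm_pow, one_pow, hm_mul, one_mul] at h1
  have h2 : ((d - e).toNat : ℤ) * -1 + d = e := by
    rw [Int.toNat_of_nonneg (by omega)]
    ring
  rwa [h2] at h1

/-- **The point is in the centre.** -/
theorem NQ.ct (N : NQ h 𝔔) (hc : CD Δ v b) (hΔ : ∀ m ∈ Δ, s m ∈ Δ) :
    CT p s 𝔓 Δ v b (qd h hc 𝔔) := by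
  have hqp := N.qp hc
  have hv0 := chi_ne h.χ0 h.χa v
  have hpow : ∀ (n : ℕ) (m : Λ), m ∈ Δ → (s ^ n) m ∈ Δ := by
    intro n m hm
    induction n with
    | zero => rwa [pow_zero, Module.End.one_apply]
    | succ n ih => rw [pow_succ', Module.End.mul_apply]; exact hΔ _ ih
  refine ⟨fun a ha => ?_, fun m hm m' hm' hN => ?_⟩
  · rw [mem_qd, ev_C]
    exact N.n1 a ha
  · -- the quotient ring
    obtain ⟨θ, hθ⟩ : ∃ θ, θ = Ideal.Quotient.mk (qd h hc 𝔔) := ⟨_, rfl⟩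
    have hp0 : (p : MvPolynomial ι O ⧸ qd h hc 𝔔) = 0 := by
      have h1 : (p : O) ∈ 𝔓 := by
        refine Ideal.pow_le_self ?_ h.pl
        have h2 := h.pp.two_le
        have h3 := h.l1
        exact Nat.mul_ne_zero (by omega) (by omega)
      have h2 : (C (p : O) : MvPolynomial ι O) ∈ qd h hc 𝔔 := by
        rw [mem_qd, ev_C]
        exact N.n1 _ h1
      rw [← Ideal.Quotient.eq_zero_iff_mem, map_natCast, map_natCast] at h2
      exact h2
    have hch : CharP (MvPolynomial ι O ⧸ qd h hc 𝔔) p :=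
      (CharP.charP_iff_prime_eq_zero h.pp).2 hp0
    have hfact := Fact.mk h.pp
    -- multiplicativity
    have h1 : ∀ m ∈ Δ, θ (mon O b (s m - v)) =
        θ (mon O b (s v - v)) * θ (mon O b (m - v)) := by
      intro m hm
      have h2 := im_low (N.n3 0 (Nat.zero_le _) (χ m) (Submodule.subset_span ⟨m, hm, rfl⟩))
        (e := 0) (by positivity)
      have h3 : (χ m * σ (χ v) - χ v * σ (χ m)) / χ v ^ 2 =
          ev O χ b (mon O b (s v - v) * mon O b (m - v) - mon O b (s m - v)) := by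
        rw [map_sub, map_mul, ev_mon h.χ0 h.χa b (hc.nn _ (hΔ v hc.vm)),
          ev_mon h.χ0 h.χa b (hc.nn m hm), ev_mon h.χ0 h.χa b (hc.nn _ (hΔ m hm)), h.σχ, h.σχ,
          chi_sub h.χ0 h.χa, chi_sub h.χ0 h.χa, chi_sub h.χ0 h.χa]
        field_simp
      rw [h3, ← mem_qd (b := b) (hc := hc), ← Ideal.Quotient.eq_zero_iff_mem, ← hθ, map_sub,
        map_mul, sub_eq_zero] at h2
      exact h2.symm
    have h2 : ∀ (i : ℕ) (m : Λ), m ∈ Δ → θ (mon O b ((s ^ i) m - v)) =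
        θ (mon O b (s v - v)) ^ i * θ (mon O b (m - v)) := by
      intro i m hm
      induction i with
      | zero => rw [pow_zero, Module.End.one_apply, pow_zero, one_mul]
      | succ i ih =>
        rw [pow_succ', Module.End.mul_apply, h1 _ (hpow i m hm), ih, pow_succ']
        ring
    have h3 : θ (mon O b (s v - v)) ^ p = 1 := by
      have h4 := h2 p v hc.vm
      rw [h.sp, Module.End.one_apply, sub_self, mon_zero, map_one, mul_one] at h4
      exact h4.symm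
    have h4 : θ (mon O b (s v - v)) = 1 := by
      have h5 : (θ (mon O b (s v - v)) - 1) ^ p = 0 := by
        rw [sub_pow_char, one_pow, h3, sub_self]
      exact sub_eq_zero.1 (pow_eq_zero_iff h.pp.ne_zero |>.1 h5)
    have h5 : ∀ (i : ℕ) (m : Λ), m ∈ Δ → θ (mon O b ((s ^ i) m - v)) = θ (mon O b (m - v)) := by
      intro i m hm
      rw [h2 i m hm, h4, one_pow, one_mul]
    -- the norm
    have h6 : ∀ m ∈ Δ, ev O χ b (∏ i ∈ Finset.range p, mon O b ((s ^ i) m - v)) =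
        χ (Nm p s m - p • v) := by
      intro m hm
      rw [map_prod]
      have h7 : ∀ i ∈ Finset.range p, ev O χ b (mon O b ((s ^ i) m - v)) =
          χ ((s ^ i) m - v) := fun i _ => ev_mon h.χ0 h.χa b (hc.nn _ (hpow i m hm))
      rw [Finset.prod_congr rfl h7, ← chi_sum h.χ0 h.χa, Finset.sum_sub_distrib]
      congr 1
      unfold Nm
      rw [LinearMap.sum_apply]
      simp
    have h7 : θ (mon O b (m - v)) ^ p = θ (mon O b (m' - v)) ^ p := by
      have h8 : ∀ m ∈ Δ, θ (∏ i ∈ Finset.range p, mon O b ((s ^ i) m - v)) =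
          θ (mon O b (m - v)) ^ p := by
        intro m hm
        rw [map_prod, Finset.prod_congr rfl fun i _ => h5 i m hm, Finset.prod_const,
          Finset.card_range]
      rw [← h8 m hm, ← h8 m' hm']
      congr 1
      apply ev_inj h.χ0 h.χa h.lin b
      rw [h6 m hm, h6 m' hm', hN]
    rw [← Ideal.Quotient.eq_zero_iff_mem, ← hθ, map_sub]
    refine (pow_eq_zero_iff h.pp.ne_zero).1 ?_
    rw [sub_pow_char, h7, sub_self]

end

end Pool.Agent.T9h3
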