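import Pool.Agent.T9h3.Nda

/-!
# Characters of a torus with an automorphism of prime order: the zeros of the leading form
-/

set_option autoImplicit false
set_option linter.unusedSectionVars false

namespace Pool.Agent.T9h3

open MvPolynomial IsLocalRing Algebra Pool.Agent.Y223.G
open Pool.Agent.Y86.G5 (im mem_im im_sub im_mul im_prime im_one im_pow)
open Pool.Agent.Y614.WC (exists_unif not_mem_sq FI_zero FI_anti FI_mul FI_gen coeff_filt)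

variable {O K Λ ι : Type} [CommRing O] [IsDomain O] [IsDedekindDomain O] [Field K]
  [Algebra O K] [AddCommGroup Λ] [Fintype ι] {χ : Λ → K} {b : Module.Basis ι ℤ Λ}
  {p : ℕ} {σ : K →+* K} {t : O →+* O}
  {s : Module.End ℤ Λ} {𝔓 : Ideal O} {l : ℕ} {Δ : Set Λ} {v : Λ}

/-- The prime ideal, with the localization. -/
def QQ (b : Module.Basis ι ℤ Λ) (Q : Ideal (MvPolynomial ι O)) [hQ : Q.IsPrime]
    (h0 : χ 0 = 1) (ha : ∀ x y, χ (x + y) = χ x * χ y) (hc : CD Δ v b)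
    (𝔔 : Ideal (GR χ σ p s 𝔓 l Δ v)) (n : ℤ) : AddSubgroup K where
  carrier := {f | ∃ e, e ∉ Q ∧ hm n (ev O χ b e * f) ∈ im (GR χ σ p s 𝔓 l Δ v) 𝔔}
  add_mem' := by
    rintro x y ⟨e, he, hx⟩ ⟨f, hf, hy⟩
    refine ⟨e * f, fun hst => (hQ.mem_or_mem hst).elim he hf, ?_⟩
    have h1 := im_mul (GR_C (σ := σ) (p := p) (s := s) (𝔓 := 𝔓) (l := l) h0 ha hc f) hx
    have h2 := im_mul (GR_C (σ := σ) (p := p) (s := s) (𝔓 := 𝔓) (l := l) h0 ha hc e) hy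
    have h3 := (im (GR χ σ p s 𝔓 l Δ v) 𝔔).add_mem h1 h2
    rw [hm_mul, hm_mul, zero_add, ← hm_add] at h3
    have h4 : ev O χ b (e * f) * (x + y) = ev O χ b f * (ev O χ b e * x) +
        ev O χ b e * (ev O χ b f * y) := by
      rw [map_mul]; ring
    rw [h4]
    exact h3
  zero_mem' := ⟨1, fun h => hQ.ne_top ((Ideal.eq_top_iff_one _).2 h), by
    rw [mul_zero, hm_zero]; exact (im (GR χ σ p s 𝔓 l Δ v) 𝔔).zero_mem⟩
  neg_mem' := by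
    rintro x ⟨e, he, hx⟩
    refine ⟨e, he, ?_⟩
    have h1 := im_mul (Subalgebra.neg_mem _ (Subalgebra.one_mem (GR χ σ p s 𝔓 l Δ v))) hx
    rwa [neg_one_mul, ← hm_neg, ← mul_neg] at h1

section

variable {Q : Ideal (MvPolynomial ι O)} [hQ : Q.IsPrime] {𝔔 : Ideal (GR χ σ p s 𝔓 l Δ v)}

/-- Abbreviation. -/
abbrev CY.QF (Y : CY χ b Q p σ t s 𝔓 l Δ v) (𝔔 : Ideal (GR χ σ p s 𝔓 l Δ v)) (n : ℤ) :
    AddSubgroup K := QQ b Q Y.h.χ0 Y.h.χa Y.hc 𝔔 n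

/-- The hypothesis that `Q` is the ideal in degree zero. -/
def DZ (χ : Λ → K) (b : Module.Basis ι ℤ Λ) (Q : Ideal (MvPolynomial ι O))
    (𝔔 : Ideal (GR χ σ p s 𝔓 l Δ v)) : Prop :=
  𝔔.IsPrime ∧ ∀ c, c ∈ Q ↔ hm 0 (ev O χ b c) ∈ im (GR χ σ p s 𝔓 l Δ v) 𝔔

variable (Y : CY χ b Q p σ t s 𝔓 l Δ v)

lemma CY.Q_of {n : ℤ} {f : K} (hf : hm n f ∈ im (GR χ σ p s 𝔓 l Δ v) 𝔔) : f ∈ Y.QF 𝔔 n :=
  ⟨1, fun h => hQ.ne_top ((Ideal.eq_top_iff_one _).2 h), by rwa [map_one, one_mul]⟩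

lemma CY.Q_low {m n : ℤ} {f : K} (hf : f ∈ Y.QF 𝔔 n) (h : m ≤ n) : f ∈ Y.QF 𝔔 m := by
  obtain ⟨e, he, h1⟩ := hf
  exact ⟨e, he, im_low h1 h⟩

lemma CY.Q_le {n : ℤ} {f : K} (hf : f ∈ Y.QF 𝔔 n) : f ∈ Y.B.F n := by
  obtain ⟨e, he, h1⟩ := hf
  exact ⟨e, he, im_sub h1⟩

lemma CY.Q_mul {m n : ℤ} {f g : K} (hf : f ∈ Y.B.F m) (hg : g ∈ Y.QF 𝔔 n) :
    f * g ∈ Y.QF 𝔔 (m + n) := by
  obtain ⟨e, he, h1⟩ := hg
  obtain ⟨e', he', h2⟩ := hf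
  refine ⟨e' * e, fun hst => (hQ.mem_or_mem hst).elim he' he, ?_⟩
  have h3 := im_mul h2 h1
  rw [hm_mul] at h3
  have h4 : ev O χ b (e' * e) * (f * g) = ev O χ b e' * f * (ev O χ b e * g) := by
    rw [map_mul]; ring
  rw [h4]
  exact h3

lemma CY.Q_mulr {m n : ℤ} {f g : K} (hf : f ∈ Y.B.F m) (hg : g ∈ Y.QF 𝔔 n) (c : ℤ)
    (hc : c = m + n) : f * g ∈ Y.QF 𝔔 c := by
  rw [hc]; exact Y.Q_mul hf hg

lemma CY.Q_mul0 {n : ℤ} {f g : K} (hf : f ∈ Y.B.F 0) (hg : g ∈ Y.QF 𝔔 n) :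
    f * g ∈ Y.QF 𝔔 n := by
  have := Y.Q_mul hf hg
  rwa [zero_add] at this

lemma CY.Q_prime (hD : DZ χ b Q 𝔔) {m n : ℤ} {f g : K} (hf : f ∈ Y.B.F m) (hg : g ∈ Y.B.F n)
    (hfg : f * g ∈ Y.QF 𝔔 (m + n)) : f ∈ Y.QF 𝔔 m ∨ g ∈ Y.QF 𝔔 n := by
  obtain ⟨e, he, h1⟩ := hfg
  obtain ⟨e1, he1, h2⟩ := hf
  obtain ⟨e2, he2, h3⟩ := hg
  have h4 := im_mul (GR_C (σ := σ) (p := p) (s := s) (𝔓 := 𝔓) (l := l) Y.h.χ0 Y.h.χa Y.hc
    (e1 * e2)) h1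
  have h5 : (hm 0 (ev O χ b (e1 * e2)) * hm (m + n) (ev O χ b e * (f * g)) : LP K) =
      hm 0 (ev O χ b e) * (hm m (ev O χ b e1 * f) * hm n (ev O χ b e2 * g)) := by
    rw [hm_mul, hm_mul, hm_mul, map_mul]
    congr 1
    ring
  rw [h5] at h4
  rcases im_prime hD.1 (GR_C Y.h.χ0 Y.h.χa Y.hc e) (Subalgebra.mul_mem _ h2 h3) h4 with h6 | h6
  · exact absurd ((hD.2 e).2 h6) he
  · rcases im_prime hD.1 h2 h3 h6 with h7 | h7
    · exact Or.inl ⟨e1, he1, h7⟩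
    · exact Or.inr ⟨e2, he2, h7⟩

lemma CY.Q_pow (hD : DZ χ b Q 𝔔) {m : ℤ} {f : K} (hf : f ∈ Y.B.F m) (k : ℕ)
    (hk : f ^ (k + 1) ∈ Y.QF 𝔔 ((k + 1 : ℕ) * m)) : f ∈ Y.QF 𝔔 m := by
  induction k with
  | zero => simpa using hk
  | succ k ih =>
    rw [pow_succ] at hk
    have h1 : ((k + 1 + 1 : ℕ) : ℤ) * m = ((k + 1 : ℕ) : ℤ) * m + m := by push_cast; ring
    rw [h1] at hk
    rcases Y.Q_prime hD (LF.pow _ hf (k + 1)) hf hk with h2 | h2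
    · exact ih h2
    · exact h2

/-- Powers of a maximal ideal are primary. -/
lemma mem_pow_of_mul {𝔓 : Ideal O} (h𝔓 : 𝔓.IsMaximal) {a x : O} (ha : a ∉ 𝔓) {n : ℕ}
    (h : a * x ∈ 𝔓 ^ n) : x ∈ 𝔓 ^ n := by
  obtain ⟨c, i, hi, h1⟩ := h𝔓.exists_inv ha
  have h2 : ∃ d, 1 = a * d + i ^ n := by
    have h3 : (1 - i ^ n) = (1 - i) * ∑ j ∈ Finset.range n, i ^ j := by
      have := mul_neg_geom_sum i n
      exact this.symm
    refine ⟨c * ∑ j ∈ Finset.range n, i ^ j, ?_⟩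
    have h4 : 1 - i = c * a := by rw [← h1]; ring
    rw [h4] at h3
    linear_combination h3
  obtain ⟨d, hd⟩ := h2
  have h3 : x = d * (a * x) + i ^ n * x := by
    linear_combination x * hd
  rw [h3]
  exact Ideal.add_mem _ (Ideal.mul_mem_left _ _ h) (Ideal.mul_mem_right _ _ (Ideal.pow_mem_pow hi n))

/-- The prime `𝔓`. -/
lemma CY.QP (hD : DZ χ b Q 𝔔) (N : NQ Y.h 𝔔) : ∀ e ∈ 𝔓, algebraMap O K e ∈ Y.QF 𝔔 1 := by
  obtain ⟨π, hπ, hπn⟩ := Y.h.un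
  obtain ⟨a, ha, hab⟩ := exists_unif hπ (not_mem_sq t Y.h.dv hπn)
  have hpw : ∀ (n : ℕ), ∀ e ∈ 𝔓 ^ n, ∃ b, a ^ n * e = π ^ n * b := by
    intro n
    induction n with
    | zero => intro e _; exact ⟨e, by simp⟩
    | succ n ih =>
      intro e he
      rw [pow_succ] at he
      refine Submodule.mul_induction_on he (fun x hx y hy => ?_) (fun x y hx hy => ?_)
      · obtain ⟨c, hc⟩ := ih x hx
        obtain ⟨d, hd⟩ := hab y hy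
        refine ⟨c * d, ?_⟩
        calc a ^ (n + 1) * (x * y) = (a ^ n * x) * (a * y) := by ring
          _ = π ^ (n + 1) * (c * d) := by rw [hc, hd]; ring
      · obtain ⟨c, hc⟩ := hx
        obtain ⟨d, hd⟩ := hy
        exact ⟨c + d, by rw [mul_add, mul_add, hc, hd]⟩
  have hunit : ∀ {a : O}, a ∉ 𝔓 → (algebraMap O K a)⁻¹ ∈ Y.B.F 0 ∧ algebraMap O K a ≠ 0 := by
    intro a ha
    have h1 := Y.B.inv' _ (Y.notP ha)
    rw [ev_C] at h1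
    refine ⟨h1, ?_⟩
    intro h0
    have h5 : (C a : MvPolynomial ι O) = 0 := Y.inj (b := b) (by rw [ev_C, h0, map_zero])
    exact Y.notP ha (h5 ▸ Q.zero_mem)
  have hO : ∀ a : O, algebraMap O K a ∈ Y.B.F 0 := CY.hk _
  -- `π`
  have hπQ : algebraMap O K π ∈ Y.QF 𝔔 1 := by
    obtain ⟨c, hc⟩ := hpw (l + 1) _ (Y.h.dv π)
    have hcP : c ∉ 𝔓 := by
      intro hcP
      apply hπn
      refine mem_pow_of_mul Y.h.mx (a := a ^ (l + 1))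
        (fun h => ha (Y.h.mx.isPrime.mem_of_pow_mem _ h)) ?_
      have h8 : 𝔓 ^ (l + 2) = 𝔓 ^ (l + 1) * 𝔓 := pow_succ _ _
      rw [hc, h8]
      exact Ideal.mul_mem_mul (Ideal.pow_mem_pow hπ _) hcP
    have h1 : algebraMap O K (t π - π) ∈ Y.QF 𝔔 (1 + l : ℕ) := Y.Q_of (N.n2 π hπ)
    have h2 := Y.Q_mul0 (hO (a ^ (l + 1))) h1
    rw [← map_mul, hc, map_mul] at h2
    obtain ⟨h3, h4⟩ := hunit hcP
    have h5 := Y.Q_mul0 h3 h2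
    have h6 : (algebraMap O K c)⁻¹ * (algebraMap O K (π ^ (l + 1)) * algebraMap O K c) =
        algebraMap O K π ^ (l + 1) := by
      rw [map_pow]
      field_simp
    rw [h6] at h5
    refine Y.Q_pow hD (Y.BP π hπ) l ?_
    refine Y.Q_low h5 ?_
    push_cast
    omega
  intro e he
  obtain ⟨c, hc⟩ := hab e he
  obtain ⟨h3, h4⟩ := hunit ha
  have h5 : algebraMap O K e = (algebraMap O K a)⁻¹ * (algebraMap O K c * algebraMap O K π) := by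
    rw [← map_mul, mul_comm c, ← hc, map_mul, inv_mul_cancel_left₀ h4]
  rw [h5]
  exact Y.Q_mul0 h3 (Y.Q_mul0 (hO c) hπQ)

lemma CY.QPn (hD : DZ χ b Q 𝔔) (N : NQ Y.h 𝔔) (n : ℕ) :
    ∀ e ∈ 𝔓 ^ (n + 1), algebraMap O K e ∈ Y.QF 𝔔 (n + 1 : ℕ) := by
  intro e he
  rw [pow_succ] at he
  refine Submodule.mul_induction_on he (fun x hx y hy => ?_) (fun x y hx hy => ?_)
  · rw [map_mul]
    exact Y.Q_mulr (P_pow Y.B Y.BP n x hx) (Y.QP hD N y hy) _ (by push_cast; ring)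
  · rw [map_add]
    exact AddSubgroup.add_mem _ hx hy

/-- The residue characteristic. -/
lemma CY.Qp (hD : DZ χ b Q 𝔔) (N : NQ Y.h 𝔔) : (p : K) ∈ Y.QF 𝔔 ((p - 1) * l : ℕ) := by
  have h1 : 1 ≤ (p - 1) * l := Nat.mul_pos (by have := Y.h.pp.two_le; omega) Y.h.l1
  obtain ⟨n, hn⟩ : ∃ n, (p - 1) * l = n + 1 := ⟨_, (Nat.sub_add_cancel h1).symm⟩
  have h2 := Y.h.pl
  rw [hn] at h2 ⊢
  have h3 := Y.QPn hD N n _ h2
  rwa [map_natCast] at h3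

/-- The relation. -/
lemma CY.Qrel (N : NQ Y.h 𝔔) {k : ℕ} (hk : k ≤ p - 1) {u : K} (hu : u ∈ WW χ σ p s Δ k) :
    (u / χ v) * (dK σ (χ v) / χ v) - dK σ u / χ v ∈ Y.QF 𝔔 ((k + 1) * l : ℕ) := by
  have h1 := Y.Q_of (N.n3 k hk u hu)
  have hv0 := chi_ne Y.h.χ0 Y.h.χa v
  have h2 : (u / χ v) * (dK σ (χ v) / χ v) - dK σ u / χ v =
      (u * σ (χ v) - χ v * σ u) / χ v ^ 2 := by
    rw [dK_apply, dK_apply]
    field_simp
    ring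
  rw [h2]
  exact h1

/-- The vertex. -/
lemma CY.Qγ (hD : DZ χ b Q 𝔔) (N : NQ Y.h 𝔔) : dK σ (χ v) / χ v ∈ Y.QF 𝔔 l := by
  have hp2 := Y.h.pp.two_le
  have hv0 := chi_ne Y.h.χ0 Y.h.χa v
  obtain ⟨γ, hγ⟩ : ∃ γ, γ = dK σ (χ v) / χ v := ⟨_, rfl⟩
  have hγB : γ ∈ Y.B.F l := by
    have h1 := Y.BW 1 (by omega) (dK σ (χ v)) (by
      have := WW_pow Y.h.sp Y.h.σχ Y.hΔ Y.hc.vm 1
      rwa [pow_one] at this)
    rw [one_mul] at h1
    rw [hγ]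
    exact h1
  have hch : ∀ n : ℕ, n ≤ p → (dK σ ^ n) (χ v) / χ v - γ ^ n ∈ Y.QF 𝔔 (n * l : ℕ) := by
    intro n
    induction n with
    | zero =>
      intro _
      rw [pow_zero, Module.End.one_apply, pow_zero, div_self hv0, sub_self]
      exact AddSubgroup.zero_mem _
    | succ n ih =>
      intro hn
      have h1 := Y.Qrel N (k := n) (by omega) (WW_pow Y.h.sp Y.h.σχ Y.hΔ Y.hc.vm n)
      have h2 := Y.Q_mulr hγB (ih (by omega)) (((n + 1) * l : ℕ) : ℤ) (by push_cast; ring)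
      rw [← hγ] at h1
      have h3 := AddSubgroup.sub_mem _ h2 h1
      have h4 : γ * ((dK σ ^ n) (χ v) / χ v - γ ^ n) -
          ((dK σ ^ n) (χ v) / χ v * γ - dK σ ((dK σ ^ n) (χ v)) / χ v) =
          (dK σ ^ (n + 1)) (χ v) / χ v - γ ^ (n + 1) := by
        rw [pow_succ' (dK σ), Module.End.mul_apply, pow_succ' γ]
        ring
      rwa [h4] at h3
  have h1 := hch p le_rfl
  have h2 : (dK σ ^ p) (χ v) / χ v ∈ Y.QF 𝔔 (p * l : ℕ) := by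
    rw [Y.top, neg_div, Finset.sum_div]
    refine AddSubgroup.neg_mem _ (AddSubgroup.sum_mem _ fun a ha => ?_)
    rw [Finset.mem_Icc] at ha
    obtain ⟨c, hc⟩ := Y.h.pp.dvd_choose_self (k := a) (by omega) (by omega)
    rw [hc]
    have h3 : (dK σ ^ a) (χ v) / χ v ∈ Y.B.F l := by
      refine Y.B.mono ?_ (Y.BW a ha.2 _ (WW_pow Y.h.sp Y.h.σχ Y.hΔ Y.hc.vm a))
      have : (1 : ℤ) ≤ a := by exact_mod_cast ha.1
      push_cast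
      nlinarith [Int.natCast_nonneg l]
    have h4 : ((p * c : ℕ) : K) * (dK σ ^ a) (χ v) / χ v =
        ((c : K) * ((dK σ ^ a) (χ v) / χ v)) * (p : K) := by push_cast; ring
    rw [h4]
    refine Y.Q_mulr (Y.B.mul0 (Y.B.natCast c) h3) (Y.Qp hD N) _ ?_
    have h5 : p * l = l + (p - 1) * l := by
      obtain ⟨q, hq⟩ : ∃ q, p = q + 1 := ⟨p - 1, by omega⟩
      rw [hq, Nat.add_sub_cancel]
      ring
    rw [h5]
    push_cast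
    ring
  have h3 := AddSubgroup.sub_mem _ h2 h1
  rw [sub_sub_cancel] at h3
  rw [← hγ]
  obtain ⟨q, hq⟩ : ∃ q, p = q + 1 := ⟨p - 1, by omega⟩
  refine Y.Q_pow hD hγB q ?_
  rw [← hq]
  exact_mod_cast h3

/-- The space of linear forms. -/
lemma CY.QW (hD : DZ χ b Q 𝔔) (N : NQ Y.h 𝔔) {k : ℕ} (hk : k ≤ p - 1) {u : K}
    (hu : u ∈ WW χ σ p s Δ k) : dK σ u / χ v ∈ Y.QF 𝔔 ((k + 1) * l : ℕ) := by
  have h1 := Y.Qrel N hk hu
  have h2 := Y.Q_mulr (Y.BW k hk u hu) (Y.Qγ hD N) (((k + 1) * l : ℕ) : ℤ) (by push_cast; ring)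
  have h3 := AddSubgroup.sub_mem _ h2 h1
  rwa [sub_sub_cancel] at h3

lemma CY.Qv (hD : DZ χ b Q 𝔔) (N : NQ Y.h 𝔔) : χ (v - s v) - 1 ∈ Y.QF 𝔔 l := by
  have hv0 := chi_ne Y.h.χ0 Y.h.χa v
  have hsv0 := chi_ne Y.h.χ0 Y.h.χa (s v)
  have hA : v - s v ∈ LA b Q := by
    have := (LA b Q).neg_mem (sv_LA Y.h.sp Y.hc Y.hΔ Y.hT)
    rwa [neg_sub] at this
  have h1 : χ (v - s v) - 1 = -(χ (v - s v) * (dK σ (χ v) / χ v)) := by
    rw [chi_sub Y.h.χ0 Y.h.χa, dK_apply, Y.h.σχ]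
    field_simp
    ring
  rw [h1]
  exact AddSubgroup.neg_mem _ (Y.Q_mul0 (chi_LA _ Y.h.χ0 Y.h.χa hA) (Y.Qγ hD N))

/-- The quotient of a linear form by the vertex. -/
lemma CY.Qdiv (hD : DZ χ b Q 𝔔) (N : NQ Y.h 𝔔) {k : ℕ} (hk : k ≤ p - 1) {u : K}
    (hu : u ∈ WW χ σ p s Δ k) : σ (u / χ v) - u / χ v ∈ Y.QF 𝔔 ((k + 1) * l : ℕ) := by
  have h5 : σ (u / χ v) - u / χ v = χ (v - s v) * (dK σ u / χ v) +
      (u / χ v) * (χ (v - s v) - 1) := by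
    have h6 := chi_ne Y.h.χ0 Y.h.χa v
    have h7 := chi_ne Y.h.χ0 Y.h.χa (s v)
    rw [map_div₀, Y.h.σχ, chi_sub Y.h.χ0 Y.h.χa, dK_apply]
    field_simp
    ring
  have hA : v - s v ∈ LA b Q := by
    have := (LA b Q).neg_mem (sv_LA Y.h.sp Y.hc Y.hΔ Y.hT)
    rwa [neg_sub] at this
  rw [h5]
  exact AddSubgroup.add_mem _ (Y.Q_mul0 (chi_LA _ Y.h.χ0 Y.h.χa hA) (Y.QW hD N hk hu))
    (Y.Q_mulr (Y.BW k hk u hu) (Y.Qv hD N) _ (by push_cast; ring))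

/-- The shifted ideal. -/
noncomputable def CY.QE (Y : CY χ b Q p σ t s 𝔓 l Δ v) (𝔔 : Ideal (GR χ σ p s 𝔓 l Δ v)) :
    Y.B.EM where
  E n := Y.QF 𝔔 (n + l)
  mul' := fun m n a c ha hc => Y.Q_mulr ha hc _ (by ring)
  anti' := fun n a ha => Y.Q_low ha (by omega)
  le' := fun n a ha => Y.B.mono (by omega) (Y.Q_le ha)
  le0' := fun a ha => Y.B.mono (by have := Y.h.l1; omega) (Y.Q_le ha)

/-- The operator `σ - 1` on the local ring. -/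
lemma CY.QC (hD : DZ χ b Q 𝔔) (N : NQ Y.h 𝔔) (c : MvPolynomial ι O) :
    σ (ev O χ b c) - ev O χ b c ∈ Y.QF 𝔔 l := by
  have hX : ∀ i, σ (χ (b i)) - χ (b i) ∈ Y.QF 𝔔 l := by
    intro i
    have h1 := Y.Qdiv hD N (k := 0) (Nat.zero_le _)
      (Submodule.subset_span ⟨v + b i, Y.hc.nb i, rfl⟩)
    rw [zero_add, one_mul] at h1
    have h2 : χ (b i) = χ (v + b i) / χ v := by
      have := chi_ne Y.h.χ0 Y.h.χa v
      rw [Y.h.χa]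
      field_simp
    rw [h2]
    exact h1
  induction c using MvPolynomial.induction_on with
  | C a =>
    rw [ev_C, Y.h.σO, ← map_sub]
    refine Y.Q_low (Y.QPn hD N l _ (Y.h.dv a)) ?_
    push_cast
    omega
  | add f g hf hg =>
    rw [map_add, map_add, add_sub_add_comm]
    exact AddSubgroup.add_mem _ hf hg
  | mul_X f i hf =>
    rw [map_mul, map_mul, ev_X]
    have e4 : σ (ev O χ b f) * σ (χ (b i)) - ev O χ b f * χ (b i) =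
        (χ (b i) + (σ (χ (b i)) - χ (b i))) * (σ (ev O χ b f) - ev O χ b f) +
          ev O χ b f * (σ (χ (b i)) - χ (b i)) := by ring
    rw [e4]
    have h4 := Y.B.base' (X i)
    rw [ev_X] at h4
    exact AddSubgroup.add_mem _ (Y.Q_mul0 ((Y.B.F 0).add_mem h4
      (Y.B.mono (by positivity) (Y.Q_le (hX i)))) hf) (Y.Q_mul0 (Y.B.base' f) (hX i))

/-- **The operator `σ - 1` on the graded algebra.** -/
lemma CY.Qst (hD : DZ χ b Q 𝔔) (N : NQ Y.h 𝔔) {n : ℤ} {f : K} (hf : f ∈ Y.B.F n) :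
    σ f - f ∈ Y.QF 𝔔 (n + l) := by
  have h1 : f ∈ (LF.del (Y.QE 𝔔) σ (fun c => by
      change _ ∈ Y.QF 𝔔 (0 + l)
      rw [zero_add]
      exact Y.QC hD N c) Y.Bctr Y.inj hQ).F n := by
    refine Y.Ble _ (fun e he => ?_) (fun k hk u hu => ?_) hf
    · rw [LF.mem_del]
      refine ⟨Y.BP e he, ?_⟩
      change _ ∈ Y.QF 𝔔 (1 + l)
      rw [Y.h.σO, ← map_sub]
      refine Y.Q_low (Y.QPn hD N l _ (Y.h.dv e)) ?_
      push_cast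
      omega
    · rw [LF.mem_del]
      refine ⟨Y.BW k hk u hu, ?_⟩
      change _ ∈ Y.QF 𝔔 ((k * l : ℕ) + l)
      have h2 := Y.Qdiv hD N hk hu
      have h3 : ((k * l : ℕ) : ℤ) + l = ((k + 1) * l : ℕ) := by push_cast; ring
      rw [h3]
      exact h2
  exact h1.2

end

end Pool.Agent.T9h3
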