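import Pool.Agent.T9h3.Ndb

/-!
# Characters of a torus with an automorphism of prime order: the leading form has no zeros
-/

set_option autoImplicit false
set_option linter.unusedSectionVars false

namespace Pool.Agent.T9h3

open MvPolynomial IsLocalRing Algebra Pool.Agent.Y223.G
open Pool.Agent.Y86.G5 (im mem_im im_sub im_mul im_prime im_one im_pow)
open Pool.Agent.Y614.WC (exists_unif not_mem_sq FI_zero FI_anti FI_mul FI_gen coeff_filt)

variable {O K Λ ι : Type} [CommRing O] [IsDomain O] [IsDedekindDomain O] [Field K]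
  [Algebra O K] [AddCommGroup Λ] [Fintype ι] {χ : Λ → K} {b : Module.Basis ι ℤ Λ}
  {p : ℕ} {σ : K →+* K} {t : O →+* O}
  {s : Module.End ℤ Λ} {𝔓 : Ideal O} {l : ℕ} {Δ : Set Λ} {v : Λ}
  {Q : Ideal (MvPolynomial ι O)} [hQ : Q.IsPrime] {𝔔 : Ideal (GR χ σ p s 𝔓 l Δ v)}
  (Y : CY χ b Q p σ t s 𝔓 l Δ v)

/-- The operator `s - 1` on the characters of norm zero. -/
lemma CY.Qs (hD : DZ χ b Q 𝔔) (N : NQ Y.h 𝔔) {x : Λ} (hx : x ∈ L0 p s b Q) {n : ℤ}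
    (h1 : χ x - 1 ∈ Y.B.F n) : χ ((s - 1) x) - 1 ∈ Y.QF 𝔔 (n + l) := by
  have h3 : χ ((s - 1) x) - 1 = χ (-x) * (σ (χ x - 1) - (χ x - 1)) := by
    rw [LinearMap.sub_apply, Module.End.one_apply, map_sub, map_one, Y.h.σχ,
      chi_sub Y.h.χ0 Y.h.χa, chi_neg Y.h.χ0 Y.h.χa]
    have h6 := chi_ne Y.h.χ0 Y.h.χa x
    field_simp
    ring
  rw [h3]
  exact Y.Q_mul0 (chi_LA _ Y.h.χ0 Y.h.χa ((LA b Q).neg_mem hx.1)) (Y.Qst hD N h1)

lemma CY.Qadd {x y : Λ} {n : ℤ} (hy : y ∈ LA b Q) (h1 : χ x - 1 ∈ Y.QF 𝔔 n)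
    (h2 : χ y - 1 ∈ Y.QF 𝔔 n) : χ (x + y) - 1 ∈ Y.QF 𝔔 n := by
  have h3 : χ (x + y) - 1 = χ y * (χ x - 1) + (χ y - 1) := by rw [Y.h.χa]; ring
  rw [h3]
  exact AddSubgroup.add_mem _ (Y.Q_mul0 (chi_LA _ Y.h.χ0 Y.h.χa hy) h1) h2

lemma CY.Qneg {x : Λ} {n : ℤ} (hx : x ∈ LA b Q) (h1 : χ x - 1 ∈ Y.QF 𝔔 n) :
    χ (-x) - 1 ∈ Y.QF 𝔔 n := by
  have h3 : χ (-x) - 1 = -(χ (-x) * (χ x - 1)) := by
    have h2 : χ (-x) * χ x = 1 := by rw [← Y.h.χa, neg_add_cancel, Y.h.χ0]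
    rw [mul_sub, h2]; ring
  rw [h3]
  exact AddSubgroup.neg_mem _ (Y.Q_mul0 (chi_LA _ Y.h.χ0 Y.h.χa ((LA b Q).neg_mem hx)) h1)

/-- The characters of norm zero. -/
lemma CY.QL0 (hD : DZ χ b Q 𝔔) (N : NQ Y.h 𝔔) {y : Λ} (hy : y ∈ L0 p s b Q) :
    χ y - 1 ∈ Y.QF 𝔔 l := by
  have hp2 := Y.h.pp.two_le
  obtain ⟨G, hG, hG'⟩ := s1_top Y.h.pp Y.h.sp Y.hc Y.hΔ Y.hT
  have hGy := hG y hy
  have hGy1 := s1_L0 Y.h.sp Y.hc Y.hΔ Y.hT hGy
  obtain ⟨y', hy'⟩ : ∃ y', y' = y + (s - 1) (G y) := ⟨_, rfl⟩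
  have hy'0 : y' ∈ L0 p s b Q := by
    rw [hy']
    exact (L0 p s b Q).add_mem hy hGy1
  obtain ⟨V, hV⟩ : ∃ V, V = χ y' - 1 := ⟨_, rfl⟩
  have hVB : V ∈ Y.B.F l := by rw [hV]; exact (Y.BL0 hy'0).2
  -- the top power
  have htop : χ ((p : ℤ) • y') - 1 ∈ Y.QF 𝔔 (p * l : ℕ) := by
    have h1 := (Y.Bs hy (p - 2) (by omega)).2
    have h2 := Y.Qs hD N (s1_pow_L0 Y.h.sp Y.hc Y.hΔ Y.hT (p - 2) hy) h1
    rw [← Module.End.mul_apply, ← pow_succ'] at h2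
    have h3 : p - 2 + 1 = p - 1 := by omega
    rw [h3, hG' y hy, ← hy'] at h2
    have h4 : -((p : ℤ) • y') ∈ LA b Q := (LA b Q).neg_mem ((LA b Q).smul_mem _ hy'0.1)
    have h5 := Y.Qneg h4 h2
    rw [neg_neg] at h5
    refine Y.Q_low h5 ?_
    have h6 : p * l = (p - 1) * l + l := by
      obtain ⟨q, hq⟩ : ∃ q, p = q + 1 := ⟨p - 1, by omega⟩
      rw [hq, Nat.add_sub_cancel]
      ring
    rw [h6]
    push_cast
    exact le_rfl
  have hexp : χ ((p : ℤ) • y') = (1 + V) ^ p := by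
    rw [chi_zsmul Y.h.χ0 Y.h.χa, zpow_natCast, hV]
    congr 1
    ring
  have hsum : (1 + V) ^ p - 1 - V ^ p = ∑ m ∈ Finset.Icc 1 (p - 1), V ^ m * (p.choose m : K) := by
    rw [add_comm, add_pow]
    have h2 : Finset.range (p + 1) = insert 0 (insert p (Finset.Icc 1 (p - 1))) := by
      ext m
      simp only [Finset.mem_range, Finset.mem_insert, Finset.mem_Icc]
      omega
    rw [h2, Finset.sum_insert, Finset.sum_insert]
    · simp
    · rw [Finset.mem_Icc]; omega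
    · rw [Finset.mem_insert, Finset.mem_Icc]; omega
  have hmid : (1 + V) ^ p - 1 - V ^ p ∈ Y.QF 𝔔 (p * l : ℕ) := by
    rw [hsum]
    refine AddSubgroup.sum_mem _ fun m hm => ?_
    rw [Finset.mem_Icc] at hm
    obtain ⟨c, hc⟩ := Y.h.pp.dvd_choose_self (k := m) (by omega) (by omega)
    have h3 : V ^ m ∈ Y.B.F l := by
      refine Y.B.mono ?_ (Y.B.pow hVB m)
      have : (1 : ℤ) ≤ m := by exact_mod_cast hm.1
      nlinarith [Int.natCast_nonneg l]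
    have h4 : V ^ m * (p.choose m : K) = (V ^ m * c) * (p : K) := by
      rw [hc]
      push_cast
      ring
    rw [h4]
    refine Y.Q_mulr (Y.B.mul0' h3 (Y.B.natCast c)) (Y.Qp hD N) _ ?_
    have h5 : p * l = l + (p - 1) * l := by
      obtain ⟨q, hq⟩ : ∃ q, p = q + 1 := ⟨p - 1, by omega⟩
      rw [hq, Nat.add_sub_cancel]
      ring
    rw [h5]
    push_cast
    ring
  have hVp : V ^ p ∈ Y.QF 𝔔 (p * l : ℕ) := by
    rw [hexp] at htop
    have h1 := AddSubgroup.sub_mem _ htop hmid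
    rwa [sub_sub_cancel] at h1
  have hVQ : V ∈ Y.QF 𝔔 l := by
    obtain ⟨q, hq⟩ : ∃ q, p = q + 1 := ⟨p - 1, by omega⟩
    refine Y.Q_pow hD hVB q ?_
    rw [← hq]
    exact_mod_cast hVp
  have hG2 : χ ((s - 1) (G y)) - 1 ∈ Y.QF 𝔔 l := by
    refine Y.Q_low (Y.Qs hD N hGy (Y.BL0 hGy).2) ?_
    omega
  have h1 : y = y' + -((s - 1) (G y)) := by rw [hy']; abel
  rw [h1]
  rw [hV] at hVQ
  exact Y.Qadd ((LA b Q).neg_mem hGy1.1) hVQ (Y.Qneg hGy1.1 hG2)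

/-- The powers of `s - 1`. -/
lemma CY.QLs (hD : DZ χ b Q 𝔔) (N : NQ Y.h 𝔔) {y : Λ} (hy : y ∈ L0 p s b Q) (k : ℕ)
    (hk : k + 1 ≤ p - 1) : χ (((s - 1) ^ k) y) - 1 ∈ Y.QF 𝔔 ((k + 1) * l : ℕ) := by
  rcases k with _ | k
  · rw [pow_zero, Module.End.one_apply, zero_add, one_mul]
    exact Y.QL0 hD N hy
  · have h1 := (Y.Bs hy k (by omega)).2
    have h2 := Y.Qs hD N (s1_pow_L0 Y.h.sp Y.hc Y.hΔ Y.hT k hy) h1
    rw [← Module.End.mul_apply, ← pow_succ'] at h2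
    refine Y.Q_low h2 ?_
    push_cast
    linarith

section fx

variable {J : Type} [Fintype J] {ϖ r : IC Q → IC Q} {k : J → ℕ} {μ : J → Λ} {π : O}

/-- The parameters. -/
lemma CY.Qpx (hD : DZ χ b Q 𝔔) (N : NQ Y.h 𝔔) (D : PD p t s 𝔓 l b Q ϖ r k μ π)
    (i : PI ϖ r J p) :
    ev O χ b (px s v b ϖ r μ π p i) ∈ Y.QF 𝔔 (pa ϖ r k l p i) := by
  rcases i with _ | (j | ⟨c, n⟩)
  · rw [ev_px_none]
    exact Y.QP hD N π D.πP
  · have h2 : ev O χ b (px s v b ϖ r μ π p (some (Sum.inl j))) =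
        ev O χ b (mon O b (-μ j)) * (χ (μ j) - 1) := by
      unfold px
      rw [map_sub, ev_mon' Y.h.χ0 Y.h.χa]
    rw [h2]
    refine Y.Q_mul0 (Y.B.base' _) ?_
    obtain ⟨h5, h6, y, hy, h7⟩ := D.k1 j
    rw [h7]
    have h8 := Y.QLs hD N hy (k j - 1) (by omega)
    have h9 : k j - 1 + 1 = k j := by omega
    rw [h9] at h8
    exact h8
  · rw [D.ev_px_inr Y]
    have hn := n.2
    have h1 := Y.QW hD N (k := (n : ℕ)) (by omega)
      (WW_pow Y.h.sp Y.h.σχ Y.hΔ (Y.hc.nb c.1) (n : ℕ))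
    rw [pow_succ', Module.End.mul_apply]
    exact h1

/-- The weighted filtration. -/
lemma CY.QF_of (hD : DZ χ b Q 𝔔) (N : NQ Y.h 𝔔) (D : PD p t s 𝔓 l b Q ϖ r k μ π) {n : ℤ}
    (hn : 0 < n) {f : K} (hf : f ∈ (Fx χ b Q p s l v ϖ r k μ π).F n) : f ∈ Y.QF 𝔔 n := by
  classical
  obtain ⟨e, he, g, hg, h⟩ := hf
  have he0 : ev O χ b e ≠ 0 := by
    intro h0
    have : e = 0 := Y.inj (b := b) (by rw [h0, map_zero])
    exact he (this ▸ Q.zero_mem)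
  have key : ∀ g ∈ FI (px s v b ϖ r μ π p) (pa ϖ r k l p) n.toNat,
      ev O χ b g ∈ Y.QF 𝔔 n := by
    intro g hg
    unfold FI at hg
    induction hg using Submodule.span_induction with
    | mem y hy =>
      obtain ⟨m, hm, rfl⟩ := hy
      obtain ⟨i, -, hi⟩ : ∃ i ∈ Finset.univ, pa ϖ r k l p i * m i ≠ 0 := by
        by_contra hc
        push Not at hc
        rw [Finset.sum_eq_zero hc] at hm
        omega
      have hmi : m i ≠ 0 := right_ne_zero_of_mul hi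
      obtain ⟨m', hm'⟩ : ∃ m' : PI ϖ r J p → ℕ, m' = Function.update m i (m i - 1) := ⟨_, rfl⟩
      have h1 : ∏ j, px s v b ϖ r μ π p j ^ m j =
          (∏ j, px s v b ϖ r μ π p j ^ m' j) * px s v b ϖ r μ π p i := by
        rw [← Finset.mul_prod_erase _ _ (Finset.mem_univ i),
          ← Finset.mul_prod_erase (a := i) _ (fun j => px s v b ϖ r μ π p j ^ m' j)
            (Finset.mem_univ i)]
        have h2 : m' i = m i - 1 := by rw [hm', Function.update_self]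
        have h3 : ∀ j ∈ Finset.univ.erase i, px s v b ϖ r μ π p j ^ m' j =
            px s v b ϖ r μ π p j ^ m j := by
          intro j hj
          rw [hm', Function.update_of_ne (Finset.ne_of_mem_erase hj)]
        rw [Finset.prod_congr rfl h3, h2]
        have h4 : m i = m i - 1 + 1 := by omega
        conv_lhs => rw [h4, pow_succ]
        ring
      have h5 : ∑ j, pa ϖ r k l p j * m j = ∑ j, pa ϖ r k l p j * m' j + pa ϖ r k l p i := by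
        rw [← Finset.add_sum_erase _ _ (Finset.mem_univ i),
          ← Finset.add_sum_erase (a := i) _ (fun j => pa ϖ r k l p j * m' j)
            (Finset.mem_univ i)]
        have h2 : m' i = m i - 1 := by rw [hm', Function.update_self]
        have h3 : ∀ j ∈ Finset.univ.erase i, pa ϖ r k l p j * m' j = pa ϖ r k l p j * m j := by
          intro j hj
          rw [hm', Function.update_of_ne (Finset.ne_of_mem_erase hj)]
        rw [Finset.sum_congr rfl h3, h2]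
        have h4 : m i = m i - 1 + 1 := by omega
        conv_lhs => rw [h4, mul_add]
        ring
      have h6 : ev O χ b (∏ j, px s v b ϖ r μ π p j ^ m' j) ∈
          Y.B.F ((∑ j, pa ϖ r k l p j * m' j : ℕ) : ℤ) := by
        refine D.FleB Y ⟨1, fun h => hQ.ne_top ((Ideal.eq_top_iff_one _).2 h),
          ∏ j, px s v b ϖ r μ π p j ^ m' j, ?_, by rw [map_one, one_mul]⟩
        rw [Int.toNat_natCast]
        exact Ideal.subset_span ⟨m', le_rfl, rfl⟩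
      rw [h1, map_mul]
      refine Y.Q_low (Y.Q_mul h6 (Y.Qpx hD N D i)) ?_
      rw [h5] at hm
      push_cast
      have h7 : (n.toNat : ℤ) = n := Int.toNat_of_nonneg hn.le
      have h8 : (n.toNat : ℤ) ≤ ((∑ j, pa ϖ r k l p j * m' j + pa ϖ r k l p i : ℕ) : ℤ) := by
        exact_mod_cast hm
      push_cast at h8
      linarith
    | zero => rw [map_zero]; exact AddSubgroup.zero_mem _
    | add y z _ _ hy hz => rw [map_add]; exact AddSubgroup.add_mem _ hy hz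
    | smul c y _ hy =>
      rw [smul_eq_mul, map_mul]
      exact Y.Q_mul0 (Y.B.base' c) hy
  have h2 : f = (ev O χ b e)⁻¹ * ev O χ b g := by
    rw [← h, inv_mul_cancel_left₀ he0]
  rw [h2]
  exact Y.Q_mul0 (Y.B.inv' e he) (key g hg)

end fx

/-- **The leading form has no zeros.** -/
theorem nd_vertex {h : TD O K Λ p σ t s χ 𝔓 l} (hc : CD Δ v b) (hΔ : ∀ m ∈ Δ, s m ∈ Δ)
    (hR : RD p s Δ v b) {𝔔 : Ideal (GR χ σ p s 𝔓 l Δ v)} (N : NQ h 𝔔) {n : ℤ} (hn : 0 < n)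
    {x : K} (hx : hm n x ∈ GR χ σ p s 𝔓 l Δ v) : hm n x ∈ im (GR χ σ p s 𝔓 l Δ v) 𝔔 := by
  have hq := N.qp hc
  have Y : CY χ b (qd h hc 𝔔) p σ t s 𝔓 l Δ v := ⟨h, hc, hΔ, N.ct hc hΔ, hR⟩
  have hD : DZ χ b (qd h hc 𝔔) 𝔔 := ⟨N.pr, fun c => mem_qd⟩
  obtain ⟨π, hπ, hπn⟩ := Y.h.un
  obtain ⟨ϖ, r, J, hJ, k, μ, D⟩ := exists_PD Y.h.pp Y.h.sp Y.hc Y.hΔ Y.hT hπ hπn
  obtain ⟨e, he, h1⟩ := Y.QF_of hD N D hn (D.BleF Y (BB_of hx))
  have h2 : (hm n (ev O χ b e * x) : LP K) = hm 0 (ev O χ b e) * hm n x := by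
    rw [hm_mul, zero_add]
  rw [h2] at h1
  rcases im_prime N.pr (GR_C h.χ0 h.χa hc e) hx h1 with h3 | h3
  · exact absurd (mem_qd.2 h3) he
  · exact h3

end Pool.Agent.T9h3
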