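import Pool.Agent.T9h3.Rich

/-!
# Total orders on lattices
-/

set_option autoImplicit false
set_option linter.unusedSectionVars false

namespace Pool.Agent.T9h3

/-- The submonoid of the nonnegative elements of a total order. -/
structure IsTO {Λ : Type} [AddCommGroup Λ] (S : AddSubmonoid Λ) : Prop where
  tot : ∀ x, x ∈ S ∨ -x ∈ S
  anti : ∀ x, x ∈ S → -x ∈ S → x = 0

variable {Λ : Type} [AddCommGroup Λ]

lemma exists_TO (htf : ∀ (n : ℕ) (x : Λ), n • x = 0 → n = 0 ∨ x = 0) (P : AddSubmonoid Λ)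
    (hP : ∀ x ∈ P, -x ∈ P → x = 0) : ∃ S : AddSubmonoid Λ, P ≤ S ∧ IsTO S := by
  obtain ⟨S, hPS, hS⟩ := zorn_le_nonempty₀ {P' : AddSubmonoid Λ | ∀ x ∈ P', -x ∈ P' → x = 0}
    (by
      intro c hc hch y hy
      refine ⟨sSup c, ?_, fun z hz => le_sSup hz⟩
      intro x hx hx'
      rw [AddSubmonoid.mem_sSup_of_directedOn ⟨y, hy⟩ hch.directedOn] at hx hx'
      obtain ⟨s, hs, hxs⟩ := hx
      obtain ⟨s', hs', hxs'⟩ := hx'
      rcases hch.total hs hs' with h | h
      · exact hc hs' x (h hxs) hxs'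
      · exact hc hs x hxs (h hxs')) P hP
  refine ⟨S, hPS, ?_⟩
  have hS0 : ∀ x ∈ S, -x ∈ S → x = 0 := hS.1
  have hsat : ∀ (n : ℕ) (x : Λ), 0 < n → n • x ∈ S → x ∈ S := by
    intro n x hn hx
    let S' : AddSubmonoid Λ :=
      { carrier := {x | ∃ n : ℕ, 0 < n ∧ n • x ∈ S}
        add_mem' := by
          rintro x y ⟨n, hn, hx⟩ ⟨m, hm, hy⟩
          refine ⟨n * m, Nat.mul_pos hn hm, ?_⟩
          rw [smul_add]
          refine S.add_mem ?_ ?_
          · rw [mul_comm, mul_smul]
            exact S.nsmul_mem hx m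
          · rw [mul_smul]
            exact S.nsmul_mem hy n
        zero_mem' := ⟨1, one_pos, by rw [smul_zero]; exact S.zero_mem⟩ }
    have h1 : S' ∈ {P' : AddSubmonoid Λ | ∀ x ∈ P', -x ∈ P' → x = 0} := by
      rintro x ⟨n, hn, hx⟩ ⟨m, hm, hx'⟩
      have h2 : (m * n) • x ∈ S := by
        rw [mul_smul]
        exact S.nsmul_mem hx m
      have h3 : -((m * n) • x) ∈ S := by
        rw [← smul_neg, mul_comm, mul_smul]
        exact S.nsmul_mem hx' n
      rcases htf _ _ (hS0 _ h2 h3) with h | h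
      · exact absurd h (Nat.mul_pos hm hn).ne'
      · exact h
    have h2 : S ≤ S' := fun y hy => ⟨1, one_pos, by rwa [one_smul]⟩
    exact hS.2 h1 h2 ⟨n, hn, hx⟩
  refine ⟨fun y => ?_, hS0⟩
  by_contra hcon
  push Not at hcon
  obtain ⟨hy, hy'⟩ := hcon
  let S' : AddSubmonoid Λ :=
    { carrier := {x | ∃ p ∈ S, ∃ n : ℕ, x = p + n • y}
      add_mem' := by
        rintro _ _ ⟨p, hp, n, rfl⟩ ⟨p', hp', n', rfl⟩
        refine ⟨p + p', S.add_mem hp hp', n + n', ?_⟩
        rw [add_smul]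
        abel
      zero_mem' := ⟨0, S.zero_mem, 0, by rw [zero_smul, add_zero]⟩ }
  have h1 : S' ∈ {P' : AddSubmonoid Λ | ∀ x ∈ P', -x ∈ P' → x = 0} := by
    rintro z ⟨p, hp, n, hz⟩ ⟨p', hp', n', hz'⟩
    have h2 : (n + n') • (-y) = p + p' := by
      have h3 : z + -z = (p + n • y) + (p' + n' • y) := by rw [← hz, ← hz']
      rw [add_neg_cancel] at h3
      rw [smul_neg, add_smul, neg_eq_iff_add_eq_zero]
      rw [h3]
      abel
    rcases Nat.eq_zero_or_pos (n + n') with h4 | h4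
    · have h5 : n = 0 := by omega
      have h6 : n' = 0 := by omega
      rw [h5, zero_smul, add_zero] at hz
      rw [h6, zero_smul, add_zero] at hz'
      exact hS0 z (hz ▸ hp) (hz' ▸ hp')
    · exact absurd (hsat _ _ h4 (h2 ▸ S.add_mem hp hp')) hy'
  have h2 : S ≤ S' := fun x hx => ⟨x, hx, 0, by rw [zero_smul, add_zero]⟩
  exact hy (hS.2 h1 h2 ⟨0, S.zero_mem, 1, by rw [one_smul, zero_add]⟩)

/-- The condition on the vertices, for all total orders. -/
def NI (ι : Type) [Fintype ι] (Δ : Set Λ) : Prop :=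
  ∀ S : AddSubmonoid Λ, IsTO S → ∃ (v : Λ) (b : Module.Basis ι ℤ Λ), CD Δ v b ∧ ∀ i, b i ∈ S

lemma CD.mem {ι : Type} [Fintype ι] {Δ : Set Λ} {v : Λ} {b : Module.Basis ι ℤ Λ}
    (h : CD Δ v b) {S : AddSubmonoid Λ} (hb : ∀ i, b i ∈ S) {m : Λ} (hm : m ∈ Δ) :
    m - v ∈ S := by
  rw [← b.sum_repr (m - v)]
  refine S.sum_mem fun i _ => ?_
  have h1 := h.nn m hm i
  obtain ⟨n, hn⟩ := Int.eq_ofNat_of_zero_le h1
  rw [hn, natCast_zsmul]
  exact S.nsmul_mem (hb i) n

lemma CD.uniq {ι ι' : Type} [Fintype ι] [Fintype ι'] {Δ : Set Λ} {v v' : Λ}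
    {b : Module.Basis ι ℤ Λ} {b' : Module.Basis ι' ℤ Λ}
    (h : CD Δ v b) (h' : CD Δ v' b') {S : AddSubmonoid Λ} (hS : IsTO S) (hb : ∀ i, b i ∈ S)
    (hb' : ∀ i, b' i ∈ S) : v = v' := by
  have h1 := h.mem hb h'.vm
  have h2 := h'.mem hb' h.vm
  rw [← neg_sub] at h1
  exact sub_eq_zero.1 (hS.anti _ h2 h1)

lemma cv0_of (htf : ∀ (n : ℕ) (x : Λ), n • x = 0 → n = 0 ∨ x = 0)
    {Δ : Set Λ} (h : ∀ S : AddSubmonoid Λ, IsTO S → ∃ (ι : Type) (_ : Fintype ι) (v : Λ)
      (b : Module.Basis ι ℤ Λ), CD Δ v b ∧ ∀ i, b i ∈ S) : CV0 Δ := by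
  intro x hx
  by_contra hcon
  push Not at hcon
  let P : AddSubmonoid Λ :=
    { carrier := {z | ∃ T : Multiset Λ, (∀ v ∈ T, SV0 Δ v) ∧ z = T.sum - T.card • x}
      add_mem' := by
        rintro _ _ ⟨T, hT, rfl⟩ ⟨T', hT', rfl⟩
        refine ⟨T + T', fun v hv => ?_, ?_⟩
        · rcases Multiset.mem_add.1 hv with hv | hv
          · exact hT v hv
          · exact hT' v hv
        · rw [Multiset.sum_add, Multiset.card_add, add_smul]
          abel
      zero_mem' := ⟨0, by simp, by simp⟩ }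
  obtain ⟨S, hPS, hS⟩ := exists_TO htf P (by
    rintro z ⟨T, hT, hz⟩ ⟨T', hT', hz'⟩
    have h1 : (T + T').card • x = (T + T').sum := by
      have h3 : z + -z = (T.sum - T.card • x) + (T'.sum - T'.card • x) := by rw [← hz, ← hz']
      rw [add_neg_cancel] at h3
      rw [Multiset.sum_add, Multiset.card_add, add_smul]
      have h4 : T.card • x + T'.card • x + 0 = T.card • x + T'.card • x +
        ((T.sum - T.card • x) + (T'.sum - T'.card • x)) := by rw [← h3]
      rw [add_zero] at h4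
      rw [h4]
      abel
    by_cases h2 : T + T' = 0
    · have h3 : T = 0 := by
        have := congrArg Multiset.card h2
        rw [Multiset.card_add, Multiset.card_zero] at this
        exact Multiset.card_eq_zero.1 (by omega)
      rw [hz, h3]
      simp
    · refine absurd h1 (hcon (T + T') h2 fun v hv => ?_)
      rcases Multiset.mem_add.1 hv with hv | hv
      · exact hT v hv
      · exact hT' v hv)
  obtain ⟨ι, hι, v, b, hv, hb⟩ := h S hS
  have h1 : x - v ∈ S := hv.mem hb hx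
  have h2 : -(x - v) ∈ S := hPS ⟨{v}, by
    intro v' hv'
    rw [Multiset.mem_singleton] at hv'
    rw [hv']
    exact ⟨ι, inferInstance, b, hv⟩, by simp⟩
  have h3 : x = v := sub_eq_zero.1 (hS.anti _ h1 h2)
  refine hcon {v} (by simp) (fun v' hv' => ?_) (by simp [h3])
  rw [Multiset.mem_singleton] at hv'
  rw [hv']
  exact ⟨ι, inferInstance, b, hv⟩

/-- Rays in common. -/
lemma fan {ι : Type} [Fintype ι] {Δ : Set Λ} {v v1 : Λ} {b b1 : Module.Basis ι ℤ Λ}
    (h : CD Δ v b) (h1 : CD Δ v1 b1) {i : ι} (he : b1.coord i v = b1.coord i v1) :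
    ∃ k, b.coord k = b1.coord i := by
  classical
  have hc : ∀ k, 0 ≤ b1.coord i (b k) := by
    intro k
    have h2 := h1.nn _ (h.nb k) i
    have h3 : v + b k - v1 = (v - v1) + b k := by abel
    rw [h3, map_add, Finsupp.add_apply] at h2
    have h4 : b1.repr (v - v1) i = 0 := by
      have : b1.coord i (v - v1) = 0 := by rw [map_sub, he, sub_self]
      exact this
    rw [h4, zero_add] at h2
    exact h2
  -- the elements of the face
  have hF : ∀ x ∈ Δ, b1.coord i x = b1.coord i v → ∀ k, 0 < b1.coord i (b k) →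
      b.coord k (x - v) = 0 := by
    intro x hx hxv
    have h2 : ∑ k, b.coord k (x - v) * b1.coord i (b k) = 0 := by
      have h3 : b1.coord i (x - v) = 0 := by rw [map_sub, hxv, sub_self]
      rw [← b.sum_repr (x - v), map_sum] at h3
      rw [← h3]
      exact Finset.sum_congr rfl fun k _ => by
        rw [map_smul, smul_eq_mul]
        rfl
    have h3 := (Finset.sum_eq_zero_iff_of_nonneg fun k _ =>
      mul_nonneg (h.nn x hx k) (hc k)).1 h2
    intro k hk
    rcases mul_eq_zero.1 (h3 k (Finset.mem_univ k)) with h4 | h4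
    · exact h4
    · exact absurd h4 hk.ne'
  obtain ⟨k, hk⟩ : ∃ k, 0 < b1.coord i (b k) := by
    by_contra hcon
    push Not at hcon
    have h2 : b1.coord i = 0 := by
      refine b.ext fun k => ?_
      rw [LinearMap.zero_apply]
      exact le_antisymm (hcon k) (hc k)
    have h3 := congrArg (fun f : Λ →ₗ[ℤ] ℤ => f (b1 i)) h2
    simp only [LinearMap.zero_apply] at h3
    rw [Module.Basis.coord_apply, Module.Basis.repr_self, Finsupp.single_eq_same] at h3
    exact one_ne_zero h3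
  have h2 : ∀ l, l ≠ i → b.coord k (b1 l) = 0 := by
    intro l hl
    have h3 := hF (v1 + b1 l) (h1.nb l) (by
      rw [map_add, ← he]
      have : b1.coord i (b1 l) = 0 := by
        rw [Module.Basis.coord_apply, Module.Basis.repr_self, Finsupp.single_eq_of_ne' hl]
      rw [this, add_zero]) k hk
    have h4 := hF v1 h1.vm he.symm k hk
    have h5 : b1 l = (v1 + b1 l - v) - (v1 - v) := by abel
    rw [h5, map_sub, h3, h4, sub_zero]
  have h3 : b.coord k = b.coord k (b1 i) • b1.coord i := by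
    refine b1.ext fun l => ?_
    rw [LinearMap.smul_apply, smul_eq_mul]
    by_cases hl : l = i
    · rw [hl]
      have : b1.coord i (b1 i) = 1 := by
        rw [Module.Basis.coord_apply, Module.Basis.repr_self, Finsupp.single_eq_same]
      rw [this, mul_one]
    · rw [h2 l hl]
      have : b1.coord i (b1 l) = 0 := by
        rw [Module.Basis.coord_apply, Module.Basis.repr_self, Finsupp.single_eq_of_ne' hl]
      rw [this, mul_zero]
  have h4 : b.coord k (b1 i) * b1.coord i (b k) = 1 := by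
    have h5 := congrArg (fun f : Λ →ₗ[ℤ] ℤ => f (b k)) h3
    simp only [LinearMap.smul_apply, smul_eq_mul] at h5
    rw [← h5, Module.Basis.coord_apply, Module.Basis.repr_self, Finsupp.single_eq_same]
  have h5 : b.coord k (b1 i) = 1 := by
    rcases Int.eq_one_or_neg_one_of_mul_eq_one h4 with h6 | h6
    · exact h6
    · rw [h6] at h4
      omega
  refine ⟨k, ?_⟩
  rw [h3, h5, one_smul]

end Pool.Agent.T9h3
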