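import Pool.Agent.T9h3.OrdA
import Mathlib.Data.Fin.Tuple.Sort

/-!
# Symmetric subdivisions
-/

set_option autoImplicit false
set_option linter.unusedSectionVars false

namespace Pool.Agent.T9h3

section

variable {Λ : Type} [AddCommGroup Λ]

/-- The set of the roots which are nonnegative. -/
def AS {Y : Type} (e : Y → Λ) (S : AddSubmonoid Λ) : Set (Y × Y) := {p | e p.2 - e p.1 ∈ S}

/-- Monotone functionals. -/
def MonA {Y : Type} (e : Y → Λ) (A : Set (Y × Y)) (w : Λ →ₗ[ℤ] ℤ) : Prop :=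
  ∀ p ∈ A, w (e p.1) ≤ w (e p.2)

open Classical in
/-- The linear order. -/
noncomputable def IsTO.lo {S : AddSubmonoid Λ} (hS : IsTO S) : LinearOrder Λ where
  le x y := y - x ∈ S
  le_refl x := by
    change x - x ∈ S
    rw [sub_self]; exact S.zero_mem
  le_trans x y z h1 h2 := by
    change z - x ∈ S
    have h1' : y - x ∈ S := h1
    have h2' : z - y ∈ S := h2
    have h3 := S.add_mem h1' h2'
    have h4 : y - x + (z - y) = z - x := by abel
    rwa [h4] at h3
  le_antisymm x y h1 h2 := by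
    have h1' : y - x ∈ S := h1
    have h2' : x - y ∈ S := h2
    rw [← neg_sub] at h2'
    exact (sub_eq_zero.1 (hS.anti _ h1' h2')).symm
  le_total x y := by
    change y - x ∈ S ∨ x - y ∈ S
    rcases hS.tot (y - x) with h | h
    · exact Or.inl h
    · rw [neg_sub] at h; exact Or.inr h
  toDecidableLE := fun _ _ => Classical.propDecidable _

/-- An enumeration in increasing order. -/
lemma IsTO.enum {Y : Type} [Fintype Y] {S : AddSubmonoid Λ} (hS : IsTO S) (e : Y → Λ) {N : ℕ}
    (hN : Fintype.card Y = N) : ∃ f : Fin N ≃ Y, ∀ i j, i ≤ j → e (f j) - e (f i) ∈ S := by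
  letI := hS.lo
  let h0 : Fin N ≃ Y := (Fintype.equivFinOfCardEq hN).symm
  refine ⟨(Tuple.sort (e ∘ h0)).trans h0, fun i j hij => ?_⟩
  exact Tuple.monotone_sort (e ∘ h0) hij

/-- A functional which stays monotone is invariant. -/
lemma mono_inv {G Y : Type} [Group G] [DistribMulAction G Λ] [MulAction G Y] [Fintype Y]
    {e : Y → Λ} (he : ∀ (g : G) y, e (g • y) = g • e y)
    (hspan : Submodule.span ℤ (Set.range e) = ⊤) {S : AddSubmonoid Λ} (hS : IsTO S)
    {w w' : Λ →ₗ[ℤ] ℤ} (hw : MonA e (AS e S) w) (g : G) (hww : ∀ x, w' x = w (g • x))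
    (hw' : MonA e (AS e S) w') : w' = w := by
  obtain ⟨f, hf⟩ := hS.enum e rfl
  have h1 : Monotone (fun i => w (e (f i))) := fun i j hij => hw (f i, f j) (hf i j hij)
  have h2 : Monotone (fun i => w' (e (f i))) := fun i j hij => hw' (f i, f j) (hf i j hij)
  let τ : Equiv.Perm (Fin (Fintype.card Y)) := (f.trans (MulAction.toPerm g)).trans f.symm
  have h3 : (fun i => w (e (f i))) ∘ (1 : Equiv.Perm (Fin (Fintype.card Y))) =
      (fun i => w (e (f i))) ∘ τ := by
    refine Tuple.unique_monotone ?_ ?_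
    · exact h1
    · have h4 : (fun i => w (e (f i))) ∘ τ = fun i => w' (e (f i)) := by
        funext i
        change w (e (f (f.symm (g • f i)))) = w' (e (f i))
        rw [f.apply_symm_apply, he, hww]
      rw [h4]
      exact h2
  have h5 : ∀ y, w' (e y) = w (e y) := by
    intro y
    have h6 := congrFun h3 (f.symm y)
    change w (e (f (f.symm y))) = w (e (f (f.symm (g • f (f.symm y))))) at h6
    rw [f.apply_symm_apply, f.apply_symm_apply, he] at h6
    rw [hww, h6]
  refine LinearMap.ext_on_range hspan fun y => ?_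
  exact h5 y

end

section tv

variable {Λ : Type} [AddCommGroup Λ] {ι : Type}

/-- The transvection. -/
noncomputable def tve (b : Module.Basis ι ℤ Λ) {i j : ι} (hij : i ≠ j) : Λ ≃ₗ[ℤ] Λ where
  toFun x := x - b.coord j x • b i
  map_add' x y := by rw [map_add, add_smul]; abel
  map_smul' c x := by rw [map_smul, smul_eq_mul, mul_smul, RingHom.id_apply, smul_sub]
  invFun x := x + b.coord j x • b i
  left_inv x := by
    have h1 : b.coord j (b i) = 0 := by
      rw [Module.Basis.coord_apply, Module.Basis.repr_self, Finsupp.single_eq_of_ne' hij]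
    simp only [map_sub, map_smul, h1, smul_eq_mul, mul_zero, sub_zero]
    abel
  right_inv x := by
    have h1 : b.coord j (b i) = 0 := by
      rw [Module.Basis.coord_apply, Module.Basis.repr_self, Finsupp.single_eq_of_ne' hij]
    simp only [map_add, map_smul, h1, smul_eq_mul, mul_zero, add_zero]
    abel

/-- The new basis. -/
noncomputable def tv (b : Module.Basis ι ℤ Λ) {i j : ι} (hij : i ≠ j) : Module.Basis ι ℤ Λ :=
  b.map (tve b hij)

lemma tv_j (b : Module.Basis ι ℤ Λ) {i j : ι} (hij : i ≠ j) : tv b hij j = b j - b i := by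
  change tve b hij (b j) = _
  change b j - b.coord j (b j) • b i = _
  rw [Module.Basis.coord_apply, Module.Basis.repr_self, Finsupp.single_eq_same, one_smul]

lemma tv_ne (b : Module.Basis ι ℤ Λ) {i j : ι} (hij : i ≠ j) {l : ι} (hl : l ≠ j) :
    tv b hij l = b l := by
  change b l - b.coord j (b l) • b i = _
  rw [Module.Basis.coord_apply, Module.Basis.repr_self, Finsupp.single_eq_of_ne' hl, zero_smul,
    sub_zero]

lemma tv_coord (b : Module.Basis ι ℤ Λ) {i j : ι} (hij : i ≠ j) (l : ι) (x : Λ) :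
    (tv b hij).coord l x = b.coord l x + b.coord j x * b.coord l (b i) := by
  have h1 : (tv b hij).coord l x = b.coord l ((tve b hij).symm x) := rfl
  rw [h1]
  change b.coord l (x + b.coord j x • b i) = _
  rw [map_add, map_smul, smul_eq_mul]

lemma tv_coord_i (b : Module.Basis ι ℤ Λ) {i j : ι} (hij : i ≠ j) :
    (tv b hij).coord i = b.coord i + b.coord j := by
  refine LinearMap.ext fun x => ?_
  rw [tv_coord, LinearMap.add_apply]
  have h1 : b.coord i (b i) = 1 := by
    rw [Module.Basis.coord_apply, Module.Basis.repr_self, Finsupp.single_eq_same]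
  rw [h1, mul_one]

lemma tv_coord_ne (b : Module.Basis ι ℤ Λ) {i j : ι} (hij : i ≠ j) {l : ι} (hl : l ≠ i) :
    (tv b hij).coord l = b.coord l := by
  refine LinearMap.ext fun x => ?_
  rw [tv_coord]
  have h1 : b.coord l (b i) = 0 := by
    rw [Module.Basis.coord_apply, Module.Basis.repr_self, Finsupp.single_eq_of_ne' hl.symm]
  rw [h1, mul_zero, add_zero]

end tv

section BU

variable {Λ : Type} [AddCommGroup Λ] {G : Type} [Group G] [DistribMulAction G Λ]

/-- The subdivision. -/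
def BU (G : Type) [Group G] [DistribMulAction G Λ] (Δ : Set Λ) (w : Λ →ₗ[ℤ] ℤ) (k : ℕ) : Set Λ :=
  {x | x ∈ MS Δ k ∧ ∀ g : G, ∃ y ∈ Δ, (k : ℤ) * w y < w (g • x)}

/-- Stable smooth lattice polytopes such that the cones are in the chambers. -/
structure Good (G : Type) [Group G] [DistribMulAction G Λ] {Y : Type} (e : Y → Λ) (ι : Type)
    [Fintype ι] (Δ : Set Λ) : Prop where
  fin : Δ.Finite
  st : ∀ (g : G), ∀ m ∈ Δ, g • m ∈ Δ
  ni : NI ι Δ
  mo : ∀ S : AddSubmonoid Λ, IsTO S → ∀ (v : Λ) (b : Module.Basis ι ℤ Λ), CD Δ v b →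
    (∀ i, b i ∈ S) → ∀ k, MonA e (AS e S) (b.coord k)

lemma MS_add {Δ : Set Λ} {k l : ℕ} {x y : Λ} (hx : x ∈ MS Δ k) (hy : y ∈ MS Δ l) :
    x + y ∈ MS Δ (k + l) := by
  induction l generalizing y with
  | zero =>
    have h1 : y = 0 := hy
    rw [h1, add_zero x]
    exact hx
  | succ l ih =>
    obtain ⟨m, hm, m', hm', rfl⟩ := hy
    exact ⟨x + m, ih hm, m', hm', by abel⟩

lemma MS_one {Δ : Set Λ} {x : Λ} (hx : x ∈ Δ) : x ∈ MS Δ 1 := ⟨0, rfl, x, hx, by abel⟩

lemma BU_st {Δ : Set Λ} (hst : ∀ (g : G), ∀ m ∈ Δ, g • m ∈ Δ) (w : Λ →ₗ[ℤ] ℤ) (k : ℕ) (g : G) :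
    ∀ m ∈ BU G Δ w k, g • m ∈ BU G Δ w k := by
  rintro m ⟨h1, h2⟩
  constructor
  · have h3 := MS_st (Δ := Δ) (s := (DistribMulAction.toAddMonoidHom Λ g).toIntLinearMap)
      (fun m hm => hst g m hm) k m h1
    exact h3
  · intro h
    obtain ⟨y, hy, h3⟩ := h2 (h * g)
    exact ⟨y, hy, by rwa [mul_smul] at h3⟩

/-- The chart of the transformed polytope. -/
lemma CD.smul {ι : Type} {Δ : Set Λ} (hst : ∀ (g : G), ∀ m ∈ Δ, g • m ∈ Δ) {v : Λ}
    {b : Module.Basis ι ℤ Λ} (h : CD Δ v b) (g : G) :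
    CD Δ (g • v) (b.map (DistribMulAction.toAddEquiv Λ g).toIntLinearEquiv) := by
  refine ⟨hst g v h.vm, fun i => ?_, fun m hm i => ?_⟩
  · have h1 : (b.map (DistribMulAction.toAddEquiv Λ g).toIntLinearEquiv) i = g • b i := rfl
    rw [h1, ← smul_add]
    exact hst g _ (h.nb i)
  · have h1 : (b.map (DistribMulAction.toAddEquiv Λ g).toIntLinearEquiv).repr (m - g • v) i =
      b.repr (g⁻¹ • (m - g • v)) i := rfl
    rw [h1, smul_sub, inv_smul_smul]
    exact h.nn _ (hst g⁻¹ m hm) i

end BU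

end Pool.Agent.T9h3
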