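import Pool.Agent.T9h3.OrdB

/-!
# The charts of the symmetric subdivisions
-/

set_option autoImplicit false
set_option linter.unusedSectionVars false

namespace Pool.Agent.T9h3

variable {Λ : Type} [AddCommGroup Λ] {G : Type} [Group G] [DistribMulAction G Λ]
  {ι : Type} [Fintype ι]

lemma coord_self (b : Module.Basis ι ℤ Λ) (i : ι) : b.coord i (b i) = 1 := by
  rw [Module.Basis.coord_apply, Module.Basis.repr_self, Finsupp.single_eq_same]

lemma coord_ne (b : Module.Basis ι ℤ Λ) {i j : ι} (h : i ≠ j) : b.coord i (b j) = 0 := by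
  rw [Module.Basis.coord_apply, Module.Basis.repr_self, Finsupp.single_eq_of_ne h]

lemma coord_nonneg (b : Module.Basis ι ℤ Λ) (i j : ι) : 0 ≤ b.coord i (b j) := by
  by_cases h : i = j
  · rw [h, coord_self]; exact zero_le_one
  · rw [coord_ne b h]

lemma BU_pt {Δ : Set Λ} (hst : ∀ (g : G), ∀ m ∈ Δ, g • m ∈ Δ) {v : Λ} (hv : v ∈ Δ)
    {w f : Λ →ₗ[ℤ] ℤ} {k C : ℕ} (hk : 4 * C + 2 ≤ k)
    (hw : ∀ g : G, (∀ x, w (g • x) = f x) ∨ ∃ y ∈ Δ, w y < w (g • v)) {d : Λ}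
    (hd1 : k • v + d ∈ MS Δ k) (hd2 : 0 < f d) (hd3 : ∀ g : G, -(4 * C : ℤ) ≤ w (g • d)) :
    k • v + d ∈ BU G Δ w k := by
  refine ⟨hd1, fun g => ?_⟩
  have h0 : w (g • (k • v + d)) = k * w (g • v) + w (g • d) := by
    rw [smul_add, smul_comm, map_add, map_nsmul, nsmul_eq_mul]
  rw [h0]
  rcases hw g with h1 | ⟨y, hy, h1⟩
  · refine ⟨g • v, hst g v hv, ?_⟩
    rw [h1 d]
    linarith
  · refine ⟨y, hy, ?_⟩
    have h2 := hd3 g
    have h3 : (k : ℤ) * (w y + 1) ≤ k * w (g • v) :=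
      mul_le_mul_of_nonneg_left h1 (Nat.cast_nonneg k)
    have h4 : (4 * C + 2 : ℤ) ≤ k := by exact_mod_cast hk
    rw [mul_add, mul_one] at h3
    linarith

lemma BU_d3 {Δ : Set Λ} (hst : ∀ (g : G), ∀ m ∈ Δ, g • m ∈ Δ) {v : Λ} {b : Module.Basis ι ℤ Λ}
    (h : CD Δ v b) {w : Λ →ₗ[ℤ] ℤ} {C : ℕ} (hC : ∀ x ∈ Δ, |w x| ≤ C) (g : G) (i : ι) :
    -(2 * C : ℤ) ≤ w (g • b i) := by
  have h1 : g • b i = g • (v + b i) - g • v := by rw [smul_add]; abel
  rw [h1, map_sub]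
  have h2 := abs_le.1 (hC _ (hst g _ (h.nb i)))
  have h3 := abs_le.1 (hC _ (hst g _ h.vm))
  linarith [h2.1, h3.2]

/-- The unchanged charts. -/
lemma BU_CD1 {Δ : Set Λ} (hst : ∀ (g : G), ∀ m ∈ Δ, g • m ∈ Δ) {v : Λ} {b : Module.Basis ι ℤ Λ}
    (h : CD Δ v b) {w : Λ →ₗ[ℤ] ℤ} {k C : ℕ} (hk : 4 * C + 2 ≤ k) (hC : ∀ x ∈ Δ, |w x| ≤ C)
    (hw : ∀ g : G, ∃ y ∈ Δ, w y < w (g • v)) : CD (BU G Δ w k) (k • v) b := by
  have hk1 : 1 ≤ k := by omega
  have h0 := MS_CD h hk1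
  refine ⟨⟨h0.vm, fun g => ?_⟩, fun i => ⟨h0.nb i, fun g => ?_⟩, fun m hm => h0.nn m hm.1⟩
  · obtain ⟨y, hy, h1⟩ := hw g
    refine ⟨y, hy, ?_⟩
    rw [smul_comm, map_nsmul, nsmul_eq_mul]
    have hk2 : (0 : ℤ) < k := by exact_mod_cast hk1
    exact mul_lt_mul_of_pos_left h1 hk2
  · obtain ⟨y, hy, h1⟩ := hw g
    refine ⟨y, hy, ?_⟩
    rw [smul_add, smul_comm, map_add, map_nsmul, nsmul_eq_mul]
    have h2 := BU_d3 hst h hC g i
    have h3 : (k : ℤ) * (w y + 1) ≤ k * w (g • v) :=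
      mul_le_mul_of_nonneg_left h1 (Nat.cast_nonneg k)
    have h4 : (4 * C + 2 : ℤ) ≤ k := by exact_mod_cast hk
    rw [mul_add, mul_one] at h3
    have h5 : (0 : ℤ) ≤ C := Nat.cast_nonneg C
    linarith

/-- The new charts. -/
lemma BU_CD2 {Δ : Set Λ} (hst : ∀ (g : G), ∀ m ∈ Δ, g • m ∈ Δ) {v : Λ} {b : Module.Basis ι ℤ Λ}
    (h : CD Δ v b) {w : Λ →ₗ[ℤ] ℤ} {k C : ℕ} (hk : 4 * C + 2 ≤ k) (hC : ∀ x ∈ Δ, |w x| ≤ C)
    {i j : ι} (hij : i ≠ j) (g0 : G) (hg0 : ∀ x, w (g0 • x) = (b.coord i + b.coord j) x)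
    (hw : ∀ g : G, (∀ x, w (g • x) = (b.coord i + b.coord j) x) ∨ ∃ y ∈ Δ, w y < w (g • v)) :
    CD (BU G Δ w k) (k • v + b i) (tv b hij) := by
  classical
  have hk1 : 1 ≤ k := by omega
  have h0 := MS_CD h hk1
  have hC0 : (0 : ℤ) ≤ C := Nat.cast_nonneg C
  have hi : k • v + b i ∈ BU G Δ w k := by
    refine BU_pt hst h.vm hk hw (h0.nb i) ?_ fun g => ?_
    · rw [LinearMap.add_apply, coord_self, coord_ne b hij.symm]; norm_num
    · have := BU_d3 hst h hC g i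
      linarith
  refine ⟨hi, fun l => ?_, fun m hm l => ?_⟩
  · by_cases hl : l = j
    · rw [hl, tv_j]
      have h1 : k • v + b i + (b j - b i) = k • v + b j := by abel
      rw [h1]
      refine BU_pt hst h.vm hk hw (h0.nb j) ?_ fun g => ?_
      · rw [LinearMap.add_apply, coord_self, coord_ne b hij]; norm_num
      · have := BU_d3 hst h hC g j
        linarith
    · rw [tv_ne b hij hl]
      have h1 : k • v + b i + b l = k • v + (b i + b l) := by abel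
      rw [h1]
      refine BU_pt hst h.vm hk hw ?_ ?_ fun g => ?_
      · obtain ⟨k', rfl⟩ : ∃ k', k = k' + 1 + 1 := ⟨k - 2, by omega⟩
        have h2 : (k' + 1 + 1) • v + (b i + b l) = k' • v + (v + b i) + (v + b l) := by
          rw [succ_nsmul, succ_nsmul]
          abel
        rw [h2]
        exact MS_add (MS_add (MS_nsmul h.vm k') (MS_one (h.nb i))) (MS_one (h.nb l))
      · rw [LinearMap.add_apply, map_add, map_add, coord_self, coord_ne b hij.symm]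
        have h2 := coord_nonneg b i l
        have h3 := coord_nonneg b j l
        linarith
      · rw [smul_add, map_add]
        have h2 := BU_d3 hst h hC g i
        have h3 := BU_d3 hst h hC g l
        linarith
  · change 0 ≤ (tv b hij).coord l (m - (k • v + b i))
    have h1 : m - (k • v + b i) = (m - k • v) - b i := by abel
    by_cases hl : l = i
    · rw [hl, tv_coord_i, ← hg0, h1, smul_sub, map_sub]
      have h2 : w (g0 • b i) = 1 := by
        rw [hg0, LinearMap.add_apply, coord_self, coord_ne b hij.symm, add_zero]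
      rw [h2]
      obtain ⟨y, hy, h3⟩ := hm.2 g0
      have h4 : w (g0 • v) ≤ w y := by
        have h5 : y = g0 • (g0⁻¹ • y) := by rw [smul_inv_smul]
        rw [h5, hg0, hg0]
        have h6 := h.nn _ (hst g0⁻¹ y hy)
        have h7 : 0 ≤ b.coord i (g0⁻¹ • y - v) := h6 i
        have h8 : 0 ≤ b.coord j (g0⁻¹ • y - v) := h6 j
        rw [map_sub] at h7 h8
        rw [LinearMap.add_apply, LinearMap.add_apply]
        linarith
      rw [smul_sub, map_sub]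
      have h5 : w (g0 • (k • v)) = k * w (g0 • v) := by
        rw [smul_comm, map_nsmul, nsmul_eq_mul]
      rw [h5]
      have h6 : (k : ℤ) * w (g0 • v) ≤ k * w y := mul_le_mul_of_nonneg_left h4 (Nat.cast_nonneg k)
      linarith [Int.add_one_le_of_lt h3]
    · rw [tv_coord_ne b hij hl, h1, map_sub, coord_ne b hl, sub_zero]
      exact h0.nn m hm.1 l

/-- The center. -/
lemma BU_min {Δ : Set Λ} (hst : ∀ (g : G), ∀ m ∈ Δ, g • m ∈ Δ) {v v0 : Λ}
    {b b0 : Module.Basis ι ℤ Λ} (h : CD Δ v b) (h0 : CD Δ v0 b0) (i0 j0 : ι) {g : G}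
    (hmin : ∀ y ∈ Δ, (b0.coord i0 + b0.coord j0) (g • v) ≤ (b0.coord i0 + b0.coord j0) y) :
    ∃ i j, (∀ x, b.coord i x = b0.coord i0 (g • x)) ∧ ∀ x, b.coord j x = b0.coord j0 (g • x) := by
  have h1 := h0.smul hst g⁻¹
  set b1 := b0.map (DistribMulAction.toAddEquiv Λ g⁻¹).toIntLinearEquiv with hb1
  have hco : ∀ i x, b1.coord i x = b0.coord i (g • x) := by
    intro i x
    have h2 : b1.coord i x = b0.coord i ((g⁻¹)⁻¹ • x) := rfl
    rw [h2, inv_inv]
  have h2 : 0 ≤ b1.coord i0 (v - g⁻¹ • v0) := h1.nn v h.vm i0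
  have h3 : 0 ≤ b1.coord j0 (v - g⁻¹ • v0) := h1.nn v h.vm j0
  rw [map_sub, hco, hco, smul_inv_smul] at h2 h3
  have h4 := hmin v0 h0.vm
  rw [LinearMap.add_apply, LinearMap.add_apply] at h4
  obtain ⟨i, hi⟩ := fan h h1 (i := i0) (by
    rw [hco, hco, smul_inv_smul]
    linarith)
  obtain ⟨j, hj⟩ := fan h h1 (i := j0) (by
    rw [hco, hco, smul_inv_smul]
    linarith)
  exact ⟨i, j, fun x => by rw [hi, hco], fun x => by rw [hj, hco]⟩

/-- The charts of the subdivision. -/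
lemma BU_key {Y : Type} [Fintype Y] [MulAction G Y] {e : Y → Λ}
    (he : ∀ (g : G) y, e (g • y) = g • e y) (hspan : Submodule.span ℤ (Set.range e) = ⊤)
    {Δ : Set Λ} (hΔ : Good G e ι Δ) {v0 : Λ} {b0 : Module.Basis ι ℤ Λ} (h0 : CD Δ v0 b0)
    {i0 j0 : ι} (hij0 : i0 ≠ j0) :
    ∃ k : ℕ, ∀ S : AddSubmonoid Λ, IsTO S → ∀ (v : Λ) (b : Module.Basis ι ℤ Λ), CD Δ v b →
      (∀ i, b i ∈ S) →
      ((∀ g : G, ∃ y ∈ Δ, (b0.coord i0 + b0.coord j0) y < (b0.coord i0 + b0.coord j0) (g • v)) ∧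
        CD (BU G Δ (b0.coord i0 + b0.coord j0) k) (k • v) b) ∨
      (∃ (g : G) (i j : ι) (hij : i ≠ j),
        (((∀ x, b.coord i x = b0.coord i0 (g • x)) ∧ (∀ x, b.coord j x = b0.coord j0 (g • x))) ∨
          ((∀ x, b.coord i x = b0.coord j0 (g • x)) ∧
            (∀ x, b.coord j x = b0.coord i0 (g • x)))) ∧ b j - b i ∈ S ∧
        CD (BU G Δ (b0.coord i0 + b0.coord j0) k) (k • v + b i) (tv b hij)) := by
  obtain ⟨C, hC⟩ : ∃ C : ℕ, ∀ x ∈ Δ, |(b0.coord i0 + b0.coord j0) x| ≤ C := by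
    obtain ⟨C, hC⟩ := (hΔ.fin.image fun x => ((b0.coord i0 + b0.coord j0) x).natAbs).bddAbove
    refine ⟨C, fun x hx => ?_⟩
    have h1 := hC ⟨x, hx, rfl⟩
    rw [Int.abs_eq_natAbs]
    exact_mod_cast h1
  set w := b0.coord i0 + b0.coord j0 with hw
  refine ⟨4 * C + 2, fun S hS v b h hb => ?_⟩
  by_cases H : ∀ g : G, ∃ y ∈ Δ, w y < w (g • v)
  · exact Or.inl ⟨H, BU_CD1 hΔ.st h le_rfl hC H⟩
  · right
    push Not at H
    obtain ⟨g0, hg0⟩ := H
    obtain ⟨i, j, hi, hj⟩ := BU_min hΔ.st h h0 i0 j0 hg0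
    have hij : i ≠ j := by
      rintro rfl
      have h1 := hi (g0⁻¹ • b0 i0)
      rw [hj, smul_inv_smul, coord_self, coord_ne b0 hij0.symm] at h1
      exact zero_ne_one h1
    have hm := hΔ.mo S hS v b h hb
    have hg : ∀ g : G, (∀ x, w (g • x) = w (g0 • x)) ∨ ∃ y ∈ Δ, w y < w (g • v) := by
      intro g
      by_cases H : ∃ y ∈ Δ, w y < w (g • v)
      · exact Or.inr H
      · left
        push Not at H
        obtain ⟨i', j', hi', hj'⟩ := BU_min hΔ.st h h0 i0 j0 H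
        have h1 : b.coord i' = b.coord i := mono_inv he hspan hS (hm i) (g0⁻¹ * g) (fun x => by
          rw [hi, hi', smul_smul, mul_inv_cancel_left]) (hm i')
        have h2 : b.coord j' = b.coord j := mono_inv he hspan hS (hm j) (g0⁻¹ * g) (fun x => by
          rw [hj, hj', smul_smul, mul_inv_cancel_left]) (hm j')
        intro x
        rw [hw, LinearMap.add_apply, LinearMap.add_apply, ← hi', ← hj', h1, h2, hi, hj]
    rcases hS.tot (b j - b i) with h1 | h1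
    · have h2 : ∀ x, w (g0 • x) = (b.coord i + b.coord j) x := fun x => by
        rw [hw, LinearMap.add_apply, LinearMap.add_apply, hi, hj]
      refine ⟨g0, i, j, hij, Or.inl ⟨hi, hj⟩, h1, BU_CD2 hΔ.st h le_rfl hC hij g0 h2 fun g => ?_⟩
      exact (hg g).imp (fun h x => by rw [h, h2]) id
    · rw [neg_sub] at h1
      have h2 : ∀ x, w (g0 • x) = (b.coord j + b.coord i) x := fun x => by
        rw [hw, LinearMap.add_apply, LinearMap.add_apply, hi, hj, add_comm]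
      refine ⟨g0, j, i, hij.symm, Or.inr ⟨hj, hi⟩, h1,
        BU_CD2 hΔ.st h le_rfl hC hij.symm g0 h2 fun g => ?_⟩
      exact (hg g).imp (fun h x => by rw [h, h2]) id

end Pool.Agent.T9h3
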