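import Pool.Agent.T9h3.OrdC

/-!
# The elimination of the signs
-/

set_option autoImplicit false
set_option linter.unusedSectionVars false

namespace Pool.Agent.T9h3

variable {Λ : Type} [AddCommGroup Λ] {G : Type} [Group G] [DistribMulAction G Λ]
  {ι : Type} [Fintype ι]

lemma coord_inj (b : Module.Basis ι ℤ Λ) {i j : ι} (h : b.coord i = b.coord j) : i = j := by
  by_contra hij
  have h1 := coord_self b i
  rw [h, coord_ne b (fun h => hij h.symm)] at h1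
  exact zero_ne_one h1

/-- One subdivision. -/
lemma step {Y : Type} [Fintype Y] [MulAction G Y] {e : Y → Λ}
    (he : ∀ (g : G) y, e (g • y) = g • e y) (hspan : Submodule.span ℤ (Set.range e) = ⊤)
    {Δ : Set Λ} (hΔ : Good G e ι Δ) {v0 : Λ} {b0 : Module.Basis ι ℤ Λ} (h0 : CD Δ v0 b0)
    {i0 j0 : ι} (hij0 : i0 ≠ j0) :
    ∃ Δ' : Set Λ, Good G e ι Δ' ∧ ∀ S : AddSubmonoid Λ, IsTO S →
      ∀ (v' : Λ) (b' : Module.Basis ι ℤ Λ), CD Δ' v' b' → (∀ i, b' i ∈ S) →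
      ∃ (v : Λ) (b : Module.Basis ι ℤ Λ), CD Δ v b ∧ (∀ i, b i ∈ S) ∧
      (((∃ y ∈ Δ, (b0.coord i0 + b0.coord j0) y < (b0.coord i0 + b0.coord j0) v) ∧
          ∀ l, ∃ l', b'.coord l = b.coord l') ∨
        (∃ (g : G) (i j : ι) (hij : i ≠ j),
        (((∀ x, b.coord i x = b0.coord i0 (g • x)) ∧ (∀ x, b.coord j x = b0.coord j0 (g • x))) ∨
          ((∀ x, b.coord i x = b0.coord j0 (g • x)) ∧
            (∀ x, b.coord j x = b0.coord i0 (g • x)))) ∧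
          ∀ l, ∃ l', b'.coord l = (tv b hij).coord l')) := by
  obtain ⟨k, hk⟩ := BU_key he hspan hΔ h0 hij0
  have hE : ∀ S : AddSubmonoid Λ, IsTO S →
      ∀ (v' : Λ) (b' : Module.Basis ι ℤ Λ), CD (BU G Δ (b0.coord i0 + b0.coord j0) k) v' b' →
      (∀ i, b' i ∈ S) →
      ∃ (v : Λ) (b : Module.Basis ι ℤ Λ), CD Δ v b ∧ (∀ i, b i ∈ S) ∧
      (((∃ y ∈ Δ, (b0.coord i0 + b0.coord j0) y < (b0.coord i0 + b0.coord j0) v) ∧
          ∀ l, ∃ l', b'.coord l = b.coord l') ∨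
        (∃ (g : G) (i j : ι) (hij : i ≠ j),
        (((∀ x, b.coord i x = b0.coord i0 (g • x)) ∧ (∀ x, b.coord j x = b0.coord j0 (g • x))) ∨
          ((∀ x, b.coord i x = b0.coord j0 (g • x)) ∧
            (∀ x, b.coord j x = b0.coord i0 (g • x)))) ∧
          ∀ l, ∃ l', b'.coord l = (tv b hij).coord l')) := by
    intro S hS v' b' h' hb'
    obtain ⟨v, b, h, hb⟩ := hΔ.ni S hS
    refine ⟨v, b, h, hb, ?_⟩
    rcases hk S hS v b h hb with ⟨h1, h2⟩ | ⟨g, i, j, hij, h1, h2, h3⟩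
    · left
      refine ⟨?_, fun l => ?_⟩
      · obtain ⟨y, hy, h3⟩ := h1 1
        exact ⟨y, hy, by rwa [one_smul] at h3⟩
      · have h3 := CD.uniq h2 h' hS hb hb'
        obtain ⟨l', hl'⟩ := fan h2 h' (i := l) (by rw [h3])
        exact ⟨l', hl'.symm⟩
    · right
      refine ⟨g, i, j, hij, h1, fun l => ?_⟩
      have hb2 : ∀ l, tv b hij l ∈ S := by
        intro l
        by_cases hl : l = j
        · rw [hl, tv_j]; exact h2
        · rw [tv_ne b hij hl]; exact hb l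
      have h4 := CD.uniq h3 h' hS hb2 hb'
      obtain ⟨l', hl'⟩ := fan h3 h' (i := l) (by rw [h4])
      exact ⟨l', hl'.symm⟩
  refine ⟨_, ⟨(MS_fin hΔ.fin k).subset fun x hx => hx.1, fun g => BU_st hΔ.st _ k g, ?_, ?_⟩, hE⟩
  · intro S hS
    obtain ⟨v, b, h, hb⟩ := hΔ.ni S hS
    rcases hk S hS v b h hb with ⟨h1, h2⟩ | ⟨g, i, j, hij, h1, h2, h3⟩
    · exact ⟨_, b, h2, hb⟩
    · refine ⟨_, tv b hij, h3, fun l => ?_⟩
      by_cases hl : l = j
      · rw [hl, tv_j]; exact h2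
      · rw [tv_ne b hij hl]; exact hb l
  · intro S hS v' b' h' hb' l
    obtain ⟨v, b, h, hb, h1⟩ := hE S hS v' b' h' hb'
    have hm := hΔ.mo S hS v b h hb
    rcases h1 with ⟨-, h1⟩ | ⟨g, i, j, hij, -, h1⟩
    · obtain ⟨l', hl'⟩ := h1 l
      rw [hl']
      exact hm l'
    · obtain ⟨l', hl'⟩ := h1 l
      rw [hl']
      by_cases h2 : l' = i
      · rw [h2, tv_coord_i]
        intro p hp
        rw [LinearMap.add_apply, LinearMap.add_apply]
        exact add_le_add (hm i p hp) (hm j p hp)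
      · rw [tv_coord_ne b hij h2]
        exact hm l'

/-- The pairs of rays on which the signs are different. -/
def Bad {Y : Type} (e : Y → Λ) (ι : Type) [Fintype ι] (Δ : Set Λ) (A : Set (Y × Y)) (φ : Λ) :
    Set ((Λ →ₗ[ℤ] ℤ) × (Λ →ₗ[ℤ] ℤ)) :=
  {p | ∃ S : AddSubmonoid Λ, IsTO S ∧ AS e S = A ∧ ∃ (v : Λ) (b : Module.Basis ι ℤ Λ),
    CD Δ v b ∧ (∀ i, b i ∈ S) ∧ ∃ i j, p = (b.coord i, b.coord j) ∧ 0 < b.coord i φ ∧
      b.coord j φ < 0}

lemma Bad_fin {Y : Type} (e : Y → Λ) {Δ : Set Λ} (hΔ : Δ.Finite) (A : Set (Y × Y)) (φ : Λ) :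
    (Bad e ι Δ A φ).Finite := by
  classical
  let D : Set Λ := (fun p : Λ × Λ => p.1 - p.2) '' (Δ ×ˢ Δ)
  have hD : D.Finite := (hΔ.prod hΔ).image _
  have h1 : {b : Module.Basis ι ℤ Λ | ∀ i, b i ∈ D}.Finite := by
    have h2 : (Set.pi Set.univ (fun _ : ι => D)).Finite := Set.Finite.pi fun _ => hD
    refine (h2.preimage (f := fun b : Module.Basis ι ℤ Λ => (b : ι → Λ)) ?_).subset ?_
    · intro b _ b' _ hbb
      exact DFunLike.coe_injective hbb
    · intro b hb i _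
      exact hb i
  refine ((h1.prod (Set.finite_univ : (Set.univ : Set (ι × ι)).Finite)).image
    fun q : Module.Basis ι ℤ Λ × (ι × ι) => (q.1.coord q.2.1, q.1.coord q.2.2)).subset ?_
  rintro p ⟨S, -, -, v, b, h, -, i, j, rfl, -, -⟩
  refine ⟨(b, (i, j)), ⟨fun l => ?_, Set.mem_univ _⟩, rfl⟩
  exact ⟨(v + b l, v), ⟨h.nb l, h.vm⟩, by simp⟩

/-- One step. -/
lemma step_bad {Y : Type} [Fintype Y] [MulAction G Y] {e : Y → Λ}
    (he : ∀ (g : G) y, e (g • y) = g • e y) (hspan : Submodule.span ℤ (Set.range e) = ⊤)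
    {Δ : Set Λ} (hΔ : Good G e ι Δ) {A : Set (Y × Y)} {φ : Λ} {m : ℤ}
    (hm : ∀ p ∈ Bad e ι Δ A φ, p.1 φ - p.2 φ ≤ m) {p0 : (Λ →ₗ[ℤ] ℤ) × (Λ →ₗ[ℤ] ℤ)}
    (hp0 : p0 ∈ Bad e ι Δ A φ) :
    ∃ Δ' : Set Λ, Good G e ι Δ' ∧
      (∀ A' φ', Bad e ι Δ A' φ' = ∅ → Bad e ι Δ' A' φ' = ∅) ∧
      ∀ p ∈ Bad e ι Δ' A φ, (p ∈ Bad e ι Δ A φ ∧ p ≠ p0) ∨ p.1 φ - p.2 φ < m := by
  obtain ⟨S0, hS0, hA0, v0, b0, h0, hb0, i0, j0, rfl, hpos, hneg⟩ := hp0
  have hij0 : i0 ≠ j0 := by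
    rintro rfl
    exact lt_asymm hpos hneg
  obtain ⟨Δ', hG, hst⟩ := step he hspan hΔ h0 hij0
  refine ⟨Δ', hG, fun A' φ' hE => ?_, ?_⟩
  · rw [Set.eq_empty_iff_forall_notMem]
    rintro p ⟨S, hS, hA, v', b', h', hb', i', j', rfl, h1, h2⟩
    obtain ⟨v, b, h, hb, h3⟩ := hst S hS v' b' h' hb'
    have hno : ∀ l l', 0 < b.coord l φ' → b.coord l' φ' < 0 → False := by
      intro l l' h4 h5
      have : (b.coord l, b.coord l') ∈ Bad e ι Δ A' φ' :=
        ⟨S, hS, hA, v, b, h, hb, l, l', rfl, h4, h5⟩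
      rw [hE] at this
      exact this
    rcases h3 with ⟨-, h3⟩ | ⟨g, i, j, hij, -, h3⟩
    · obtain ⟨l, hl⟩ := h3 i'
      obtain ⟨l', hl'⟩ := h3 j'
      rw [hl] at h1
      rw [hl'] at h2
      exact hno l l' h1 h2
    · obtain ⟨l, hl⟩ := h3 i'
      obtain ⟨l', hl'⟩ := h3 j'
      rw [hl] at h1
      rw [hl'] at h2
      have h4 : ∃ l1, 0 < b.coord l1 φ' := by
        by_cases hli : l = i
        · rw [hli, tv_coord_i, LinearMap.add_apply] at h1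
          by_contra hcon
          push Not at hcon
          have := hcon i
          have := hcon j
          omega
        · rw [tv_coord_ne b hij hli] at h1
          exact ⟨l, h1⟩
      have h5 : ∃ l2, b.coord l2 φ' < 0 := by
        by_cases hli : l' = i
        · rw [hli, tv_coord_i, LinearMap.add_apply] at h2
          by_contra hcon
          push Not at hcon
          have := hcon i
          have := hcon j
          omega
        · rw [tv_coord_ne b hij hli] at h2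
          exact ⟨l', h2⟩
      obtain ⟨l1, hl1⟩ := h4
      obtain ⟨l2, hl2⟩ := h5
      exact hno l1 l2 hl1 hl2
  · rintro p ⟨S, hS, hA, v', b', h', hb', i', j', rfl, h1, h2⟩
    obtain ⟨v, b, h, hb, h3⟩ := hst S hS v' b' h' hb'
    have hmb := hΔ.mo S hS v b h hb
    have hm0 := hΔ.mo S0 hS0 v0 b0 h0 hb0
    have hin : ∀ l l', 0 < b.coord l φ → b.coord l' φ < 0 →
        (b.coord l, b.coord l') ∈ Bad e ι Δ A φ := fun l l' h4 h5 =>
      ⟨S, hS, hA, v, b, h, hb, l, l', rfl, h4, h5⟩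
    rcases h3 with ⟨⟨y, hy, hyv⟩, h3⟩ | ⟨g, i, j, hij, h3, h4⟩
    · left
      obtain ⟨l, hl⟩ := h3 i'
      obtain ⟨l', hl'⟩ := h3 j'
      rw [hl] at h1 ⊢
      rw [hl'] at h2 ⊢
      refine ⟨hin l l' h1 h2, fun heq => ?_⟩
      rw [Prod.mk.injEq] at heq
      rw [← heq.1, ← heq.2] at hyv
      have h5 : 0 ≤ b.coord l (y - v) := h.nn y hy l
      have h6 : 0 ≤ b.coord l' (y - v) := h.nn y hy l'
      rw [map_sub] at h5 h6
      rw [LinearMap.add_apply, LinearMap.add_apply] at hyv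
      linarith
    · have hSA : AS e S = AS e S0 := by rw [hA, hA0]
      have hu : MonA e (AS e S) (b0.coord i0) := by rw [hSA]; exact hm0 i0
      have hu' : MonA e (AS e S) (b0.coord j0) := by rw [hSA]; exact hm0 j0
      -- the rays are the same
      have h5 : (b.coord i = b0.coord i0 ∧ b.coord j = b0.coord j0) ∨
          (b.coord i = b0.coord j0 ∧ b.coord j = b0.coord i0) := by
        rcases h3 with ⟨h3, h3'⟩ | ⟨h3, h3'⟩
        · exact Or.inl ⟨mono_inv he hspan hS hu g h3 (hmb i), mono_inv he hspan hS hu' g h3' (hmb j)⟩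
        · exact Or.inr ⟨mono_inv he hspan hS hu' g h3 (hmb i), mono_inv he hspan hS hu g h3' (hmb j)⟩
      have h6 : b.coord i + b.coord j = b0.coord i0 + b0.coord j0 := by
        rcases h5 with ⟨h5, h5'⟩ | ⟨h5, h5'⟩
        · rw [h5, h5']
        · rw [h5, h5', add_comm]
      have hu2 : ∃ l, b.coord l = b0.coord i0 := by
        rcases h5 with ⟨h5, h5'⟩ | ⟨h5, h5'⟩
        · exact ⟨i, h5⟩
        · exact ⟨j, h5'⟩
      have hu3 : ∃ l, b.coord l = b0.coord j0 := by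
        rcases h5 with ⟨h5, h5'⟩ | ⟨h5, h5'⟩
        · exact ⟨j, h5'⟩
        · exact ⟨i, h5⟩
      obtain ⟨l, hl⟩ := h4 i'
      obtain ⟨l', hl'⟩ := h4 j'
      rw [hl] at h1 ⊢
      rw [hl'] at h2 ⊢
      by_cases hli : l = i
      · right
        have hl'i : l' ≠ i := by
          rintro rfl
          rw [hli] at h1
          exact lt_asymm h1 h2
        rw [hli, tv_coord_i, h6, LinearMap.add_apply] at h1 ⊢
        rw [tv_coord_ne b hij hl'i] at h2 ⊢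
        obtain ⟨l0, hl0⟩ := hu2
        have h7 := hm _ (hin l0 l' (by rw [hl0]; exact hpos) h2)
        rw [hl0] at h7
        change b0.coord i0 φ - b.coord l' φ ≤ m at h7
        change b0.coord i0 φ + b0.coord j0 φ - b.coord l' φ < m
        linarith
      · rw [tv_coord_ne b hij hli] at h1 ⊢
        by_cases hl'i : l' = i
        · right
          rw [hl'i, tv_coord_i, h6, LinearMap.add_apply] at h2 ⊢
          obtain ⟨l0, hl0⟩ := hu3
          have h7 := hm _ (hin l l0 h1 (by rw [hl0]; exact hneg))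
          rw [hl0] at h7
          change b.coord l φ - b0.coord j0 φ ≤ m at h7
          change b.coord l φ - (b0.coord i0 φ + b0.coord j0 φ) < m
          linarith
        · left
          rw [tv_coord_ne b hij hl'i] at h2 ⊢
          refine ⟨hin l l' h1 h2, fun heq => ?_⟩
          rw [Prod.mk.injEq] at heq
          rcases h5 with ⟨h5, h5'⟩ | ⟨h5, h5'⟩
          · exact hli (coord_inj b (heq.1.trans h5.symm))
          · exact hl'i (coord_inj b (heq.2.trans h5.symm))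

/-- The elimination for one chamber and one element. -/
lemma fix_one {Y : Type} [Fintype Y] [MulAction G Y] {e : Y → Λ}
    (he : ∀ (g : G) y, e (g • y) = g • e y) (hspan : Submodule.span ℤ (Set.range e) = ⊤)
    (A : Set (Y × Y)) (φ : Λ) (m : ℕ) : ∀ (n : ℕ) (Δ : Set Λ), Good G e ι Δ →
    (∀ p ∈ Bad e ι Δ A φ, p.1 φ - p.2 φ ≤ m) →
    {p | p ∈ Bad e ι Δ A φ ∧ p.1 φ - p.2 φ = m}.ncard ≤ n →
    ∃ Δ' : Set Λ, Good G e ι Δ' ∧ Bad e ι Δ' A φ = ∅ ∧
      ∀ A' φ', Bad e ι Δ A' φ' = ∅ → Bad e ι Δ' A' φ' = ∅ := by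
  induction m with
  | zero =>
    intro n Δ hΔ hm _
    refine ⟨Δ, hΔ, ?_, fun _ _ h => h⟩
    rw [Set.eq_empty_iff_forall_notMem]
    intro p hp
    have h1 := hm p hp
    obtain ⟨S, hS, hA, v, b, h, hb, i, j, rfl, h2, h3⟩ := hp
    push_cast at h1
    change b.coord i φ - b.coord j φ ≤ 0 at h1
    linarith
  | succ m ihm =>
    have hz : ∀ Δ : Set Λ, Good G e ι Δ → (∀ p ∈ Bad e ι Δ A φ, p.1 φ - p.2 φ ≤ ((m + 1 : ℕ) : ℤ)) →
        {p | p ∈ Bad e ι Δ A φ ∧ p.1 φ - p.2 φ = ((m + 1 : ℕ) : ℤ)} = ∅ →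
        ∃ Δ' : Set Λ, Good G e ι Δ' ∧ Bad e ι Δ' A φ = ∅ ∧
          ∀ A' φ', Bad e ι Δ A' φ' = ∅ → Bad e ι Δ' A' φ' = ∅ := by
      intro Δ hΔ hm h0
      refine ihm _ Δ hΔ (fun p hp => ?_) le_rfl
      have h1 := hm p hp
      have h2 : p.1 φ - p.2 φ ≠ ((m + 1 : ℕ) : ℤ) := by
        intro h
        have : p ∈ {p | p ∈ Bad e ι Δ A φ ∧ p.1 φ - p.2 φ = ((m + 1 : ℕ) : ℤ)} := ⟨hp, h⟩
        rw [h0] at this
        exact this
      push_cast at h1 h2 ⊢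
      omega
    intro n
    induction n with
    | zero =>
      intro Δ hΔ hm hn
      refine hz Δ hΔ hm ?_
      have hf : {p | p ∈ Bad e ι Δ A φ ∧ p.1 φ - p.2 φ = ((m + 1 : ℕ) : ℤ)}.Finite :=
        (Bad_fin e hΔ.fin A φ).subset fun p hp => hp.1
      exact (Set.ncard_eq_zero hf).1 (Nat.le_zero.1 hn)
    | succ n ihn =>
      intro Δ hΔ hm hn
      by_cases hE : {p | p ∈ Bad e ι Δ A φ ∧ p.1 φ - p.2 φ = ((m + 1 : ℕ) : ℤ)} = ∅
      · exact hz Δ hΔ hm hE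
      obtain ⟨p0, hp0, hp0m⟩ := Set.nonempty_iff_ne_empty.2 hE
      obtain ⟨Δ', hΔ', hk, hd⟩ := step_bad he hspan hΔ hm hp0
      obtain ⟨Δ'', h1, h2, h3⟩ := ihn Δ' hΔ' (fun p hp => by
        rcases hd p hp with ⟨h, -⟩ | h
        · exact hm p h
        · exact h.le) (by
        have hf : {p | p ∈ Bad e ι Δ A φ ∧ p.1 φ - p.2 φ = ((m + 1 : ℕ) : ℤ)}.Finite :=
          (Bad_fin e hΔ.fin A φ).subset fun p hp => hp.1
        have h4 : {p | p ∈ Bad e ι Δ' A φ ∧ p.1 φ - p.2 φ = ((m + 1 : ℕ) : ℤ)} ⊆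
            {p | p ∈ Bad e ι Δ A φ ∧ p.1 φ - p.2 φ = ((m + 1 : ℕ) : ℤ)} \ {p0} := by
          rintro p ⟨hp, hpm⟩
          rcases hd p hp with ⟨h, hne⟩ | h
          · exact ⟨⟨h, hpm⟩, hne⟩
          · exact absurd hpm h.ne
        have h5 := Set.ncard_le_ncard h4 (hf.subset Set.diff_subset)
        have h6 := Set.ncard_diff_singleton_add_one (s := {p | p ∈ Bad e ι Δ A φ ∧
          p.1 φ - p.2 φ = ((m + 1 : ℕ) : ℤ)}) (a := p0) ⟨hp0, hp0m⟩ hf
        omega)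
      exact ⟨Δ'', h1, h2, fun A' φ' h => h3 A' φ' (hk A' φ' h)⟩

/-- The elimination. -/
lemma fix_all {Y : Type} [Fintype Y] [MulAction G Y] {e : Y → Λ}
    (he : ∀ (g : G) y, e (g • y) = g • e y) (hspan : Submodule.span ℤ (Set.range e) = ⊤)
    {Δ : Set Λ} (hΔ : Good G e ι Δ) (Φ : Finset Λ) :
    ∃ Δ' : Set Λ, Good G e ι Δ' ∧ ∀ A, ∀ φ ∈ Φ, Bad e ι Δ' A φ = ∅ := by
  classical
  have h1 : ∀ T : Finset (Set (Y × Y) × Λ), ∃ Δ' : Set Λ, Good G e ι Δ' ∧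
      ∀ p ∈ T, Bad e ι Δ' p.1 p.2 = ∅ := by
    intro T
    induction T using Finset.induction_on with
    | empty => exact ⟨Δ, hΔ, fun p hp => absurd hp (Finset.notMem_empty p)⟩
    | insert q T _ ih =>
      obtain ⟨Δ', h1, h2⟩ := ih
      obtain ⟨m, hm⟩ : ∃ m : ℕ, ∀ p ∈ Bad e ι Δ' q.1 q.2, p.1 q.2 - p.2 q.2 ≤ (m : ℤ) := by
        obtain ⟨m, hm⟩ := ((Bad_fin (ι := ι) e h1.fin q.1 q.2).image
          fun p : (Λ →ₗ[ℤ] ℤ) × (Λ →ₗ[ℤ] ℤ) => (p.1 q.2 - p.2 q.2).toNat).bddAbove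
        refine ⟨m, fun p hp => ?_⟩
        have h3 := hm ⟨p, hp, rfl⟩
        have h4 := Int.self_le_toNat (p.1 q.2 - p.2 q.2)
        have h5 : ((p.1 q.2 - p.2 q.2).toNat : ℤ) ≤ m := by exact_mod_cast h3
        linarith
      obtain ⟨Δ'', h3, h4, h5⟩ := fix_one he hspan q.1 q.2 m _ Δ' h1 hm le_rfl
      refine ⟨Δ'', h3, fun p hp => ?_⟩
      rcases Finset.mem_insert.1 hp with rfl | hp
      · exact h4
      · exact h5 _ _ (h2 p hp)
  obtain ⟨Δ', h2, h3⟩ := h1 ((Finset.univ : Finset (Set (Y × Y))) ×ˢ Φ)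
  exact ⟨Δ', h2, fun A φ hφ => h3 (A, φ) (Finset.mem_product.2 ⟨Finset.mem_univ _, hφ⟩)⟩

end Pool.Agent.T9h3
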