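import Pool.Agent.T9h3.OrdD

/-!
# The polytope of the orders of the coordinates
-/

set_option autoImplicit false
set_option linter.unusedSectionVars false

namespace Pool.Agent.T9h3

variable {Λ : Type} [AddCommGroup Λ]

/-- The basis of the simple roots. -/
lemma simple_basis {X : Type} [Fintype X] {ε : Module.Basis X ℤ Λ} {e : Option X → Λ}
    (hn : e none = 0) (hs : ∀ x, e (some x) = ε x) {S : AddSubmonoid Λ} (hS : IsTO S) :
    ∃ b : Module.Basis (Fin (Fintype.card X)) ℤ Λ, (∀ k, ∃ y y', b k = e y' - e y) ∧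
      (∀ k, b k ∈ S) ∧ ∀ y y', e y' - e y ∈ S → ∀ k, 0 ≤ b.coord k (e y' - e y) := by
  classical
  obtain ⟨f, hf⟩ := hS.enum e (N := Fintype.card X + 1) (by rw [Fintype.card_option])
  let c : Fin (Fintype.card X) → Λ := fun k => e (f k.succ) - e (f k.castSucc)
  -- the differences
  have h1 : ∀ j, e (f j) - e (f 0) ∈ Submodule.span ℤ (Set.range c) := by
    intro j
    induction j using Fin.induction with
    | zero => rw [sub_self]; exact Submodule.zero_mem _
    | succ k ih =>
      have h2 : e (f k.succ) - e (f 0) = (e (f k.castSucc) - e (f 0)) + c k := by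
        change _ = _ + (e (f k.succ) - e (f k.castSucc))
        abel
      rw [h2]
      exact Submodule.add_mem _ ih (Submodule.subset_span ⟨k, rfl⟩)
  have h2 : e (f 0) ∈ Submodule.span ℤ (Set.range c) := by
    have h3 := h1 (f.symm none)
    rw [f.apply_symm_apply, hn, zero_sub] at h3
    have h4 := Submodule.neg_mem _ h3
    rwa [neg_neg] at h4
  have h3 : ∀ y, e y ∈ Submodule.span ℤ (Set.range c) := by
    intro y
    have h4 := Submodule.add_mem _ (h1 (f.symm y)) h2
    rwa [f.apply_symm_apply, sub_add_cancel] at h4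
  have h4 : ⊤ ≤ Submodule.span ℤ (Set.range c) := by
    rw [← ε.span_eq, Submodule.span_le]
    rintro _ ⟨x, rfl⟩
    rw [← hs]
    exact h3 _
  haveI : Module.Free ℤ Λ := Module.Free.of_basis ε
  haveI : Module.Finite ℤ Λ := Module.Finite.of_basis ε
  have h5 : Fintype.card (Fin (Fintype.card X)) = Module.finrank ℤ Λ := by
    rw [Fintype.card_fin, Module.finrank_eq_card_basis ε]
  let b : Module.Basis (Fin (Fintype.card X)) ℤ Λ :=
    Module.Basis.mk (linearIndependent_of_top_le_span_of_card_eq_finrank h4 h5) h4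
  have hb : ∀ k, b k = e (f k.succ) - e (f k.castSucc) := fun k => by
    change Module.Basis.mk _ _ k = _
    rw [Module.Basis.mk_apply]
  refine ⟨b, fun k => ⟨_, _, hb k⟩, fun k => ?_, ?_⟩
  · rw [hb]
    exact hf _ _ Fin.castSucc_lt_succ.le
  · have h6 : ∀ i j, i ≤ j → ∀ k, 0 ≤ b.coord k (e (f j) - e (f i)) := by
      intro i j
      induction j using Fin.induction with
      | zero =>
        intro hij k
        have : i = 0 := Fin.le_zero_iff.1 hij
        rw [this, sub_self, map_zero]
      | succ l ih =>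
        intro hij k
        by_cases h7 : i ≤ l.castSucc
        · have h8 : e (f l.succ) - e (f i) = (e (f l.castSucc) - e (f i)) + b l := by
            rw [hb]; abel
          rw [h8, map_add]
          exact add_nonneg (ih h7 k) (coord_nonneg b k l)
        · have h8 : i = l.succ := by
            refine le_antisymm hij ?_
            rw [not_le] at h7
            exact Fin.castSucc_lt_iff_succ_le.1 h7
          rw [h8, sub_self, map_zero]
    intro y y' hy k
    have h7 : e y' - e y = e (f (f.symm y')) - e (f (f.symm y)) := by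
      rw [f.apply_symm_apply, f.apply_symm_apply]
    rcases le_total (f.symm y) (f.symm y') with h8 | h8
    · rw [h7]
      exact h6 _ _ h8 k
    · have h9 := hf _ _ h8
      rw [← neg_sub, ← h7] at h9
      rw [hS.anti _ hy h9, map_zero]

/-- The polytope. -/
def PH {X : Type} (e : Option X → Λ) : Set Λ :=
  {x | ∃ T : Finset (Option X × Option X), x = ∑ p ∈ T, (e p.2 - e p.1)}

lemma PH_CD {X : Type} [Fintype X] {e : Option X → Λ} {S : AddSubmonoid Λ} (hS : IsTO S)
    {b : Module.Basis (Fin (Fintype.card X)) ℤ Λ} (h1 : ∀ k, ∃ y y', b k = e y' - e y)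
    (h2 : ∀ k, b k ∈ S) (h3 : ∀ y y', e y' - e y ∈ S → ∀ k, 0 ≤ b.coord k (e y' - e y)) :
    ∃ v, CD (PH e) v b := by
  classical
  let T0 : Finset (Option X × Option X) := Finset.univ.filter fun p => -(e p.2 - e p.1) ∈ S
  refine ⟨∑ p ∈ T0, (e p.2 - e p.1), ⟨T0, rfl⟩, fun k => ?_, ?_⟩
  · obtain ⟨y, y', hk⟩ := h1 k
    have h4 : (y', y) ∈ T0 := by
      rw [Finset.mem_filter]
      refine ⟨Finset.mem_univ _, ?_⟩
      rw [neg_sub, ← hk]
      exact h2 k
    refine ⟨T0.erase (y', y), ?_⟩
    rw [← Finset.add_sum_erase _ _ h4, hk]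
    abel
  · rintro _ ⟨T, rfl⟩ k
    have h4 : ∑ p ∈ T, (e p.2 - e p.1) - ∑ p ∈ T0, (e p.2 - e p.1) =
        ∑ p ∈ T \ T0, (e p.2 - e p.1) + ∑ p ∈ T0 \ T, -(e p.2 - e p.1) := by
      rw [Finset.sum_neg_distrib, ← sub_eq_add_neg, Finset.sum_sdiff_sub_sum_sdiff]
    rw [h4]
    change 0 ≤ b.coord k _
    rw [map_add, map_sum, map_sum]
    refine add_nonneg (Finset.sum_nonneg fun p hp => ?_) (Finset.sum_nonneg fun p hp => ?_)
    · rw [Finset.mem_sdiff, Finset.mem_filter] at hp
      refine h3 _ _ ?_ k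
      rcases hS.tot (e p.2 - e p.1) with h5 | h5
      · exact h5
      · exact absurd ⟨Finset.mem_univ _, h5⟩ hp.2
    · rw [Finset.mem_sdiff, Finset.mem_filter] at hp
      rw [neg_sub]
      refine h3 _ _ ?_ k
      rw [← neg_sub]
      exact hp.1.2

/-- The starting point of the elimination. -/
lemma PH_good {G : Type} [Group G] [DistribMulAction G Λ] {X : Type} [Fintype X] [MulAction G X]
    {ε : Module.Basis X ℤ Λ} (hε : ∀ (g : G) x, ε (g • x) = g • ε x) {e : Option X → Λ}
    (hn : e none = 0) (hs : ∀ x, e (some x) = ε x) :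
    Good G e (Fin (Fintype.card X)) (PH e) := by
  classical
  have he : ∀ (g : G) y, e (g • y) = g • e y := by
    intro g y
    cases y with
    | none => rw [Option.smul_none, hn, smul_zero]
    | some x => rw [Option.smul_some, hs, hs, hε]
  refine ⟨?_, ?_, ?_, ?_⟩
  · refine (Set.finite_range fun T : Finset (Option X × Option X) =>
      ∑ p ∈ T, (e p.2 - e p.1)).subset ?_
    rintro _ ⟨T, rfl⟩
    exact ⟨T, rfl⟩
  · rintro g _ ⟨T, rfl⟩
    refine ⟨T.image fun p => (g • p.1, g • p.2), ?_⟩
    rw [Finset.smul_sum, Finset.sum_image]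
    · refine Finset.sum_congr rfl fun p _ => ?_
      rw [smul_sub, he, he]
    · intro p _ q _ hpq
      rw [Prod.mk.injEq] at hpq
      exact Prod.ext (MulAction.injective g hpq.1) (MulAction.injective g hpq.2)
  · intro S hS
    obtain ⟨b, h1, h2, h3⟩ := simple_basis hn hs hS
    obtain ⟨v, hv⟩ := PH_CD hS h1 h2 h3
    exact ⟨v, b, hv, h2⟩
  · intro S hS v' b' h' hb' k
    obtain ⟨b, h1, h2, h3⟩ := simple_basis hn hs hS
    obtain ⟨v, hv⟩ := PH_CD hS h1 h2 h3
    have h4 := CD.uniq hv h' hS h2 hb'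
    obtain ⟨l, hl⟩ := fan hv h' (i := k) (by rw [h4])
    rw [← hl]
    intro p hp
    have h5 := h3 p.1 p.2 hp l
    rw [map_sub] at h5
    linarith

end Pool.Agent.T9h3
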