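import Pool.Agent.T9h3.Gen

/-!
# Characters of a torus with an automorphism of prime order: operators and parameters
-/

set_option autoImplicit false
set_option linter.unusedSectionVars false

namespace Pool.Agent.T9h3

open MvPolynomial

section ops

variable {K : Type} [Field K]

/-- The operator `σ`. -/
def sK (σ : K →+* K) : Module.End ℤ K := σ.toAddMonoidHom.toIntLinearMap

/-- The operator `σ - 1`. -/
def dK (σ : K →+* K) : Module.End ℤ K := sK σ - 1

lemma sK_apply (σ : K →+* K) (x : K) : sK σ x = σ x := rfl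

lemma dK_apply (σ : K →+* K) (x : K) : dK σ x = σ x - x := rfl

lemma dK_pow (σ : K →+* K) (m : ℕ) (z : K) : (dK σ ^ m) z =
    ∑ a ∈ Finset.range (m + 1), (((-1) ^ (m - a) * (m.choose a : ℤ) : ℤ) : K) * (sK σ ^ a) z := by
  have h1 : dK σ ^ m = ∑ a ∈ Finset.range (m + 1),
      sK σ ^ a * (-1) ^ (m - a) * (m.choose a : Module.End ℤ K) := by
    rw [← (Commute.neg_one_right (sK σ)).add_pow]
    unfold dK
    rw [sub_eq_add_neg]
  rw [h1, LinearMap.sum_apply]
  refine Finset.sum_congr rfl fun a _ => ?_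
  have h2 : (sK σ ^ a * (-1) ^ (m - a) * (m.choose a : Module.End ℤ K)) =
      ((-1) ^ (m - a) * (m.choose a : ℤ) : ℤ) • sK σ ^ a := by
    rw [zsmul_eq_mul, mul_assoc]
    have h3 := (Int.cast_commute ((-1) ^ (m - a) * (m.choose a : ℤ)) (sK σ ^ a)).eq
    push_cast at h3 ⊢
    exact h3.symm
  rw [h2, LinearMap.smul_apply, zsmul_eq_mul]

lemma sK_pow (σ : K →+* K) (m : ℕ) (z : K) : (sK σ ^ m) z =
    ∑ a ∈ Finset.range (m + 1), (m.choose a : K) * (dK σ ^ a) z := by
  have h1 : sK σ ^ m = ∑ a ∈ Finset.range (m + 1),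
      dK σ ^ a * 1 ^ (m - a) * (m.choose a : Module.End ℤ K) := by
    rw [← (Commute.one_right (dK σ)).add_pow]
    congr 1
    unfold dK
    rw [sub_add_cancel]
  rw [h1, LinearMap.sum_apply]
  refine Finset.sum_congr rfl fun a _ => ?_
  have h2 : dK σ ^ a * 1 ^ (m - a) * (m.choose a : Module.End ℤ K) = m.choose a • dK σ ^ a := by
    rw [one_pow, mul_one, nsmul_eq_mul]
    exact (Nat.cast_commute (m.choose a) (dK σ ^ a)).eq.symm
  rw [h2, LinearMap.smul_apply, nsmul_eq_mul]

end ops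

end Pool.Agent.T9h3
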