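import Pool.Agent.T9h3.Regu

/-!
# Characters of a torus with an automorphism of prime order: the graded algebra is regular
-/

set_option autoImplicit false
set_option linter.unusedSectionVars false

namespace Pool.Agent.T9h3

open MvPolynomial IsLocalRing Pool.Agent.W418.LU2 Algebra Pool.Agent.Y223.G
open Pool.Agent.Y614.WC (exists_unif not_mem_sq FI_zero FI_anti FI_mul FI_gen coeff_filt)

variable {O K Λ ι : Type} [CommRing O] [IsDomain O] [IsDedekindDomain O] [Field K]
  [Algebra O K] [AddCommGroup Λ] [Fintype ι] {χ : Λ → K} {b : Module.Basis ι ℤ Λ}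
  {p : ℕ} {σ : K →+* K} {t : O →+* O}
  {s : Module.End ℤ Λ} {𝔓 : Ideal O} {l : ℕ} {Δ : Set Λ} {v : Λ}

/-- **The graded algebra is regular.** -/
theorem GR_reg (h : TD O K Λ p σ t s χ 𝔓 l) (hc : CD Δ v b) (hΔ : ∀ m ∈ Δ, s m ∈ Δ)
    (hfin : Δ.Finite) (hR : RD p s Δ v b) : IsRegularRing (GR χ σ p s 𝔓 l Δ v) := by
  classical
  have hj := ev_inj h.χ0 h.χa h.lin b
  refine Pool.Agent.Y563.GW.t_WCH Pool.Agent.Y901.G.t_WREG O K _ (GR_noeth hfin) GR_gr GR_s
    (fun d x hx => GR_zero hx) (MvPolynomial ι O) (ev O χ b) hj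
    (GR_deg0 h hΔ hc) inferInstance ?_
  intro Q hQ hQpos
  have hT : CT p s 𝔓 Δ v b Q := by
    refine ⟨fun a ha => hQpos 1 _ Nat.one_pos ?_, fun m hm m' hm' hN => hQpos (1 * l) _ ?_ ?_⟩
    · rw [ev_C]
      exact GR_P ha
    · have := h.l1
      omega
    · have h1 : ev O χ b (mon O b (m - v) - mon O b (m' - v)) = (χ m - χ m') / χ v := by
        rw [map_sub, ev_mon h.χ0 h.χa b (hc.nn m hm), ev_mon h.χ0 h.χa b (hc.nn m' hm'),
          chi_sub h.χ0 h.χa, chi_sub h.χ0 h.χa, sub_div]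
      rw [h1]
      have hp2 := h.pp.two_le
      exact GR_W (k := 1) (by omega) (WW_one.2 (Submodule.subset_span ⟨m, hm, m', hm', hN, rfl⟩))
  have Y : CY χ b Q p σ t s 𝔓 l Δ v := ⟨h, hc, hΔ, hT, hR⟩
  obtain ⟨π, hπ, hπn⟩ := h.un
  obtain ⟨ϖ, r, J, hJ, k, μ, D⟩ := exists_PD h.pp h.sp hc hΔ hT hπ hπn
  have hB : ∀ i : PI ϖ r J p, ∃ e, e ∉ Q ∧
      hm (pa ϖ r k l p i) (ev O χ b e * ev O χ b (px s v b ϖ r μ π p i)) ∈
        GR χ σ p s 𝔓 l Δ v := fun i => D.FleB Y (FF_gen i)
  choose e he heR using hB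
  have hu : ∀ i, IsUnit (algebraMap (MvPolynomial ι O) (Localization.AtPrime Q) (e i)) :=
    fun i => IsLocalization.map_units (M := Q.primeCompl) _ ⟨e i, he i⟩
  refine ⟨PI ϖ r J p, inferInstance, fun i => e i * px s v b ϖ r μ π p i, pa ϖ r k l p,
    fun i => ⟨?_, ?_⟩, ?_, ?_⟩
  · have hl := h.l1
    rcases i with _ | (j | ⟨c, n⟩)
    · exact Nat.one_pos
    · exact Nat.mul_pos (D.k1 j).1 hl
    · exact Nat.mul_pos (Nat.succ_pos _) hl
  · rw [map_mul]
    exact heR i
  · have h1 := ind_unit (D.isInd Y) hu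
    have h2 : (fun i => algebraMap (MvPolynomial ι O) (Localization.AtPrime Q)
        (e i * px s v b ϖ r μ π p i)) = fun i => algebraMap (MvPolynomial ι O)
        (Localization.AtPrime Q) (e i) * algebraMap (MvPolynomial ι O)
        (Localization.AtPrime Q) (px s v b ϖ r μ π p i) := by
      funext i
      rw [map_mul]
    rw [h2]
    exact h1
  · intro n y hy
    have h1 : ev O χ b y ∈ (Fx χ b Q p s l v ϖ r k μ π).F n := D.BleF Y (BB_of hy)
    obtain ⟨f, hf, g, hg, hfg⟩ := h1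
    rw [Int.toNat_natCast] at hg
    rw [← map_mul] at hfg
    have h2 := hj hfg
    have h3 : algebraMap (MvPolynomial ι O) (Localization.AtPrime Q) f *
        algebraMap (MvPolynomial ι O) (Localization.AtPrime Q) y ∈
        FI (fun i => algebraMap (MvPolynomial ι O) (Localization.AtPrime Q)
          (e i * px s v b ϖ r μ π p i)) (pa ϖ r k l p) n := by
      rw [← map_mul, h2]
      have h4 := FI_unit hu n (FI_map (algebraMap (MvPolynomial ι O) (Localization.AtPrime Q)) hg)
      have h5 : (fun i => algebraMap (MvPolynomial ι O) (Localization.AtPrime Q)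
          (e i * px s v b ϖ r μ π p i)) = fun i => algebraMap (MvPolynomial ι O)
          (Localization.AtPrime Q) (e i) * algebraMap (MvPolynomial ι O)
          (Localization.AtPrime Q) (px s v b ϖ r μ π p i) := by
        funext i
        rw [map_mul]
      rw [h5]
      exact h4
    exact (Ideal.unit_mul_mem_iff_mem _
      (IsLocalization.map_units (M := Q.primeCompl) _ (⟨f, hf⟩ : Q.primeCompl))).1 h3

end Pool.Agent.T9h3
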