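import Pool.Agent.T9h3.Indp
import Pool.Agent.Y563.G.Wch
import Pool.Agent.Y901.G.Wreg
import Pool.Agent.R383.TM.NumF

/-!
# Characters of a torus with an automorphism of prime order: the graded algebra is regular
-/

set_option autoImplicit false
set_option linter.unusedSectionVars false

namespace Pool.Agent.T9h3

open MvPolynomial IsLocalRing Pool.Agent.W418.LU2 Algebra Pool.Agent.Y223.G
open Pool.Agent.Y614.WC (exists_unif not_mem_sq FI_zero FI_anti FI_mul FI_gen coeff_filt)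

section units

lemma ind_unit {B ι : Type} [CommRing B] [IsLocalRing B] [Fintype ι] {z u : ι → B} (hz : Ind z)
    (hu : ∀ i, IsUnit (u i)) : Ind (fun i => u i * z i) := by
  refine ⟨fun i => (maximalIdeal B).mul_mem_left _ (hz.1 i), fun c hc i => ?_⟩
  have h1 := hz.2 (fun i => c i * u i) (by
    have h2 : ∑ i, c i * u i * z i = ∑ i, c i * (u i * z i) :=
      Finset.sum_congr rfl fun i _ => by ring
    rw [h2]
    exact hc) i
  exact (Ideal.mul_unit_mem_iff_mem _ (hu i)).1 h1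

lemma FI_unit {B ι : Type} [CommRing B] [Fintype ι] {z u : ι → B} {a : ι → ℕ}
    (hu : ∀ i, IsUnit (u i)) (n : ℕ) : FI z a n ≤ FI (fun i => u i * z i) a n := by
  unfold FI
  rw [Ideal.span_le]
  rintro y ⟨m, hm, rfl⟩
  choose w hw using fun i => (hu i).exists_left_inv
  have h1 : ∏ i, z i ^ m i = (∏ i, w i ^ m i) * ∏ i, (u i * z i) ^ m i := by
    rw [← Finset.prod_mul_distrib]
    refine Finset.prod_congr rfl fun i _ => ?_
    rw [← mul_pow, ← mul_assoc, hw, one_mul]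
  rw [h1]
  exact Ideal.mul_mem_left _ _ (Ideal.subset_span ⟨m, hm, rfl⟩)

lemma FI_map {A B ι : Type} [CommRing A] [CommRing B] [Fintype ι] (f : A →+* B) {z : ι → A}
    {a : ι → ℕ} {n : ℕ} {y : A} (hy : y ∈ FI z a n) : f y ∈ FI (fun i => f (z i)) a n := by
  unfold FI at hy ⊢
  induction hy using Submodule.span_induction with
  | mem y hy =>
    obtain ⟨m, hm, rfl⟩ := hy
    refine Ideal.subset_span ⟨m, hm, ?_⟩
    rw [map_prod]
    simp only [map_pow]
  | zero => rw [map_zero]; exact Ideal.zero_mem _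
  | add x y _ _ hx hy => rw [map_add]; exact Ideal.add_mem _ hx hy
  | smul c x _ hx => rw [smul_eq_mul, map_mul]; exact Ideal.mul_mem_left _ _ hx

end units

section noeth

variable {O K Λ : Type} [CommRing O] [IsNoetherianRing O] [Field K]
  [Algebra O K] [AddCommGroup Λ] {χ : Λ → K}
  {p : ℕ} {σ : K →+* K} {s : Module.End ℤ Λ} {𝔓 : Ideal O} {l : ℕ} {Δ : Set Λ} {v : Λ}

lemma W1_fg (hΔ : Δ.Finite) : (W1 χ p s Δ).FG := by
  have h1 : {x | ∃ m ∈ Δ, ∃ m' ∈ Δ, Nm p s m = Nm p s m' ∧ x = χ m - χ m'}.Finite := by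
    refine ((hΔ.prod hΔ).image fun mm : Λ × Λ => χ mm.1 - χ mm.2).subset ?_
    rintro x ⟨m, hm, m', hm', -, rfl⟩
    exact ⟨(m, m'), ⟨hm, hm'⟩, rfl⟩
  exact Submodule.fg_span h1

lemma WW_fg (hΔ : Δ.Finite) (k : ℕ) : (WW χ σ p s Δ k).FG := by
  rcases k with _ | k
  · exact Submodule.fg_span (hΔ.image _)
  · exact (W1_fg hΔ).map _

/-- The graded algebra is noetherian. -/
lemma GR_noeth (hΔ : Δ.Finite) : IsNoetherianRing (GR χ σ p s 𝔓 l Δ v) := by
  classical
  obtain ⟨G𝔓, hG𝔓⟩ := (isNoetherian_def.1 inferInstance : ∀ I : Submodule O O, I.FG) 𝔓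
  choose G hG using fun k => WW_fg (χ := χ) (σ := σ) (p := p) (s := s) hΔ k
  obtain ⟨S, hSdef⟩ : ∃ S : Set (LP K),
    S = {hm (-1) 1} ∪ ((fun a => hm 1 (algebraMap O K a)) '' (G𝔓 : Set O)) ∪
    ⋃ k ∈ Finset.range (p - 1 + 1), (fun u => hm (k * l : ℕ) (u / χ v)) '' (G k : Set K) :=
    ⟨_, rfl⟩
  have hS : S.Finite := by
    rw [hSdef]
    refine ((Set.finite_singleton _).union (G𝔓.finite_toSet.image _)).union ?_
    exact Set.Finite.biUnion (Finset.finite_toSet _) fun k _ => (G k).finite_toSet.image _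
  have hle : GR χ σ p s 𝔓 l Δ v ≤ Algebra.adjoin O S := by
    unfold GR
    rw [Algebra.adjoin_le_iff]
    rintro f ((hf | ⟨a, ha, rfl⟩) | ⟨k, hk, u, hu, rfl⟩)
    · exact Algebra.subset_adjoin (hSdef ▸ Or.inl (Or.inl hf))
    · rw [← hG𝔓] at ha
      induction ha using Submodule.span_induction with
      | mem x hx => exact Algebra.subset_adjoin (hSdef ▸ Or.inl (Or.inr ⟨x, hx, rfl⟩))
      | zero => rw [map_zero, hm_zero]; exact Subalgebra.zero_mem _
      | add x y _ _ hx hy => rw [map_add, hm_add]; exact Subalgebra.add_mem _ hx hy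
      | smul c x _ hx =>
        have h1 := Subalgebra.mul_mem _ (Subalgebra.algebraMap_mem (Algebra.adjoin O S) c) hx
        rw [algebraMap_LP, hm_mul, ← map_mul, zero_add] at h1
        exact h1
    · rw [← hG k] at hu
      induction hu using Submodule.span_induction with
      | mem x hx =>
        refine Algebra.subset_adjoin (hSdef ▸ Or.inr ?_)
        rw [Set.mem_iUnion₂]
        exact ⟨k, Finset.mem_range.2 (by omega), x, hx, rfl⟩
      | zero => rw [zero_div, hm_zero]; exact Subalgebra.zero_mem _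
      | add x y _ _ hx hy => rw [add_div, hm_add]; exact Subalgebra.add_mem _ hx hy
      | smul c x _ hx =>
        have h1 : hm (k * l : ℕ) (c • x / χ v) = hm 0 (c : K) * hm (k * l : ℕ) (x / χ v) := by
          rw [zsmul_eq_mul, mul_div_assoc, hm_mul, zero_add]
        rw [h1]
        have h2 := Subalgebra.algebraMap_mem (Algebra.adjoin O S) (c : O)
        rw [algebraMap_LP, map_intCast] at h2
        exact Subalgebra.mul_mem _ h2 hx
  have hge : Algebra.adjoin O S ≤ GR χ σ p s 𝔓 l Δ v := by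
    rw [Algebra.adjoin_le_iff, hSdef]
    rintro f ((hf | ⟨a, ha, rfl⟩) | hf)
    · rw [Set.mem_singleton_iff] at hf
      rw [hf]
      exact GR_s
    · exact GR_P (by rw [← hG𝔓]; exact Submodule.subset_span ha)
    · rw [Set.mem_iUnion₂] at hf
      obtain ⟨k, hk, u, hu, rfl⟩ := hf
      rw [Finset.mem_range] at hk
      exact GR_W (by omega) (by rw [← hG k]; exact Submodule.subset_span hu)
  have heq := le_antisymm hle hge
  have hfg : (GR χ σ p s 𝔓 l Δ v).FG := ⟨hS.toFinset, by rw [Set.Finite.coe_toFinset, heq]⟩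
  have hft : Algebra.FiniteType O (GR χ σ p s 𝔓 l Δ v) :=
    (Subalgebra.fg_iff_finiteType _).1 hfg
  exact Algebra.FiniteType.isNoetherianRing O _

lemma GR_gr : Gr (GR χ σ p s 𝔓 l Δ v) := by
  refine gr_adjoin _ ?_
  rintro f ((hf | ⟨a, ha, rfl⟩) | ⟨k, hk, u, hu, rfl⟩)
  · exact ⟨-1, 1, hf⟩
  · exact ⟨_, _, rfl⟩
  · exact ⟨_, _, rfl⟩

lemma GR_low {d e : ℤ} {x : K} (h : hm d x ∈ GR χ σ p s 𝔓 l Δ v) (he : e ≤ d) :
    hm e x ∈ GR χ σ p s 𝔓 l Δ v := Pool.Agent.R383.TM.low_mem GR_s h he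

lemma GR_zero {d : ℤ} {x : K} (h : hm d x ∈ GR χ σ p s 𝔓 l Δ v) :
    hm 0 x ∈ GR χ σ p s 𝔓 l Δ v := by
  have h1 := coeff_filt (k := O) (fun n => {x : K | hm n x ∈ GR χ σ p s 𝔓 l Δ v})
    (fun n => by
      change hm n (0 : K) ∈ GR χ σ p s 𝔓 l Δ v
      rw [hm_zero]; exact Subalgebra.zero_mem _)
    (fun n x y hx hy => by
      change hm n (x + y) ∈ GR χ σ p s 𝔓 l Δ v
      rw [hm_add]; exact Subalgebra.add_mem _ hx hy)
    (fun m n x y hx hy => by
      change hm (m + n : ℕ) (x * y) ∈ GR χ σ p s 𝔓 l Δ v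
      have h2 : hm m x ∈ GR χ σ p s 𝔓 l Δ v := hx
      have h3 : hm n y ∈ GR χ σ p s 𝔓 l Δ v := hy
      have h4 := Subalgebra.mul_mem _ h2 h3
      rw [hm_mul] at h4
      exact_mod_cast h4)
    (fun m n hmn x hx => GR_low hx (by exact_mod_cast hmn))
    (fun r => GR_O r) _ (by
      rintro f ((hf | ⟨a, ha, rfl⟩) | ⟨k, hk, u, hu, rfl⟩)
      · refine ⟨-1, 1, ?_, hf⟩
        change hm ((-1 : ℤ).toNat : ℤ) (1 : K) ∈ GR χ σ p s 𝔓 l Δ v
        exact Subalgebra.one_mem _
      · exact ⟨1, _, GR_P ha, rfl⟩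
      · refine ⟨_, _, ?_, rfl⟩
        change hm (((k * l : ℕ) : ℤ).toNat : ℤ) (u / χ v) ∈ GR χ σ p s 𝔓 l Δ v
        rw [Int.toNat_natCast]
        exact GR_W hk hu) _ h d
  rw [coeff_hm_same] at h1
  exact GR_low h1 (by positivity)

end noeth

section reg

variable {O K Λ ι : Type} [CommRing O] [IsDomain O] [IsDedekindDomain O] [Field K]
  [Algebra O K] [AddCommGroup Λ] [Fintype ι] {χ : Λ → K} {b : Module.Basis ι ℤ Λ}
  {p : ℕ} {σ : K →+* K} {t : O →+* O}
  {s : Module.End ℤ Λ} {𝔓 : Ideal O} {l : ℕ} {Δ : Set Λ} {v : Λ}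

/-- The elements of degree zero. -/
lemma GR_deg0 (h : TD O K Λ p σ t s χ 𝔓 l) (hΔ : ∀ m ∈ Δ, s m ∈ Δ) (hc : CD Δ v b) (y : K) :
    hm 0 y ∈ GR χ σ p s 𝔓 l Δ v ↔ ∃ c, ev O χ b c = y := by
  constructor
  · intro hy
    have h1 := coeff_filt (k := O) (fun _ => ((ev O χ b).range : Set K))
      (fun n => Subring.zero_mem _) (fun n x y hx hy => Subring.add_mem _ hx hy)
      (fun m n x y hx hy => Subring.mul_mem _ hx hy) (fun m n _ => subset_rfl)
      (fun r => ⟨C r, ev_C _ _⟩) _ (by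
        rintro f ((hf | ⟨a, ha, rfl⟩) | ⟨k, hk, u, hu, rfl⟩)
        · exact ⟨-1, 1, Subring.one_mem _, hf⟩
        · exact ⟨1, _, ⟨C a, ev_C _ _⟩, rfl⟩
        · refine ⟨_, _, ?_, rfl⟩
          have hu0 := WW_mono h.sp h.σχ hΔ (Nat.zero_le k) hu
          clear hu
          change u ∈ Submodule.span ℤ (χ '' Δ) at hu0
          change u / χ v ∈ (ev O χ b).range
          induction hu0 using Submodule.span_induction with
          | mem x hx =>
            obtain ⟨m, hm, rfl⟩ := hx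
            refine ⟨mon O b (m - v), ?_⟩
            rw [ev_mon h.χ0 h.χa b (hc.nn m hm), chi_sub h.χ0 h.χa]
          | zero => rw [zero_div]; exact Subring.zero_mem _
          | add x y _ _ hx hy => rw [add_div]; exact Subring.add_mem _ hx hy
          | smul c x _ hx =>
            rw [zsmul_eq_mul, mul_div_assoc]
            exact Subring.mul_mem _ (intCast_mem _ c) hx) _ hy 0
    rw [coeff_hm_same] at h1
    obtain ⟨c, hc⟩ := h1
    exact ⟨c, hc⟩
  · rintro ⟨c, rfl⟩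
    exact GR_C h.χ0 h.χa hc c

end reg

end Pool.Agent.T9h3
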