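import Pool.Agent.T9h3.Chg

/-!
# Multiples of lattice polytopes
-/

set_option autoImplicit false
set_option linter.unusedSectionVars false

namespace Pool.Agent.T9h3

variable {Λ : Type} [AddCommGroup Λ] {Δ : Set Λ}

/-- The multiples. -/
def MS (Δ : Set Λ) : ℕ → Set Λ
  | 0 => {0}
  | k + 1 => {x | ∃ m ∈ MS Δ k, ∃ m' ∈ Δ, x = m + m'}

lemma MS_fin (hΔ : Δ.Finite) (k : ℕ) : (MS Δ k).Finite := by
  induction k with
  | zero => exact Set.finite_singleton _
  | succ k ih =>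
    refine ((ih.prod hΔ).image fun mm : Λ × Λ => mm.1 + mm.2).subset ?_
    rintro x ⟨m, hm, m', hm', rfl⟩
    exact ⟨(m, m'), ⟨hm, hm'⟩, rfl⟩

lemma MS_st {s : Module.End ℤ Λ} (hΔ : ∀ m ∈ Δ, s m ∈ Δ) (k : ℕ) : ∀ m ∈ MS Δ k, s m ∈ MS Δ k := by
  induction k with
  | zero =>
    intro m hm
    have h1 : m = 0 := hm
    rw [h1, map_zero]
    rfl
  | succ k ih =>
    rintro _ ⟨m, hm, m', hm', rfl⟩
    exact ⟨s m, ih m hm, s m', hΔ m' hm', map_add _ _ _⟩

lemma MS_nsmul {v : Λ} (hv : v ∈ Δ) (k : ℕ) : k • v ∈ MS Δ k := by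
  induction k with
  | zero => rw [zero_smul]; rfl
  | succ k ih => exact ⟨_, ih, v, hv, succ_nsmul v k⟩

lemma MS_pt {ι : Type} [Fintype ι] {v : Λ} {b : Module.Basis ι ℤ Λ} (hc : CD Δ v b) (k : ℕ) :
    ∀ c : ι → ℕ, ∑ i, c i ≤ k → k • v + ∑ i, (c i : ℤ) • b i ∈ MS Δ k := by
  classical
  induction k with
  | zero =>
    intro c hc0
    have h1 : ∀ i, c i = 0 := by
      intro i
      exact (Finset.sum_eq_zero_iff.1 (Nat.le_zero.1 hc0)) i (Finset.mem_univ i)
    have h2 : ∑ i, (c i : ℤ) • b i = 0 := Finset.sum_eq_zero fun i _ => by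
      rw [h1 i, Nat.cast_zero, zero_smul]
    rw [h2, zero_smul, add_zero]
    rfl
  | succ k ih =>
    intro c hck
    by_cases h : ∑ i, c i ≤ k
    · refine ⟨_, ih c h, v, hc.vm, ?_⟩
      rw [succ_nsmul]
      abel
    · obtain ⟨i, hi⟩ : ∃ i, 0 < c i := by
        by_contra hcon
        push Not at hcon
        apply h
        have : ∑ i, c i = 0 := Finset.sum_eq_zero fun i _ => Nat.le_zero.1 (hcon i)
        omega
      have h1 : ∑ j, Function.update c i (c i - 1) j ≤ k := by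
        rw [← Finset.add_sum_erase _ _ (Finset.mem_univ i)] at hck ⊢
        rw [Function.update_self]
        have h2 : (Finset.univ.erase i).sum (Function.update c i (c i - 1)) =
            (Finset.univ.erase i).sum c := Finset.sum_congr rfl
          fun j hj => Function.update_of_ne (Finset.ne_of_mem_erase hj) _ _
        have hck' : c i + (Finset.univ.erase i).sum c ≤ k + 1 := hck
        change c i - 1 + (Finset.univ.erase i).sum (Function.update c i (c i - 1)) ≤ k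
        omega
      refine ⟨_, ih _ h1, v + b i, hc.nb i, ?_⟩
      have h3 : ∑ j, (c j : ℤ) • b j = ∑ j, (Function.update c i (c i - 1) j : ℤ) • b j + b i := by
        rw [← Finset.add_sum_erase _ _ (Finset.mem_univ i),
          ← Finset.add_sum_erase (a := i) _
            (fun j => ((Function.update c i (c i - 1) j : ℕ) : ℤ) • b j) (Finset.mem_univ i)]
        have h2 : ∀ j ∈ Finset.univ.erase i,
            ((Function.update c i (c i - 1) j : ℕ) : ℤ) • b j = (c j : ℤ) • b j :=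
          fun j hj => by rw [Function.update_of_ne (Finset.ne_of_mem_erase hj)]
        rw [Finset.sum_congr rfl h2, Function.update_self]
        have h4 : ((c i : ℕ) : ℤ) = ((c i - 1 : ℕ) : ℤ) + 1 := by omega
        rw [h4, add_smul, one_smul]
        abel
      rw [h3, succ_nsmul]
      abel

lemma MS_CD {ι : Type} [Fintype ι] {v : Λ} {b : Module.Basis ι ℤ Λ} (hc : CD Δ v b) {k : ℕ}
    (hk : 1 ≤ k) : CD (MS Δ k) (k • v) b := by
  classical
  refine ⟨MS_nsmul hc.vm k, fun i => ?_, ?_⟩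
  · have h1 := MS_pt hc k (Pi.single i 1) (by
      rw [Finset.sum_pi_single']
      simpa using hk)
    have h2 : ∑ j, ((Pi.single i 1 : ι → ℕ) j : ℤ) • b j = b i := by
      rw [Finset.sum_eq_single i]
      · simp
      · intro j _ hj
        rw [Pi.single_eq_of_ne hj]
        simp
      · intro h; exact absurd (Finset.mem_univ _) h
    rwa [h2] at h1
  · clear hk
    induction k with
    | zero =>
      intro m hm i
      have h1 : m = 0 := hm
      rw [h1]
      simp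
    | succ k ih =>
      rintro _ ⟨m, hm, m', hm', rfl⟩ i
      have h1 : m + m' - (k + 1) • v = (m - k • v) + (m' - v) := by
        rw [succ_nsmul]; abel
      rw [h1, map_add, Finsupp.add_apply]
      exact add_nonneg (ih m hm i) (hc.nn m' hm' i)

/-- The richness of the multiples. -/
lemma MS_RD {ι : Type} [Fintype ι] {v : Λ} {b : Module.Basis ι ℤ Λ} (hc : CD Δ v b) (p : ℕ)
    (s : Module.End ℤ Λ) : ∃ k₀ : ℕ, ∀ k, k₀ ≤ k → RD p s (MS Δ k) (k • v) b := by
  classical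
  have hfin : Module.Finite ℤ Λ := Module.Finite.of_basis b
  have hN : IsNoetherian ℤ Λ := inferInstance
  have hS : ∀ S : Set ι, ∃ k₀ : ℕ, ∀ k, k₀ ≤ k → ∀ x : Λ, (∀ i ∈ S, b.repr x i = 0) →
      Nm p s x = 0 → x ∈ Submodule.span ℤ {y : Λ | (∀ i ∈ S, b.repr y i = 0) ∧ Nm p s y = 0 ∧
        k • v + pp b y ∈ MS Δ k ∧ k • v + pp b (-y) ∈ MS Δ k} := by
    intro S
    let L : Submodule ℤ Λ :=
      { carrier := {x | (∀ i ∈ S, b.repr x i = 0) ∧ Nm p s x = 0}
        add_mem' := by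
          rintro x y ⟨h1, h2⟩ ⟨h3, h4⟩
          refine ⟨fun i hi => ?_, ?_⟩
          · rw [map_add, Finsupp.add_apply, h1 i hi, h3 i hi, add_zero]
          · rw [map_add, h2, h4, add_zero]
        zero_mem' := ⟨fun i _ => by rw [map_zero, Finsupp.zero_apply], map_zero _⟩
        smul_mem' := by
          rintro c x ⟨h1, h2⟩
          refine ⟨fun i hi => ?_, ?_⟩
          · rw [map_smul, Finsupp.smul_apply, h1 i hi, smul_zero]
          · rw [map_smul, h2, smul_zero] }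
    obtain ⟨T, hT⟩ := hN.noetherian L
    refine ⟨∑ y ∈ T, (∑ i, (b.repr y i).toNat + ∑ i, (b.repr (-y) i).toNat),
      fun k hk x hx1 hx2 => ?_⟩
    have hx : x ∈ Submodule.span ℤ (T : Set Λ) := by
      rw [hT]
      exact ⟨hx1, hx2⟩
    refine Submodule.span_mono ?_ hx
    intro y hy
    have hyL : y ∈ L := by
      rw [← hT]
      exact Submodule.subset_span hy
    have h1 : ∑ i, (b.repr y i).toNat + ∑ i, (b.repr (-y) i).toNat ≤ k :=
      (Finset.single_le_sum (f := fun y => ∑ i, (b.repr y i).toNat + ∑ i, (b.repr (-y) i).toNat)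
        (fun _ _ => Nat.zero_le _) hy).trans hk
    refine ⟨hyL.1, hyL.2, ?_, ?_⟩
    · exact MS_pt hc k _ (by omega)
    · exact MS_pt hc k _ (by omega)
  choose k₀ hk₀ using hS
  have hfS : Finite (Set ι) := inferInstance
  have _ : Fintype (Set ι) := Fintype.ofFinite _
  refine ⟨∑ S : Set ι, k₀ S, fun k hk S x h1 h2 => hk₀ S k ?_ x h1 h2⟩
  exact (Finset.single_le_sum (f := k₀) (fun _ _ => Nat.zero_le _) (Finset.mem_univ S)).trans hk

/-- A smooth vertex. -/
def SV0 (Δ : Set Λ) (v : Λ) : Prop :=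
  ∃ (ι : Type) (_ : Fintype ι) (b : Module.Basis ι ℤ Λ), CD Δ v b

/-- The points of the polytope are averages of the vertices. -/
def CV0 (Δ : Set Λ) : Prop :=
  ∀ m ∈ Δ, ∃ T : Multiset Λ, T ≠ 0 ∧ (∀ v ∈ T, SV0 Δ v) ∧ T.card • m = T.sum

lemma MS_CV0 (hV : CV0 Δ) (k : ℕ) : ∀ m ∈ MS Δ (k + 1), ∃ T : Multiset Λ, T ≠ 0 ∧
    (∀ v ∈ T, SV0 Δ v) ∧ T.card • m = (k + 1) • T.sum := by
  induction k with
  | zero =>
    rintro _ ⟨m, hm, m', hm', rfl⟩
    have h1 : m = 0 := hm
    obtain ⟨T, h2, h3, h4⟩ := hV m' hm'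
    exact ⟨T, h2, h3, by rw [h1, zero_add, h4, zero_add, one_smul]⟩
  | succ k ih =>
    rintro _ ⟨m, hm, m', hm', rfl⟩
    obtain ⟨T, h2, h3, h4⟩ := ih m hm
    obtain ⟨T', h2', h3', h4'⟩ := hV m' hm'
    have hc : 0 < T.card := Multiset.card_pos.2 h2
    have hc' : 0 < T'.card := Multiset.card_pos.2 h2'
    refine ⟨((k + 1) * T'.card) • T + T.card • T', ?_, ?_, ?_⟩
    · rw [← Multiset.card_pos, Multiset.card_add, Multiset.card_nsmul, Multiset.card_nsmul]
      positivity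
    · intro v hv
      rw [Multiset.mem_add] at hv
      rcases hv with hv | hv
      · exact h3 v (Multiset.mem_of_mem_nsmul hv)
      · exact h3' v (Multiset.mem_of_mem_nsmul hv)
    · rw [Multiset.card_add, Multiset.card_nsmul, Multiset.card_nsmul, Multiset.sum_add,
        Multiset.sum_nsmul, Multiset.sum_nsmul, ← h4', mul_comm (k + 1), mul_smul _ (k + 1) T.sum,
        ← h4]
      module

/-- **Rich multiples.** -/
theorem exists_rich (hΔ : Δ.Finite) (hV : CV0 Δ) {G : Type} [Finite G] (q : G → ℕ)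
    (s : G → Module.End ℤ Λ) : ∃ k : ℕ, 1 ≤ k ∧ ∀ g, CV (q g) (s g) (MS Δ k) := by
  classical
  have _ : Fintype G := Fintype.ofFinite G
  have h1 : ∀ v : Λ, ∃ k₀ : ℕ, SV0 Δ v → ∀ k, k₀ ≤ k → 1 ≤ k → ∀ g,
      SV (q g) (s g) (MS Δ k) (k • v) := by
    intro v
    by_cases hv : SV0 Δ v
    · obtain ⟨ι, _, b, hc⟩ := hv
      choose k₀ hk₀ using fun g => MS_RD hc (q g) (s g)
      refine ⟨∑ g, k₀ g, fun _ k hk hk1 g => ⟨ι, inferInstance, b, MS_CD hc hk1, hk₀ g k ?_⟩⟩
      exact (Finset.single_le_sum (f := k₀) (fun _ _ => Nat.zero_le _) (Finset.mem_univ g)).trans hk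
    · exact ⟨0, fun h => absurd h hv⟩
  choose k₀ hk₀ using h1
  obtain ⟨n, hn⟩ : ∃ n, n = ∑ v ∈ hΔ.toFinset, k₀ v := ⟨_, rfl⟩
  refine ⟨n + 1, by omega, fun g m hm => ?_⟩
  obtain ⟨T, h2, h3, h4⟩ := MS_CV0 hV n m hm
  refine ⟨T.map fun v => (n + 1) • v, ?_, ?_, ?_⟩
  · rw [← Multiset.card_pos, Multiset.card_map]
    exact Multiset.card_pos.2 h2
  · intro w hw
    rw [Multiset.mem_map] at hw
    obtain ⟨v, hv, rfl⟩ := hw
    refine hk₀ v (h3 v hv) _ ?_ (by omega) g
    obtain ⟨ι, _, b, hc⟩ := h3 v hv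
    have h5 : k₀ v ≤ n := by
      rw [hn]
      exact Finset.single_le_sum (f := k₀) (fun _ _ => Nat.zero_le _)
        (hΔ.mem_toFinset.2 hc.vm)
    omega
  · rw [Multiset.card_map, h4]
    rw [Multiset.sum_map_nsmul, Multiset.map_id']

end Pool.Agent.T9h3
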