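import Pool.Agent.T9h3.LF
import Pool.Agent.T9h3.Lat

/-!
# Characters of a torus with an automorphism of prime order: charts
-/

set_option autoImplicit false
set_option linter.unusedSectionVars false

namespace Pool.Agent.T9h3

open MvPolynomial

/-- The characters of a torus, with the action of an automorphism of prime order which is wildly
ramified at `𝔓`. -/
structure TD (O K Λ : Type) [CommRing O] [Field K] [Algebra O K] [AddCommGroup Λ]
    (p : ℕ) (σ : K →+* K) (t : O →+* O) (s : Module.End ℤ Λ) (χ : Λ → K) (𝔓 : Ideal O) (l : ℕ) :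
    Prop where
  pp : p.Prime
  χ0 : χ 0 = 1
  χa : ∀ x y, χ (x + y) = χ x * χ y
  lin : LinearIndependent O χ
  σχ : ∀ x, σ (χ x) = χ (s x)
  σO : ∀ o, σ (algebraMap O K o) = algebraMap O K (t o)
  sp : s ^ p = 1
  mx : 𝔓.IsMaximal
  ne : 𝔓 ≠ ⊥
  l1 : 1 ≤ l
  dv : ∀ o, t o - o ∈ 𝔓 ^ (l + 1)
  un : ∃ π ∈ 𝔓, t π - π ∉ 𝔓 ^ (l + 2)
  pl : (p : O) ∈ 𝔓 ^ ((p - 1) * l)

/-- The vertex `v` of the polytope `Δ`, with the basis `b` of the directions of the edges. -/
structure CD {Λ ι : Type} [AddCommGroup Λ] (Δ : Set Λ) (v : Λ) (b : Module.Basis ι ℤ Λ) :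
    Prop where
  vm : v ∈ Δ
  nb : ∀ i, v + b i ∈ Δ
  nn : ∀ m ∈ Δ, ∀ i, 0 ≤ b.repr (m - v) i

section chars

variable {O K Λ ι : Type} [CommRing O] [Field K] [Algebra O K] [AddCommGroup Λ] [Fintype ι]
  {χ : Λ → K}

/-- The norm. -/
noncomputable def Nm (p : ℕ) (s : Module.End ℤ Λ) : Module.End ℤ Λ := ∑ i ∈ Finset.range p, s ^ i

lemma chi_ne (h0 : χ 0 = 1) (ha : ∀ x y, χ (x + y) = χ x * χ y) (x : Λ) : χ x ≠ 0 := by
  intro h
  have h1 : χ (x + -x) = 1 := by rw [add_neg_cancel, h0]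
  rw [ha, h, zero_mul] at h1
  exact zero_ne_one h1

lemma chi_neg (h0 : χ 0 = 1) (ha : ∀ x y, χ (x + y) = χ x * χ y) (x : Λ) : χ (-x) = (χ x)⁻¹ := by
  have h1 : χ (x + -x) = 1 := by rw [add_neg_cancel, h0]
  rw [ha] at h1
  exact eq_inv_of_mul_eq_one_right h1

lemma chi_sub (h0 : χ 0 = 1) (ha : ∀ x y, χ (x + y) = χ x * χ y) (x y : Λ) :
    χ (x - y) = χ x / χ y := by
  rw [sub_eq_add_neg, ha, chi_neg h0 ha, div_eq_mul_inv]

lemma chi_nsmul (h0 : χ 0 = 1) (ha : ∀ x y, χ (x + y) = χ x * χ y) (n : ℕ) (x : Λ) :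
    χ (n • x) = χ x ^ n := by
  induction n with
  | zero => rw [zero_smul, h0, pow_zero]
  | succ n ih => rw [succ_nsmul, ha, ih, pow_succ]

lemma chi_sum (h0 : χ 0 = 1) (ha : ∀ x y, χ (x + y) = χ x * χ y) {J : Type} (S : Finset J)
    (f : J → Λ) : χ (∑ i ∈ S, f i) = ∏ i ∈ S, χ (f i) := by
  classical
  induction S using Finset.induction_on with
  | empty => simp [h0]
  | insert i S hi ih => rw [Finset.sum_insert hi, Finset.prod_insert hi, ha, ih]

/-- The coordinate ring of the chart. -/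
noncomputable def ev (O : Type) {K Λ ι : Type} [CommRing O] [Field K] [Algebra O K]
    [AddCommGroup Λ] (χ : Λ → K) (b : Module.Basis ι ℤ Λ) : MvPolynomial ι O →+* K :=
  (aeval (fun i => χ (b i)) : MvPolynomial ι O →ₐ[O] K).toRingHom

lemma ev_X (b : Module.Basis ι ℤ Λ) (i : ι) : ev O χ b (X i) = χ (b i) := by
  change aeval (fun i => χ (b i)) (X i : MvPolynomial ι O) = _
  rw [aeval_X]

lemma ev_C (b : Module.Basis ι ℤ Λ) (o : O) : ev O χ b (C o) = algebraMap O K o := by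
  change aeval (fun i => χ (b i)) (C o : MvPolynomial ι O) = _
  rw [aeval_C]

/-- The monomial with the exponent `x`. -/
noncomputable def mon (O : Type) {Λ ι : Type} [CommRing O] [AddCommGroup Λ] [Fintype ι]
    (b : Module.Basis ι ℤ Λ) (x : Λ) : MvPolynomial ι O :=
  ∏ i, X i ^ (b.repr x i).toNat

lemma ev_mon (h0 : χ 0 = 1) (ha : ∀ x y, χ (x + y) = χ x * χ y) (b : Module.Basis ι ℤ Λ)
    {x : Λ} (hx : ∀ i, 0 ≤ b.repr x i) : ev O χ b (mon O b x) = χ x := by
  unfold mon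
  rw [map_prod]
  simp only [map_pow, ev_X]
  conv_rhs => rw [← b.sum_repr x]
  rw [chi_sum h0 ha]
  refine Finset.prod_congr rfl fun i _ => ?_
  rw [← chi_nsmul h0 ha, ← natCast_zsmul, Int.toNat_of_nonneg (hx i)]

lemma ev_inj (h0 : χ 0 = 1) (ha : ∀ x y, χ (x + y) = χ x * χ y) (hl : LinearIndependent O χ)
    (b : Module.Basis ι ℤ Λ) : Function.Injective (ev O χ b) := by
  rw [injective_iff_map_eq_zero]
  intro f hf
  let φ : (ι →₀ ℕ) → Λ := fun e => ∑ i, (e i : ℤ) • b i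
  have hφ : Function.Injective φ := by
    intro e e' h
    ext i
    have h1 := congrArg (fun x => b.repr x i) h
    simp only [φ, map_sum, map_smul, Module.Basis.repr_self, Finsupp.coe_finset_sum,
      Finset.sum_apply, Finsupp.smul_apply, smul_eq_mul] at h1
    have h2 : ∀ e : ι →₀ ℕ, ∑ c, (e c : ℤ) * (Finsupp.single c (1 : ℤ)) i = e i := by
      classical
      intro e
      rw [Finset.sum_eq_single i]
      · rw [Finsupp.single_eq_same, mul_one]
      · intro c _ hc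
        rw [Finsupp.single_eq_of_ne (Ne.symm hc), mul_zero]
      · intro h; exact absurd (Finset.mem_univ _) h
    rw [h2, h2] at h1
    exact_mod_cast h1
  have h1 : LinearIndependent O (fun e : ι →₀ ℕ => χ (φ e)) := hl.comp φ hφ
  have h2 : ev O χ b f = ∑ e ∈ f.support, (coeff e f) • χ (φ e) := by
    change aeval (fun i => χ (b i)) f = _
    rw [aeval_def, eval₂_eq']
    refine Finset.sum_congr rfl fun e _ => ?_
    rw [Algebra.smul_def]
    congr 1
    rw [chi_sum h0 ha]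
    refine Finset.prod_congr rfl fun i _ => ?_
    rw [natCast_zsmul, chi_nsmul h0 ha]
  rw [h2] at hf
  have h3 := linearIndependent_iff'.1 h1 f.support (fun e => coeff e f) hf
  ext e
  rw [coeff_zero]
  by_contra hcon
  exact hcon (h3 e (mem_support_iff.2 hcon))

lemma mon_notMem {Q : Ideal (MvPolynomial ι O)} [hQ : Q.IsPrime] (b : Module.Basis ι ℤ Λ) {x : Λ} :
    mon O b x ∉ Q ↔ ∀ i, (X i : MvPolynomial ι O) ∈ Q → (b.repr x i).toNat = 0 := by
  unfold mon
  rw [hQ.prod_mem_iff]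
  constructor
  · intro h i hi
    by_contra hcon
    exact h ⟨i, Finset.mem_univ _, Ideal.pow_mem_of_mem Q hi _ (Nat.pos_of_ne_zero hcon)⟩
  · rintro h ⟨i, -, hi⟩
    have h1 := hQ.mem_of_pow_mem _ hi
    have h2 := h i h1
    rw [h2, pow_zero] at hi
    exact hQ.ne_top ((Ideal.eq_top_iff_one _).2 hi)

lemma mon_zero (b : Module.Basis ι ℤ Λ) : mon O b (0 : Λ) = 1 := by
  unfold mon
  simp

end chars

end Pool.Agent.T9h3
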